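import Mathlib

/-!
Havet-Yu conjecture for `ε Δ ≤ p ≤ (1/2 - ε) Δ` : definitions.

* `SS` : sided schedules (abstract fractional allocation of the edges to label blocks, each block
  bipartite between two sides).
* `US` : unsided schedules.
* `Kd` : the kinds of edges.
-/

set_option autoImplicit false

namespace Pool.Agent.H70.HY

open Finset

/-- Number of neighbours of `v` satisfying a predicate. -/
noncomputable def nb {V : Type} (G : SimpleGraph V) (v : V) (P : V → Prop) : ℕ :=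
  {u | G.Adj v u ∧ P u}.ncard

/-- A sided schedule. `A`: tight classes, `B`: slack classes, `Θ`: blocks (each of them will be
coloured by König's theorem); `none : Option Θ` is the star block (coloured by Vizing's theorem). -/
structure SS (n : ℕ) (δ : ℝ) (A B Θ : Type) [Fintype A] [Fintype B] [Fintype Θ] where
  /-- mass: approximate number of neighbours in the class -/
  M : A ⊕ B → ℝ
  /-- number of labels of a block -/
  len : Θ → ℕ
  /-- number of labels of the star block -/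
  star : ℕ
  /-- the tight class `a` must see all labels of the block `θ` -/
  el : A → Θ → Prop
  /-- the side of a class in a block -/
  side : A ⊕ B → Θ → Bool
  /-- fraction of the edges between two classes allocated to a block (`none`: star block) -/
  y : A ⊕ B → A ⊕ B → Option Θ → ℝ
  /-- pairs of tight classes all of whose edges go to the star block -/
  inn : A → A → Prop
  /-- handled pairs of slack classes -/
  hd : B → B → Prop
  /-- the class used to fill up the degrees of the tight class `a` in the block `θ` -/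
  F : A → Θ → B
  /-- where the surplus edges between `a` and `F a θ` of the block `θ` go -/
  dump : A → Θ → Option Θ
  M_ge : ∀ c, δ * n ≤ M c
  M_sum : ∑ c, M c = n
  inn_refl : ∀ a, inn a a
  inn_symm : ∀ a a', inn a a' → inn a' a
  hd_symm : ∀ b b', hd b b' → hd b' b
  hd_irrefl : ∀ b, ¬ hd b b
  y_nonneg : ∀ c c' t, 0 ≤ y c c' t
  y_symm : ∀ c c' t, y c c' t = y c' c t
  y_inn : ∀ a a' θ, inn a a' → y (Sum.inl a) (Sum.inl a') (some θ) = 0
  y_sum_AA : ∀ a a', ¬ inn a a' → ∑ t, y (Sum.inl a) (Sum.inl a') t = 1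
  y_sum_AB : ∀ a b, ∑ t, y (Sum.inl a) (Sum.inr b) t = 1
  y_sum_BB : ∀ b b', hd b b' → ∑ t, y (Sum.inr b) (Sum.inr b') t = 1
  y_not_hd : ∀ b b' t, ¬ hd b b' → y (Sum.inr b) (Sum.inr b') t = 0
  y_side : ∀ c c' θ, 0 < y c c' (some θ) → side c θ ≠ side c' θ
  y_el : ∀ a c θ, 0 < y (Sum.inl a) c (some θ) → el a θ
  tight : ∀ a θ, el a θ → ∑ c, M c * y (Sum.inl a) c (some θ) = len θ
  total : ∀ a, (∑ θ ∈ (Set.toFinite {θ | el a θ}).toFinset, len θ) + star = n + 1
  load : ∀ b θ, ∑ c, M c * y (Sum.inr b) c (some θ) ≤ len θ - δ * n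
  loadT : ∀ b, ∑ c, M c * y (Sum.inr b) c none ≤ star - δ * n
  F_ge : ∀ a θ, el a θ → δ ≤ y (Sum.inl a) (Sum.inr (F a θ)) (some θ)
  dump_ge : ∀ a θ, el a θ → δ ≤ y (Sum.inl a) (Sum.inr (F a θ)) (dump a θ)
  dump_el : ∀ a θ θ', el a θ → dump a θ = some θ' → el a θ' ∧ dump a θ' = none

/-- Handled pairs of classes. -/
def SS.H {n : ℕ} {δ : ℝ} {A B Θ : Type} [Fintype A] [Fintype B] [Fintype Θ] (S : SS n δ A B Θ) :
    A ⊕ B → A ⊕ B → Prop
  | Sum.inr b, Sum.inr b' => S.hd b b'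
  | _, _ => True

/-- Kinds of edges in an unsided schedule. -/
inductive Kd (A J : Type) where
  | blk (j : J)
  | zone (a : A)
  | star
  | out

/-- An unsided schedule. -/
structure US (n : ℕ) (δ : ℝ) (A B J : Type) [Fintype A] [LinearOrder A] [Fintype B] [DecidableEq B]
    [Fintype J] where
  M : A ⊕ B → ℝ
  /-- type of a slack class: `true` = H (labels at the top, sees the low labels), `false` = L -/
  ty : B → Bool
  /-- the block `j` has `8 * l j` labels -/
  l : J → ℕ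
  /-- length of the boundary zones -/
  z : ℕ
  star : ℕ
  el : A → J → Prop
  /-- partner of a tight class in a block -/
  par : A → J → Option A
  w : A → J → ℝ
  /-- the slack class serving the boundary zone of `a` -/
  unit : A → B
  yz : A → ℝ
  yw : A → B → J → ℝ
  yT : A → B → ℝ
  yb : B → B → J → ℝ
  fill : A → J → B
  jst : A → J
  M_ge : ∀ c, δ * n ≤ M c
  M_sum : ∑ c, M c = n
  l_ge : ∀ j, δ * n ≤ 8 * l j
  par_symm : ∀ a j a', par a j = some a' → par a' j = some a ∧ a' ≠ a ∧ el a j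
  w_nonneg : ∀ a j, 0 ≤ w a j
  w_symm : ∀ a j a', par a j = some a' → w a j = w a' j
  w_sum : ∀ a a', a ≠ a' → ∑ j, (if par a j = some a' then w a j else 0) = 1
  yw_nonneg : ∀ a b j, 0 ≤ yw a b j
  yT_nonneg : ∀ a b, 0 ≤ yT a b
  yb_nonneg : ∀ b b' j, 0 ≤ yb b b' j
  yb_symm : ∀ b b' j, yb b b' j = yb b' b j
  yw_el : ∀ a b j, 0 < yw a b j → el a j
  yT_ty : ∀ a b, 0 < yT a b → ty b = true
  y_sum : ∀ a b, ∑ j, yw a b j + (if b = unit a then yz a else 0) + yT a b = 1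
  yb_sum : ∀ b b', ty b ≠ ty b' → ∑ j, yb b b' j = 1
  tight : ∀ a j, el a j →
    (match par a j with | some a' => M (Sum.inl a') * w a j | none => 0) +
      ∑ b, M (Sum.inr b) * yw a b j = 8 * l j
  tightz : ∀ a, M (Sum.inr (unit a)) * yz a = z
  total : ∀ a, (∑ j ∈ (Set.toFinite {j | el a j}).toFinset, 8 * l j) + z + star = n + 1
  load : ∀ b j, ∑ a, M (Sum.inl a) * yw a b j +
    ∑ b', (if ty b' ≠ ty b then M (Sum.inr b') * yb b b' j else 0) ≤ 8 * l j - δ * n
  loadz : ∀ a, M (Sum.inl a) * yz a ≤ z - δ * n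
  z_ge : δ * n ≤ z
  loadT : ∀ b, ∑ a, M (Sum.inl a) * yT a b ≤ star - δ * n
  fill_ge : ∀ a j, el a j → δ ≤ yw a (fill a j) j
  yz_ge : ∀ a, δ ≤ yz a
  jst_el : ∀ a, el a (jst a)
  jst_ty : ∀ a, ty (fill a (jst a)) = true
  dumpT : ∀ a j, el a j → ty (fill a j) = true → δ ≤ yT a (fill a j)
  dumpJ : ∀ a j, el a j → ty (fill a j) = false → δ ≤ yw a (fill a j) (jst a)
  dumpzT : ∀ a, ty (unit a) = true → δ ≤ yT a (unit a)
  dumpzJ : ∀ a, ty (unit a) = false → δ ≤ yw a (unit a) (jst a)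

/-- Admissible kinds of the edges between two classes. -/
def US.Ok {n : ℕ} {δ : ℝ} {A B J : Type} [Fintype A] [LinearOrder A] [Fintype B] [DecidableEq B]
    [Fintype J] (S : US n δ A B J) : A ⊕ B → A ⊕ B → Kd A J → Prop
  | Sum.inl a, Sum.inl a', k => (a = a' ∧ k = Kd.star) ∨ ∃ j, k = Kd.blk j ∧ S.par a j = some a'
  | Sum.inl a, Sum.inr b, k => (k = Kd.star ∧ S.ty b = true) ∨ (∃ j, k = Kd.blk j ∧ 0 < S.yw a b j) ∨
      (k = Kd.zone a ∧ b = S.unit a)
  | Sum.inr b, Sum.inl a, k => (k = Kd.star ∧ S.ty b = true) ∨ (∃ j, k = Kd.blk j ∧ 0 < S.yw a b j) ∨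
      (k = Kd.zone a ∧ b = S.unit a)
  | Sum.inr b, Sum.inr b', k => (S.ty b = S.ty b' ∧ k = Kd.out) ∨
      (S.ty b ≠ S.ty b' ∧ ∃ j, k = Kd.blk j ∧ 0 < S.yb b b' j)

/-- Number of labels of a kind. -/
def US.size {n : ℕ} {δ : ℝ} {A B J : Type} [Fintype A] [LinearOrder A] [Fintype B] [DecidableEq B]
    [Fintype J] (S : US n δ A B J) : Kd A J → ℕ
  | Kd.blk j => 8 * S.l j
  | Kd.zone _ => S.z
  | Kd.star => S.star
  | Kd.out => 0

/-- The edges of an `n`-regular graph realise the unsided schedule `S`, with class sizes up to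
`η n`. -/
def Realised {n : ℕ} {δ : ℝ} {A B J : Type} [Fintype A] [LinearOrder A] [Fintype B] [DecidableEq B]
    [Fintype J] (S : US n δ A B J) (η : ℝ) {V : Type} (G : SimpleGraph V)
    (cls : V → A ⊕ B) (kd : V → V → Kd A J) (col : V → V → ℕ) : Prop :=
  (∀ v c, |(nb G v (fun u => cls u = c) : ℝ) - S.M c| ≤ η * n) ∧
  (∀ u v, G.Adj u v → kd u v = kd v u ∧ col u v = col v u) ∧
  (∀ u v, G.Adj u v → S.Ok (cls u) (cls v) (kd u v)) ∧
  (∀ u v, G.Adj u v → kd u v ≠ Kd.out → col u v < S.size (kd u v)) ∧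
  (∀ v u u', G.Adj v u → G.Adj v u' → u ≠ u' → kd v u = kd v u' → kd v u ≠ Kd.out →
    col v u ≠ col v u')

/-- The labelling asked for: a `(p,1)`-total labelling with labels `0, ..., n+2p-1`. -/
def HYLab {V : Type} (G : SimpleGraph V) (n p : ℕ) : Prop :=
  ∃ (fV : V → ℕ) (fE : Sym2 V → ℕ),
    (∀ v, fV v ≤ n + 2 * p - 1) ∧ (∀ e ∈ G.edgeSet, fE e ≤ n + 2 * p - 1) ∧
    (∀ u v, G.Adj u v → fV u ≠ fV v) ∧
    (∀ u v, G.Adj u v → (p : ℤ) ≤ |(fV u : ℤ) - (fE s(u, v) : ℤ)|) ∧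
    (∀ u v w, G.Adj u v → G.Adj u w → v ≠ w → fE s(u, v) ≠ fE s(u, w))

end Pool.Agent.H70.HY
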