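import Mathlib
import Pool.Agent.H70.HY.Defs
import Pool.Agent.H28.Konig
import Pool.Agent.H28.VAL

/-! COL: König's theorem in the blocks and Vizing's theorem in the star block. -/

set_option autoImplicit false

namespace Pool.Agent.H70.HY

/-- The relation handled pair is symmetric. -/
theorem col_H_symm {n : ℕ} {δ : ℝ} {A B Θ : Type} [Fintype A] [Fintype B] [Fintype Θ]
    (S : SS n δ A B Θ) (c c' : A ⊕ B) (h : S.H c c') : S.H c' c := by
  rcases c with a | b <;> rcases c' with a' | b'
  · trivial
  · trivial
  · trivial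
  · exact S.hd_symm b b' h

/-- COL: König's theorem in the blocks and Vizing's theorem in the star block. -/
theorem col {n : ℕ} {δ : ℝ} {A B Θ : Type} [Fintype A] [Fintype B] [Fintype Θ] (S : SS n δ A B Θ)
    {V : Type} [Fintype V] [DecidableEq V] (G : SimpleGraph V) (cls : V → A ⊕ B)
    (al : V → V → Option Θ) (h1 : ∀ u v, al u v = al v u)
    (h2 : ∀ u v, G.Adj u v → S.H (cls u) (cls v) → 0 < S.y (cls u) (cls v) (al u v) ∨
          (∃ a a', cls u = Sum.inl a ∧ cls v = Sum.inl a' ∧ S.inn a a' ∧ al u v = none))
    (h3 : ∀ v θ, nb G v (fun u => S.H (cls v) (cls u) ∧ al v u = some θ) ≤ S.len θ)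
    (h4 : ∀ v, nb G v (fun u => S.H (cls v) (cls u) ∧ al v u = none) + 1 ≤ S.star) :
    ∃ col : V → V → ℕ, (∀ u v, G.Adj u v → col u v = col v u) ∧
      (∀ u v, G.Adj u v → S.H (cls u) (cls v) →
        col u v < (match al u v with | some θ => S.len θ | none => S.star)) ∧
      (∀ v u u', G.Adj v u → G.Adj v u' → u ≠ u' → S.H (cls v) (cls u) → S.H (cls v) (cls u') →
        al v u = al v u' → col v u ≠ col v u') := by
  classical
  -- the two ends of an edge of the block `θ` are on different sides
  have hside : ∀ u v θ, G.Adj u v → S.H (cls u) (cls v) → al u v = some θ →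
      S.side (cls u) θ ≠ S.side (cls v) θ := by
    intro u v θ huv hH hal
    rcases h2 u v huv hH with h | ⟨a, a', _, _, _, h⟩
    · rw [hal] at h
      exact S.y_side _ _ _ h
    · rw [hal] at h
      cases h
  let R : Θ → V → V → Prop := fun θ u v =>
    G.Adj u v ∧ S.H (cls u) (cls v) ∧ al u v = some θ ∧ S.side (cls u) θ = true
  have hK : ∀ θ, ∃ c : V → V → ℕ, (∀ a b, R θ a b → c a b < S.len θ) ∧
      (∀ a b b', R θ a b → R θ a b' → b ≠ b' → c a b ≠ c a b') ∧
      (∀ a a' b, R θ a b → R θ a' b → a ≠ a' → c a b ≠ c a' b) := by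
    intro θ
    refine H28.konig (R θ) (S.len θ) ?_ ?_
    · intro a
      refine le_trans (Set.ncard_le_ncard ?_ (Set.toFinite _)) (h3 a θ)
      rintro b ⟨g1, g2, g3, _⟩
      exact ⟨g1, g2, g3⟩
    · intro b
      refine le_trans (Set.ncard_le_ncard ?_ (Set.toFinite _)) (h3 b θ)
      rintro a ⟨g1, g2, g3, _⟩
      exact ⟨g1.symm, col_H_symm S _ _ g2, by rw [h1 b a]; exact g3⟩
  choose c hc1 hc2 hc3 using hK
  -- the star graph
  let Gs : SimpleGraph V :=
    { Adj := fun u v => G.Adj u v ∧ S.H (cls u) (cls v) ∧ al u v = none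
      symm := ⟨fun u v h => ⟨h.1.symm, col_H_symm S _ _ h.2.1, by rw [h1 v u]; exact h.2.2⟩⟩
      loopless := ⟨fun u h => G.loopless.irrefl u h.1⟩ }
  have hV : ∃ cs : Sym2 V → ℕ, (∀ u v, Gs.Adj u v → cs s(u, v) < S.star) ∧
      ∀ u v w, Gs.Adj u v → Gs.Adj u w → v ≠ w → cs s(u, v) ≠ cs s(u, w) := by
    rcases isEmpty_or_nonempty V with hV | ⟨⟨v0⟩⟩
    · exact ⟨fun _ => 0, fun u => hV.elim u, fun u => hV.elim u⟩
    · have hstar : 1 ≤ S.star := le_trans (Nat.le_add_left _ _) (h4 v0)
      have hd : ∀ v, (Gs.neighborSet v).ncard ≤ S.star - 1 := by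
        intro v
        have h := h4 v
        have h' : (Gs.neighborSet v).ncard ≤
            nb G v (fun u => S.H (cls v) (cls u) ∧ al v u = none) := by
          refine Set.ncard_le_ncard ?_ (Set.toFinite _)
          intro u hu
          exact hu
        omega
      obtain ⟨cs, hcs1, hcs2⟩ := H28.vizing hd
      refine ⟨cs, ?_, hcs2⟩
      intro u v huv
      have := hcs1 u v huv
      omega
  obtain ⟨cs, hcs1, hcs2⟩ := hV
  let f : V → V → Option Θ → ℕ := fun u v t =>
    match t with
    | some θ => if S.side (cls u) θ = true then c θ u v else c θ v u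
    | none => cs s(u, v)
  have hmain : ∀ u v θ, G.Adj u v → S.H (cls u) (cls v) → al u v = some θ →
      (S.side (cls u) θ = true ∧ R θ u v) ∨ (¬ S.side (cls u) θ = true ∧ R θ v u) := by
    intro u v θ huv hH hal
    have hs := hside u v θ huv hH hal
    by_cases hu : S.side (cls u) θ = true
    · exact Or.inl ⟨hu, huv, hH, hal, hu⟩
    · refine Or.inr ⟨hu, huv.symm, col_H_symm S _ _ hH, by rw [h1 v u]; exact hal, ?_⟩
      cases hv : S.side (cls v) θ with
      | true => rfl
      | false =>
        exfalso
        apply hs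
        rw [hv]
        simpa using hu
  refine ⟨fun u v => if S.H (cls u) (cls v) then f u v (al u v) else 0, ?_, ?_, ?_⟩
  · intro u v huv
    by_cases hH : S.H (cls u) (cls v)
    · have hH' := col_H_symm S _ _ hH
      simp only [if_pos hH, if_pos hH']
      rw [h1 v u]
      cases hal : al u v with
      | none =>
        change cs s(u, v) = cs s(v, u)
        rw [Sym2.eq_swap]
      | some θ =>
        change (if S.side (cls u) θ = true then c θ u v else c θ v u) =
          (if S.side (cls v) θ = true then c θ v u else c θ u v)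
        have hs := hside u v θ huv hH hal
        by_cases hu : S.side (cls u) θ = true
        · have hv : ¬ S.side (cls v) θ = true := fun hv => hs (hu.trans hv.symm)
          rw [if_pos hu, if_neg hv]
        · have hv : S.side (cls v) θ = true := by
            cases hv : S.side (cls v) θ with
            | true => rfl
            | false =>
              exfalso
              apply hs
              rw [hv]
              simpa using hu
          rw [if_neg hu, if_pos hv]
    · have hH' : ¬ S.H (cls v) (cls u) := fun h => hH (col_H_symm S _ _ h)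
      simp only [if_neg hH, if_neg hH']
  · intro u v huv hH
    simp only [if_pos hH]
    cases hal : al u v with
    | none =>
      change cs s(u, v) < S.star
      exact hcs1 u v ⟨huv, hH, hal⟩
    | some θ =>
      change (if S.side (cls u) θ = true then c θ u v else c θ v u) < S.len θ
      rcases hmain u v θ huv hH hal with ⟨h, hR⟩ | ⟨h, hR⟩
      · rw [if_pos h]
        exact hc1 θ u v hR
      · rw [if_neg h]
        exact hc1 θ v u hR
  · intro v u u' hvu hvu' hne hH hH' hal
    simp only [if_pos hH, if_pos hH']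
    cases hal1 : al v u with
    | none =>
      have hal2 : al v u' = none := by rw [← hal]; exact hal1
      rw [hal2]
      change cs s(v, u) ≠ cs s(v, u')
      exact hcs2 v u u' ⟨hvu, hH, hal1⟩ ⟨hvu', hH', hal2⟩ hne
    | some θ =>
      have hal2 : al v u' = some θ := by rw [← hal]; exact hal1
      rw [hal2]
      change (if S.side (cls v) θ = true then c θ v u else c θ u v) ≠
        (if S.side (cls v) θ = true then c θ v u' else c θ u' v)
      rcases hmain v u θ hvu hH hal1 with ⟨h, hR⟩ | ⟨h, hR⟩
      · rcases hmain v u' θ hvu' hH' hal2 with ⟨_, hR'⟩ | ⟨h', _⟩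
        · rw [if_pos h, if_pos h]
          exact hc2 θ v u u' hR hR' hne
        · exact absurd h h'
      · rcases hmain v u' θ hvu' hH' hal2 with ⟨h', _⟩ | ⟨_, hR'⟩
        · exact absurd h' h
        · rw [if_neg h, if_neg h]
          exact hc3 θ u u' v hR hR' hne

end Pool.Agent.H70.HY
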