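import Mathlib

/-! ROUND: rounding of real proportions. -/

set_option autoImplicit false

namespace Pool.Agent.H70.HY

/-- ROUND: rounding of real proportions. -/
theorem round (T : Type) [Fintype T] [DecidableEq T] (y : T → ℝ) (hy : ∀ t, 0 ≤ y t)
    (hy1 : ∑ t, y t = 1) (Q : ℕ) :
    ∃ f : ℕ → T, (∀ k, 0 < y (f k)) ∧
      ∀ t, |((((Finset.range Q).filter (fun k => f k = t)).card : ℕ) : ℝ) - y t * Q| ≤
        Fintype.card T := by
  classical
  -- the floor of the proportions
  set q : T → ℕ := fun t => ⌊y t * Q⌋₊ with hq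
  have hyQ : ∀ t, 0 ≤ y t * Q := fun t => mul_nonneg (hy t) (Nat.cast_nonneg _)
  have hq1 : ∀ t, (q t : ℝ) ≤ y t * Q := fun t => Nat.floor_le (hyQ t)
  have hq2 : ∀ t, y t * Q ≤ q t + 1 := fun t => (Nat.lt_floor_add_one _).le
  obtain ⟨t0, ht0⟩ : ∃ t0, 0 < y t0 := by
    by_contra hcon
    push Not at hcon
    have : ∑ t, y t ≤ 0 := Finset.sum_nonpos (fun t _ => hcon t)
    rw [hy1] at this
    linarith
  have hsumyQ : ∑ t, y t * Q = Q := by rw [← Finset.sum_mul, hy1, one_mul]
  set N : ℕ := ∑ t, q t with hN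
  have hNQr : (N : ℝ) ≤ Q := by
    rw [hN]; push_cast
    calc ∑ t, (q t : ℝ) ≤ ∑ t, y t * Q := Finset.sum_le_sum (fun t _ => hq1 t)
      _ = Q := hsumyQ
  have hNQ : N ≤ Q := by exact_mod_cast hNQr
  have hQN : (Q : ℝ) ≤ N + Fintype.card T := by
    calc (Q : ℝ) = ∑ t, y t * Q := hsumyQ.symm
      _ ≤ ∑ t, ((q t : ℝ) + 1) := Finset.sum_le_sum (fun t _ => hq2 t)
      _ = N + Fintype.card T := by
        rw [Finset.sum_add_distrib, hN]; push_cast; simp
  have hcardS : Fintype.card (Σ t, Fin (q t)) = N := by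
    rw [Fintype.card_sigma]; simp [hN]
  let e : (Σ t, Fin (q t)) ≃ Fin N := Fintype.equivFinOfCardEq hcardS
  let f : ℕ → T := fun k => if h : k < N then (e.symm ⟨k, h⟩).1 else t0
  have hf1 : ∀ i : Fin N, f i = (e.symm i).1 := by
    intro i
    simp only [f, i.2, dif_pos]
  have hf2 : ∀ k, N ≤ k → f k = t0 := by
    intro k hk
    simp only [f]
    rw [dif_neg (by omega)]
  refine ⟨f, ?_, ?_⟩
  · intro k
    by_cases hk : k < N
    · have h1 : f k = (e.symm ⟨k, hk⟩).1 := hf1 ⟨k, hk⟩
      rw [h1]
      have h2 : 0 < q (e.symm ⟨k, hk⟩).1 := by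
        have := (e.symm ⟨k, hk⟩).2.2
        omega
      by_contra hcon
      push Not at hcon
      have h3 : y (e.symm ⟨k, hk⟩).1 = 0 := le_antisymm hcon (hy _)
      have h4 : q (e.symm ⟨k, hk⟩).1 = 0 := by simp [hq, h3]
      omega
    · rw [hf2 k (by omega)]; exact ht0
  · intro t
    have key : ((Finset.range Q).filter (fun k => f k = t)).card =
        q t + if t = t0 then Q - N else 0 := by
      rw [Finset.card_filter, Finset.range_eq_Ico,
        ← Finset.sum_Ico_consecutive _ (Nat.zero_le N) hNQ]
      congr 1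
      · rw [← Finset.range_eq_Ico, Finset.sum_range]
        have h1 : ∀ i : Fin N, (if f i = t then 1 else 0 : ℕ) =
            if (e.symm i).1 = t then 1 else 0 := by
          intro i; rw [hf1 i]
        rw [Finset.sum_congr rfl (fun i _ => h1 i)]
        rw [Equiv.sum_comp e.symm (fun s : (Σ t, Fin (q t)) => if s.1 = t then (1 : ℕ) else 0)]
        rw [Fintype.sum_sigma]
        have h2 : ∀ x : T, (∑ _j : Fin (q x), if x = t then (1 : ℕ) else 0) =
            if x = t then q t else 0 := by
          intro x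
          by_cases h : x = t
          · subst h; simp
          · simp [h]
        rw [Finset.sum_congr rfl (fun x _ => h2 x)]
        simp
      · have h1 : ∀ k ∈ Finset.Ico N Q, (if f k = t then 1 else 0 : ℕ) = if t = t0 then 1 else 0 := by
          intro k hk
          rw [hf2 k (Finset.mem_Ico.mp hk).1]
          by_cases h : t = t0
          · simp [h]
          · rw [if_neg h, if_neg (fun h' => h h'.symm)]
        rw [Finset.sum_congr rfl h1]
        by_cases h : t = t0
        · simp [h]
        · simp [h]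
    rw [key]
    have hc1 : (1 : ℝ) ≤ Fintype.card T := by
      have : 0 < Fintype.card T := Fintype.card_pos_iff.mpr ⟨t⟩
      exact_mod_cast this
    have ha := hq1 t
    have hb := hq2 t
    rw [abs_le]
    by_cases h : t = t0
    · rw [if_pos h]
      push_cast [Nat.cast_sub hNQ]
      constructor
      · linarith
      · linarith
    · rw [if_neg h]
      push_cast
      constructor
      · linarith
      · linarith

end Pool.Agent.H70.HY
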