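import Mathlib
import Pool.Agent.H28.Groups
import Pool.Agent.H70.HY.Defs
import Pool.Agent.H70.HY.ROUND

/-! Module PART: random partition in prescribed proportions. -/

set_option autoImplicit false

namespace Pool.Agent.H70.HY

open Finset

/-- PART: random partition of an `n`-regular graph in prescribed real proportions (local lemma). -/
theorem part (C : Type) [Fintype C] [DecidableEq C] (η : ℝ) (hη : 0 < η) :
    ∃ N0 : ℕ, ∀ n : ℕ, N0 ≤ n → ∀ (V : Type) [Fintype V] [DecidableEq V] (G : SimpleGraph V),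
      (∀ v, (G.neighborSet v).ncard = n) →
      ∀ M : C → ℝ, (∀ c, 0 ≤ M c) → ∑ c, M c = n →
      ∃ cls : V → C, ∀ v c, |(nb G v (fun u => cls u = c) : ℝ) - M c| ≤ η * n := by
  classical
  obtain ⟨m, hm⟩ := exists_nat_gt (((Fintype.card C : ℝ) + 1) / η)
  have hC : (0 : ℝ) ≤ (Fintype.card C : ℝ) := Nat.cast_nonneg _
  have hm0 : (0 : ℝ) < m := lt_of_le_of_lt (by positivity) hm
  have hm1 : 1 ≤ m := by
    have : 0 < m := by exact_mod_cast hm0
    omega
  have hmη : (Fintype.card C : ℝ) + 1 ≤ η * m := by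
    rw [div_lt_iff₀ hη] at hm
    linarith
  obtain ⟨N0, hN0⟩ := Pool.Agent.H28.groups m hm1
  refine ⟨N0 + 1, fun n hn V _ _ G hreg M hM hsum => ?_⟩
  have hn1 : (0 : ℝ) < n := by
    have : 0 < n := by omega
    exact_mod_cast this
  obtain ⟨F, hF⟩ := hN0 n (by omega) V G hreg
  obtain ⟨f, -, hf⟩ := HY.round C (fun c => M c / n) (fun c => div_nonneg (hM c) hn1.le)
    (by rw [← Finset.sum_div, hsum]; exact div_self hn1.ne') (4 * m)
  refine ⟨fun v => f (F v), fun v c => ?_⟩
  set S : Finset (Fin (4 * m)) := Finset.univ.filter (fun g => f g = c) with hS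
  have hScard : S.card = ((Finset.range (4 * m)).filter (fun k => f k = c)).card := by
    have h1 : S.card = (S.map Fin.valEmbedding).card := (Finset.card_map _).symm
    rw [h1]
    congr 1
    ext k
    simp only [hS, Finset.mem_map, Finset.mem_filter, Finset.mem_univ, true_and,
      Fin.valEmbedding_apply, Finset.mem_range]
    constructor
    · rintro ⟨g, hg, rfl⟩
      exact ⟨g.2, hg⟩
    · rintro ⟨h2, h3⟩
      exact ⟨⟨k, h2⟩, h3, rfl⟩
  have hset : nb G v (fun u => f (F u) = c) = {u | G.Adj v u ∧ F u ∈ S}.ncard := by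
    unfold nb
    congr 1
    ext u
    simp [hS]
  obtain ⟨h1, h2⟩ := hF v S
  have h3 := hf c
  rw [← hScard] at h3
  rw [hset]
  have h4 : (S.card : ℝ) * (n / (4 * m)) - M c = ((S.card : ℝ) - M c / n * (4 * m : ℕ)) * (n / (4 * m)) := by
    push_cast
    field_simp
  have h5 : |(S.card : ℝ) * (n / (4 * m)) - M c| ≤ (Fintype.card C : ℝ) * (n / (4 * m)) := by
    rw [h4, abs_mul, abs_of_pos (show (0 : ℝ) < n / (4 * m) by positivity)]
    exact mul_le_mul_of_nonneg_right h3 (by positivity)
  have h6 : ((Fintype.card C : ℝ) + 1) * (n / (4 * m)) ≤ η * n := by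
    have h7 : (n : ℝ) / (4 * m) ≤ n / m := by
      apply div_le_div_of_nonneg_left hn1.le hm0
      linarith
    calc ((Fintype.card C : ℝ) + 1) * (n / (4 * m)) ≤ (η * m) * (n / m) :=
          mul_le_mul hmη h7 (by positivity) (by positivity)
      _ = η * n := by field_simp
  have h8 : (0 : ℝ) < n / (4 * m) := by positivity
  rw [abs_le] at h5 ⊢
  constructor
  · nlinarith [h1, h5.1, h6, h8]
  · nlinarith [h2, h5.2, h6, h8]

end Pool.Agent.H70.HY
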