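import Mathlib
import Pool.Agent.H28.Konig
import Pool.Agent.H70.HY.Defs

/-! Module EQ: equitable edge colourings of bipartite graphs (de Werra). -/

set_option autoImplicit false

namespace Pool.Agent.H70.HY

open Finset

variable {V : Type} [Fintype V]

/-- rank of `b` among the elements of `S` in a fixed enumeration. -/
private noncomputable def eqRk (S : V → Prop) (b : V) : ℕ :=
  {b' | S b' ∧ Fintype.equivFin V b' < Fintype.equivFin V b}.ncard

private theorem eqRk_lt (S : V → Prop) (b : V) (hb : S b) : eqRk S b < {b' | S b'}.ncard := by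
  apply Set.ncard_lt_ncard _ (Set.toFinite _)
  rw [Set.ssubset_iff_of_subset (fun x hx => hx.1)]
  exact ⟨b, hb, fun h => lt_irrefl _ h.2⟩

private theorem eqRk_mono (S : V → Prop) (b b' : V) (hb : S b)
    (h : Fintype.equivFin V b < Fintype.equivFin V b') : eqRk S b < eqRk S b' := by
  apply Set.ncard_lt_ncard _ (Set.toFinite _)
  have hsub : {x | S x ∧ Fintype.equivFin V x < Fintype.equivFin V b} ⊆
      {x | S x ∧ Fintype.equivFin V x < Fintype.equivFin V b'} :=
    fun x hx => ⟨hx.1, hx.2.trans h⟩
  rw [Set.ssubset_iff_of_subset hsub]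
  exact ⟨b, ⟨hb, h⟩, fun h => lt_irrefl _ h.2⟩

private theorem eqRk_inj (S : V → Prop) (b b' : V) (hb : S b) (hb' : S b')
    (h : eqRk S b = eqRk S b') : b = b' := by
  rcases lt_trichotomy (Fintype.equivFin V b) (Fintype.equivFin V b') with h1 | h1 | h1
  · have := eqRk_mono S b b' hb h1; omega
  · exact (Fintype.equivFin V).injective h1
  · have := eqRk_mono S b' b hb' h1; omega

private theorem eqRk_le (S : V → Prop) (b : V) : eqRk S b ≤ Fintype.card V := by
  unfold eqRk
  calc _ ≤ (Set.univ : Set V).ncard := Set.ncard_le_ncard (Set.subset_univ _) (Set.toFinite _)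
    _ = _ := by rw [Set.ncard_univ, Nat.card_eq_fintype_card]

private theorem eq_chunk (S : V → Prop) (Q i : ℕ) (hQ : 1 ≤ Q) :
    {b | S b ∧ eqRk S b / Q = i}.ncard ≤ Q := by
  classical
  calc {b | S b ∧ eqRk S b / Q = i}.ncard
      ≤ ((Finset.Ico (i * Q) (i * Q + Q) : Finset ℕ) : Set ℕ).ncard := by
        apply Set.ncard_le_ncard_of_injOn (eqRk S)
        · rintro b ⟨_, hb⟩
          simp only [Finset.coe_Ico, Set.mem_Ico]
          have h1 := Nat.div_add_mod (eqRk S b) Q
          have h2 := Nat.mod_lt (eqRk S b) (show 0 < Q by omega)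
          rw [hb] at h1
          rw [mul_comm i Q]
          omega
        · rintro b ⟨hb, _⟩ b' ⟨hb', _⟩ h
          exact eqRk_inj S b b' hb hb' h
    _ = Q := by rw [Set.ncard_coe_finset]; simp

/-- EQ: equitable edge colourings of bipartite graphs (de Werra). -/
theorem equitable {V : Type} [Fintype V] [DecidableEq V] (R : V → V → Prop) (Q : ℕ) (hQ : 1 ≤ Q) :
    ∃ c : V → V → ℕ, (∀ a b, c a b < Q) ∧
      (∀ a k, {b | R a b ∧ c a b = k}.ncard ≤ {b | R a b}.ncard / Q + 1) ∧
      (∀ b k, {a | R a b ∧ c a b = k}.ncard ≤ {a | R a b}.ncard / Q + 1) := by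
  classical
  let W := V × Fin (Fintype.card V + 1)
  let rA : V → V → ℕ := fun a b => eqRk (fun b' => R a b') b
  let rB : V → V → ℕ := fun b a => eqRk (fun a' => R a' b) a
  have hrA : ∀ a b, rA a b / Q < Fintype.card V + 1 := fun a b =>
    Nat.lt_succ_of_le ((Nat.div_le_self _ _).trans (eqRk_le _ _))
  have hrB : ∀ a b, rB b a / Q < Fintype.card V + 1 := fun a b =>
    Nat.lt_succ_of_le ((Nat.div_le_self _ _).trans (eqRk_le _ _))
  let R' : W → W → Prop := fun x y => R x.1 y.1 ∧ rA x.1 y.1 / Q = x.2.1 ∧ rB y.1 x.1 / Q = y.2.1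
  have hrow : ∀ x, {y | R' x y}.ncard ≤ Q := by
    rintro ⟨a, i⟩
    refine le_trans ?_ (eq_chunk (fun b => R a b) Q i.1 hQ)
    apply Set.ncard_le_ncard_of_injOn (fun y => y.1)
    · rintro ⟨b, j⟩ ⟨h1, h2, _⟩
      exact ⟨h1, h2⟩
    · rintro ⟨b, j⟩ ⟨_, _, h3⟩ ⟨b', j'⟩ ⟨_, _, h3'⟩ h
      simp only at h h3 h3'
      subst h
      have : j = j' := Fin.ext (by rw [← h3, ← h3'])
      rw [this]
  have hcol : ∀ y, {x | R' x y}.ncard ≤ Q := by
    rintro ⟨b, j⟩
    refine le_trans ?_ (eq_chunk (fun a => R a b) Q j.1 hQ)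
    apply Set.ncard_le_ncard_of_injOn (fun x => x.1)
    · rintro ⟨a, i⟩ ⟨h1, _, h3⟩
      exact ⟨h1, h3⟩
    · rintro ⟨a, i⟩ ⟨_, h2, _⟩ ⟨a', i'⟩ ⟨_, h2', _⟩ h
      simp only at h h2 h2'
      subst h
      have : i = i' := Fin.ext (by rw [← h2, ← h2'])
      rw [this]
  obtain ⟨c', hc1, hc2, hc3⟩ := Pool.Agent.H28.konig R' Q hrow hcol
  let X : V → V → W := fun a b => (a, ⟨rA a b / Q, hrA a b⟩)
  let Y : V → V → W := fun a b => (b, ⟨rB b a / Q, hrB a b⟩)
  have hR' : ∀ a b, R a b → R' (X a b) (Y a b) := fun a b h => ⟨h, rfl, rfl⟩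
  refine ⟨fun a b => if R a b then c' (X a b) (Y a b) else 0, ?_, ?_, ?_⟩
  · intro a b
    by_cases h : R a b
    · simp only [h, if_true]; exact hc1 _ _ (hR' a b h)
    · simp only [h, if_false]; omega
  · intro a k
    calc {b | R a b ∧ (if R a b then c' (X a b) (Y a b) else 0) = k}.ncard
        ≤ ((Finset.range ({b | R a b}.ncard / Q + 1) : Finset ℕ) : Set ℕ).ncard := by
          apply Set.ncard_le_ncard_of_injOn (fun b => rA a b / Q)
          · rintro b ⟨hb, _⟩
            simp only [Finset.coe_range, Set.mem_Iio]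
            have h1 : rA a b < {b | R a b}.ncard := eqRk_lt (fun b' => R a b') b hb
            exact Nat.lt_succ_of_le (Nat.div_le_div_right h1.le)
          · rintro b ⟨hb, hk⟩ b' ⟨hb', hk'⟩ h
            simp only at h
            by_contra hne
            rw [if_pos hb] at hk
            rw [if_pos hb'] at hk'
            have hX : X a b = X a b' := by
              exact Prod.ext rfl (Fin.ext h)
            have h1 := hR' a b hb
            have h2 := hR' a b' hb'
            rw [← hX] at h2 hk'
            refine hc2 _ _ _ h1 h2 ?_ (hk.trans hk'.symm)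
            intro h3
            exact hne (congrArg Prod.fst h3)
      _ = _ := by rw [Set.ncard_coe_finset, Finset.card_range]
  · intro b k
    calc {a | R a b ∧ (if R a b then c' (X a b) (Y a b) else 0) = k}.ncard
        ≤ ((Finset.range ({a | R a b}.ncard / Q + 1) : Finset ℕ) : Set ℕ).ncard := by
          apply Set.ncard_le_ncard_of_injOn (fun a => rB b a / Q)
          · rintro a ⟨ha, _⟩
            simp only [Finset.coe_range, Set.mem_Iio]
            have h1 : rB b a < {a | R a b}.ncard := eqRk_lt (fun a' => R a' b) a ha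
            exact Nat.lt_succ_of_le (Nat.div_le_div_right h1.le)
          · rintro a ⟨ha, hk⟩ a' ⟨ha', hk'⟩ h
            simp only at h
            by_contra hne
            rw [if_pos ha] at hk
            rw [if_pos ha'] at hk'
            have hY : Y a b = Y a' b := by
              exact Prod.ext rfl (Fin.ext h)
            have h1 := hR' a b ha
            have h2 := hR' a' b ha'
            rw [← hY] at h2 hk'
            refine hc3 _ _ _ h1 h2 ?_ (hk.trans hk'.symm)
            intro h3
            exact hne (congrArg Prod.fst h3)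
      _ = _ := by rw [Set.ncard_coe_finset, Finset.card_range]

end Pool.Agent.H70.HY
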