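import Mathlib
import Pool.Agent.H70.HY.Defs
import Pool.Agent.H70.HY.EQ
import Pool.Agent.H70.HY.ROUND

/-! SPLIT: splitting a bipartite graph in prescribed real proportions. -/

set_option autoImplicit false

namespace Pool.Agent.H70.HY

open Finset

/-- One-sided version of the estimate. -/
theorem split_aux {V T : Type} [Fintype V] [DecidableEq T] (P : V → Prop) (κ : V → ℕ)
    (Q : ℕ) (hQ : 1 ≤ Q) (hκ : ∀ b, κ b < Q)
    (h : ∀ k, {b | P b ∧ κ b = k}.ncard ≤ {b | P b}.ncard / Q + 1)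
    (f : ℕ → T) (t : T) (yt τ : ℝ)
    (hf : |((((Finset.range Q).filter (fun k => f k = t)).card : ℕ) : ℝ) - yt * Q| ≤ τ) :
    |(({b | P b ∧ f (κ b) = t}.ncard : ℕ) : ℝ) - yt * ({b | P b}.ncard : ℕ)| ≤
      Q + τ * ({b | P b}.ncard : ℕ) / Q := by
  classical
  set d : ℕ := {b | P b}.ncard with hd
  set s : ℕ → ℕ := fun k => {b | P b ∧ κ b = k}.ncard with hs
  have hcard : ∀ k, s k = ((Finset.univ : Finset V).filter (fun b => P b ∧ κ b = k)).card := by
    intro k
    rw [hs]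
    simp only
    rw [Set.ncard_eq_toFinset_card' ]
    congr 1
    ext b
    simp
  have hn : ∀ (U : Finset ℕ), U ⊆ Finset.range Q →
      ((Finset.univ : Finset V).filter (fun b => P b ∧ κ b ∈ U)).card = ∑ k ∈ U, s k := by
    intro U hU
    have := Finset.card_eq_sum_card_fiberwise
      (f := κ) (s := ((Finset.univ : Finset V).filter (fun b => P b ∧ κ b ∈ U))) (t := U)
      (by intro b hb; simp only [Finset.coe_filter, Set.mem_ofPred_eq] at hb; exact hb.2.2)
    rw [this]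
    refine Finset.sum_congr rfl ?_
    intro k hk
    rw [hcard k, Finset.filter_filter]
    congr 1
    ext b
    simp only [Finset.mem_filter, Finset.mem_univ, true_and]
    constructor
    · rintro ⟨⟨h1, h2⟩, h3⟩
      exact ⟨h1, h3⟩
    · rintro ⟨h1, h3⟩
      exact ⟨⟨h1, by rw [h3]; exact hk⟩, h3⟩
  set U := (Finset.range Q).filter (fun k => f k = t) with hU
  have hnt : {b | P b ∧ f (κ b) = t}.ncard = ∑ k ∈ U, s k := by
    rw [← hn U (Finset.filter_subset _ _), Set.ncard_eq_toFinset_card']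
    congr 1
    ext b
    simp only [Set.mem_toFinset, Set.mem_ofPred_eq, Finset.mem_filter, Finset.mem_univ, true_and,
      hU, Finset.mem_range]
    constructor
    · rintro ⟨h1, h2⟩
      exact ⟨h1, hκ b, h2⟩
    · rintro ⟨h1, _, h2⟩
      exact ⟨h1, h2⟩
  have hdt : d = ∑ k ∈ Finset.range Q, s k := by
    rw [← hn (Finset.range Q) (le_refl _), hd, Set.ncard_eq_toFinset_card']
    congr 1
    ext b
    simp only [Set.mem_toFinset, Set.mem_ofPred_eq, Finset.mem_filter, Finset.mem_univ, true_and,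
      Finset.mem_range]
    exact ⟨fun h => ⟨h, hκ b⟩, fun h => h.1⟩
  have hQ0 : (0:ℝ) < Q := by exact_mod_cast hQ
  have hsk : ∀ k, (s k : ℝ) ≤ d / Q + 1 := by
    intro k
    have h1 : s k ≤ d / Q + 1 := h k
    have h2 : ((s k : ℕ) : ℝ) ≤ ((d / Q + 1 : ℕ) : ℝ) := by exact_mod_cast h1
    refine h2.trans ?_
    push_cast
    have := @Nat.cast_div_le ℝ _ _ _ d Q
    linarith
  have hup : ((∑ k ∈ U, s k : ℕ) : ℝ) ≤ U.card * (d / Q + 1) := by
    push_cast
    have := Finset.sum_le_card_nsmul U (fun k => (s k : ℝ)) (d / Q + 1) (fun k _ => hsk k)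
    rwa [nsmul_eq_mul] at this
  set W := (Finset.range Q).filter (fun k => ¬ f k = t) with hW
  have hsplit : ∑ k ∈ Finset.range Q, s k = ∑ k ∈ U, s k + ∑ k ∈ W, s k := by
    rw [hU, hW, Finset.sum_filter_add_sum_filter_not]
  have hcardUW : U.card + W.card = Q := by
    rw [hU, hW, Finset.card_filter_add_card_filter_not, Finset.card_range]
  have hup2 : ((∑ k ∈ W, s k : ℕ) : ℝ) ≤ W.card * (d / Q + 1) := by
    push_cast
    have := Finset.sum_le_card_nsmul W (fun k => (s k : ℝ)) (d / Q + 1) (fun k _ => hsk k)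
    rwa [nsmul_eq_mul] at this
  have hUW' : (U.card : ℝ) + W.card = Q := by exact_mod_cast hcardUW
  have hUc : (0:ℝ) ≤ U.card := Nat.cast_nonneg _
  have hWc : (0:ℝ) ≤ W.card := Nat.cast_nonneg _
  have hdr : (d : ℝ) = ((∑ k ∈ U, s k : ℕ) : ℝ) + ((∑ k ∈ W, s k : ℕ) : ℝ) := by
    rw [hdt, hsplit]; push_cast; ring
  rw [hnt]
  set nt : ℝ := ((∑ k ∈ U, s k : ℕ) : ℝ) with hntr
  set wt : ℝ := ((∑ k ∈ W, s k : ℕ) : ℝ) with hwtr
  have hd0 : (0:ℝ) ≤ d / Q := by positivity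
  -- `|nt - |U| d / Q| ≤ Q`
  have hdQ : (d : ℝ) = Q * (d / Q) := by field_simp
  have e1 : nt - U.card * (d / Q) ≤ Q := by nlinarith
  have e2 : -(Q : ℝ) ≤ nt - U.card * (d / Q) := by
    have : (Q : ℝ) * (d / Q) = U.card * (d / Q) + W.card * (d / Q) := by
      rw [← hUW']; ring
    nlinarith
  have e3 : |(U.card : ℝ) * (d / Q) - yt * d| ≤ τ * d / Q := by
    have : (U.card : ℝ) * (d / Q) - yt * d = (U.card - yt * Q) * (d / Q) := by
      field_simp
    rw [this, abs_mul, abs_of_nonneg hd0]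
    calc _ ≤ τ * (d / Q) := mul_le_mul_of_nonneg_right hf hd0
      _ = τ * d / Q := by ring
  have e4 := abs_le.mp e3
  rw [abs_le]
  constructor
  · linarith [e4.1]
  · linarith [e4.2]

/-- SPLIT: splitting a bipartite graph in prescribed real proportions. -/
theorem split (T : Type) [Fintype T] [DecidableEq T] (η : ℝ) (hη : 0 < η) :
    ∃ N0 : ℕ, ∀ n : ℕ, N0 ≤ n → ∀ (V : Type) [Fintype V] [DecidableEq V] (R : V → V → Prop),
      (∀ a, {b | R a b}.ncard ≤ n) → (∀ b, {a | R a b}.ncard ≤ n) →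
      ∀ y : T → ℝ, (∀ t, 0 ≤ y t) → ∑ t, y t = 1 →
      ∃ c : V → V → T, (∀ a b, 0 < y (c a b)) ∧
        (∀ a t, |(({b | R a b ∧ c a b = t}.ncard : ℕ) : ℝ) - y t * ({b | R a b}.ncard : ℕ)| ≤ η * n) ∧
        (∀ b t, |(({a | R a b ∧ c a b = t}.ncard : ℕ) : ℝ) - y t * ({a | R a b}.ncard : ℕ)| ≤ η * n) := by
  classical
  set Q : ℕ := ⌈2 * (Fintype.card T : ℝ) / η⌉₊ + 1 with hQdef
  refine ⟨⌈2 * (Q : ℝ) / η⌉₊, ?_⟩
  intro n hn V _ _ R hR1 hR2 y hy hy1
  have hQ : 1 ≤ Q := by omega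
  obtain ⟨c0, hc0, hc1, hc2⟩ := HY.equitable R Q hQ
  obtain ⟨f, hf1, hf2⟩ := HY.round T y hy hy1 Q
  have hQ0 : (0:ℝ) < Q := by exact_mod_cast hQ
  have hnη : (Q : ℝ) ≤ η * n / 2 := by
    have h1 : 2 * (Q : ℝ) / η ≤ n := (Nat.le_ceil _).trans (by exact_mod_cast hn)
    rw [div_le_iff₀ hη] at h1
    linarith
  have hQη : 2 * (Fintype.card T : ℝ) ≤ η * Q := by
    have h1 : 2 * (Fintype.card T : ℝ) / η ≤ Q := by
      rw [hQdef]
      push_cast
      exact (Nat.le_ceil _).trans (by linarith)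
    rw [div_le_iff₀ hη] at h1
    linarith
  have key : ∀ d : ℕ, d ≤ n → (Q : ℝ) + (Fintype.card T : ℝ) * d / Q ≤ η * n := by
    intro d hd
    have hd' : (d : ℝ) ≤ n := by exact_mod_cast hd
    have h1 : (Fintype.card T : ℝ) * d / Q ≤ η * n / 2 := by
      rw [div_le_iff₀ hQ0]
      have hn0 : (0:ℝ) ≤ n := Nat.cast_nonneg _
      have hd0 : (0:ℝ) ≤ d := Nat.cast_nonneg _
      have hc : (0:ℝ) ≤ Fintype.card T := Nat.cast_nonneg _
      calc (Fintype.card T : ℝ) * d ≤ Fintype.card T * n := mul_le_mul_of_nonneg_left hd' hc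
        _ ≤ (η * Q / 2) * n := mul_le_mul_of_nonneg_right (by linarith) hn0
        _ = η * n / 2 * Q := by ring
    linarith
  refine ⟨fun a b => f (c0 a b), fun a b => hf1 _, ?_, ?_⟩
  · intro a t
    have := split_aux (fun b => R a b) (fun b => c0 a b) Q hQ (fun b => hc0 a b) (fun k => hc1 a k)
      f t (y t) (Fintype.card T) (hf2 t)
    exact this.trans (key _ (hR1 a))
  · intro b t
    have := split_aux (fun a => R a b) (fun a => c0 a b) Q hQ (fun a => hc0 a b) (fun k => hc2 b k)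
      f t (y t) (Fintype.card T) (hf2 t)
    exact this.trans (key _ (hR2 b))

end Pool.Agent.H70.HY
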