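import Mathlib
import Pool.Agent.H70.HY.Defs
import Pool.Agent.H70.HY.PART
import Pool.Agent.H70.HY.SPLIT

/-! PRE: partition and allocation of the edges following prescribed real weights. -/

set_option autoImplicit false

namespace Pool.Agent.H70.HY

open Finset

theorem pre_arith (x d m y E : ℝ) (hy0 : 0 ≤ y) (hy1 : y ≤ 1) (h1 : |x - y * d| ≤ E)
    (h2 : |d - m| ≤ E) : |x - y * m| ≤ 2 * E := by
  have h3 : |y * (d - m)| ≤ E := by
    rw [abs_mul, abs_of_nonneg hy0]
    have := abs_nonneg (d - m)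
    nlinarith
  have h4 : x - y * m = (x - y * d) + y * (d - m) := by ring
  rw [h4]
  exact (abs_add_le _ _).trans (by linarith)

/-- PRE: partition and allocation of the edges following prescribed real weights. `T` is any
finite set of slots, `H` the relation handled pair of classes and `y c c'` the weights. -/
theorem pre (C T : Type) [Fintype C] [DecidableEq C] [Fintype T] [DecidableEq T] [Nonempty T] (η : ℝ) (hη : 0 < η) :
    ∃ N0 : ℕ, ∀ n : ℕ, N0 ≤ n → ∀ (V : Type) [Fintype V] [DecidableEq V] (G : SimpleGraph V),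
      (∀ v, (G.neighborSet v).ncard = n) →
      ∀ M : C → ℝ, (∀ c, 0 ≤ M c) → ∑ c, M c = n →
      ∀ y : C → C → T → ℝ, (∀ c c' t, 0 ≤ y c c' t) → (∀ c c' t, y c c' t = y c' c t) →
      (∀ c c', c ≠ c' → ∑ t, y c c' t = 1) →
      ∃ (cls : V → C) (al : V → V → T),
        (∀ v c, |(nb G v (fun u => cls u = c) : ℝ) - M c| ≤ η * n) ∧
        (∀ u v, al u v = al v u) ∧
        (∀ u v, cls u ≠ cls v → 0 < y (cls u) (cls v) (al u v)) ∧
        (∀ v c t, cls v ≠ c →
          |(nb G v (fun u => cls u = c ∧ al v u = t) : ℝ) - y (cls v) c t * M c| ≤ η * n) := by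
  classical
  obtain ⟨N1, hN1⟩ := HY.part C (η / 3) (by positivity)
  obtain ⟨N2, hN2⟩ := HY.split T (η / 3) (by positivity)
  refine ⟨max N1 N2, ?_⟩
  intro n hn V _ _ G hG M hM hM1 y hy hys hy1
  obtain ⟨cls, hcls⟩ := hN1 n ((le_max_left _ _).trans hn) V G hG M hM hM1
  have hn0 : (0:ℝ) ≤ n := Nat.cast_nonneg _
  have hs : ∀ c c' : C, ∃ s : V → V → T, c ≠ c' → ((∀ a b, 0 < y c c' (s a b)) ∧
      (∀ a t, |(({b | (G.Adj a b ∧ cls a = c ∧ cls b = c') ∧ s a b = t}.ncard : ℕ) : ℝ) -
        y c c' t * ({b | G.Adj a b ∧ cls a = c ∧ cls b = c'}.ncard : ℕ)| ≤ η / 3 * n) ∧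
      (∀ b t, |(({a | (G.Adj a b ∧ cls a = c ∧ cls b = c') ∧ s a b = t}.ncard : ℕ) : ℝ) -
        y c c' t * ({a | G.Adj a b ∧ cls a = c ∧ cls b = c'}.ncard : ℕ)| ≤ η / 3 * n)) := by
    intro c c'
    by_cases hcc : c = c'
    · exact ⟨fun _ _ => Classical.arbitrary T, fun h => absurd hcc h⟩
    · obtain ⟨s, h1, h2, h3⟩ := hN2 n ((le_max_right _ _).trans hn) V
        (fun a b => G.Adj a b ∧ cls a = c ∧ cls b = c')
        (by
          intro a
          rw [← hG a]
          exact Set.ncard_le_ncard (fun b hb => hb.1) (Set.toFinite _))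
        (by
          intro b
          rw [← hG b]
          exact Set.ncard_le_ncard (fun a ha => ha.1.symm) (Set.toFinite _))
        (y c c') (hy c c') (hy1 c c' hcc)
      exact ⟨s, fun _ => ⟨h1, h2, h3⟩⟩
  choose s hs using hs
  set e := Fintype.equivFin C with he
  let al : V → V → T := fun u v =>
    if e (cls u) < e (cls v) then s (cls u) (cls v) u v
    else if e (cls v) < e (cls u) then s (cls v) (cls u) v u else Classical.arbitrary T
  have al1 : ∀ u v, e (cls u) < e (cls v) → al u v = s (cls u) (cls v) u v := by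
    intro u v h
    simp only [al, if_pos h]
  have al2 : ∀ u v, e (cls v) < e (cls u) → al u v = s (cls v) (cls u) v u := by
    intro u v h
    simp only [al, if_neg (not_lt.mpr h.le), if_pos h]
  have ne_lt : ∀ c c' : C, c ≠ c' → e c < e c' ∨ e c' < e c := by
    intro c c' h
    exact lt_or_gt_of_ne (fun h' => h (e.injective h'))
  have lt_ne : ∀ c c' : C, e c < e c' → c ≠ c' := by
    intro c c' h h'
    rw [h'] at h
    exact lt_irrefl _ h
  have hy_le : ∀ c c' t, c ≠ c' → y c c' t ≤ 1 := by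
    intro c c' t h
    rw [← hy1 c c' h]
    exact Finset.single_le_sum (f := fun t => y c c' t) (fun t _ => hy c c' t) (Finset.mem_univ t)
  refine ⟨cls, al, ?_, ?_, ?_, ?_⟩
  · intro v c
    refine (hcls v c).trans ?_
    nlinarith
  · intro u v
    by_cases h : cls u = cls v
    · simp only [al, h, lt_irrefl, if_false]
    · rcases ne_lt _ _ h with h' | h'
      · rw [al1 u v h', al2 v u h']
      · rw [al2 u v h', al1 v u h']
  · intro u v h
    rcases ne_lt _ _ h with h' | h'
    · rw [al1 u v h']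
      exact (hs _ _ h).1 u v
    · rw [al2 u v h', hys]
      exact (hs _ _ (Ne.symm h)).1 v u
  · intro v c t hvc
    have hMc := hcls v c
    rcases ne_lt _ _ hvc with h' | h'
    · have hh := (hs _ _ hvc).2.1 v t
      have e1 : {b | (G.Adj v b ∧ cls v = cls v ∧ cls b = c) ∧ s (cls v) c v b = t} =
          {u | G.Adj v u ∧ (cls u = c ∧ al v u = t)} := by
        ext u
        simp only [Set.mem_ofPred_eq]
        constructor
        · rintro ⟨⟨h1, _, h3⟩, h4⟩
          refine ⟨h1, h3, ?_⟩
          rw [al1 v u (by rw [h3]; exact h'), h3]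
          exact h4
        · rintro ⟨h1, h3, h4⟩
          refine ⟨⟨h1, trivial, h3⟩, ?_⟩
          rw [al1 v u (by rw [h3]; exact h'), h3] at h4
          exact h4
      have e2 : {b | G.Adj v b ∧ cls v = cls v ∧ cls b = c} = {u | G.Adj v u ∧ cls u = c} := by
        ext u
        simp
      rw [e1, e2] at hh
      refine (pre_arith _ _ _ _ _ (hy _ _ _) (hy_le _ _ t hvc) hh hMc).trans ?_
      nlinarith
    · have hh := (hs _ _ (Ne.symm hvc)).2.2 v t
      have e1 : {a | (G.Adj a v ∧ cls a = c ∧ cls v = cls v) ∧ s c (cls v) a v = t} =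
          {u | G.Adj v u ∧ (cls u = c ∧ al v u = t)} := by
        ext u
        simp only [Set.mem_ofPred_eq]
        constructor
        · rintro ⟨⟨h1, h3, _⟩, h4⟩
          refine ⟨h1.symm, h3, ?_⟩
          rw [al2 v u (by rw [h3]; exact h'), h3]
          exact h4
        · rintro ⟨h1, h3, h4⟩
          refine ⟨⟨h1.symm, h3, trivial⟩, ?_⟩
          rw [al2 v u (by rw [h3]; exact h'), h3] at h4
          exact h4
      have e2 : {a | G.Adj a v ∧ cls a = c ∧ cls v = cls v} = {u | G.Adj v u ∧ cls u = c} := by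
        ext u
        simp only [Set.mem_ofPred_eq, and_true]
        rw [G.adj_comm]
      rw [e1, e2, hys] at hh
      refine (pre_arith _ _ _ _ _ (hy _ _ _) (hy_le _ _ t hvc) hh hMc).trans ?_
      nlinarith

end Pool.Agent.H70.HY
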