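import Mathlib
import Pool.Agent.H70.HY.Defs
import Pool.Agent.H70.HY.PRE

/-! RTS: every sided schedule is realised by every large regular graph. -/

set_option autoImplicit false
set_option linter.unusedSectionVars false

namespace Pool.Agent.H70.HY

open Finset

theorem rts_arith {Θ : Type} [Fintype Θ] [DecidableEq Θ] (el : Θ → Prop) [DecidablePred el]
    (dump : Θ → Option Θ)
    (hd : ∀ θ θ', el θ → dump θ = some θ' → el θ' ∧ dump θ' = none)
    (len Nn Bf : Θ → ℕ) (f : Θ → ℝ) (E : ℝ) (hE : 0 ≤ E)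
    (hf : ∀ θ, el θ → (2 * (Fintype.card Θ : ℝ) + 3) * E ≤ f θ)
    (h1 : ∀ θ, el θ → |(Nn θ : ℝ) - (len θ - f θ -
      ∑ θ'' ∈ univ.filter (fun θ'' => el θ'' ∧ dump θ'' = some θ), f θ'')| ≤ E)
    (h2 : ∀ θ, el θ → |(Bf θ : ℝ) - 2 * f θ| ≤ E) :
    ∃ s : Θ → ℕ, (∀ θ, el θ → s θ ≤ Bf θ) ∧
      ∀ θ, el θ → Nn θ + s θ +
        ∑ θ'' ∈ univ.filter (fun θ'' => el θ'' ∧ dump θ'' = some θ), (Bf θ'' - s θ'') = len θ := by
  have hq : (0 : ℝ) ≤ (Fintype.card Θ : ℝ) := Nat.cast_nonneg _
  -- rank 0 blocks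
  have hemp : ∀ θ, dump θ ≠ none → univ.filter (fun θ'' => el θ'' ∧ dump θ'' = some θ) = ∅ := by
    intro θ hθ
    rw [Finset.filter_eq_empty_iff]
    rintro θ'' - ⟨h3, h4⟩
    exact hθ (hd θ'' θ h3 h4).2
  have hr0 : ∀ θ, el θ → dump θ ≠ none → (Nn θ : ℝ) ≤ len θ ∧ (len θ : ℝ) ≤ Bf θ + Nn θ ∧
      |((Bf θ : ℝ) + Nn θ - len θ) - f θ| ≤ 2 * E := by
    intro θ h3 h4
    have h5 := h1 θ h3
    rw [hemp θ h4, Finset.sum_empty, abs_le] at h5
    have h6 := h2 θ h3
    rw [abs_le] at h6
    have h7 := hf θ h3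
    have h8 : 0 ≤ (Fintype.card Θ : ℝ) * E := mul_nonneg hq hE
    refine ⟨by nlinarith, by nlinarith, ?_⟩
    rw [abs_le]
    constructor <;> nlinarith
  let D : Θ → ℕ := fun θ => Bf θ + Nn θ - len θ
  have hsum : ∀ θ, el θ → |(∑ θ'' ∈ univ.filter (fun θ'' => el θ'' ∧ dump θ'' = some θ), (D θ'' : ℝ)) -
      ∑ θ'' ∈ univ.filter (fun θ'' => el θ'' ∧ dump θ'' = some θ), f θ''| ≤
        2 * (Fintype.card Θ : ℝ) * E := by
    intro θ hθ
    rw [← Finset.sum_sub_distrib]
    refine (Finset.abs_sum_le_sum_abs _ _).trans ?_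
    have h3 : ∀ θ'' ∈ univ.filter (fun θ'' => el θ'' ∧ dump θ'' = some θ),
        |(D θ'' : ℝ) - f θ''| ≤ 2 * E := by
      intro θ'' h
      rw [Finset.mem_filter] at h
      obtain ⟨-, h4, h5⟩ := h
      obtain ⟨h6, h7, h8⟩ := hr0 θ'' h4 (by rw [h5]; simp)
      have h9 : len θ'' ≤ Bf θ'' + Nn θ'' := by exact_mod_cast h7
      have h10 : (D θ'' : ℝ) = (Bf θ'' : ℝ) + Nn θ'' - len θ'' := by
        show ((Bf θ'' + Nn θ'' - len θ'' : ℕ) : ℝ) = _
        rw [Nat.cast_sub h9]
        push_cast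
        ring
      rw [h10]
      exact h8
    refine (Finset.sum_le_card_nsmul _ _ _ h3).trans ?_
    rw [nsmul_eq_mul]
    have h4 : ((univ.filter (fun θ'' => el θ'' ∧ dump θ'' = some θ)).card : ℝ) ≤ Fintype.card Θ := by
      exact_mod_cast Finset.card_le_univ _
    nlinarith
  have hmain : ∀ θ, el θ →
      Nn θ + ∑ θ'' ∈ univ.filter (fun θ'' => el θ'' ∧ dump θ'' = some θ), D θ'' ≤ len θ ∧
      len θ ≤ Bf θ + (Nn θ + ∑ θ'' ∈ univ.filter (fun θ'' => el θ'' ∧ dump θ'' = some θ), D θ'') := by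
    intro θ h3
    have h5 := h1 θ h3
    have h6 := h2 θ h3
    have h7 := hf θ h3
    have h8 := hsum θ h3
    rw [abs_le] at h5 h6 h8
    have h9 : 0 ≤ (Fintype.card Θ : ℝ) * E := mul_nonneg hq hE
    constructor
    · have : ((Nn θ + ∑ θ'' ∈ univ.filter (fun θ'' => el θ'' ∧ dump θ'' = some θ), D θ'' : ℕ) : ℝ) ≤
          (len θ : ℝ) := by
        push_cast
        nlinarith
      exact_mod_cast this
    · have : (len θ : ℝ) ≤ ((Bf θ + (Nn θ +
          ∑ θ'' ∈ univ.filter (fun θ'' => el θ'' ∧ dump θ'' = some θ), D θ'') : ℕ) : ℝ) := by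
        push_cast
        nlinarith
      exact_mod_cast this
  refine ⟨fun θ => len θ - (Nn θ +
    ∑ θ'' ∈ univ.filter (fun θ'' => el θ'' ∧ dump θ'' = some θ), D θ''), ?_, ?_⟩
  · intro θ h
    have := (hmain θ h).2
    show len θ - _ ≤ Bf θ
    omega
  · intro θ h
    have h3 : ∑ θ'' ∈ univ.filter (fun θ'' => el θ'' ∧ dump θ'' = some θ), (Bf θ'' - (len θ'' - (Nn θ'' +
        ∑ θ''' ∈ univ.filter (fun θ''' => el θ''' ∧ dump θ''' = some θ''), D θ'''))) =
        ∑ θ'' ∈ univ.filter (fun θ'' => el θ'' ∧ dump θ'' = some θ), D θ'' := by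
      apply Finset.sum_congr rfl
      intro θ'' h4
      rw [Finset.mem_filter] at h4
      obtain ⟨-, h4, h5⟩ := h4
      have h6 : dump θ'' ≠ none := by rw [h5]; simp
      rw [hemp θ'' h6, Finset.sum_empty]
      obtain ⟨h7, h8, -⟩ := hr0 θ'' h4 h6
      have h7' : Nn θ'' ≤ len θ'' := by exact_mod_cast h7
      have h8' : len θ'' ≤ Bf θ'' + Nn θ'' := by exact_mod_cast h8
      show _ = Bf θ'' + Nn θ'' - len θ''
      omega
    show Nn θ + (len θ - (Nn θ + _)) + _ = _
    rw [h3]
    have := (hmain θ h).1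
    omega

section weights

variable {n : ℕ} {δ : ℝ} {A B Θ : Type} [Fintype A] [Fintype B] [Fintype Θ]

open Classical in
/-- number of blocks whose surplus edges between `a` and `b` go to the slot `t` -/
noncomputable def rtsCnt (S : SS n δ A B Θ) (a : A) (b : B) (t : Option Θ) : ℝ :=
  ∑ θ, if S.el a θ ∧ S.F a θ = b ∧ S.dump a θ = t then 1 else 0

open Classical in
noncomputable def rtsR (S : SS n δ A B Θ) (a : A) (b : B) : Option Θ → ℝ
  | some θ => if S.el a θ ∧ S.F a θ = b then 1 else 0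
  | none => 0

open Classical in
/-- modified weights -/
noncomputable def rtsAB (S : SS n δ A B Θ) (d : ℝ) (a : A) (b : B) : Option Θ ⊕ Θ → ℝ
  | Sum.inl t => S.y (Sum.inl a) (Sum.inr b) t - d * (rtsCnt S a b t + rtsR S a b t)
  | Sum.inr θ => 2 * d * (if S.el a θ ∧ S.F a θ = b then 1 else 0)

open Classical in
noncomputable def rtsY (S : SS n δ A B Θ) (d : ℝ) : A ⊕ B → A ⊕ B → Option Θ ⊕ Θ → ℝ
  | Sum.inl a, Sum.inl a', Sum.inl t =>
      if S.inn a a' then (if t = none then 1 else 0) else S.y (Sum.inl a) (Sum.inl a') t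
  | Sum.inl _, Sum.inl _, Sum.inr _ => 0
  | Sum.inl a, Sum.inr b, x => rtsAB S d a b x
  | Sum.inr b, Sum.inl a, x => rtsAB S d a b x
  | Sum.inr b, Sum.inr b', Sum.inl t =>
      if S.hd b b' then S.y (Sum.inr b) (Sum.inr b') t else (if t = none then 1 else 0)
  | Sum.inr _, Sum.inr _, Sum.inr _ => 0

theorem rtsCnt_bd (S : SS n δ A B Θ) (a : A) (b : B) (t : Option Θ) :
    0 ≤ rtsCnt S a b t + rtsR S a b t ∧
      rtsCnt S a b t + rtsR S a b t ≤ (Fintype.card Θ : ℝ) + 1 := by
  classical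
  have h1 : 0 ≤ rtsCnt S a b t := by
    unfold rtsCnt
    exact Finset.sum_nonneg (fun θ _ => by split_ifs <;> norm_num)
  have h2 : rtsCnt S a b t ≤ (Fintype.card Θ : ℝ) := by
    unfold rtsCnt
    refine (Finset.sum_le_card_nsmul _ _ 1 (fun θ _ => by split_ifs <;> norm_num)).trans ?_
    rw [nsmul_eq_mul, mul_one, Finset.card_univ]
  have h3 : 0 ≤ rtsR S a b t ∧ rtsR S a b t ≤ 1 := by
    unfold rtsR
    split
    · split_ifs <;> norm_num
    · norm_num
  constructor <;> linarith [h3.1, h3.2]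

theorem rtsCnt_pos (S : SS n δ A B Θ) (a : A) (b : B) (t : Option Θ)
    (h : rtsCnt S a b t + rtsR S a b t ≠ 0) : δ ≤ S.y (Sum.inl a) (Sum.inr b) t := by
  classical
  by_cases h1 : rtsR S a b t = 0
  · rw [h1, add_zero] at h
    unfold rtsCnt at h
    obtain ⟨θ, -, hθ⟩ := Finset.exists_ne_zero_of_sum_ne_zero h
    split_ifs at hθ with h2
    · obtain ⟨h3, h4, h5⟩ := h2
      rw [← h4, ← h5]
      exact S.dump_ge a θ h3
    · exact absurd rfl hθ
  · unfold rtsR at h1
    split at h1
    · split_ifs at h1 with h2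
      · rw [← h2.2]
        exact S.F_ge a _ h2.1
      · exact absurd rfl h1
    · exact absurd rfl h1

theorem rtsAB_nonneg (S : SS n δ A B Θ) {d : ℝ} (hd : 0 ≤ d)
    (hd' : d * ((Fintype.card Θ : ℝ) + 1) ≤ δ) (a : A) (b : B) (x : Option Θ ⊕ Θ) :
    0 ≤ rtsAB S d a b x := by
  classical
  rcases x with t | θ
  · show 0 ≤ S.y (Sum.inl a) (Sum.inr b) t - d * (rtsCnt S a b t + rtsR S a b t)
    by_cases h : rtsCnt S a b t + rtsR S a b t = 0
    · rw [h, mul_zero, sub_zero]
      exact S.y_nonneg _ _ _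
    · have h1 := rtsCnt_pos S a b t h
      have h2 := (rtsCnt_bd S a b t).2
      nlinarith
  · show 0 ≤ 2 * d * _
    split_ifs
    · linarith
    · linarith

theorem rtsY_nonneg (S : SS n δ A B Θ) {d : ℝ} (hd : 0 ≤ d)
    (hd' : d * ((Fintype.card Θ : ℝ) + 1) ≤ δ) (c c' : A ⊕ B) (x : Option Θ ⊕ Θ) :
    0 ≤ rtsY S d c c' x := by
  classical
  rcases c with a | b <;> rcases c' with a' | b'
  · rcases x with t | θ
    · simp only [rtsY]
      split_ifs
      · norm_num
      · norm_num
      · exact S.y_nonneg _ _ _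
    · exact le_rfl
  · exact rtsAB_nonneg S hd hd' _ _ _
  · exact rtsAB_nonneg S hd hd' _ _ _
  · rcases x with t | θ
    · simp only [rtsY]
      split_ifs
      · exact S.y_nonneg _ _ _
      · norm_num
      · norm_num
    · exact le_rfl

theorem rtsY_symm (S : SS n δ A B Θ) (d : ℝ) (c c' : A ⊕ B) (x : Option Θ ⊕ Θ) :
    rtsY S d c c' x = rtsY S d c' c x := by
  classical
  rcases c with a | b <;> rcases c' with a' | b'
  · rcases x with t | θ
    · simp only [rtsY]
      rw [S.y_symm (Sum.inl a) (Sum.inl a') t]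
      have : S.inn a a' ↔ S.inn a' a := ⟨S.inn_symm a a', S.inn_symm a' a⟩
      simp only [this]
    · rfl
  · rfl
  · rfl
  · rcases x with t | θ
    · simp only [rtsY]
      rw [S.y_symm (Sum.inr b) (Sum.inr b') t]
      have : S.hd b b' ↔ S.hd b' b := ⟨S.hd_symm b b', S.hd_symm b' b⟩
      simp only [this]
    · rfl

theorem rtsAB_sum (S : SS n δ A B Θ) (d : ℝ) (a : A) (b : B) :
    ∑ x, rtsAB S d a b x = 1 := by
  classical
  rw [Fintype.sum_sum_type]
  have h1 : ∑ t : Option Θ, rtsAB S d a b (Sum.inl t) =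
      1 - d * (∑ θ, (if S.el a θ ∧ S.F a θ = b then (1 : ℝ) else 0)) * 2 := by
    show ∑ t : Option Θ, (S.y (Sum.inl a) (Sum.inr b) t - d * (rtsCnt S a b t + rtsR S a b t)) = _
    rw [Finset.sum_sub_distrib, S.y_sum_AB a b, ← Finset.mul_sum, Finset.sum_add_distrib]
    have h2 : ∑ t : Option Θ, rtsCnt S a b t =
        ∑ θ, (if S.el a θ ∧ S.F a θ = b then (1 : ℝ) else 0) := by
      unfold rtsCnt
      rw [Finset.sum_comm]
      apply Finset.sum_congr rfl
      intro θ _
      by_cases h3 : S.el a θ ∧ S.F a θ = b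
      · have h4 : ∀ t, (if S.el a θ ∧ S.F a θ = b ∧ S.dump a θ = t then (1 : ℝ) else 0) =
            if t = S.dump a θ then 1 else 0 := by
          intro t
          have : (S.el a θ ∧ S.F a θ = b ∧ S.dump a θ = t) ↔ t = S.dump a θ :=
            ⟨fun h => h.2.2.symm, fun h => ⟨h3.1, h3.2, h.symm⟩⟩
          simp only [this]
        rw [Finset.sum_congr rfl (fun t _ => h4 t), if_pos h3]
        simp
      · rw [if_neg h3]
        apply Finset.sum_eq_zero
        intro t _
        rw [if_neg]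
        exact fun h => h3 ⟨h.1, h.2.1⟩
    have h5 : ∑ t : Option Θ, rtsR S a b t =
        ∑ θ, (if S.el a θ ∧ S.F a θ = b then (1 : ℝ) else 0) := by
      rw [Fintype.sum_option]
      simp [rtsR]
    rw [h2, h5]
    ring
  have h2 : ∑ θ : Θ, rtsAB S d a b (Sum.inr θ) =
      2 * d * (∑ θ, (if S.el a θ ∧ S.F a θ = b then (1 : ℝ) else 0)) := by
    rw [Finset.mul_sum]
    rfl
  rw [h1, h2]
  ring

theorem rtsY_sum (S : SS n δ A B Θ) (d : ℝ) (c c' : A ⊕ B) : ∑ x, rtsY S d c c' x = 1 := by
  classical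
  rcases c with a | b <;> rcases c' with a' | b'
  · rw [Fintype.sum_sum_type]
    simp only [rtsY, Finset.sum_const_zero, add_zero]
    by_cases h : S.inn a a'
    · simp [h]
    · simp only [h, if_false]
      exact S.y_sum_AA a a' h
  · exact rtsAB_sum S d a b'
  · exact rtsAB_sum S d a' b
  · rw [Fintype.sum_sum_type]
    simp only [rtsY, Finset.sum_const_zero, add_zero]
    by_cases h : S.hd b b'
    · simp only [h, if_true]
      exact S.y_sum_BB b b' h
    · simp [h]

theorem rtsY_self (S : SS n δ A B Θ) (d : ℝ) (a : A) (x : Option Θ ⊕ Θ) (hx : x ≠ Sum.inl none) :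
    rtsY S d (Sum.inl a) (Sum.inl a) x = 0 := by
  classical
  rcases x with t | θ
  · simp only [rtsY]
    rw [if_pos (S.inn_refl a), if_neg]
    rintro rfl
    exact hx rfl
  · rfl

theorem rtsY_tight (S : SS n δ A B Θ) (d : ℝ) (a : A) (θ : Θ) (h : S.el a θ)
    [DecidablePred (S.el a)] [DecidableEq Θ] :
    ∑ c, rtsY S d (Sum.inl a) c (Sum.inl (some θ)) * S.M c =
      S.len θ - d * S.M (Sum.inr (S.F a θ)) -
        ∑ θ'' ∈ univ.filter (fun θ'' => S.el a θ'' ∧ S.dump a θ'' = some θ),
          d * S.M (Sum.inr (S.F a θ'')) := by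
  classical
  have h0 := S.tight a θ h
  rw [Fintype.sum_sum_type] at h0 ⊢
  have h1 : ∑ a', rtsY S d (Sum.inl a) (Sum.inl a') (Sum.inl (some θ)) * S.M (Sum.inl a') =
      ∑ a', S.M (Sum.inl a') * S.y (Sum.inl a) (Sum.inl a') (some θ) := by
    apply Finset.sum_congr rfl
    intro a' _
    simp only [rtsY]
    by_cases hi : S.inn a a'
    · rw [if_pos hi, S.y_inn a a' θ hi]
      simp
    · rw [if_neg hi]
      ring
  have h2 : ∑ b, rtsY S d (Sum.inl a) (Sum.inr b) (Sum.inl (some θ)) * S.M (Sum.inr b) =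
      ∑ b, S.M (Sum.inr b) * S.y (Sum.inl a) (Sum.inr b) (some θ) -
        d * (∑ b, rtsCnt S a b (some θ) * S.M (Sum.inr b) +
          ∑ b, rtsR S a b (some θ) * S.M (Sum.inr b)) := by
    rw [← Finset.sum_add_distrib, Finset.mul_sum, ← Finset.sum_sub_distrib]
    apply Finset.sum_congr rfl
    intro b _
    simp only [rtsY, rtsAB]
    ring
  have h3 : ∑ b, rtsR S a b (some θ) * S.M (Sum.inr b) = S.M (Sum.inr (S.F a θ)) := by
    have : ∀ b, rtsR S a b (some θ) * S.M (Sum.inr b) =
        if S.F a θ = b then S.M (Sum.inr b) else 0 := by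
      intro b
      simp only [rtsR, h, true_and]
      split_ifs <;> simp
    rw [Finset.sum_congr rfl (fun b _ => this b)]
    simp
  have h4 : ∑ b, rtsCnt S a b (some θ) * S.M (Sum.inr b) =
      ∑ θ'' ∈ univ.filter (fun θ'' => S.el a θ'' ∧ S.dump a θ'' = some θ),
          S.M (Sum.inr (S.F a θ'')) := by
    simp only [rtsCnt, Finset.sum_mul]
    rw [Finset.sum_comm, Finset.sum_filter]
    apply Finset.sum_congr rfl
    intro θ'' _
    by_cases h5 : S.el a θ'' ∧ S.dump a θ'' = some θ
    · rw [if_pos h5]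
      trans (∑ b, if S.F a θ'' = b then S.M (Sum.inr b) else 0)
      · apply Finset.sum_congr rfl
        intro b _
        by_cases h6 : S.F a θ'' = b
        · rw [if_pos ⟨h5.1, h6, h5.2⟩, if_pos h6, one_mul]
        · rw [if_neg (fun h => h6 h.2.1), if_neg h6, zero_mul]
      · simp
    · rw [if_neg h5]
      apply Finset.sum_eq_zero
      intro b _
      rw [if_neg (fun h => h5 ⟨h.1, h.2.2⟩), zero_mul]
  rw [h1, h2, h3, h4, ← h0, ← Finset.mul_sum]
  ring

theorem rtsY_buf (S : SS n δ A B Θ) (d : ℝ) (a : A) (θ : Θ) (h : S.el a θ) :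
    ∑ c, rtsY S d (Sum.inl a) c (Sum.inr θ) * S.M c = 2 * (d * S.M (Sum.inr (S.F a θ))) := by
  classical
  rw [Fintype.sum_sum_type]
  have h1 : ∑ a', rtsY S d (Sum.inl a) (Sum.inl a') (Sum.inr θ) * S.M (Sum.inl a') = 0 := by
    apply Finset.sum_eq_zero
    intro a' _
    simp [rtsY]
  have h2 : ∀ b, rtsY S d (Sum.inl a) (Sum.inr b) (Sum.inr θ) * S.M (Sum.inr b) =
      if S.F a θ = b then 2 * (d * S.M (Sum.inr b)) else 0 := by
    intro b
    simp only [rtsY, rtsAB, h, true_and]
    split_ifs <;> ring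
  rw [h1, Finset.sum_congr rfl (fun b _ => h2 b)]
  simp

/-- total weight which can end up in the slot `t` -/
theorem rtsAB_up (S : SS n δ A B Θ) (d : ℝ) (a : A) (b : B) (t : Option Θ) [DecidableEq Θ] :
    rtsAB S d a b (Sum.inl t) + ∑ θ, (if t = some θ then rtsAB S d a b (Sum.inr θ) else 0) +
      ∑ θ, (if S.dump a θ = t then rtsAB S d a b (Sum.inr θ) else 0) =
      S.y (Sum.inl a) (Sum.inr b) t + d * (rtsCnt S a b t + rtsR S a b t) := by
  classical
  have h1 : ∑ θ, (if t = some θ then rtsAB S d a b (Sum.inr θ) else 0) = 2 * d * rtsR S a b t := by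
    rcases t with _ | θ0
    · simp [rtsR]
    · have : ∀ θ, (if some θ0 = some θ then rtsAB S d a b (Sum.inr θ) else 0) =
          if θ0 = θ then rtsAB S d a b (Sum.inr θ) else 0 := by
        intro θ
        simp only [Option.some.injEq]
      rw [Finset.sum_congr rfl (fun θ _ => this θ)]
      simp [rtsAB, rtsR]
  have h2 : ∑ θ, (if S.dump a θ = t then rtsAB S d a b (Sum.inr θ) else 0) =
      2 * d * rtsCnt S a b t := by
    unfold rtsCnt
    rw [Finset.mul_sum]
    apply Finset.sum_congr rfl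
    intro θ _
    by_cases h3 : S.dump a θ = t
    · rw [if_pos h3]
      simp only [rtsAB, h3, and_true]
    · rw [if_neg h3, if_neg (fun h => h3 h.2.2), mul_zero]
  rw [h1, h2]
  simp only [rtsAB]
  ring

end weights

section count

variable {V : Type} [Fintype V] (G : SimpleGraph V)

open Classical in
theorem nb_card (v : V) (P : V → Prop) :
    nb G v P = (univ.filter (fun u => G.Adj v u ∧ P u)).card := by
  unfold nb
  rw [← Set.ncard_coe_finset]
  congr 1
  ext u
  simp

theorem nb_card_of (v : V) (P : V → Prop) (s : Finset V) (h : ∀ u, u ∈ s ↔ G.Adj v u ∧ P u) :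
    nb G v P = s.card := by
  classical
  rw [nb_card]
  congr 1
  ext u
  simp [h]

theorem nb_mono (v : V) (P Q : V → Prop) (h : ∀ u, G.Adj v u → P u → Q u) :
    nb G v P ≤ nb G v Q := by
  classical
  rw [nb_card, nb_card]
  apply Finset.card_le_card
  intro u hu
  rw [Finset.mem_filter] at hu ⊢
  exact ⟨hu.1, hu.2.1, h u hu.2.1 hu.2.2⟩

theorem nb_congr (v : V) (P Q : V → Prop) (h : ∀ u, G.Adj v u → (P u ↔ Q u)) :
    nb G v P = nb G v Q :=
  le_antisymm (nb_mono G v P Q (fun u hu => (h u hu).1)) (nb_mono G v Q P (fun u hu => (h u hu).2))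

theorem nb_fiber {C : Type} [Fintype C] (f : V → C) (v : V) (P : V → Prop) :
    nb G v P = ∑ c, nb G v (fun u => f u = c ∧ P u) := by
  classical
  have h := Finset.card_eq_sum_card_fiberwise (s := univ.filter (fun u => G.Adj v u ∧ P u))
    (t := (univ : Finset C)) (f := f) (fun u _ => by simp)
  rw [nb_card, h]
  apply Finset.sum_congr rfl
  intro c _
  rw [nb_card]
  congr 1
  ext u
  simp only [Finset.mem_filter, Finset.mem_univ, true_and]
  tauto

theorem nb_or (v : V) (P Q : V → Prop) :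
    nb G v (fun u => P u ∨ Q u) ≤ nb G v P + nb G v Q := by
  classical
  rw [nb_card, nb_card, nb_card]
  refine le_trans (Finset.card_le_card ?_) (Finset.card_union_le _ _)
  intro u hu
  simp only [Finset.mem_filter, Finset.mem_univ, true_and, Finset.mem_union] at hu ⊢
  tauto

theorem nb_exists {T : Type} [Fintype T] (v : V) (P : T → V → Prop) :
    nb G v (fun u => ∃ t, P t u) ≤ ∑ t, nb G v (P t) := by
  classical
  simp only [nb_card]
  refine le_trans (Finset.card_le_card ?_)
    (Finset.card_biUnion_le (s := (univ : Finset T)) (t := fun t => univ.filter (fun u => G.Adj v u ∧ P t u)))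
  intro u hu
  simp only [Finset.mem_filter, Finset.mem_univ, true_and, Finset.mem_biUnion] at hu ⊢
  obtain ⟨h1, t, h2⟩ := hu
  exact ⟨t, h1, h2⟩

theorem nb_false (v : V) (P : V → Prop) (h : ∀ u, G.Adj v u → ¬ P u) : nb G v P = 0 := by
  classical
  rw [nb_card, Finset.card_eq_zero, Finset.filter_eq_empty_iff]
  rintro u - ⟨h1, h2⟩
  exact h u h1 h2

end count

section main

variable {n : ℕ} {δ : ℝ} {A B Θ : Type} [Fintype A] [DecidableEq A] [Fintype B] [DecidableEq B]
  [Fintype Θ] [DecidableEq Θ]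

theorem H_inl (S : SS n δ A B Θ) (a : A) (c : A ⊕ B) : S.H (Sum.inl a) c := by
  rcases c with a' | b <;> simp [SS.H]

theorem H_inr_inl (S : SS n δ A B Θ) (a : A) (b : B) : S.H (Sum.inr b) (Sum.inl a) := by
  simp [SS.H]

theorem H_inr_inr (S : SS n δ A B Θ) (b b' : B) : S.H (Sum.inr b) (Sum.inr b') ↔ S.hd b b' := by
  simp [SS.H]

/-- the final allocation -/
def rtsAl {V : Type} [DecidableEq V] (S : SS n δ A B Θ) (cls : V → A ⊕ B)
    (al : V → V → Option Θ ⊕ Θ) (Sel : V → Θ → Finset V) (u v : V) : Option Θ :=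
  if cls u = cls v then none else
  match al u v, cls u, cls v with
  | Sum.inl t, _, _ => t
  | Sum.inr θ, Sum.inl a, Sum.inr _ => if v ∈ Sel u θ then some θ else S.dump a θ
  | Sum.inr θ, Sum.inr _, Sum.inl a => if u ∈ Sel v θ then some θ else S.dump a θ
  | Sum.inr _, _, _ => none

section al

variable {V : Type} [DecidableEq V] (S : SS n δ A B Θ) (cls : V → A ⊕ B)
    (al : V → V → Option Θ ⊕ Θ) (Sel : V → Θ → Finset V) (u v : V)

theorem rtsAl_same (h : cls u = cls v) : rtsAl S cls al Sel u v = none := by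
  unfold rtsAl
  rw [if_pos h]

theorem rtsAl_inl (h : cls u ≠ cls v) (t : Option Θ) (ht : al u v = Sum.inl t) :
    rtsAl S cls al Sel u v = t := by
  unfold rtsAl
  rw [if_neg h, ht]

theorem rtsAl_AB (a : A) (b : B) (hu : cls u = Sum.inl a) (hv : cls v = Sum.inr b) (θ : Θ)
    (hθ : al u v = Sum.inr θ) :
    rtsAl S cls al Sel u v = if v ∈ Sel u θ then some θ else S.dump a θ := by
  unfold rtsAl
  rw [if_neg (by rw [hu, hv]; simp), hθ, hu, hv]

theorem rtsAl_BA (a : A) (b : B) (hu : cls u = Sum.inr b) (hv : cls v = Sum.inl a) (θ : Θ)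
    (hθ : al u v = Sum.inr θ) :
    rtsAl S cls al Sel u v = if u ∈ Sel v θ then some θ else S.dump a θ := by
  unfold rtsAl
  rw [if_neg (by rw [hu, hv]; simp), hθ, hu, hv]

theorem rtsAl_AA (a a' : A) (hu : cls u = Sum.inl a) (hv : cls v = Sum.inl a') (θ : Θ)
    (hθ : al u v = Sum.inr θ) :
    rtsAl S cls al Sel u v = none := by
  unfold rtsAl
  rw [hθ, hu, hv]
  split_ifs <;> rfl

theorem rtsAl_BB (b b' : B) (hu : cls u = Sum.inr b) (hv : cls v = Sum.inr b') (θ : Θ)
    (hθ : al u v = Sum.inr θ) :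
    rtsAl S cls al Sel u v = none := by
  unfold rtsAl
  rw [hθ, hu, hv]
  split_ifs <;> rfl

theorem rtsAl_symm (hal : ∀ u v, al u v = al v u) :
    rtsAl S cls al Sel u v = rtsAl S cls al Sel v u := by
  by_cases h : cls u = cls v
  · rw [rtsAl_same S cls al Sel u v h, rtsAl_same S cls al Sel v u h.symm]
  rcases hx : al u v with t | θ
  · rw [rtsAl_inl S cls al Sel u v h t hx,
      rtsAl_inl S cls al Sel v u (fun h' => h h'.symm) t (by rw [hal v u]; exact hx)]
  · have hx' : al v u = Sum.inr θ := by rw [hal v u]; exact hx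
    rcases hu : cls u with a | b <;> rcases hv : cls v with a' | b'
    · rw [rtsAl_AA S cls al Sel u v a a' hu hv θ hx, rtsAl_AA S cls al Sel v u a' a hv hu θ hx']
    · rw [rtsAl_AB S cls al Sel u v a b' hu hv θ hx, rtsAl_BA S cls al Sel v u a b' hv hu θ hx']
    · rw [rtsAl_BA S cls al Sel u v a' b hu hv θ hx, rtsAl_AB S cls al Sel v u a' b hv hu θ hx']
    · rw [rtsAl_BB S cls al Sel u v b b' hu hv θ hx, rtsAl_BB S cls al Sel v u b' b hv hu θ hx']

end al

/-- Positivity of the weight of the final allocation. -/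
theorem rtsAl_pos {V : Type} [DecidableEq V] (S : SS n δ A B Θ) (hδ : 0 < δ) {d : ℝ} (hd : 0 ≤ d)
    (cls : V → A ⊕ B) (al : V → V → Option Θ ⊕ Θ) (Sel : V → Θ → Finset V)
    (hpos : ∀ u v, cls u ≠ cls v → 0 < rtsY S d (cls u) (cls v) (al u v))
    (hal : ∀ u v, al u v = al v u) (u v : V)
    (hH : S.H (cls u) (cls v)) :
    0 < S.y (cls u) (cls v) (rtsAl S cls al Sel u v) ∨
      (∃ a a', cls u = Sum.inl a ∧ cls v = Sum.inl a' ∧ S.inn a a' ∧
        rtsAl S cls al Sel u v = none) := by
  classical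
  have key : ∀ u v a b, cls u = Sum.inl a → cls v = Sum.inr b →
      0 < S.y (cls u) (cls v) (rtsAl S cls al Sel u v) := by
    intro u v a b hu hv
    have hne : cls u ≠ cls v := by rw [hu, hv]; simp
    have hp := hpos u v hne
    rw [hu, hv] at hp ⊢
    rcases hx : al u v with t | θ
    · rw [hx] at hp
      rw [rtsAl_inl S cls al Sel u v hne t hx]
      simp only [rtsY, rtsAB] at hp
      have := (rtsCnt_bd S a b t).1
      nlinarith
    · rw [hx] at hp
      simp only [rtsY, rtsAB] at hp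
      split_ifs at hp with h1
      · rw [rtsAl_AB S cls al Sel u v a b hu hv θ hx]
        split_ifs
        · rw [← h1.2]
          exact lt_of_lt_of_le hδ (S.F_ge a θ h1.1)
        · rw [← h1.2]
          exact lt_of_lt_of_le hδ (S.dump_ge a θ h1.1)
      · simp at hp
  by_cases h : cls u = cls v
  · rcases hu : cls u with a | b
    · right
      refine ⟨a, a, rfl, ?_, S.inn_refl a, rtsAl_same S cls al Sel u v h⟩
      rw [← h, hu]
    · rw [← h, hu, H_inr_inr] at hH
      exact absurd hH (S.hd_irrefl b)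
  have hp := hpos u v h
  rcases hu : cls u with a | b <;> rcases hv : cls v with a' | b'
  · rcases hx : al u v with t | θ
    · rw [rtsAl_inl S cls al Sel u v h t hx]
      rw [hu, hv, hx] at hp
      simp only [rtsY] at hp
      split_ifs at hp with h1 h2
      · right
        exact ⟨a, a', rfl, rfl, h1, h2⟩
      · exact absurd hp (lt_irrefl _)
      · left
        exact hp
    · rw [hu, hv, hx] at hp
      exact absurd hp (lt_irrefl _)
  · left
    have := key u v a b' hu hv
    rwa [hu, hv] at this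
  · left
    have := key v u a' b hv hu
    rw [hu, hv, S.y_symm, rtsAl_symm S cls al Sel v u hal] at this
    exact this
  · rcases hx : al u v with t | θ
    · rw [rtsAl_inl S cls al Sel u v h t hx]
      rw [hu, hv, hx] at hp
      rw [hu, hv, H_inr_inr] at hH
      simp only [rtsY] at hp
      rw [if_pos hH] at hp
      left
      exact hp
    · rw [hu, hv, hx] at hp
      exact absurd hp (lt_irrefl _)

/-- Counting at a tight vertex. -/
theorem rts_tight {V : Type} [Fintype V] [DecidableEq V] (S : SS n δ A B Θ) {d : ℝ}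
    (G : SimpleGraph V) (cls : V → A ⊕ B) (al : V → V → Option Θ ⊕ Θ) (Sel : V → Θ → Finset V)
    (hpos : ∀ u v, cls u ≠ cls v → 0 < rtsY S d (cls u) (cls v) (al u v)) (v : V) (a : A)
    (hv : cls v = Sum.inl a) (θ : Θ) (hθ : S.el a θ) (W : Finset Θ)
    (hW : ∀ θ'', θ'' ∈ W ↔ S.el a θ'' ∧ S.dump a θ'' = some θ) (buf : Θ → Finset V)
    (hbuf : ∀ θ u, u ∈ buf θ ↔ G.Adj v u ∧ cls u ≠ cls v ∧ al v u = Sum.inr θ)
    (hSel : ∀ θ, S.el a θ → Sel v θ ⊆ buf θ) :
    nb G v (fun u => rtsAl S cls al Sel v u = some θ) =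
      nb G v (fun u => cls u ≠ cls v ∧ al v u = Sum.inl (some θ)) + (Sel v θ).card +
        ∑ θ'' ∈ W, ((buf θ'').card - (Sel v θ'').card) := by
  classical
  have hB : ∀ u θ', cls u ≠ cls v → al v u = Sum.inr θ' → ∃ b, cls u = Sum.inr b ∧ S.el a θ' := by
    intro u θ' h1 h2
    have hp := hpos v u (fun h => h1 h.symm)
    rw [hv, h2] at hp
    rcases hu : cls u with a' | b
    · rw [hu] at hp
      exact absurd hp (lt_irrefl _)
    · rw [hu] at hp
      simp only [rtsY, rtsAB] at hp
      split_ifs at hp with h3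
      · exact ⟨b, rfl, h3.1⟩
      · simp at hp
  have hX0 : nb G v (fun u => cls u ≠ cls v ∧ al v u = Sum.inl (some θ)) =
      (univ.filter (fun u => G.Adj v u ∧ (cls u ≠ cls v ∧ al v u = Sum.inl (some θ)))).card :=
    nb_card_of G v _ _ (fun u => by simp)
  have hX : nb G v (fun u => rtsAl S cls al Sel v u = some θ) =
      (univ.filter (fun u => G.Adj v u ∧ (cls u ≠ cls v ∧ al v u = Sum.inl (some θ))) ∪
        (Sel v θ ∪ W.biUnion (fun θ'' => buf θ'' \ Sel v θ''))).card := by
    apply nb_card_of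
    intro u
    symm
    simp only [Finset.mem_filter, Finset.mem_univ, true_and, Finset.mem_union, Finset.mem_biUnion,
      Finset.mem_sdiff]
    constructor
    · rintro ⟨h1, h2⟩
      by_cases hc : cls v = cls u
      · rw [rtsAl_same S cls al Sel v u hc] at h2
        exact absurd h2 (by simp)
      rcases hx : al v u with t | θ'
      · rw [rtsAl_inl S cls al Sel v u hc t hx] at h2
        left
        exact ⟨h1, fun h => hc h.symm, by rw [h2]⟩
      · obtain ⟨b, hb, hel⟩ := hB u θ' (fun h => hc h.symm) hx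
        rw [rtsAl_AB S cls al Sel v u a b hv hb θ' hx] at h2
        right
        split_ifs at h2 with h3
        · left
          rw [Option.some.injEq] at h2
          rw [← h2]
          exact h3
        · right
          refine ⟨θ', (hW θ').2 ⟨hel, h2⟩, (hbuf θ' u).2 ⟨h1, fun h => hc h.symm, hx⟩, h3⟩
    · rintro (⟨h1, h2, h3⟩ | h1 | ⟨θ'', h1, h2, h3⟩)
      · exact ⟨h1, rtsAl_inl S cls al Sel v u (fun h => h2 h.symm) _ h3⟩
      · obtain ⟨h2, h3, h4⟩ := (hbuf θ u).1 (hSel θ hθ h1)
        obtain ⟨b, hb, hel⟩ := hB u θ h3 h4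
        refine ⟨h2, ?_⟩
        rw [rtsAl_AB S cls al Sel v u a b hv hb θ h4, if_pos h1]
      · obtain ⟨h4, h5, h6⟩ := (hbuf θ'' u).1 h2
        obtain ⟨b, hb, hel⟩ := hB u θ'' h5 h6
        refine ⟨h4, ?_⟩
        rw [rtsAl_AB S cls al Sel v u a b hv hb θ'' h6, if_neg h3]
        exact ((hW θ'').1 h1).2
  have hd1 : Disjoint (univ.filter (fun u => G.Adj v u ∧ (cls u ≠ cls v ∧ al v u = Sum.inl (some θ))))
      (Sel v θ ∪ W.biUnion (fun θ'' => buf θ'' \ Sel v θ'')) := by
    rw [Finset.disjoint_left]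
    intro u h1 h2
    rw [Finset.mem_filter] at h1
    rw [Finset.mem_union, Finset.mem_biUnion] at h2
    rcases h2 with h2 | ⟨θ'', h2, h3⟩
    · have h4 := ((hbuf θ u).1 (hSel θ hθ h2)).2.2
      rw [h1.2.2.2] at h4
      exact absurd h4 (by simp)
    · rw [Finset.mem_sdiff] at h3
      have h4 := ((hbuf θ'' u).1 h3.1).2.2
      rw [h1.2.2.2] at h4
      exact absurd h4 (by simp)
  have hd2 : Disjoint (Sel v θ) (W.biUnion (fun θ'' => buf θ'' \ Sel v θ'')) := by
    rw [Finset.disjoint_left]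
    intro u h1 h2
    rw [Finset.mem_biUnion] at h2
    obtain ⟨θ'', h2, h3⟩ := h2
    rw [Finset.mem_sdiff] at h3
    have h4 := ((hbuf θ'' u).1 h3.1).2.2
    have h5 := ((hbuf θ u).1 (hSel θ hθ h1)).2.2
    rw [h4, Sum.inr.injEq] at h5
    rw [h5] at h3
    exact h3.2 h1
  have hd3 : ((W : Set Θ)).PairwiseDisjoint (fun θ'' => buf θ'' \ Sel v θ'') := by
    intro θ1 _ θ2 _ hne
    show Disjoint _ _
    rw [Finset.disjoint_left]
    intro u h1 h2
    rw [Finset.mem_sdiff] at h1 h2
    have h4 := ((hbuf θ1 u).1 h1.1).2.2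
    have h5 := ((hbuf θ2 u).1 h2.1).2.2
    rw [h4, Sum.inr.injEq] at h5
    exact hne h5
  rw [hX, hX0, Finset.card_union_of_disjoint hd1, Finset.card_union_of_disjoint hd2,
    Finset.card_biUnion (fun a ha b hb hab => hd3 ha hb hab), add_assoc]
  congr 2
  apply Finset.sum_congr rfl
  intro θ'' h
  rw [Finset.card_sdiff_of_subset (hSel θ'' ((hW θ'').1 h).1)]

/-- Counting at a slack vertex. -/
theorem rts_slack {V : Type} [Fintype V] [DecidableEq V] (S : SS n δ A B Θ) (hδ : 0 < δ) {d : ℝ}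
    (hd : 0 ≤ d) (hd' : d * ((Fintype.card Θ : ℝ) + 1) ≤ δ / 4)
    (G : SimpleGraph V) (cls : V → A ⊕ B) (al : V → V → Option Θ ⊕ Θ) (Sel : V → Θ → Finset V)
    (hpos : ∀ u v, cls u ≠ cls v → 0 < rtsY S d (cls u) (cls v) (al u v))
    (ε' : ℝ) (hε : 0 ≤ ε')
    (hnb : ∀ v c x, cls v ≠ c →
      (nb G v (fun u => cls u = c ∧ al v u = x) : ℝ) ≤ rtsY S d (cls v) c x * S.M c + ε')
    (u : V) (b : B) (hu : cls u = Sum.inr b) (t : Option Θ) :
    (nb G u (fun v => S.H (cls u) (cls v) ∧ rtsAl S cls al Sel u v = t) : ℝ) ≤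
      ∑ c, S.M c * S.y (Sum.inr b) c t + δ / 4 * n +
        (Fintype.card (A ⊕ B) : ℝ) * ((2 * (Fintype.card Θ : ℝ) + 1) * ε') := by
  classical
  have hM : ∀ c, 0 ≤ S.M c := fun c => le_trans (by positivity) (S.M_ge c)
  have hq : (0 : ℝ) ≤ (Fintype.card Θ : ℝ) := Nat.cast_nonneg _
  have hy : ∀ c c' t, 0 ≤ S.y c c' t := S.y_nonneg
  have hc : ∀ c, (nb G u (fun v => cls v = c ∧
      (S.H (cls u) (cls v) ∧ rtsAl S cls al Sel u v = t)) : ℝ) ≤
      S.M c * S.y (Sum.inr b) c t + δ / 4 * S.M c + (2 * (Fintype.card Θ : ℝ) + 1) * ε' := by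
    intro c
    rcases c with a | b'
    · have h1 : nb G u (fun v => cls v = Sum.inl a ∧
          (S.H (cls u) (cls v) ∧ rtsAl S cls al Sel u v = t)) ≤
          nb G u (fun v => cls v = Sum.inl a ∧ al u v = Sum.inl t) +
          (∑ θ, nb G u (fun v => t = some θ ∧ (cls v = Sum.inl a ∧ al u v = Sum.inr θ)) +
            ∑ θ, nb G u (fun v => S.dump a θ = t ∧ (cls v = Sum.inl a ∧ al u v = Sum.inr θ))) := by
        refine le_trans (nb_mono G u _ (fun v => (cls v = Sum.inl a ∧ al u v = Sum.inl t) ∨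
          ((∃ θ, t = some θ ∧ (cls v = Sum.inl a ∧ al u v = Sum.inr θ)) ∨
            (∃ θ, S.dump a θ = t ∧ (cls v = Sum.inl a ∧ al u v = Sum.inr θ)))) ?_) ?_
        · rintro v - ⟨h2, -, h3⟩
          have hne : cls u ≠ cls v := by rw [hu, h2]; simp
          rcases hx : al u v with t' | θ
          · rw [rtsAl_inl S cls al Sel u v hne t' hx] at h3
            left
            exact ⟨h2, by rw [h3]⟩
          · rw [rtsAl_BA S cls al Sel u v a b hu h2 θ hx] at h3
            right
            split_ifs at h3 with h4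
            · left
              exact ⟨θ, h3.symm, h2, rfl⟩
            · right
              exact ⟨θ, h3, h2, rfl⟩
        · refine le_trans (nb_or G u _ _) (Nat.add_le_add_left ?_ _)
          refine le_trans (nb_or G u _ _) (Nat.add_le_add ?_ ?_)
          · exact nb_exists G u _
          · exact nb_exists G u _
      have h2 : ∀ x, (nb G u (fun v => cls v = Sum.inl a ∧ al u v = x) : ℝ) ≤
          rtsAB S d a b x * S.M (Sum.inl a) + ε' := by
        intro x
        have := hnb u (Sum.inl a) x (by rw [hu]; simp)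
        rw [hu] at this
        exact this
      have h3 : ∀ (P : Prop) [Decidable P] (θ : Θ),
          (nb G u (fun v => P ∧ (cls v = Sum.inl a ∧ al u v = Sum.inr θ)) : ℝ) ≤
          (if P then rtsAB S d a b (Sum.inr θ) else 0) * S.M (Sum.inl a) + ε' := by
        intro P _ θ
        by_cases hP : P
        · rw [if_pos hP]
          refine le_trans ?_ (h2 (Sum.inr θ))
          have : nb G u (fun v => P ∧ (cls v = Sum.inl a ∧ al u v = Sum.inr θ)) ≤
              nb G u (fun v => cls v = Sum.inl a ∧ al u v = Sum.inr θ) :=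
            nb_mono G u _ _ (fun v _ h => h.2)
          exact_mod_cast this
        · rw [if_neg hP, nb_false G u _ (fun v _ h => hP h.1)]
          simpa using hε
      have h4 : (nb G u (fun v => cls v = Sum.inl a ∧
          (S.H (cls u) (cls v) ∧ rtsAl S cls al Sel u v = t)) : ℝ) ≤
          (rtsAB S d a b (Sum.inl t) * S.M (Sum.inl a) + ε') +
          (∑ θ, ((if t = some θ then rtsAB S d a b (Sum.inr θ) else 0) * S.M (Sum.inl a) + ε') +
            ∑ θ, ((if S.dump a θ = t then rtsAB S d a b (Sum.inr θ) else 0) * S.M (Sum.inl a) + ε')) := by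
        have h5 : (nb G u (fun v => cls v = Sum.inl a ∧
          (S.H (cls u) (cls v) ∧ rtsAl S cls al Sel u v = t)) : ℝ) ≤ ((
          nb G u (fun v => cls v = Sum.inl a ∧ al u v = Sum.inl t) +
          (∑ θ, nb G u (fun v => t = some θ ∧ (cls v = Sum.inl a ∧ al u v = Sum.inr θ)) +
            ∑ θ, nb G u (fun v => S.dump a θ = t ∧ (cls v = Sum.inl a ∧ al u v = Sum.inr θ))) : ℕ) : ℝ) := by
          exact_mod_cast h1
        refine h5.trans ?_
        push_cast
        refine add_le_add (h2 _) (add_le_add ?_ ?_)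
        · exact Finset.sum_le_sum (fun θ _ => h3 _ θ)
        · exact Finset.sum_le_sum (fun θ _ => h3 _ θ)
      refine h4.trans ?_
      rw [Finset.sum_add_distrib, Finset.sum_add_distrib, ← Finset.sum_mul, ← Finset.sum_mul]
      simp only [Finset.sum_const, Finset.card_univ, nsmul_eq_mul]
      have h6 := rtsAB_up S d a b t
      have h7 := rtsCnt_bd S a b t
      have h8 : S.y (Sum.inr b) (Sum.inl a) t = S.y (Sum.inl a) (Sum.inr b) t := S.y_symm _ _ _
      rw [h8]
      have h9 : d * (rtsCnt S a b t + rtsR S a b t) ≤ δ / 4 :=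
        le_trans (mul_le_mul_of_nonneg_left h7.2 hd) hd'
      have h10 := hM (Sum.inl a)
      have h11 : (rtsAB S d a b (Sum.inl t) +
          ∑ θ, (if t = some θ then rtsAB S d a b (Sum.inr θ) else 0) +
          ∑ θ, (if S.dump a θ = t then rtsAB S d a b (Sum.inr θ) else 0)) * S.M (Sum.inl a) ≤
          (S.y (Sum.inl a) (Sum.inr b) t + δ / 4) * S.M (Sum.inl a) := by
        apply mul_le_mul_of_nonneg_right _ h10
        rw [h6]
        linarith
      nlinarith
    · by_cases hb : S.hd b b'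
      · have hne : b ≠ b' := by
          rintro rfl
          exact S.hd_irrefl _ hb
        have h1 : nb G u (fun v => cls v = Sum.inr b' ∧
            (S.H (cls u) (cls v) ∧ rtsAl S cls al Sel u v = t)) ≤
            nb G u (fun v => cls v = Sum.inr b' ∧ al u v = Sum.inl t) := by
          apply nb_mono
          rintro v - ⟨h2, -, h3⟩
          refine ⟨h2, ?_⟩
          have hne' : cls u ≠ cls v := by
            rw [hu, h2]
            intro h
            exact hne (Sum.inr.inj h)
          rcases hx : al u v with t' | θ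
          · rw [rtsAl_inl S cls al Sel u v hne' t' hx] at h3
            rw [h3]
          · have hp := hpos u v hne'
            rw [hu, h2, hx] at hp
            exact absurd hp (lt_irrefl _)
        have h2 := hnb u (Sum.inr b') (Sum.inl t) (by
          rw [hu]
          intro h
          exact hne (Sum.inr.inj h))
        rw [hu] at h2
        simp only [rtsY] at h2
        rw [if_pos hb] at h2
        have h3 : (nb G u (fun v => cls v = Sum.inr b' ∧
            (S.H (Sum.inr b) (cls v) ∧ rtsAl S cls al Sel u v = t)) : ℝ) ≤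
            (nb G u (fun v => cls v = Sum.inr b' ∧ al u v = Sum.inl t) : ℝ) := by
          rw [hu] at h1
          exact_mod_cast h1
        rw [hu]
        have h4 := hM (Sum.inr b')
        have h5 : 0 ≤ δ / 4 * S.M (Sum.inr b') := by positivity
        have h6 : ε' ≤ (2 * (Fintype.card Θ : ℝ) + 1) * ε' := by nlinarith
        nlinarith
      · have h1 : nb G u (fun v => cls v = Sum.inr b' ∧
            (S.H (cls u) (cls v) ∧ rtsAl S cls al Sel u v = t)) = 0 := by
          apply nb_false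
          rintro v - ⟨h2, h3, -⟩
          rw [hu, h2, H_inr_inr] at h3
          exact hb h3
        rw [h1]
        have h2 := hM (Sum.inr b')
        have h3 := hy (Sum.inr b) (Sum.inr b') t
        have h4 : 0 ≤ S.M (Sum.inr b') * S.y (Sum.inr b) (Sum.inr b') t := mul_nonneg h2 h3
        have h5 : 0 ≤ δ / 4 * S.M (Sum.inr b') := by positivity
        have h6 : 0 ≤ (2 * (Fintype.card Θ : ℝ) + 1) * ε' := by positivity
        push_cast
        linarith
  rw [nb_fiber G cls u]
  push_cast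
  refine (Finset.sum_le_sum (fun c _ => hc c)).trans ?_
  rw [Finset.sum_add_distrib, Finset.sum_add_distrib, ← Finset.mul_sum, S.M_sum]
  simp

end main

/-- RTS: every sided schedule is realised by every large `n`-regular graph. -/
theorem rts (A B Θ : Type) [Fintype A] [DecidableEq A] [Fintype B] [DecidableEq B] [Fintype Θ]
    [DecidableEq Θ] (δ η : ℝ) (hδ : 0 < δ) (hη : 0 < η) :
    ∃ N0 : ℕ, ∀ n : ℕ, N0 ≤ n → ∀ (S : SS n δ A B Θ) (V : Type) [Fintype V] [DecidableEq V]
      (G : SimpleGraph V), (∀ v, (G.neighborSet v).ncard = n) →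
      ∃ (cls : V → A ⊕ B) (al : V → V → Option Θ),
        (∀ v c, |(nb G v (fun u => cls u = c) : ℝ) - S.M c| ≤ η * n) ∧
        (∀ u v, al u v = al v u) ∧
        (∀ u v, G.Adj u v → S.H (cls u) (cls v) → 0 < S.y (cls u) (cls v) (al u v) ∨
          (∃ a a', cls u = Sum.inl a ∧ cls v = Sum.inl a' ∧ S.inn a a' ∧ al u v = none)) ∧
        (∀ v θ, nb G v (fun u => S.H (cls v) (cls u) ∧ al v u = some θ) ≤ S.len θ) ∧
        (∀ v, nb G v (fun u => S.H (cls v) (cls u) ∧ al v u = none) + 1 ≤ S.star) := by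
  classical
  obtain ⟨q, hq⟩ : ∃ q : ℝ, q = (Fintype.card Θ : ℝ) := ⟨_, rfl⟩
  have hq0 : 0 ≤ q := by rw [hq]; positivity
  obtain ⟨k, hk⟩ : ∃ k : ℝ, k = (Fintype.card (A ⊕ B) : ℝ) := ⟨_, rfl⟩
  have hk0 : 0 ≤ k := by rw [hk]; positivity
  obtain ⟨d, hd⟩ : ∃ d : ℝ, d = δ / (4 * (q + 1)) := ⟨_, rfl⟩
  have hd0 : 0 < d := by rw [hd]; positivity
  have hdq : d * (q + 1) = δ / 4 := by rw [hd]; field_simp
  obtain ⟨η', hη', h1, h2, h3⟩ : ∃ η' : ℝ, 0 < η' ∧ η' ≤ η ∧ (2 * q + 3) * (k * η') ≤ d * δ ∧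
      k * ((2 * q + 1) * η') ≤ δ / 4 := by
    refine ⟨min η (min (d * δ / ((2 * q + 3) * (k + 1))) (δ / (4 * (2 * q + 1) * (k + 1)))),
      ?_, min_le_left _ _, ?_, ?_⟩
    · exact lt_min hη (lt_min (by positivity) (by positivity))
    · have h4 : min η (min (d * δ / ((2 * q + 3) * (k + 1))) (δ / (4 * (2 * q + 1) * (k + 1)))) ≤
          d * δ / ((2 * q + 3) * (k + 1)) := (min_le_right _ _).trans (min_le_left _ _)
      rw [le_div_iff₀ (by positivity)] at h4
      have h5 : 0 ≤ min η (min (d * δ / ((2 * q + 3) * (k + 1))) (δ / (4 * (2 * q + 1) * (k + 1)))) :=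
        le_min hη.le (le_min (by positivity) (by positivity))
      have h6 : 0 ≤ (2 * q + 3) * min η (min (d * δ / ((2 * q + 3) * (k + 1)))
        (δ / (4 * (2 * q + 1) * (k + 1)))) := by positivity
      nlinarith
    · have h4 : min η (min (d * δ / ((2 * q + 3) * (k + 1))) (δ / (4 * (2 * q + 1) * (k + 1)))) ≤
          δ / (4 * (2 * q + 1) * (k + 1)) := (min_le_right _ _).trans (min_le_right _ _)
      rw [le_div_iff₀ (by positivity)] at h4
      have h5 : 0 ≤ min η (min (d * δ / ((2 * q + 3) * (k + 1))) (δ / (4 * (2 * q + 1) * (k + 1)))) :=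
        le_min hη.le (le_min (by positivity) (by positivity))
      have h6 : 0 ≤ (2 * q + 1) * min η (min (d * δ / ((2 * q + 3) * (k + 1)))
        (δ / (4 * (2 * q + 1) * (k + 1)))) := by positivity
      nlinarith
  obtain ⟨N1, hN1⟩ := HY.pre (A ⊕ B) (Option Θ ⊕ Θ) η' hη'
  refine ⟨N1 + ⌈2 / δ⌉₊ + 1, ?_⟩
  intro n hn S V _ _ G hG
  have hn0 : (0 : ℝ) ≤ n := Nat.cast_nonneg _
  have hnδ : 2 ≤ δ * n := by
    have h4 : ((⌈2 / δ⌉₊ : ℕ) : ℝ) ≤ n := by exact_mod_cast (by omega : ⌈2 / δ⌉₊ ≤ n)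
    have h5 := (Nat.le_ceil (2 / δ)).trans h4
    rw [div_le_iff₀ hδ] at h5
    linarith
  have hM : ∀ c, 0 ≤ S.M c := fun c => le_trans (by positivity) (S.M_ge c)
  have hdΘ : d * ((Fintype.card Θ : ℝ) + 1) ≤ δ := by
    rw [← hq, hdq]
    linarith
  obtain ⟨cls, al, p1, p2, p3, p4⟩ := hN1 n (by omega) V G hG S.M hM S.M_sum (rtsY S d)
    (rtsY_nonneg S hd0.le hdΘ) (rtsY_symm S d) (fun c c' _ => rtsY_sum S d c c')
  have hE0 : 0 ≤ k * (η' * n) := by positivity
  have cn_est : ∀ v a, cls v = Sum.inl a → ∀ x, x ≠ Sum.inl none →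
      |(nb G v (fun u => cls u ≠ cls v ∧ al v u = x) : ℝ) -
        ∑ c, rtsY S d (Sum.inl a) c x * S.M c| ≤ k * (η' * n) := by
    intro v a hv x hx
    rw [nb_fiber G cls v]
    push_cast
    rw [← Finset.sum_sub_distrib]
    refine (Finset.abs_sum_le_sum_abs _ _).trans ?_
    have h4 : ∀ c ∈ (univ : Finset (A ⊕ B)),
        |(nb G v (fun u => cls u = c ∧ (cls u ≠ cls v ∧ al v u = x)) : ℝ) -
          rtsY S d (Sum.inl a) c x * S.M c| ≤ η' * n := by
      intro c _
      by_cases hc : cls v = c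
      · rw [nb_false G v _ (fun u _ h => h.2.1 (h.1.trans hc.symm)), ← hc, hv, rtsY_self S d a x hx]
        simp only [Nat.cast_zero, zero_mul, sub_zero, abs_zero]
        positivity
      · have h5 : nb G v (fun u => cls u = c ∧ (cls u ≠ cls v ∧ al v u = x)) =
            nb G v (fun u => cls u = c ∧ al v u = x) := by
          apply nb_congr
          intro u _
          constructor
          · exact fun h => ⟨h.1, h.2.2⟩
          · exact fun h => ⟨h.1, fun h' => hc (h'.symm.trans h.1), h.2⟩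
        rw [h5]
        have h6 := p4 v c x hc
        rw [hv] at h6
        exact h6
    refine (Finset.sum_le_card_nsmul _ _ _ h4).trans ?_
    rw [nsmul_eq_mul, Finset.card_univ, ← hk]
  have hs : ∀ v, ∃ Sel : Θ → Finset V, ∀ a, cls v = Sum.inl a →
      (∀ θ, S.el a θ → Sel θ ⊆ univ.filter (fun u => G.Adj v u ∧ cls u ≠ cls v ∧ al v u = Sum.inr θ)) ∧
      ∀ θ, S.el a θ → nb G v (fun u => cls u ≠ cls v ∧ al v u = Sum.inl (some θ)) + (Sel θ).card +
        ∑ θ'' ∈ univ.filter (fun θ'' => S.el a θ'' ∧ S.dump a θ'' = some θ),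
          ((univ.filter (fun u => G.Adj v u ∧ cls u ≠ cls v ∧ al v u = Sum.inr θ'')).card -
            (Sel θ'').card) = S.len θ := by
    intro v
    rcases hv : cls v with a | b
    · have hbuf : ∀ θ, (univ.filter (fun u => G.Adj v u ∧ cls u ≠ Sum.inl a ∧ al v u = Sum.inr θ)).card =
          nb G v (fun u => cls u ≠ cls v ∧ al v u = Sum.inr θ) := by
        intro θ
        rw [nb_card_of]
        intro u
        rw [hv]
        simp
      obtain ⟨s, hs1, hs2⟩ := rts_arith (S.el a) (S.dump a) (S.dump_el a) S.len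
        (fun θ => nb G v (fun u => cls u ≠ cls v ∧ al v u = Sum.inl (some θ)))
        (fun θ => nb G v (fun u => cls u ≠ cls v ∧ al v u = Sum.inr θ))
        (fun θ => d * S.M (Sum.inr (S.F a θ))) (k * (η' * n)) hE0
        (by
          intro θ _
          rw [← hq]
          have h4 := S.M_ge (Sum.inr (S.F a θ))
          have h5 : d * (δ * n) ≤ d * S.M (Sum.inr (S.F a θ)) := mul_le_mul_of_nonneg_left h4 hd0.le
          have h6 : (2 * q + 3) * (k * η') * n ≤ d * δ * n := mul_le_mul_of_nonneg_right h2 hn0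
          linarith)
        (by
          intro θ hθ
          have h4 := cn_est v a hv (Sum.inl (some θ)) (by simp)
          rw [rtsY_tight S d a θ hθ] at h4
          exact h4)
        (by
          intro θ hθ
          have h4 := cn_est v a hv (Sum.inr θ) (by simp)
          rw [rtsY_buf S d a θ hθ] at h4
          exact h4)
      have h4 : ∀ θ, ∃ t : Finset V, S.el a θ →
          t ⊆ univ.filter (fun u => G.Adj v u ∧ cls u ≠ Sum.inl a ∧ al v u = Sum.inr θ) ∧
          t.card = s θ := by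
        intro θ
        by_cases hθ : S.el a θ
        · have h5 := hs1 θ hθ
          rw [← hbuf θ] at h5
          obtain ⟨t, ht1, ht2⟩ := Finset.exists_subset_card_eq h5
          exact ⟨t, fun _ => ⟨ht1, ht2⟩⟩
        · exact ⟨∅, fun h => absurd h hθ⟩
      choose Sel hSel using h4
      refine ⟨Sel, ?_⟩
      intro a' ha'
      have : a' = a := by
        exact (Sum.inl.inj ha').symm
      subst this
      refine ⟨fun θ hθ => (hSel θ hθ).1, ?_⟩
      intro θ hθ
      have h5 := hs2 θ hθ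
      rw [(hSel θ hθ).2]
      rw [hv] at h5
      rw [← h5]
      congr 1
      apply Finset.sum_congr
      · ext θ''
        simp
      · intro θ'' h6
        simp only [Finset.mem_filter, Finset.mem_univ, true_and] at h6
        rw [(hSel θ'' h6.1).2, hbuf θ'', hv]
    · exact ⟨fun _ => ∅, fun a h => by simp at h⟩
  choose Sel hSel using hs
  have hP3 := fun (u v : V) (hH : S.H (cls u) (cls v)) =>
    rtsAl_pos S hδ hd0.le cls al Sel p3 p2 u v hH
  have htight : ∀ v a, cls v = Sum.inl a → ∀ θ, S.el a θ →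
      nb G v (fun u => rtsAl S cls al Sel v u = some θ) = S.len θ := by
    intro v a hv θ hθ
    obtain ⟨h4, h5⟩ := hSel v a hv
    rw [← h5 θ hθ]
    exact rts_tight S G cls al Sel p3 v a hv θ hθ _ (fun θ'' => by simp) _ (fun θ u => by simp) h4
  have htight0 : ∀ v a, cls v = Sum.inl a → ∀ θ, ¬ S.el a θ →
      nb G v (fun u => rtsAl S cls al Sel v u = some θ) = 0 := by
    intro v a hv θ hθ
    apply nb_false
    intro u _ hu
    have h4 := hP3 v u (by rw [hv]; exact H_inl S a _)
    rw [hu, hv] at h4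
    rcases h4 with h4 | ⟨a', a'', _, _, _, h5⟩
    · exact hθ (S.y_el a _ θ h4)
    · exact absurd h5 (by simp)
  refine ⟨cls, rtsAl S cls al Sel, ?_, ?_, ?_, ?_, ?_⟩
  · intro v c
    refine (p1 v c).trans (mul_le_mul_of_nonneg_right h1 hn0)
  · intro u v
    exact rtsAl_symm S cls al Sel u v p2
  · intro u v _ hH
    exact hP3 u v hH
  · intro v θ
    rcases hv : cls v with a | b
    · refine le_trans (nb_mono G v _ (fun u => rtsAl S cls al Sel v u = some θ) (fun u _ h => h.2)) ?_
      by_cases hθ : S.el a θ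
      · rw [htight v a hv θ hθ]
      · rw [htight0 v a hv θ hθ]
        exact Nat.zero_le _
    · have h4 := rts_slack S hδ hd0.le (by rw [← hq, hdq]) G cls al Sel p3 (η' * n) (by positivity)
        (fun v c x hc => by
          have h5 := p4 v c x hc
          rw [abs_le] at h5
          linarith [h5.2]) v b hv (some θ)
      rw [← hq, ← hk, hv] at h4
      have h5 := S.load b θ
      have h6 : k * ((2 * q + 1) * (η' * n)) ≤ δ / 4 * n := by
        have := mul_le_mul_of_nonneg_right h3 hn0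
        linarith
      have h7 : (nb G v (fun u => S.H (Sum.inr b) (cls u) ∧ rtsAl S cls al Sel v u = some θ) : ℝ) ≤
          (S.len θ : ℝ) := by
        nlinarith
      exact_mod_cast h7
  · intro v
    rcases hv : cls v with a | b
    · have h4 : nb G v (fun u => S.H (Sum.inl a) (cls u) ∧ rtsAl S cls al Sel v u = none) =
          nb G v (fun u => rtsAl S cls al Sel v u = none) := by
        apply nb_congr
        intro u _
        exact ⟨fun h => h.2, fun h => ⟨H_inl S a _, h⟩⟩
      rw [h4]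
      have h5 : nb G v (fun _ => True) = n := by
        rw [← hG v]
        unfold nb
        congr 1
        ext u
        simp
      have h6 := nb_fiber G (fun u => rtsAl S cls al Sel v u) v (fun _ => True)
      rw [h5, Fintype.sum_option] at h6
      have h7 : ∑ θ, nb G v (fun u => rtsAl S cls al Sel v u = some θ ∧ True) =
          ∑ θ ∈ (Set.toFinite {θ | S.el a θ}).toFinset, S.len θ := by
        have h8 : (Set.toFinite {θ | S.el a θ}).toFinset = univ.filter (fun θ => S.el a θ) := by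
          ext θ
          simp
        rw [h8, Finset.sum_filter]
        apply Finset.sum_congr rfl
        intro θ _
        have h9 : nb G v (fun u => rtsAl S cls al Sel v u = some θ ∧ True) =
            nb G v (fun u => rtsAl S cls al Sel v u = some θ) :=
          nb_congr G v _ _ (fun u _ => by simp)
        rw [h9]
        split_ifs with h10
        · exact htight v a hv θ h10
        · exact htight0 v a hv θ h10
      have h8 : nb G v (fun u => rtsAl S cls al Sel v u = none ∧ True) =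
          nb G v (fun u => rtsAl S cls al Sel v u = none) :=
        nb_congr G v _ _ (fun u _ => by simp)
      rw [h7, h8] at h6
      have h9 := S.total a
      omega
    · have h4 := rts_slack S hδ hd0.le (by rw [← hq, hdq]) G cls al Sel p3 (η' * n) (by positivity)
        (fun v c x hc => by
          have h5 := p4 v c x hc
          rw [abs_le] at h5
          linarith [h5.2]) v b hv none
      rw [← hq, ← hk, hv] at h4
      have h5 := S.loadT b
      have h6 : k * ((2 * q + 1) * (η' * n)) ≤ δ / 4 * n := by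
        have := mul_le_mul_of_nonneg_right h3 hn0
        linarith
      have h7 : (nb G v (fun u => S.H (Sum.inr b) (cls u) ∧ rtsAl S cls al Sel v u = none) : ℝ) + 1 ≤
          (S.star : ℝ) := by
        nlinarith
      exact_mod_cast h7

end Pool.Agent.H70.HY
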