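import Mathlib
import Pool.Agent.H70.HY.Defs

/-! The geometry of the labels. -/

set_option autoImplicit false

namespace Pool.Agent.H70.HY

open Finset

/-- Geometry: labels `0..n+2p-1`; the star block consists of the labels `< r0 + s t`, the block
`j ≥ t` of the labels `[r0 + s j, r0 + s (j+1))`; the vertices of the tight class `i` get labels in
`p + [r0 + s X i, r0 + s (X i + g))`, the L vertices in `[0, lenL)`, the H vertices in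
`[n + 2p - lenH, n + 2p)`. -/
structure Geo {n : ℕ} {δ : ℝ} {K N' : ℕ} {B : Type} [Fintype B] [DecidableEq B]
    (S : US n δ (Fin K) B (Fin N')) (p : ℕ) (η : ℝ) where
  s : ℕ
  r0 : ℕ
  g : ℕ
  P' : ℕ
  J0 : ℕ
  J1 : ℕ
  t : ℕ
  nz : ℕ
  lenL : ℕ
  lenH : ℕ
  DL : ℕ
  DH : ℕ
  X : Fin K → ℕ
  s_pos : 0 < s
  p_pos : 0 < p
  tot : n + 2 * p = r0 + s * N'
  star_eq : S.star = r0 + s * t
  l_eq : ∀ j, 8 * S.l j = s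
  z_eq : S.z = nz + 1
  nz_eq : nz + 2 * p = s * (g + P')
  P1 : 2 * p ≤ s * P'
  P2 : s * P' < 2 * p + s
  big : (g + 2) * s ≤ 2 * p
  X_mono : ∀ i i', i < i' → X i + g ≤ X i'
  t_le : ∀ i, t ≤ X i
  X_top : ∀ i, X i + g + P' ≤ N'
  tJ0 : t ≤ J0
  J01 : J0 ≤ J1
  J1N : J1 ≤ N'
  el_win : ∀ i j, S.el i j → t ≤ (j : ℕ) ∧ ((j : ℕ) < X i ∨ X i + g + P' ≤ (j : ℕ))
  useH : ∀ i b j, 0 < S.yw i b j → S.ty b = true → (j : ℕ) < J1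
  useL : ∀ i b j, 0 < S.yw i b j → S.ty b = false → J0 ≤ (j : ℕ)
  useB : ∀ b b' j, 0 < S.yb b b' j → J0 ≤ (j : ℕ) ∧ (j : ℕ) < J1
  ex1 : ∀ i i' j, 0 < S.yw i (S.unit i') j →
    ¬ ((X i' ≤ (j : ℕ) ∧ (j : ℕ) ≤ X i' + g) ∨ (X i' + P' ≤ (j : ℕ) + 1 ∧ (j : ℕ) < X i' + g + P'))
  ex2 : ∀ b i' j, 0 < S.yb (S.unit i') b j →
    ¬ ((X i' ≤ (j : ℕ) ∧ (j : ℕ) ≤ X i' + g) ∨ (X i' + P' ≤ (j : ℕ) + 1 ∧ (j : ℕ) < X i' + g + P'))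
  ex3 : ∀ i i', i ≠ i' → S.unit i = S.unit i' → ∀ j : ℕ,
    ((X i ≤ j ∧ j ≤ X i + g) ∨ (X i + P' ≤ j + 1 ∧ j < X i + g + P')) →
    ¬ ((X i' ≤ j ∧ j ≤ X i' + g) ∨ (X i' + P' ≤ j + 1 ∧ j < X i' + g + P'))
  zH : ∀ i, S.ty (S.unit i) = true → X i + g + P' ≤ J1
  zL : ∀ i, S.ty (S.unit i) = false → J0 ≤ X i
  L_fit : p + lenL + DL ≤ r0 + s * J0
  H_fit : r0 + s * J1 + DH + lenH + p ≤ n + 2 * p
  lenL_le : lenL ≤ p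
  lenH_le : lenH ≤ p
  L_size : ∑ b, (if S.ty b = false then S.M (Sum.inr b) + η * n else 0) + 1 ≤ lenL
  L_size' : ∑ b, (if S.ty b = false then S.M (Sum.inr b) + η * n else 0) + 1 ≤ DL
  H_size : ∑ b, (if S.ty b = true then S.M (Sum.inr b) + η * n else 0) + 1 ≤ lenH
  H_size' : ∑ b, (if S.ty b = true then S.M (Sum.inr b) + η * n else 0) + 1 ≤ DH
  M_size : ∀ i, S.M (Sum.inl i) + η * n + 1 ≤ (g * s : ℕ)
  top : ∀ i, p + r0 + s * (X i + g) + lenH ≤ n + 2 * p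

end Pool.Agent.H70.HY
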