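import Mathlib

/-! The time structure of the schedule, in grid units (definitions). -/

set_option autoImplicit false

namespace Pool.Agent.H70.HY

open Finset

/-- Grid parameters. Tight classes `0 ≤ i < K`, each of mass `m = g - 2κ`, with windows
`[t, X i)` and `[X i + g + P, N)`, `X i = g (i+2)`. -/
structure GP where
  κ : ℕ
  g : ℕ
  K : ℕ
  k1 : ℕ
  P : ℕ
  N2 : ℕ
  /-- mass of the slack classes of one type, in grid units -/
  hp : ℝ
  /-- length of the boundary zones, in grid units -/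
  zg : ℝ
  /-- length of the star block minus the mass of a tight class, in grid units -/
  FT : ℝ
  hκ : 8 ≤ κ
  hg : 10 * κ ≤ g
  hK : 8 ≤ K
  hk1 : 1 ≤ k1
  hk2 : 2 * k1 + 4 ≤ K
  N2_ge : g * (K + 1) ≤ N2
  N2_lt : N2 < g * (K + 2)
  hp_ge : (κ : ℝ) * K ≤ hp
  hp_le : hp ≤ κ * K + 3 * g
  zg_ge : (g : ℝ) ≤ zg
  zg_le : zg ≤ g + 2
  FT_ge : 1 ≤ FT
  FT_le : FT ≤ κ - 1
  ident : (N2 : ℝ) - (g - κ - 2) - (g - 2 * κ) * (K - 1) + zg + FT = 2 * hp
  P_gt : g * (k1 + 4) ≤ P
  P_ge : 2 * (g - κ - 1 : ℝ) * k1 ≤ P + 4 * hp + 2 * g + 3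
  P_lt : P + 4 * g ≤ N2

namespace GP

variable (q : GP)

/-- mass of the tight classes -/
def m : ℕ := q.g - 2 * q.κ
/-- length of the sum classes in phase 1 -/
def g1 : ℕ := q.g - q.κ - 1
/-- first block (after the star block) -/
def t : ℕ := q.g - q.κ - 2
/-- length of the sum class `k` -/
def len (k : ℕ) : ℕ := if k < q.k1 then q.g1 else q.g
/-- start of the sum class `k` -/
def a (k : ℕ) : ℕ := if k ≤ q.k1 then q.t + q.g1 * k else q.t + q.g1 * q.k1 + q.g * (k - q.k1)
/-- the sum class of the time `j ≥ t` -/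
def kk (j : ℕ) : ℕ := if j < q.a q.k1 then (j - q.t) / q.g1 else q.k1 + (j - q.a q.k1) / q.g
def X (i : ℕ) : ℕ := q.g * (i + 2)
/-- number of label blocks -/
def N : ℕ := q.N2 + q.P + q.g
/-- mirror image of the block `j` -/
def mir (j : ℕ) : ℕ := q.N + q.t - 1 - j
/-- H only before `J0` -/
def J0 : ℕ := q.a q.k1
/-- L only from `J1` on -/
def J1 : ℕ := q.N + q.t - q.a q.k1

/-- low window -/
def Low (i j : ℕ) : Prop := q.t ≤ j ∧ j < q.X i
/-- high window -/
def High (i j : ℕ) : Prop := q.X i + q.g + q.P ≤ j ∧ j < q.N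
/-- low and paired -/
def LowP (i j : ℕ) : Prop := q.Low i j ∧ q.kk j ≤ i ∧ 2 * i ≠ q.K - 1 + q.kk j
/-- high and paired -/
def HighP (i j : ℕ) : Prop := q.High i j ∧ q.kk (q.mir j) + i + 2 ≤ q.K ∧ 2 * i + q.kk (q.mir j) + 2 ≠ q.K

open Classical in
/-- the partner of the class `i` in the block `j` -/
noncomputable def par (i j : ℕ) : Option ℕ :=
  if q.LowP i j then some (q.K - 1 + q.kk j - i)
  else if q.HighP i j then some (q.K - 2 - q.kk (q.mir j) - i) else none

open Classical in
/-- the weight of the pair of partners -/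
noncomputable def w (i j : ℕ) : ℝ :=
  if q.LowP i j then 1 / q.len (q.kk j)
  else if q.HighP i j then 1 / q.len (q.kk (q.mir j)) else 0

open Classical in
/-- what the slack classes have to provide for class `i` in the block `j` -/
noncomputable def need (i j : ℕ) : ℝ :=
  if q.Low i j ∨ q.High i j then 1 - q.m * q.w i j else 0

/-- blocks in which the class `i` uses both types -/
def Joint (i j : ℕ) : Prop :=
  (q.Low i j ∧ q.J0 ≤ j ∧ q.kk j ≤ i) ∨ (q.High i j ∧ j < q.J1 ∧ q.kk (q.mir j) + i + 2 ≤ q.K)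

/-- blocks in which the class `i` uses L only -/
def OnlyL (i j : ℕ) : Prop := q.High i j ∧ (q.J1 ≤ j ∨ q.K < q.kk (q.mir j) + i + 2)

open Classical in
noncomputable def SJ (i : ℕ) : ℝ := ∑ j ∈ range q.N, if q.Joint i j then q.need i j else 0

open Classical in
noncomputable def LF (i : ℕ) : ℝ := ∑ j ∈ range q.N, if q.OnlyL i j then q.need i j else 0

open Classical in
/-- share of L in the joint blocks of the class `i` -/
noncomputable def sg (i : ℕ) : ℝ :=
  (q.hp - (if 2 * i < q.K then 0 else q.zg) - q.LF i) / q.SJ i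

open Classical in
/-- usage of L by the class `i` in the block `j` -/
noncomputable def FL (i j : ℕ) : ℝ :=
  if q.OnlyL i j then q.need i j else if q.Joint i j then q.sg i * q.need i j else 0

/-- usage of H -/
noncomputable def FH (i j : ℕ) : ℝ := q.need i j - q.FL i j

end GP

end Pool.Agent.H70.HY
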