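import Mathlib
import Pool.Agent.H70.HY.Geo
import Pool.Agent.H70.HY.Grid

/-! Base schedules (before the introduction of the units serving the boundary zones). -/

set_option autoImplicit false

namespace Pool.Agent.H70.HY

open Finset

/-- A base schedule: one slack class of each type H, L (of mass `Ht`), no boundary units. All masses
in numbers of labels. -/
structure BS (n : ℕ) (A J : Type) [Fintype A] [LinearOrder A] [Fintype J] where
  l : ℕ
  z : ℕ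
  star : ℕ
  mM : ℝ
  Ht : ℝ
  FT : ℝ
  el : A → J → Prop
  par : A → J → Option A
  w : A → J → ℝ
  /-- type of the unit which serves the boundary zone of the class (`true` = H) -/
  iH : A → Bool
  FH : A → J → ℝ
  FL : A → J → ℝ
  mass : (Fintype.card A : ℝ) * mM + 2 * Ht = n
  par_symm : ∀ a j a', par a j = some a' → par a' j = some a ∧ a' ≠ a ∧ el a j
  w_nonneg : ∀ a j, 0 ≤ w a j
  w_symm : ∀ a j a', par a j = some a' → w a j = w a' j
  w_sum : ∀ a a', a ≠ a' → ∑ j, (if par a j = some a' then w a j else 0) = 1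
  FH_nonneg : ∀ a j, 0 ≤ FH a j
  FL_nonneg : ∀ a j, 0 ≤ FL a j
  FT_nonneg : 0 ≤ FT
  F_el : ∀ a j, ¬ el a j → FH a j = 0 ∧ FL a j = 0
  tight : ∀ a j, el a j →
    (if par a j = none then 0 else mM * w a j) + (FH a j + FL a j) = 8 * l
  totH : ∀ a, ∑ j, FH a j + FT + (if iH a = true then (z : ℝ) else 0) = Ht
  totL : ∀ a, ∑ j, FL a j + (if iH a = true then 0 else (z : ℝ)) = Ht
  total : ∀ a, (∑ _j ∈ (Set.toFinite {j | el a j}).toFinset, 8 * l) + z + star = n + 1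

/-- Availability of a slack class `b` in a block `j`: the units are not available during the boundary
zones which they serve. -/
def av {A J U : Type} (iH : A → Bool) (un : A → U) (ZB : A → J → Prop) (b : Bool × Option U)
    (j : J) : Prop :=
  ∀ a, b = (iH a, some (un a)) → ¬ ZB a j

/-- Quantitative hypotheses on a base schedule and its units. -/
structure BSQ {n : ℕ} {A J : Type} [Fintype A] [LinearOrder A] [Fintype J] (T : BS n A J) (U : Type)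
    [Fintype U] (un : A → U) (ZB : A → J → Prop) (OL : A → J → Prop) (JJ : J → Prop) (jst : A → J)
    (β δ1 S : ℝ) : Prop where
  l_ge : δ1 * n ≤ 8 * T.l
  z_ge : δ1 * n ≤ T.z
  mM_ge : δ1 * n ≤ T.mM
  mM_le : T.mM + δ1 * n ≤ T.z
  FT_ge : δ1 * n ≤ T.FT
  star_ge : δ1 * n ≤ T.star
  Ht_ge : δ1 * n ≤ T.Ht
  loadH : ∀ j, ∑ a, T.mM * T.FH a j ≤ (1 - 4 * S) * (8 * T.l) * T.Ht
  loadL : ∀ j, ∑ a, T.mM * T.FL a j ≤ (1 - 4 * S) * (8 * T.l) * T.Ht
  loadT : (Fintype.card A : ℝ) * (T.mM * T.FT) ≤ (1 - 4 * S) * T.star * T.Ht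
  fillL : ∀ a j, T.el a j → OL a j → δ1 * n ≤ T.FL a j
  fillH : ∀ a j, T.el a j → ¬ OL a j → δ1 * n ≤ T.FH a j
  β_ge : T.z + δ1 * n ≤ β
  β_le : (Fintype.card U : ℝ) * β ≤ S * T.Ht
  unav : ∀ b : Bool × Option U,
    (T.z : ℝ) + ∑ _j ∈ (Set.toFinite {j | ¬ av T.iH un ZB b j}).toFinset, 8 * (T.l : ℝ) ≤ S * T.Ht
  joint : ∀ b b' : Bool × Option U,
    T.Ht ≤ S * ∑ _j ∈ (Set.toFinite {j | JJ j ∧ av T.iH un ZB b j ∧ av T.iH un ZB b' j}).toFinset,
      8 * (T.l : ℝ)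
  jst_el : ∀ a, T.el a (jst a)
  jst_OL : ∀ a, ¬ OL a (jst a)
  jst_FL : ∀ a, δ1 * n ≤ T.FL a (jst a)
  jst_av : ∀ a, av T.iH un ZB (T.iH a, some (un a)) (jst a)

/-- Quantitative smallness of the grid parameters. -/
structure GP.Small (q : GP) (e : ℝ) : Prop where
  e_pos : 0 < e
  e_le : e ≤ 1 / 4
  k1_ge : e * q.K ≤ q.k1
  k1_le : 2 * (q.k1 : ℝ) ≤ (1 - e) * q.K
  κ_ge : 16 ≤ e * q.κ
  g_ge : 200 * (q.κ : ℝ) ^ 2 ≤ e * q.g
  K_ge : 1000 * (q.g : ℝ) ≤ e ^ 3 * q.K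

/-- The relation between the grid and the labels. -/
structure Link (q : GP) (n p s r0 nz : ℕ) : Prop where
  s_pos : 0 < s
  s8 : 8 ∣ s
  tot : n + 2 * p = r0 + s * q.N
  r0_lt : r0 < s
  P1 : 2 * p ≤ s * q.P
  P2 : s * q.P < 2 * p + s
  nz_eq : nz + 2 * p = s * (q.g + q.P)
  zg_eq : q.zg * s = nz + 1
  FT_eq : q.FT * s = (r0 + s * q.t : ℕ) - 1 - q.m * s
  hp_eq : 2 * (q.hp * s) = n - q.K * q.m * s
  fit : (p : ℝ) + 2 * (q.hp * s) + s ≤ s * (q.g1 * q.k1 : ℕ)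

/-- The boundary zone of the class `i`. -/
def GP.ZB (q : GP) (i j : ℕ) : Prop :=
  (q.X i ≤ j ∧ j ≤ q.X i + q.g) ∨ (q.X i + q.P ≤ j + 1 ∧ j < q.X i + q.g + q.P)


end Pool.Agent.H70.HY
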