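import Mathlib
import Pool.Agent.H70.HY.Base
import Pool.Agent.H28.VAL
import Pool.Agent.H28.Scheme

/-! ASM: the labelling from a realised schedule and its geometry. -/

set_option autoImplicit false

namespace Pool.Agent.H70.HY

open Finset

section ASM

variable {n : ℕ} {δ η : ℝ} {K N' p : ℕ} {B : Type} [Fintype B] [DecidableEq B]
  {S : US n δ (Fin K) B (Fin N')} {V : Type} [Fintype V] [DecidableEq V]
  {G : SimpleGraph V} {cls : V → Fin K ⊕ B} {kd : V → V → Kd (Fin K) (Fin N')}
  {col : V → V → ℕ}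

/-- number of neighbours in a class -/
theorem asm_nb (h : Realised S η G cls kd col) (v : V) (c : Fin K ⊕ B) :
    (({u | G.Adj v u ∧ cls u = c}.ncard : ℕ) : ℝ) ≤ S.M c + η * n := by
  have h1 := h.1 v c
  have h2 := (abs_le.mp h1).2
  unfold nb at h2
  linarith

/-- number of neighbours in the slack classes of one type -/
theorem asm_nb_slack (h : Realised S η G cls kd col) (v : V) (τ : Bool) :
    (({u | G.Adj v u ∧ ∃ b, cls u = Sum.inr b ∧ S.ty b = τ}.ncard : ℕ) : ℝ) ≤
      ∑ b, (if S.ty b = τ then S.M (Sum.inr b) + η * n else 0) := by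
  have h1 : {u | G.Adj v u ∧ ∃ b, cls u = Sum.inr b ∧ S.ty b = τ} =
      ⋃ b : B, {u | G.Adj v u ∧ cls u = Sum.inr b ∧ S.ty b = τ} := by
    ext u
    simp only [Set.mem_ofPred_eq, Set.mem_iUnion]
    constructor
    · rintro ⟨h1, b, hb⟩; exact ⟨b, h1, hb⟩
    · rintro ⟨b, h1, hb⟩; exact ⟨h1, b, hb⟩
  rw [h1]
  have h2 : ((⋃ b : B, {u | G.Adj v u ∧ cls u = Sum.inr b ∧ S.ty b = τ}).ncard : ℝ) ≤
      ∑ b : B, (({u | G.Adj v u ∧ cls u = Sum.inr b ∧ S.ty b = τ}.ncard : ℕ) : ℝ) := by
    exact_mod_cast Set.ncard_iUnion_le_of_fintype _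
  refine h2.trans (Finset.sum_le_sum fun b _ => ?_)
  by_cases hb : S.ty b = τ
  · rw [if_pos hb]
    refine le_trans ?_ (asm_nb h v (Sum.inr b))
    have h3 : {u | G.Adj v u ∧ cls u = Sum.inr b ∧ S.ty b = τ} =
        {u | G.Adj v u ∧ cls u = Sum.inr b} := by
      ext u; simp [hb]
    rw [h3]
  · rw [if_neg hb]
    have h3 : {u | G.Adj v u ∧ cls u = Sum.inr b ∧ S.ty b = τ} = ∅ := by
      ext u; simp [hb]
    rw [h3, Set.ncard_empty]
    simp

/-- the label of an edge -/
def asmE (S : US n δ (Fin K) B (Fin N')) (r0 s p J1 lenL : ℕ) (X : Fin K → ℕ) (c1 : V → ℕ)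
    (eL eH : Sym2 V → ℕ) (cls : V → Fin K ⊕ B) (kd : V → V → Kd (Fin K) (Fin N'))
    (col : V → V → ℕ) (u v : V) : ℕ :=
  match kd u v with
  | Kd.blk j => r0 + s * (j : ℕ) + col u v
  | Kd.star => col u v
  | Kd.zone i => if col u v ≤ Sum.elim (fun _ => c1 u) (fun _ => c1 v) (cls u) then
      r0 + s * X i + col u v else r0 + s * X i + col u v + (2 * p - 1)
  | Kd.out => Sum.elim (fun _ => 0)
      (fun b => if S.ty b = true then r0 + s * J1 + eH s(u, v) else p + lenL + eL s(u, v)) (cls u)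

/-- the description of the label of the edge `vu` seen from `v` -/
def AsmSp (S : US n δ (Fin K) B (Fin N')) (r0 s p J1 lenL t nz : ℕ) (X : Fin K → ℕ) (c1 : V → ℕ)
    (eL eH : Sym2 V → ℕ) (cls : V → Fin K ⊕ B) (kd : V → V → Kd (Fin K) (Fin N'))
    (col : V → V → ℕ) (v u : V) (y : ℕ) : Prop :=
  (∃ i, cls v = Sum.inl i ∧
    ((kd v u = Kd.star ∧ y = col v u ∧ col v u < r0 + s * t) ∨
     (∃ j, kd v u = Kd.blk j ∧ S.el i j ∧ y = r0 + s * (j : ℕ) + col v u ∧ col v u < s) ∨
     (kd v u = Kd.zone i ∧ col v u < nz + 1 ∧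
        y = if col v u ≤ c1 v then r0 + s * X i + col v u
          else r0 + s * X i + col v u + (2 * p - 1)))) ∨
  (∃ b, cls v = Sum.inr b ∧
    ((kd v u = Kd.star ∧ S.ty b = true ∧ y = col v u ∧ col v u < r0 + s * t) ∨
     (∃ j, kd v u = Kd.blk j ∧ ((∃ i, cls u = Sum.inl i ∧ 0 < S.yw i b j) ∨
        (∃ b', cls u = Sum.inr b' ∧ 0 < S.yb b b' j)) ∧
        y = r0 + s * (j : ℕ) + col v u ∧ col v u < s) ∨
     (∃ i, kd v u = Kd.zone i ∧ cls u = Sum.inl i ∧ b = S.unit i ∧ col v u < nz + 1 ∧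
        y = if col v u ≤ c1 u then r0 + s * X i + col v u
          else r0 + s * X i + col v u + (2 * p - 1)) ∨
     (kd v u = Kd.out ∧ (∃ b', cls u = Sum.inr b' ∧ S.ty b' = S.ty b) ∧
        y = if S.ty b = true then r0 + s * J1 + eH s(v, u) else p + lenL + eL s(v, u))))

theorem asm_sp (geo : Geo S p η) (c1 : V → ℕ) (eL eH : Sym2 V → ℕ)
    (h : Realised S η G cls kd col) (v u : V) (hvu : G.Adj v u) :
    AsmSp S geo.r0 geo.s p geo.J1 geo.lenL geo.t geo.nz geo.X c1 eL eH cls kd col v u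
      (asmE S geo.r0 geo.s p geo.J1 geo.lenL geo.X c1 eL eH cls kd col v u) := by
  obtain ⟨_, _, hok, hsz, _⟩ := h
  have hok := hok v u hvu
  have hsz := hsz v u hvu
  unfold AsmSp asmE
  rcases hv : cls v with i | b
  · left
    refine ⟨i, rfl, ?_⟩
    rcases hu : cls u with i' | b'
    · rw [hv, hu] at hok
      rcases hok with ⟨hii, hk⟩ | ⟨j, hk, hpar⟩
      · left
        rw [hk] at hsz ⊢
        refine ⟨rfl, rfl, ?_⟩
        have := hsz (by simp)
        simp only [US.size] at this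
        rw [← geo.star_eq]; exact this
      · right; left
        rw [hk] at hsz ⊢
        refine ⟨j, rfl, (S.par_symm _ _ _ hpar).2.2, rfl, ?_⟩
        have := hsz (by simp)
        simp only [US.size] at this
        rw [← geo.l_eq j]; exact this
    · rw [hv, hu] at hok
      rcases hok with ⟨hk, hty⟩ | ⟨j, hk, hyw⟩ | ⟨hk, hb⟩
      · left
        rw [hk] at hsz ⊢
        refine ⟨rfl, rfl, ?_⟩
        have := hsz (by simp)
        simp only [US.size] at this
        rw [← geo.star_eq]; exact this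
      · right; left
        rw [hk] at hsz ⊢
        refine ⟨j, rfl, S.yw_el _ _ _ hyw, rfl, ?_⟩
        have := hsz (by simp)
        simp only [US.size] at this
        rw [← geo.l_eq j]; exact this
      · right; right
        rw [hk] at hsz ⊢
        refine ⟨rfl, ?_, ?_⟩
        · have := hsz (by simp)
          simp only [US.size] at this
          rw [← geo.z_eq]; exact this
        · by_cases hc : col v u ≤ c1 v <;> simp [hc]
  · right
    refine ⟨b, rfl, ?_⟩
    rcases hu : cls u with i' | b'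
    · rw [hv, hu] at hok
      rcases hok with ⟨hk, hty⟩ | ⟨j, hk, hyw⟩ | ⟨hk, hb⟩
      · left
        rw [hk] at hsz ⊢
        refine ⟨rfl, hty, rfl, ?_⟩
        have := hsz (by simp)
        simp only [US.size] at this
        rw [← geo.star_eq]; exact this
      · right; left
        rw [hk] at hsz ⊢
        refine ⟨j, rfl, Or.inl ⟨i', rfl, hyw⟩, rfl, ?_⟩
        have := hsz (by simp)
        simp only [US.size] at this
        rw [← geo.l_eq j]; exact this
      · right; right; left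
        rw [hk] at hsz ⊢
        refine ⟨i', rfl, rfl, hb, ?_, ?_⟩
        · have := hsz (by simp)
          simp only [US.size] at this
          rw [← geo.z_eq]; exact this
        · by_cases hc : col v u ≤ c1 u <;> simp [hc]
    · rw [hv, hu] at hok
      rcases hok with ⟨hty, hk⟩ | ⟨hty, j, hk, hyb⟩
      · right; right; right
        rw [hk]
        refine ⟨rfl, ⟨b', rfl, hty.symm⟩, ?_⟩
        simp
      · right; left
        rw [hk] at hsz ⊢
        refine ⟨j, rfl, Or.inr ⟨b', rfl, hyb⟩, rfl, ?_⟩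
        have := hsz (by simp)
        simp only [US.size] at this
        rw [← geo.l_eq j]; exact this

theorem asm_symm (geo : Geo S p η) (c1 : V → ℕ) (eL eH : Sym2 V → ℕ)
    (h : Realised S η G cls kd col) (v u : V) (hvu : G.Adj v u) :
    asmE S geo.r0 geo.s p geo.J1 geo.lenL geo.X c1 eL eH cls kd col v u =
      asmE S geo.r0 geo.s p geo.J1 geo.lenL geo.X c1 eL eH cls kd col u v := by
  obtain ⟨_, hsym, hok, _, _⟩ := h
  have hok := hok v u hvu
  obtain ⟨hk1, hc1⟩ := hsym v u hvu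
  unfold asmE
  rw [← hk1, ← hc1]
  rcases hv : cls v with i | b <;> rcases hu : cls u with i' | b' <;> rw [hv, hu] at hok
  · rcases hok with ⟨hii, hk⟩ | ⟨j, hk, hpar⟩ <;> rw [hk]
  · rcases hok with ⟨hk, hty⟩ | ⟨j, hk, hyw⟩ | ⟨hk, hb⟩ <;> rw [hk]
    by_cases hc : col v u ≤ c1 v <;> simp [hc]
  · rcases hok with ⟨hk, hty⟩ | ⟨j, hk, hyw⟩ | ⟨hk, hb⟩ <;> rw [hk]
    by_cases hc : col v u ≤ c1 u <;> simp [hc]
  · rcases hok with ⟨hty, hk⟩ | ⟨hty, j, hk, hyb⟩ <;> rw [hk]
    simp only [Sum.elim_inr]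
    rw [Sym2.eq_swap, hty]

theorem asm_col_tight (geo : Geo S p η) (h : Realised S η G cls kd col) :
    ∃ c1 : V → ℕ, (∀ v i, cls v = Sum.inl i → c1 v < geo.g * geo.s) ∧
      ∀ u v i, G.Adj u v → cls u = Sum.inl i → cls v = Sum.inl i → c1 u ≠ c1 v := by
  by_cases hex : ∃ v i, cls v = Sum.inl i
  · obtain ⟨v0, i0, hv0⟩ := hex
    have hlt : ∀ v i, cls v = Sum.inl i →
        {u | G.Adj v u ∧ cls u = Sum.inl i}.ncard < geo.g * geo.s := by
      intro v i _
      have h1 := asm_nb h v (Sum.inl i)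
      have h2 := geo.M_size i
      have h3 : (({u | G.Adj v u ∧ cls u = Sum.inl i}.ncard : ℕ) : ℝ) + 1 ≤
          ((geo.g * geo.s : ℕ) : ℝ) := by linarith
      exact_mod_cast h3
    have hpos : 0 < geo.g * geo.s := lt_of_le_of_lt (Nat.zero_le _) (hlt v0 i0 hv0)
    obtain ⟨c, hc, hc'⟩ := H28.greedy
      (fun u v => G.Adj u v ∧ ∃ i, cls u = Sum.inl i ∧ cls v = Sum.inl i)
      (fun u v ⟨h1, i, h2, h3⟩ => ⟨h1.symm, i, h3, h2⟩) (geo.g * geo.s) (by
        intro a
        rcases ha : cls a with i | b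
        · have h1 : {b | G.Adj a b ∧ ∃ j, Sum.inl i = (Sum.inl j : Fin K ⊕ B) ∧
              cls b = Sum.inl j} = {u | G.Adj a u ∧ cls u = Sum.inl i} := by
            ext u
            simp only [Set.mem_ofPred_eq]
            constructor
            · rintro ⟨h1, j, h2, h3⟩
              rw [Sum.inl.inj h2]
              exact ⟨h1, h3⟩
            · rintro ⟨h1, h2⟩
              exact ⟨h1, i, rfl, h2⟩
          rw [h1]
          exact hlt a i ha
        · have h1 : {u | G.Adj a u ∧ ∃ j, (Sum.inr b : Fin K ⊕ B) = Sum.inl j ∧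
              cls u = Sum.inl j} = ∅ := by
            ext u
            simp
          rw [h1, Set.ncard_empty]
          exact hpos)
    exact ⟨c, fun v i _ => hc v, fun u v i huv h1 h2 => hc' u v huv.ne ⟨huv, i, h1, h2⟩⟩
  · push Not at hex
    exact ⟨fun _ => 0, fun v i hv => absurd hv (hex v i), fun u v i _ hu => absurd hu (hex u i)⟩

theorem asm_slack_lt (h : Realised S η G cls kd col) (τ : Bool) (D : ℕ)
    (hD : ∑ b, (if S.ty b = τ then S.M (Sum.inr b) + η * n else 0) + 1 ≤ (D : ℝ)) (v : V) :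
    {u | G.Adj v u ∧ ∃ b, cls u = Sum.inr b ∧ S.ty b = τ}.ncard < D := by
  have h1 := asm_nb_slack h v τ
  have h3 : (({u | G.Adj v u ∧ ∃ b, cls u = Sum.inr b ∧ S.ty b = τ}.ncard : ℕ) : ℝ) + 1 ≤
      (D : ℝ) := by linarith
  exact_mod_cast h3

theorem asm_col_slack (h : Realised S η G cls kd col) (τ : Bool) (D : ℕ)
    (hD : ∑ b, (if S.ty b = τ then S.M (Sum.inr b) + η * n else 0) + 1 ≤ (D : ℝ)) :
    ∃ c : V → ℕ, (∀ v, c v < D) ∧
      ∀ u v b b', G.Adj u v → cls u = Sum.inr b → cls v = Sum.inr b' → S.ty b = τ →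
        S.ty b' = τ → c u ≠ c v := by
  obtain ⟨c, hc, hc'⟩ := H28.greedy
    (fun u v => G.Adj u v ∧ (∃ b, cls u = Sum.inr b ∧ S.ty b = τ) ∧
      (∃ b, cls v = Sum.inr b ∧ S.ty b = τ))
    (fun u v ⟨h1, h2, h3⟩ => ⟨h1.symm, h3, h2⟩) D (by
      intro a
      refine lt_of_le_of_lt (Set.ncard_le_ncard ?_ (Set.toFinite _)) (asm_slack_lt h τ D hD a)
      rintro u ⟨h1, _, h3⟩
      exact ⟨h1, h3⟩)
  exact ⟨c, hc, fun u v b b' huv h1 h2 h3 h4 => hc' u v huv.ne ⟨huv, ⟨b, h1, h3⟩, ⟨b', h2, h4⟩⟩⟩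

theorem asm_out (h : Realised S η G cls kd col) (τ : Bool) (D : ℕ)
    (hD : ∑ b, (if S.ty b = τ then S.M (Sum.inr b) + η * n else 0) + 1 ≤ (D : ℝ)) :
    ∃ e : Sym2 V → ℕ, (∀ u v b b', G.Adj u v → cls u = Sum.inr b → cls v = Sum.inr b' →
        S.ty b = τ → S.ty b' = τ → e s(u, v) < D) ∧
      ∀ v u u' b b' b'', G.Adj v u → G.Adj v u' → u ≠ u' → cls v = Sum.inr b →
        cls u = Sum.inr b' → cls u' = Sum.inr b'' → S.ty b = τ → S.ty b' = τ → S.ty b'' = τ →
        e s(v, u) ≠ e s(v, u') := by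
  let H : SimpleGraph V :=
    { Adj := fun u v => G.Adj u v ∧ (∃ b, cls u = Sum.inr b ∧ S.ty b = τ) ∧
        (∃ b, cls v = Sum.inr b ∧ S.ty b = τ)
      symm := ⟨fun u v ⟨h1, h2, h3⟩ => ⟨h1.symm, h3, h2⟩⟩
      loopless := ⟨fun u ⟨h1, _⟩ => G.loopless.irrefl u h1⟩ }
  have hdeg : ∀ v, (H.neighborSet v).ncard ≤ D - 1 := by
    intro v
    have h1 := asm_slack_lt h τ D hD v
    have h2 : (H.neighborSet v).ncard ≤
        {u | G.Adj v u ∧ ∃ b, cls u = Sum.inr b ∧ S.ty b = τ}.ncard := by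
      apply Set.ncard_le_ncard _ (Set.toFinite _)
      rintro u ⟨h1, _, h3⟩
      exact ⟨h1, h3⟩
    omega
  obtain ⟨e, he1, he2⟩ := H28.vizing hdeg
  refine ⟨e, ?_, ?_⟩
  · intro u v b b' huv h1 h2 h3 h4
    have h5 := he1 u v ⟨huv, ⟨b, h1, h3⟩, ⟨b', h2, h4⟩⟩
    have h6 := asm_slack_lt h τ D hD v
    omega
  · intro v u u' b b' b'' h1 h2 h3 h4 h5 h6 h7 h8 h9
    exact he2 v u u' ⟨h1, ⟨b, h4, h7⟩, ⟨b', h5, h8⟩⟩ ⟨h2, ⟨b, h4, h7⟩, ⟨b'', h6, h9⟩⟩ h3

/-- the block index of a zone label -/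
theorem asm_zone {r0 s p g P' nz X c t y : ℕ} (hs : 0 < s) (hp : 0 < p)
    (hnz : nz + 2 * p = s * (g + P')) (P2 : s * P' < 2 * p + s)
    (hc : c < g * s) (ht : t < nz + 1)
    (hy : y = if t ≤ c then r0 + s * X + t else r0 + s * X + t + (2 * p - 1)) :
    r0 + s * X ≤ y ∧ y < r0 + s * X + s * g + s * P' ∧
    ∃ q, r0 + s * q ≤ y ∧ y < r0 + s * q + s ∧
      ((X ≤ q ∧ q ≤ X + g) ∨ (X + P' ≤ q + 1 ∧ q < X + g + P')) := by
  have hgs : g * s = s * g := mul_comm _ _
  have hexp : s * (g + P') = s * g + s * P' := by ring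
  have hlo : r0 + s * X ≤ y := by split_ifs at hy <;> omega
  have hhi : y < r0 + s * X + s * g + s * P' := by split_ifs at hy <;> omega
  refine ⟨hlo, hhi, (y - r0) / s, ?_, ?_, ?_⟩
  · have := Nat.mul_div_le (y - r0) s
    omega
  · have := Nat.lt_mul_div_succ (y - r0) hs
    rw [mul_add, mul_one] at this
    omega
  · set q := (y - r0) / s with hq
    have hq1 : s * q ≤ y - r0 := Nat.mul_div_le (y - r0) s
    have hq2 : y - r0 < s * q + s := by
      have := Nat.lt_mul_div_succ (y - r0) hs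
      rw [mul_add, mul_one] at this
      exact this
    have hm : ∀ j k : ℕ, j < k → s * j + s ≤ s * k := by
      intro j k hjk
      have := Nat.mul_le_mul_left s (Nat.succ_le_of_lt hjk)
      rw [Nat.succ_eq_add_one, mul_add, mul_one] at this
      exact this
    split_ifs at hy with htc
    · left
      constructor
      · by_contra hcon
        have := hm q X (by omega)
        omega
      · by_contra hcon
        have := hm (X + g) q (by omega)
        rw [mul_add] at this
        omega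
    · right
      constructor
      · by_contra hcon
        have := hm (q + 1) (X + P') (by omega)
        rw [mul_add, mul_add, mul_one] at this
        omega
      · by_contra hcon
        have : s * (X + g + P') ≤ s * q := Nat.mul_le_mul_left s (by omega)
        rw [mul_add, mul_add] at this
        omega

/-- the description of the label of the edge `vu` seen from a slack vertex `v` -/
theorem asm_slack (geo : Geo S p η) (c1 : V → ℕ) (eL eH : Sym2 V → ℕ)
    (hc1 : ∀ v i, cls v = Sum.inl i → c1 v < geo.g * geo.s) (v u : V) (b : B)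
    (hv : cls v = Sum.inr b) (y : ℕ)
    (h : AsmSp S geo.r0 geo.s p geo.J1 geo.lenL geo.t geo.nz geo.X c1 eL eH cls kd col v u y) :
    (kd v u = Kd.star ∧ S.ty b = true ∧ y = col v u ∧ y < geo.r0 + geo.s * geo.t) ∨
    (∃ j : Fin N', kd v u = Kd.blk j ∧ geo.t ≤ (j : ℕ) ∧ (S.ty b = true → (j : ℕ) < geo.J1) ∧
      (S.ty b = false → geo.J0 ≤ (j : ℕ)) ∧ y = geo.r0 + geo.s * (j : ℕ) + col v u ∧
      col v u < geo.s ∧ ∀ i, b = S.unit i → ¬ ((geo.X i ≤ (j : ℕ) ∧ (j : ℕ) ≤ geo.X i + geo.g) ∨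
        (geo.X i + geo.P' ≤ (j : ℕ) + 1 ∧ (j : ℕ) < geo.X i + geo.g + geo.P'))) ∨
    (∃ i, kd v u = Kd.zone i ∧ cls u = Sum.inl i ∧ b = S.unit i ∧ col v u < geo.nz + 1 ∧
      (S.ty b = true → geo.X i + geo.g + geo.P' ≤ geo.J1) ∧ (S.ty b = false → geo.J0 ≤ geo.X i) ∧
      (y = if col v u ≤ c1 u then geo.r0 + geo.s * geo.X i + col v u
        else geo.r0 + geo.s * geo.X i + col v u + (2 * p - 1)) ∧
      geo.r0 + geo.s * geo.X i ≤ y ∧ y < geo.r0 + geo.s * geo.X i + geo.s * geo.g + geo.s * geo.P' ∧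
      ∃ q, geo.r0 + geo.s * q ≤ y ∧ y < geo.r0 + geo.s * q + geo.s ∧
        ((geo.X i ≤ q ∧ q ≤ geo.X i + geo.g) ∨
          (geo.X i + geo.P' ≤ q + 1 ∧ q < geo.X i + geo.g + geo.P'))) ∨
    (kd v u = Kd.out ∧ (∃ b', cls u = Sum.inr b' ∧ S.ty b' = S.ty b) ∧
      y = if S.ty b = true then geo.r0 + geo.s * geo.J1 + eH s(v, u)
        else p + geo.lenL + eL s(v, u)) := by
  rcases h with ⟨i, h1, _⟩ | ⟨b0, h1, h⟩
  · rw [hv] at h1; cases h1
  · have hb : b = b0 := by rw [hv] at h1; exact Sum.inr.inj h1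
    subst hb
    rcases h with ⟨h2, h3, h4, h5⟩ | ⟨j, h2, h3, h4, h5⟩ | ⟨i, h2, h3, h4, h5, h6⟩ | ⟨h2, h3, h4⟩
    · left; exact ⟨h2, h3, h4, by rw [h4]; exact h5⟩
    · right; left
      refine ⟨j, h2, ?_, ?_, ?_, h4, h5, ?_⟩
      · rcases h3 with ⟨i, _, h3⟩ | ⟨b', _, h3⟩
        · exact (geo.el_win i j (S.yw_el _ _ _ h3)).1
        · exact geo.tJ0.trans (geo.useB _ _ _ h3).1
      · rcases h3 with ⟨i, _, h3⟩ | ⟨b', _, h3⟩
        · exact geo.useH _ _ _ h3
        · exact fun _ => (geo.useB _ _ _ h3).2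
      · rcases h3 with ⟨i, _, h3⟩ | ⟨b', _, h3⟩
        · exact geo.useL _ _ _ h3
        · exact fun _ => (geo.useB _ _ _ h3).1
      · intro i hi
        rcases h3 with ⟨i', _, h3⟩ | ⟨b', _, h3⟩
        · rw [hi] at h3; exact geo.ex1 _ _ _ h3
        · rw [hi] at h3; exact geo.ex2 _ _ _ h3
    · right; right; left
      have hz := asm_zone geo.s_pos geo.p_pos geo.nz_eq geo.P2 (hc1 u i h3) h5 h6
      refine ⟨i, h2, h3, h4, h5, ?_, ?_, h6, hz⟩
      · intro ht; exact geo.zH i (by rw [← h4]; exact ht)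
      · intro ht; exact geo.zL i (by rw [← h4]; exact ht)
    · right; right; right
      exact ⟨h2, h3, h4⟩

/-- the description of the label of the edge `vu` seen from a tight vertex `v` -/
theorem asm_tight (geo : Geo S p η) (c1 : V → ℕ) (eL eH : Sym2 V → ℕ)
    (hc1 : ∀ v i, cls v = Sum.inl i → c1 v < geo.g * geo.s) (v u : V) (i : Fin K)
    (hv : cls v = Sum.inl i) (y : ℕ)
    (h : AsmSp S geo.r0 geo.s p geo.J1 geo.lenL geo.t geo.nz geo.X c1 eL eH cls kd col v u y) :
    (kd v u = Kd.star ∧ y = col v u ∧ y < geo.r0 + geo.s * geo.t) ∨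
    (∃ j : Fin N', kd v u = Kd.blk j ∧ geo.t ≤ (j : ℕ) ∧
      ((j : ℕ) < geo.X i ∨ geo.X i + geo.g + geo.P' ≤ (j : ℕ)) ∧
      y = geo.r0 + geo.s * (j : ℕ) + col v u ∧ col v u < geo.s) ∨
    (kd v u = Kd.zone i ∧ col v u < geo.nz + 1 ∧
      (y = if col v u ≤ c1 v then geo.r0 + geo.s * geo.X i + col v u
        else geo.r0 + geo.s * geo.X i + col v u + (2 * p - 1)) ∧
      geo.r0 + geo.s * geo.X i ≤ y ∧
      y < geo.r0 + geo.s * geo.X i + geo.s * geo.g + geo.s * geo.P') := by
  rcases h with ⟨i0, h1, h⟩ | ⟨b0, h1, _⟩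
  · have hi : i = i0 := by rw [hv] at h1; exact Sum.inl.inj h1
    subst hi
    rcases h with ⟨h2, h3, h4⟩ | ⟨j, h2, h3, h4, h5⟩ | ⟨h2, h3, h4⟩
    · left; exact ⟨h2, h3, by rw [h3]; exact h4⟩
    · right; left
      exact ⟨j, h2, (geo.el_win i j h3).1, (geo.el_win i j h3).2, h4, h5⟩
    · right; right
      have hz := asm_zone geo.s_pos geo.p_pos geo.nz_eq geo.P2 (hc1 v i hv) h3 h4
      exact ⟨h2, h3, h4, hz.1, hz.2.1⟩
  · rw [hv] at h1; cases h1

theorem asm_mul (s : ℕ) {j k : ℕ} (h : j < k) : s * j + s ≤ s * k := by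
  have := Nat.mul_le_mul_left s (Nat.succ_le_of_lt h)
  rw [Nat.succ_eq_add_one, mul_add, mul_one] at this
  exact this

/-- properness at a tight vertex -/
theorem asm_proper_tight (geo : Geo S p η) (c1 : V → ℕ) (eL eH : Sym2 V → ℕ)
    (hc1 : ∀ v i, cls v = Sum.inl i → c1 v < geo.g * geo.s) (v u u' : V) (i : Fin K)
    (hv : cls v = Sum.inl i) (y y' : ℕ)
    (h : AsmSp S geo.r0 geo.s p geo.J1 geo.lenL geo.t geo.nz geo.X c1 eL eH cls kd col v u y)
    (h' : AsmSp S geo.r0 geo.s p geo.J1 geo.lenL geo.t geo.nz geo.X c1 eL eH cls kd col v u' y')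
    (hne : kd v u = kd v u' → kd v u ≠ Kd.out → col v u ≠ col v u') : y ≠ y' := by
  have htX := Nat.mul_le_mul_left geo.s (geo.t_le i)
  rcases asm_tight geo c1 eL eH hc1 v u i hv y h with ⟨a1, a2, a3⟩ | ⟨j, a1, a2, a3, a4, a5⟩ |
      ⟨a1, a2, a3, a4, a5⟩ <;>
    rcases asm_tight geo c1 eL eH hc1 v u' i hv y' h' with ⟨b1, b2, b3⟩ | ⟨j', b1, b2, b3, b4, b5⟩ |
      ⟨b1, b2, b3, b4, b5⟩
  · have := hne (by rw [a1, b1]) (by rw [a1]; simp)
    rw [a2, b2]; exact this
  · have := Nat.mul_le_mul_left geo.s b2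
    omega
  · omega
  · have := Nat.mul_le_mul_left geo.s a2
    omega
  · rcases lt_trichotomy (j : ℕ) (j' : ℕ) with hj | hj | hj
    · have := asm_mul geo.s hj
      omega
    · have hjj : j = j' := Fin.ext hj
      have := hne (by rw [a1, b1, hjj]) (by rw [a1]; simp)
      rw [a4, b4, hjj]
      omega
    · have := asm_mul geo.s hj
      omega
  · rcases a3 with hj | hj
    · have := asm_mul geo.s hj
      omega
    · have := Nat.mul_le_mul_left geo.s hj
      rw [mul_add, mul_add] at this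
      omega
  · omega
  · rcases b3 with hj | hj
    · have := asm_mul geo.s hj
      omega
    · have := Nat.mul_le_mul_left geo.s hj
      rw [mul_add, mul_add] at this
      omega
  · have := hne (by rw [a1, b1]) (by rw [a1]; simp)
    split_ifs at a3 b3 <;> omega

/-- properness at a slack vertex -/
theorem asm_proper_slack (geo : Geo S p η) (c1 : V → ℕ) (eL eH : Sym2 V → ℕ)
    (hc1 : ∀ v i, cls v = Sum.inl i → c1 v < geo.g * geo.s) (v u u' : V) (b : B)
    (hv : cls v = Sum.inr b) (y y' : ℕ)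
    (heL : ∀ w b', (w = u ∨ w = u') → cls w = Sum.inr b' → S.ty b' = false → S.ty b = false →
      eL s(v, w) < geo.DL)
    (heL' : ∀ b' b'', cls u = Sum.inr b' → cls u' = Sum.inr b'' → S.ty b = false →
      S.ty b' = false → S.ty b'' = false → eL s(v, u) ≠ eL s(v, u'))
    (heH' : ∀ b' b'', cls u = Sum.inr b' → cls u' = Sum.inr b'' → S.ty b = true →
      S.ty b' = true → S.ty b'' = true → eH s(v, u) ≠ eH s(v, u'))
    (h : AsmSp S geo.r0 geo.s p geo.J1 geo.lenL geo.t geo.nz geo.X c1 eL eH cls kd col v u y)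
    (h' : AsmSp S geo.r0 geo.s p geo.J1 geo.lenL geo.t geo.nz geo.X c1 eL eH cls kd col v u' y')
    (hne : kd v u = kd v u' → kd v u ≠ Kd.out → col v u ≠ col v u') : y ≠ y' := by
  have hJ1 : geo.s * geo.t ≤ geo.s * geo.J1 := Nat.mul_le_mul_left _ (geo.tJ0.trans geo.J01)
  have hLf := geo.L_fit
  have key_blk_zone : ∀ (j : Fin N') (c z : ℕ) (i : Fin K), c < geo.s →
      (∀ i, b = S.unit i → ¬ ((geo.X i ≤ (j : ℕ) ∧ (j : ℕ) ≤ geo.X i + geo.g) ∨
        (geo.X i + geo.P' ≤ (j : ℕ) + 1 ∧ (j : ℕ) < geo.X i + geo.g + geo.P'))) →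
      b = S.unit i → (∃ q, geo.r0 + geo.s * q ≤ z ∧ z < geo.r0 + geo.s * q + geo.s ∧
        ((geo.X i ≤ q ∧ q ≤ geo.X i + geo.g) ∨
          (geo.X i + geo.P' ≤ q + 1 ∧ q < geo.X i + geo.g + geo.P'))) →
      geo.r0 + geo.s * (j : ℕ) + c ≠ z := by
    rintro j c z i hc h1 hb ⟨q, h2, h3, h4⟩ heq
    rcases lt_trichotomy (j : ℕ) q with hj | hj | hj
    · have := asm_mul geo.s hj
      omega
    · rw [← hj] at h4
      exact h1 i hb h4
    · have := asm_mul geo.s hj
      omega
  rcases asm_slack geo c1 eL eH hc1 v u b hv y h with ⟨a1, a2, a3, a4⟩ |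
      ⟨j, a1, a2, a3, a4, a5, a6, a7⟩ | ⟨i, a1, a2, a3, a4, a5, a6, a7, a8, a9, a10⟩ |
      ⟨a1, ⟨b1', a2, a3⟩, a4⟩ <;>
    rcases asm_slack geo c1 eL eH hc1 v u' b hv y' h' with ⟨b1, b2, b3, b4⟩ |
      ⟨j', b1, b2, b3, b4, b5, b6, b7⟩ | ⟨i', b1, b2, b3, b4, b5, b6, b7, b8, b9, b10⟩ |
      ⟨b1, ⟨b2', b2, b3⟩, b4⟩
  · -- star star
    have := hne (by rw [a1, b1]) (by rw [a1]; simp)
    rw [a3, b3]; exact this
  · -- star blk
    have := Nat.mul_le_mul_left geo.s b2
    omega
  · -- star zone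
    have := Nat.mul_le_mul_left geo.s (geo.t_le i')
    omega
  · -- star out
    rw [if_pos a2] at b4
    omega
  · -- blk star
    have := Nat.mul_le_mul_left geo.s a2
    omega
  · -- blk blk
    rcases lt_trichotomy (j : ℕ) (j' : ℕ) with hj | hj | hj
    · have := asm_mul geo.s hj
      omega
    · have hjj : j = j' := Fin.ext hj
      have := hne (by rw [a1, b1, hjj]) (by rw [a1]; simp)
      rw [a5, b5, hjj]
      omega
    · have := asm_mul geo.s hj
      omega
  · -- blk zone
    rw [a5]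
    exact key_blk_zone j _ y' i' a6 a7 b3 b10
  · -- blk out
    rcases hτ : S.ty b with _ | _
    · have h1 := Nat.mul_le_mul_left geo.s (a4 hτ)
      have h2 := heL u' b2' (Or.inr rfl) b2 (by rw [b3, hτ]) hτ
      rw [if_neg (by rw [hτ]; simp)] at b4
      omega
    · have h1 := asm_mul geo.s (a3 hτ)
      rw [if_pos hτ] at b4
      omega
  · -- zone star
    have := Nat.mul_le_mul_left geo.s (geo.t_le i)
    omega
  · -- zone blk
    rw [b5]
    exact (key_blk_zone j' _ y i b6 b7 a3 a10).symm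
  · -- zone zone
    by_cases hii : i = i'
    · subst hii
      have h1 := hne (by rw [a1, b1]) (by rw [a1]; simp)
      have h2 := hc1 u i a2
      have h3 := hc1 u' i b2
      have h4 := geo.big
      rw [add_mul] at h4
      have h5 := geo.s_pos
      split_ifs at a7 b7 <;> omega
    · intro heq
      obtain ⟨q, q1, q2, q3⟩ := a10
      obtain ⟨q', r1, r2, r3⟩ := b10
      have hqq : q = q' := by
        rcases lt_trichotomy q q' with hj | hj | hj
        · have := asm_mul geo.s hj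
          omega
        · exact hj
        · have := asm_mul geo.s hj
          omega
      subst hqq
      exact geo.ex3 i i' hii (by rw [← a3, ← b3]) q q3 r3
  · -- zone out
    rcases hτ : S.ty b with _ | _
    · have h1 := Nat.mul_le_mul_left geo.s (a6 hτ)
      have h2 := heL u' b2' (Or.inr rfl) b2 (by rw [b3, hτ]) hτ
      rw [if_neg (by rw [hτ]; simp)] at b4
      omega
    · have h1 := Nat.mul_le_mul_left geo.s (a5 hτ)
      rw [mul_add, mul_add] at h1
      rw [if_pos hτ] at b4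
      omega
  · -- out star
    rw [if_pos b2] at a4
    omega
  · -- out blk
    rcases hτ : S.ty b with _ | _
    · have h1 := Nat.mul_le_mul_left geo.s (b4 hτ)
      have h2 := heL u b1' (Or.inl rfl) a2 (by rw [a3, hτ]) hτ
      rw [if_neg (by rw [hτ]; simp)] at a4
      omega
    · have h1 := asm_mul geo.s (b3 hτ)
      rw [if_pos hτ] at a4
      omega
  · -- out zone
    rcases hτ : S.ty b with _ | _
    · have h1 := Nat.mul_le_mul_left geo.s (b6 hτ)
      have h2 := heL u b1' (Or.inl rfl) a2 (by rw [a3, hτ]) hτ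
      rw [if_neg (by rw [hτ]; simp)] at a4
      omega
    · have h1 := Nat.mul_le_mul_left geo.s (b5 hτ)
      rw [mul_add, mul_add] at h1
      rw [if_pos hτ] at a4
      omega
  · -- out out
    rcases hτ : S.ty b with _ | _
    · have h1 := heL' b1' b2' a2 b2 hτ (by rw [a3, hτ]) (by rw [b3, hτ])
      rw [if_neg (by rw [hτ]; simp)] at a4 b4
      omega
    · have h1 := heH' b1' b2' a2 b2 hτ (by rw [a3, hτ]) (by rw [b3, hτ])
      rw [if_pos hτ] at a4 b4
      omega

/-- ASM: a realised schedule with its geometry gives the labelling. -/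
theorem asm {n : ℕ} {δ η : ℝ} {K N' p : ℕ} {B : Type} [Fintype B] [DecidableEq B]
    (S : US n δ (Fin K) B (Fin N')) (geo : Geo S p η) {V : Type} [Fintype V] [DecidableEq V]
    (G : SimpleGraph V) (cls : V → Fin K ⊕ B) (kd : V → V → Kd (Fin K) (Fin N'))
    (col : V → V → ℕ) (hη : 0 ≤ η) (h : Realised S η G cls kd col) : HYLab G n p := by
  classical
  obtain ⟨c1, hc1, hc1'⟩ := asm_col_tight geo h
  obtain ⟨c2, hc2, hc2'⟩ := asm_col_slack h false geo.lenL geo.L_size
  obtain ⟨c3, hc3, hc3'⟩ := asm_col_slack h true geo.lenH geo.H_size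
  obtain ⟨eL, heL, heL'⟩ := asm_out h false geo.DL geo.L_size'
  obtain ⟨eH, heH, heH'⟩ := asm_out h true geo.DH geo.H_size'
  let E := asmE S geo.r0 geo.s p geo.J1 geo.lenL geo.X c1 eL eH cls kd col
  have hsp : ∀ v u, G.Adj v u → AsmSp S geo.r0 geo.s p geo.J1 geo.lenL geo.t geo.nz geo.X c1 eL eH
      cls kd col v u (E v u) := fun v u hvu => asm_sp geo c1 eL eH h v u hvu
  let fV : V → ℕ := fun v => Sum.elim (fun i => p + (geo.r0 + geo.s * geo.X i) + c1 v)
    (fun b => if S.ty b = true then n + 2 * p - 1 - c3 v else c2 v) (cls v)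
  let fE : Sym2 V → ℕ := Sym2.lift ⟨fun u v => if G.Adj u v then E u v else 0, by
    intro u v
    change (if G.Adj u v then E u v else 0) = (if G.Adj v u then E v u else 0)
    by_cases huv : G.Adj u v
    · rw [if_pos huv, if_pos huv.symm]
      exact asm_symm geo c1 eL eH h u v huv
    · rw [if_neg huv, if_neg (fun hh => huv hh.symm)]⟩
  have hfE : ∀ u v, G.Adj u v → fE s(u, v) = E u v := by
    intro u v huv
    change (if G.Adj u v then E u v else 0) = E u v
    rw [if_pos huv]
  have fVt : ∀ v i, cls v = Sum.inl i → fV v = p + (geo.r0 + geo.s * geo.X i) + c1 v := by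
    intro v i hv
    change Sum.elim _ _ (cls v) = _
    rw [hv]; rfl
  have fVH : ∀ v b, cls v = Sum.inr b → S.ty b = true → fV v = n + 2 * p - 1 - c3 v := by
    intro v b hv hb
    change Sum.elim _ _ (cls v) = _
    rw [hv]
    change (if S.ty b = true then n + 2 * p - 1 - c3 v else c2 v) = _
    rw [if_pos hb]
  have fVL : ∀ v b, cls v = Sum.inr b → S.ty b = false → fV v = c2 v := by
    intro v b hv hb
    change Sum.elim _ _ (cls v) = _
    rw [hv]
    change (if S.ty b = true then n + 2 * p - 1 - c3 v else c2 v) = _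
    rw [if_neg (by rw [hb]; simp)]
  have hp := geo.p_pos
  have htot := geo.tot
  have hgs : geo.g * geo.s = geo.s * geo.g := mul_comm _ _
  have htop : ∀ i, p + geo.r0 + geo.s * geo.X i + geo.s * geo.g + geo.lenH ≤ n + 2 * p := by
    intro i
    have := geo.top i
    rw [mul_add] at this
    omega
  have hXtop : ∀ i, geo.s * geo.X i + geo.s * geo.g + geo.s * geo.P' ≤ geo.s * N' := by
    intro i
    have := Nat.mul_le_mul_left geo.s (geo.X_top i)
    rw [mul_add, mul_add] at this
    exact this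
  have hJ1N := Nat.mul_le_mul_left geo.s geo.J1N
  have hJ01 := Nat.mul_le_mul_left geo.s geo.J01
  have htJ0 := Nat.mul_le_mul_left geo.s geo.tJ0
  have hHf := geo.H_fit
  have hLf := geo.L_fit
  have hlL := geo.lenL_le
  have hlH := geo.lenH_le
  -- the range of the labels of the edges
  have hrange : ∀ v u, G.Adj v u → E v u < n + 2 * p := by
    intro v u hvu
    rcases hv : cls v with i | b
    · rcases asm_tight geo c1 eL eH hc1 v u i hv _ (hsp v u hvu) with ⟨a1, a2, a3⟩ |
        ⟨j, a1, a2, a3, a4, a5⟩ | ⟨a1, a2, a3, a4, a5⟩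
      · omega
      · have := asm_mul geo.s j.2
        omega
      · have := hXtop i
        omega
    · rcases asm_slack geo c1 eL eH hc1 v u b hv _ (hsp v u hvu) with ⟨a1, a2, a3, a4⟩ |
        ⟨j, a1, a2, a3, a4, a5, a6, a7⟩ | ⟨i, a1, a2, a3, a4, a5, a6, a7, a8, a9, a10⟩ |
        ⟨a1, ⟨b1', a2, a3⟩, a4⟩
      · omega
      · have := asm_mul geo.s j.2
        omega
      · have := hXtop i
        omega
      · rcases hτ : S.ty b with _ | _
        · have h2 := heL v u b b1' hvu hv a2 hτ (by rw [a3, hτ])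
          rw [if_neg (by rw [hτ]; simp)] at a4
          omega
        · have h2 := heH v u b b1' hvu hv a2 hτ (by rw [a3, hτ])
          rw [if_pos hτ] at a4
          omega
  refine ⟨fV, fE, ?_, ?_, ?_, ?_, ?_⟩
  · intro v
    rcases hv : cls v with i | b
    · rw [fVt v i hv]
      have h1 := hc1 v i hv
      have h2 := htop i
      omega
    · rcases hτ : S.ty b with _ | _
      · rw [fVL v b hv hτ]
        have := hc2 v
        omega
      · rw [fVH v b hv hτ]
        omega
  · intro e he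
    induction e using Sym2.ind with
    | _ u v =>
      have huv : G.Adj u v := he
      rw [hfE u v huv]
      have := hrange u v huv
      omega
  · -- vertices
    have hTT : ∀ u v i i', i < i' → cls u = Sum.inl i → cls v = Sum.inl i' → fV u < fV v := by
      intro u v i i' hii hu hv
      rw [fVt u i hu, fVt v i' hv]
      have h1 := hc1 u i hu
      have h2 := Nat.mul_le_mul_left geo.s (geo.X_mono i i' hii)
      rw [mul_add] at h2
      omega
    have hLT : ∀ u v b i, S.ty b = false → cls u = Sum.inr b → cls v = Sum.inl i → fV u < fV v := by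
      intro u v b i hb hu hv
      rw [fVL u b hu hb, fVt v i hv]
      have h1 := hc2 u
      omega
    have hTH : ∀ u v b i, S.ty b = true → cls u = Sum.inl i → cls v = Sum.inr b → fV u < fV v := by
      intro u v b i hb hu hv
      rw [fVH v b hv hb, fVt u i hu]
      have h1 := hc1 u i hu
      have h2 := htop i
      have h3 := hc3 v
      omega
    have hLH : ∀ u v b b', S.ty b = false → S.ty b' = true → cls u = Sum.inr b →
        cls v = Sum.inr b' → fV u < fV v := by
      intro u v b b' hb hb' hu hv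
      rw [fVL u b hu hb, fVH v b' hv hb']
      have h1 := hc2 u
      have h3 := hc3 v
      omega
    intro u v huv
    rcases hu : cls u with i | b <;> rcases hv : cls v with i' | b'
    · rcases lt_trichotomy i i' with hii | hii | hii
      · exact (hTT u v i i' hii hu hv).ne
      · subst hii
        rw [fVt u i hu, fVt v i hv]
        have := hc1' u v i huv hu hv
        omega
      · exact (hTT v u i' i hii hv hu).ne'
    · rcases hτ : S.ty b' with _ | _
      · exact (hLT v u b' i hτ hv hu).ne'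
      · exact (hTH u v b' i hτ hu hv).ne
    · rcases hτ : S.ty b with _ | _
      · exact (hLT u v b i' hτ hu hv).ne
      · exact (hTH v u b i' hτ hv hu).ne'
    · rcases hτ : S.ty b with _ | _ <;> rcases hτ' : S.ty b' with _ | _
      · rw [fVL u b hu hτ, fVL v b' hv hτ']
        exact hc2' u v b b' huv hu hv hτ hτ'
      · exact (hLH u v b b' hτ hτ' hu hv).ne
      · exact (hLH v u b' b hτ' hτ hv hu).ne'
      · rw [fVH u b hu hτ, fVH v b' hv hτ']
        have h1 := hc3' u v b b' huv hu hv hτ hτ'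
        have h2 := hc3 u
        have h3 := hc3 v
        omega
  · -- distances
    intro u v huv
    rw [hfE u v huv]
    have hmain : fV u + p ≤ E u v ∨ E u v + p ≤ fV u := by
      rcases hu : cls u with i | b
      · rw [fVt u i hu]
        have htX := Nat.mul_le_mul_left geo.s (geo.t_le i)
        rcases asm_tight geo c1 eL eH hc1 u v i hu _ (hsp u v huv) with ⟨a1, a2, a3⟩ |
          ⟨j, a1, a2, a3, a4, a5⟩ | ⟨a1, a2, a3, a4, a5⟩
        · right; omega
        · rcases a3 with hj | hj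
          · right
            have := asm_mul geo.s hj
            omega
          · left
            have := Nat.mul_le_mul_left geo.s hj
            rw [mul_add, mul_add] at this
            have h1 := hc1 u i hu
            have h2 := geo.P1
            omega
        · split_ifs at a3
          · right; omega
          · left; omega
      · rcases hτ : S.ty b with _ | _
        · left
          rw [fVL u b hu hτ]
          have h0 := hc2 u
          rcases asm_slack geo c1 eL eH hc1 u v b hu _ (hsp u v huv) with ⟨a1, a2, a3, a4⟩ |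
            ⟨j, a1, a2, a3, a4, a5, a6, a7⟩ | ⟨i, a1, a2, a3, a4, a5, a6, a7, a8, a9, a10⟩ |
            ⟨a1, ⟨b1', a2, a3⟩, a4⟩
          · rw [hτ] at a2; cases a2
          · have := Nat.mul_le_mul_left geo.s (a4 hτ)
            omega
          · have := Nat.mul_le_mul_left geo.s (a6 hτ)
            omega
          · rw [if_neg (by rw [hτ]; simp)] at a4
            omega
        · right
          rw [fVH u b hu hτ]
          have h0 := hc3 u
          rcases asm_slack geo c1 eL eH hc1 u v b hu _ (hsp u v huv) with ⟨a1, a2, a3, a4⟩ |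
            ⟨j, a1, a2, a3, a4, a5, a6, a7⟩ | ⟨i, a1, a2, a3, a4, a5, a6, a7, a8, a9, a10⟩ |
            ⟨a1, ⟨b1', a2, a3⟩, a4⟩
          · omega
          · have := asm_mul geo.s (a3 hτ)
            omega
          · have := Nat.mul_le_mul_left geo.s (a5 hτ)
            rw [mul_add, mul_add] at this
            omega
          · have h2 := heH u v b b1' huv hu a2 hτ (by rw [a3, hτ])
            rw [if_pos hτ] at a4
            omega
    rcases hmain with hm | hm
    · rw [abs_sub_comm]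
      refine le_trans ?_ (le_abs_self _)
      omega
    · refine le_trans ?_ (le_abs_self _)
      omega
  · -- edges
    intro v u u' hvu hvu' hne
    rw [hfE v u hvu, hfE v u' hvu']
    have hcol := h.2.2.2.2 v u u' hvu hvu' hne
    rcases hv : cls v with i | b
    · exact asm_proper_tight geo c1 eL eH hc1 v u u' i hv _ _ (hsp v u hvu) (hsp v u' hvu') hcol
    · refine asm_proper_slack geo c1 eL eH hc1 v u u' b hv _ _ ?_ ?_ ?_ (hsp v u hvu)
        (hsp v u' hvu') hcol
      · rintro w b' (hw | hw) h1 h2 h3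
        · subst hw; exact heL v w b b' hvu hv h1 h3 h2
        · subst hw; exact heL v w b b' hvu' hv h1 h3 h2
      · intro b' b'' h1 h2 h3 h4 h5
        exact heL' v u u' b b' b'' hvu hvu' hne hv h1 h2 h3 h4 h5
      · intro b' b'' h1 h2 h3 h4 h5
        exact heH' v u u' b b' b'' hvu hvu' hne hv h1 h2 h3 h4 h5

end ASM

end Pool.Agent.H70.HY
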