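import Mathlib
import Pool.Agent.H70.HY.Grid

/-! TIME: the sum classes of the times. -/

set_option autoImplicit false

namespace Pool.Agent.H70.HY

open Finset

theorem time_g1_pos (q : GP) : 0 < q.g1 := by
  have h1 := q.hκ
  have h2 := q.hg
  unfold GP.g1
  omega

theorem time_g_pos (q : GP) : 0 < q.g := by
  have h1 := q.hκ
  have h2 := q.hg
  omega

theorem time_g1_le (q : GP) : q.g1 ≤ q.g := by
  unfold GP.g1
  omega

theorem time_t_le (q : GP) : q.t ≤ q.g := by
  unfold GP.t
  omega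

theorem time_len_pos (q : GP) (k : ℕ) : 0 < q.len k := by
  unfold GP.len
  have h1 := time_g1_pos q
  have h2 := time_g_pos q
  split_ifs <;> assumption

theorem time_a_zero (q : GP) : q.a 0 = q.t := by
  simp [GP.a]

theorem time_a_k1 (q : GP) : q.a q.k1 = q.t + q.g1 * q.k1 := by
  simp [GP.a]

theorem time_a_succ (q : GP) (k : ℕ) : q.a (k + 1) = q.a k + q.len k := by
  unfold GP.a GP.len
  by_cases h : k < q.k1
  · rw [if_pos (by omega), if_pos (by omega), if_pos h]
    ring
  · rw [if_neg (by omega), if_neg h]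
    by_cases h' : k ≤ q.k1
    · rw [if_pos h']
      have : k = q.k1 := by omega
      subst this
      have : q.k1 + 1 - q.k1 = 1 := by omega
      rw [this]
      ring
    · rw [if_neg h']
      have : k + 1 - q.k1 = (k - q.k1) + 1 := by omega
      rw [this]
      ring

theorem time_a_strictMono (q : GP) : StrictMono q.a := by
  refine strictMono_nat_of_lt_succ ?_
  intro k
  rw [time_a_succ]
  have := time_len_pos q k
  omega

theorem time_t_le_a (q : GP) (k : ℕ) : q.t ≤ q.a k := by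
  rw [← time_a_zero q]
  exact (time_a_strictMono q).monotone (Nat.zero_le k)

theorem time_a_le (q : GP) (k : ℕ) : q.a k ≤ q.t + q.g * k := by
  induction k with
  | zero => rw [time_a_zero]; omega
  | succ k ih =>
    rw [time_a_succ]
    have : q.len k ≤ q.g := by
      unfold GP.len
      have := time_g1_le q
      split_ifs <;> omega
    rw [Nat.mul_succ]
    omega

theorem time_kk (q : GP) (j : ℕ) (hj : q.t ≤ j) :
    q.a (q.kk j) ≤ j ∧ j < q.a (q.kk j + 1) := by
  have hg1 := time_g1_pos q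
  have hg := time_g_pos q
  by_cases h : j < q.a q.k1
  · have e : q.kk j = (j - q.t) / q.g1 := by
      unfold GP.kk
      rw [if_pos h]
    rw [e]
    rw [time_a_k1] at h
    have h1 : (j - q.t) / q.g1 < q.k1 := by
      rw [Nat.div_lt_iff_lt_mul hg1]
      rw [mul_comm]
      omega
    have h2 : q.a ((j - q.t) / q.g1) = q.t + q.g1 * ((j - q.t) / q.g1) := by
      unfold GP.a
      rw [if_pos h1.le]
    have h3 : q.a ((j - q.t) / q.g1 + 1) = q.t + q.g1 * ((j - q.t) / q.g1 + 1) := by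
      unfold GP.a
      rw [if_pos (Nat.succ_le_of_lt h1)]
    rw [h2, h3]
    have h4 := Nat.div_add_mod (j - q.t) q.g1
    have h5 := Nat.mod_lt (j - q.t) hg1
    rw [Nat.mul_add]
    constructor <;> omega
  · have e : q.kk j = q.k1 + (j - q.a q.k1) / q.g := by
      unfold GP.kk
      rw [if_neg h]
    rw [e]
    have h4 := Nat.div_add_mod (j - q.a q.k1) q.g
    have h5 := Nat.mod_lt (j - q.a q.k1) hg
    generalize (j - q.a q.k1) / q.g = z at h4 ⊢
    generalize (j - q.a q.k1) % q.g = r at h4 h5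
    have h2 : q.a (q.k1 + z) = q.a q.k1 + q.g * z := by
      rw [time_a_k1]
      unfold GP.a
      by_cases h0 : z = 0
      · rw [h0]
        simp
      · rw [if_neg (by omega)]
        have : q.k1 + z - q.k1 = z := by omega
        rw [this]
    have h3 : q.len (q.k1 + z) = q.g := by
      unfold GP.len
      rw [if_neg (by omega)]
    rw [time_a_succ, h2, h3]
    generalize q.g * z = w at h4 ⊢
    constructor <;> omega

/-- TIME: the sum class of a time. -/
theorem kk_iff (q : GP) (j k : ℕ) (hj : q.t ≤ j) : q.kk j = k ↔ q.a k ≤ j ∧ j < q.a (k + 1) := by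
  obtain ⟨h1, h2⟩ := time_kk q j hj
  constructor
  · intro h
    rw [← h]
    exact ⟨h1, h2⟩
  · rintro ⟨h3, h4⟩
    have hm := time_a_strictMono q
    have h5 : q.a (q.kk j) < q.a (k + 1) := lt_of_le_of_lt h1 h4
    have h6 : q.a k < q.a (q.kk j + 1) := lt_of_le_of_lt h3 h2
    rw [hm.lt_iff_lt] at h5 h6
    omega

/-- TIME: sums over complete sum classes. -/
theorem sum_kk (q : GP) (φ : ℕ → ℝ) (k0 k2 : ℕ) (h : k0 ≤ k2) :
    ∑ j ∈ Ico (q.a k0) (q.a k2), φ (q.kk j) = ∑ k ∈ Ico k0 k2, q.len k * φ k := by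
  have hm := (time_a_strictMono q).monotone
  induction k2, h using Nat.le_induction with
  | base => simp
  | succ k2 h ih =>
    rw [← Finset.sum_Ico_consecutive _ (hm h) (hm (Nat.le_succ k2)), ih,
      Finset.sum_Ico_succ_top h]
    congr 1
    have : ∀ j ∈ Ico (q.a k2) (q.a (k2 + 1)), φ (q.kk j) = φ k2 := by
      intro j hj
      rw [Finset.mem_Ico] at hj
      rw [(kk_iff q j k2 ((time_t_le_a q k2).trans hj.1)).mpr hj]
    rw [Finset.sum_congr rfl this, Finset.sum_const, Nat.card_Ico, time_a_succ,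
      Nat.add_sub_cancel_left, nsmul_eq_mul]

/-- TIME: windows. -/
theorem a_le_X (q : GP) (k : ℕ) : q.a (k + 1) ≤ q.X k := by
  have h1 := time_a_le q (k + 1)
  have h2 := time_t_le q
  unfold GP.X
  have : q.g * (k + 2) = q.g * (k + 1) + q.g := by ring
  omega

theorem a_mir (q : GP) (i : ℕ) (hi : i < q.K) : q.a (q.K - 1 - i) + q.X i ≤ q.N2 + q.t := by
  have h1 := time_a_le q (q.K - 1 - i)
  have h2 := q.N2_ge
  unfold GP.X
  obtain ⟨d, hd⟩ : ∃ d, q.K = i + 1 + d := ⟨q.K - (i + 1), by omega⟩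
  have e1 : q.K - 1 - i = d := by omega
  rw [e1] at h1 ⊢
  rw [hd] at h2
  have e2 : q.g * (i + 1 + d + 1) = q.g * d + q.g * (i + 2) := by ring
  omega

theorem J0_lt (q : GP) : q.t ≤ q.J0 ∧ q.J0 < q.P ∧ q.J0 + q.g ≤ q.J1 ∧ q.J1 ≤ q.N ∧ q.N2 ≤ q.J1 ∧
    q.a q.K ≤ q.J1 := by
  have hg := time_g_pos q
  have h1 := time_t_le_a q q.k1
  have h2 := time_a_le q q.k1
  have h3 := time_a_le q q.K
  have h4 := time_t_le q
  have h5 := q.P_gt
  have h6 := q.N2_ge
  have h7 : q.g * (q.k1 + 4) = q.g * q.k1 + 4 * q.g := by ring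
  have h8 : q.g * (q.K + 1) = q.g * q.K + q.g := by ring
  have h9 : q.g * q.k1 ≤ q.g * q.K := Nat.mul_le_mul_left _ (by have := q.hk2; omega)
  have h10 : q.N = q.N2 + q.P + q.g := rfl
  have h11 : q.J1 = q.N + q.t - q.a q.k1 := rfl
  have h12 : q.J0 = q.a q.k1 := rfl
  refine ⟨?_, ?_, ?_, ?_, ?_, ?_⟩ <;> omega

end Pool.Agent.H70.HY
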