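import Mathlib
import Pool.Agent.H70.HY.Base
import Pool.Agent.H70.HY.TIME

/-! Module PAIR: the partners. -/

set_option autoImplicit false

namespace Pool.Agent.H70.HY

open Finset

private theorem pair_g1_pos (q : GP) : 1 ≤ q.g1 := by
  have := q.hκ; have := q.hg
  unfold GP.g1; omega

private theorem pair_a_succ (q : GP) (k : ℕ) : q.a (k + 1) = q.a k + q.len k := by
  unfold GP.a GP.len
  rcases lt_trichotomy k q.k1 with h | h | h
  · rw [if_pos (by omega : k + 1 ≤ q.k1), if_pos (by omega : k ≤ q.k1), if_pos h]
    ring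
  · subst h
    rw [if_neg (by omega), if_pos (le_refl _), if_neg (by omega)]
    have : q.k1 + 1 - q.k1 = 1 := by omega
    rw [this]; ring
  · rw [if_neg (by omega), if_neg (by omega), if_neg (by omega)]
    have : k + 1 - q.k1 = (k - q.k1) + 1 := by omega
    rw [this]; ring

private theorem pair_a_mono (q : GP) : Monotone q.a := by
  apply monotone_nat_of_le_succ
  intro k
  rw [pair_a_succ]; omega

private theorem pair_t_le (q : GP) (k : ℕ) : q.t ≤ q.a k := by
  have h : q.a 0 = q.t := by unfold GP.a; simp
  rw [← h]; exact pair_a_mono q (Nat.zero_le _)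

private theorem pair_len_pos (q : GP) (k : ℕ) : 1 ≤ q.len k := by
  have := pair_g1_pos q
  have := q.hκ; have := q.hg
  unfold GP.len; split_ifs <;> omega

private theorem pair_X_mono (q : GP) : Monotone q.X := by
  intro i j h
  unfold GP.X
  exact Nat.mul_le_mul_left _ (by omega)

private theorem pair_X_le (q : GP) (i : ℕ) (hi : i < q.K) : q.X i ≤ q.N2 := by
  refine le_trans ?_ q.N2_ge
  unfold GP.X
  exact Nat.mul_le_mul_left _ (by omega)

private theorem pair_disj (q : GP) (i j : ℕ) (h1 : q.Low i j) (h2 : q.High i j) : False := by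
  unfold GP.Low at h1; unfold GP.High at h2; omega

private theorem pair_mir_ge (q : GP) (j : ℕ) (hj : j < q.N) : q.t ≤ q.mir j := by
  unfold GP.mir; omega

private theorem pair_par_low (q : GP) (i j : ℕ) (h : q.LowP i j) :
    q.par i j = some (q.K - 1 + q.kk j - i) := by
  unfold GP.par; rw [if_pos h]

private theorem pair_par_high (q : GP) (i j : ℕ) (h : q.HighP i j) :
    q.par i j = some (q.K - 2 - q.kk (q.mir j) - i) := by
  unfold GP.par
  rw [if_neg (fun h' => pair_disj q i j h'.1 h.1), if_pos h]

private theorem pair_w_low (q : GP) (i j : ℕ) (h : q.LowP i j) :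
    q.w i j = 1 / q.len (q.kk j) := by
  unfold GP.w; rw [if_pos h]

private theorem pair_w_high (q : GP) (i j : ℕ) (h : q.HighP i j) :
    q.w i j = 1 / q.len (q.kk (q.mir j)) := by
  unfold GP.w
  rw [if_neg (fun h' => pair_disj q i j h'.1 h.1), if_pos h]

/-- all `i ≥ kk j` have `j` in their low window -/
private theorem pair_low_of (q : GP) (i j : ℕ) (hj : q.t ≤ j) (hk : q.kk j ≤ i) : q.Low i j := by
  refine ⟨hj, ?_⟩
  have h1 := ((HY.kk_iff q j (q.kk j) hj).1 rfl).2
  exact lt_of_lt_of_le h1 (le_trans (HY.a_le_X q _) (pair_X_mono q hk))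

/-- all `i` with `kk (mir j) + i + 2 ≤ K` have `j` in their high window -/
private theorem pair_high_of (q : GP) (i j : ℕ) (hj : j < q.N)
    (hk : q.kk (q.mir j) + i + 2 ≤ q.K) : q.High i j := by
  refine ⟨?_, hj⟩
  have h1 := ((HY.kk_iff q (q.mir j) (q.kk (q.mir j)) (pair_mir_ge q j hj)).1 rfl).2
  have h2 := HY.a_mir q i (by omega)
  have h3 : q.a (q.kk (q.mir j) + 1) ≤ q.a (q.K - 1 - i) := pair_a_mono q (by omega)
  have h4 : q.mir j = q.N + q.t - 1 - j := rfl
  have h5 : q.N = q.N2 + q.P + q.g := rfl
  omega

/-- PAIR: the partners. -/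
theorem par_spec (q : GP) (i j i' : ℕ) (hi : i < q.K) (hj : j < q.N) (h : q.par i j = some i') :
    i' < q.K ∧ i' ≠ i ∧ q.par i' j = some i ∧ q.w i j = q.w i' j ∧ (q.Low i j ∨ q.High i j) := by
  by_cases hL : q.LowP i j
  · rw [pair_par_low q i j hL] at h
    have h' : q.K - 1 + q.kk j - i = i' := Option.some.inj h
    obtain ⟨h1, h2, h3⟩ := hL
    have hL' : q.LowP i' j := ⟨pair_low_of q i' j h1.1 (by omega), by omega, by omega⟩
    refine ⟨by omega, by omega, ?_, ?_, Or.inl h1⟩
    · rw [pair_par_low q i' j hL']; congr 1; omega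
    · rw [pair_w_low q i j ⟨h1, h2, h3⟩, pair_w_low q i' j hL']
  · by_cases hH : q.HighP i j
    · rw [pair_par_high q i j hH] at h
      have h' : q.K - 2 - q.kk (q.mir j) - i = i' := Option.some.inj h
      obtain ⟨h1, h2, h3⟩ := hH
      have hH' : q.HighP i' j := ⟨pair_high_of q i' j hj (by omega), by omega, by omega⟩
      refine ⟨by omega, by omega, ?_, ?_, Or.inr h1⟩
      · rw [pair_par_high q i' j hH']; congr 1; omega
      · rw [pair_w_high q i j ⟨h1, h2, h3⟩, pair_w_high q i' j hH']
    · exfalso
      unfold GP.par at h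
      rw [if_neg hL, if_neg hH] at h
      exact Option.some_ne_none _ h.symm

theorem par_none_w (q : GP) (i j : ℕ) (h : q.par i j = none) : q.w i j = 0 := by
  by_cases hL : q.LowP i j
  · rw [pair_par_low q i j hL] at h
    exact absurd h (Option.some_ne_none _)
  · by_cases hH : q.HighP i j
    · rw [pair_par_high q i j hH] at h
      exact absurd h (Option.some_ne_none _)
    · unfold GP.w
      rw [if_neg hL, if_neg hH]

theorem w_sum (q : GP) (i i' : ℕ) (hi : i < q.K) (hi' : i' < q.K) (h : i ≠ i') :
    ∑ j ∈ range q.N, (if q.par i j = some i' then q.w i j else 0) = 1 := by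
  have hN : q.N = q.N2 + q.P + q.g := rfl
  by_cases hc : q.K - 1 ≤ i + i'
  · obtain ⟨k, hk⟩ : ∃ k, i + i' = q.K - 1 + k := ⟨i + i' - (q.K - 1), by omega⟩
    have hiff : ∀ j ∈ range q.N, (if q.par i j = some i' then q.w i j else 0) =
        if j ∈ Ico (q.a k) (q.a (k + 1)) then (1 : ℝ) / q.len k else 0 := by
      intro j hj
      rw [mem_range] at hj
      by_cases hjk : j ∈ Ico (q.a k) (q.a (k + 1))
      · rw [if_pos hjk]
        rw [mem_Ico] at hjk
        have htj : q.t ≤ j := le_trans (pair_t_le q k) hjk.1
        have hkk : q.kk j = k := (HY.kk_iff q j k htj).2 hjk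
        have hL : q.LowP i j := ⟨pair_low_of q i j htj (by omega), by omega, by omega⟩
        rw [pair_par_low q i j hL, pair_w_low q i j hL, hkk, if_pos]
        congr 1; omega
      · rw [if_neg hjk]
        rw [if_neg]
        intro hp
        apply hjk
        rw [mem_Ico]
        by_cases hL : q.LowP i j
        · rw [pair_par_low q i j hL] at hp
          have h' : q.K - 1 + q.kk j - i = i' := Option.some.inj hp
          exact (HY.kk_iff q j k hL.1.1).1 (by omega)
        · by_cases hH : q.HighP i j
          · rw [pair_par_high q i j hH] at hp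
            have h' : q.K - 2 - q.kk (q.mir j) - i = i' := Option.some.inj hp
            have := hH.2.1
            omega
          · unfold GP.par at hp
            rw [if_neg hL, if_neg hH] at hp
            exact absurd hp.symm (Option.some_ne_none _)
    rw [sum_congr rfl hiff, ← sum_filter]
    have hfil : (range q.N).filter (fun j => j ∈ Ico (q.a k) (q.a (k + 1))) =
        Ico (q.a k) (q.a (k + 1)) := by
      ext j
      simp only [mem_filter, mem_range, mem_Ico]
      constructor
      · exact fun h => h.2
      · intro hj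
        refine ⟨?_, hj⟩
        have h1 := HY.a_le_X q k
        have h2 : q.X k ≤ q.N2 := pair_X_le q k (by omega)
        omega
    rw [hfil, sum_const, Nat.card_Ico, pair_a_succ, Nat.add_sub_cancel_left, nsmul_eq_mul]
    have : (q.len k : ℝ) ≠ 0 := by
      have := pair_len_pos q k
      positivity
    field_simp
  · obtain ⟨k, hk⟩ : ∃ k, i + i' + k + 2 = q.K := ⟨q.K - 2 - i - i', by omega⟩
    have hak : q.a (k + 1) ≤ q.N2 + q.t := by
      have h1 := HY.a_le_X q k
      have h2 : q.X k ≤ q.N2 := pair_X_le q k (by omega)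
      omega
    have hak0 := pair_a_succ q k
    have htk := pair_t_le q k
    have hlen := pair_len_pos q k
    have hiff : ∀ j ∈ range q.N, (if q.par i j = some i' then q.w i j else 0) =
        if j ∈ Ico (q.N + q.t - q.a (k + 1)) (q.N + q.t - q.a k) then (1 : ℝ) / q.len k else 0 := by
      intro j hj
      rw [mem_range] at hj
      have hmir : q.mir j = q.N + q.t - 1 - j := rfl
      by_cases hjk : j ∈ Ico (q.N + q.t - q.a (k + 1)) (q.N + q.t - q.a k)
      · rw [if_pos hjk]
        rw [mem_Ico] at hjk
        have hkk : q.kk (q.mir j) = k :=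
          (HY.kk_iff q (q.mir j) k (pair_mir_ge q j hj)).2 (by omega)
        have hH : q.HighP i j := ⟨pair_high_of q i j hj (by omega), by omega, by omega⟩
        rw [pair_par_high q i j hH, pair_w_high q i j hH, hkk, if_pos]
        congr 1; omega
      · rw [if_neg hjk]
        rw [if_neg]
        intro hp
        apply hjk
        rw [mem_Ico]
        by_cases hL : q.LowP i j
        · rw [pair_par_low q i j hL] at hp
          have h' : q.K - 1 + q.kk j - i = i' := Option.some.inj hp
          omega
        · by_cases hH : q.HighP i j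
          · rw [pair_par_high q i j hH] at hp
            have h' : q.K - 2 - q.kk (q.mir j) - i = i' := Option.some.inj hp
            have := hH.2.1
            have h2 := (HY.kk_iff q (q.mir j) k (pair_mir_ge q j hj)).1 (by omega)
            omega
          · unfold GP.par at hp
            rw [if_neg hL, if_neg hH] at hp
            exact absurd hp.symm (Option.some_ne_none _)
    rw [sum_congr rfl hiff, ← sum_filter]
    have hfil : (range q.N).filter
        (fun j => j ∈ Ico (q.N + q.t - q.a (k + 1)) (q.N + q.t - q.a k)) =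
        Ico (q.N + q.t - q.a (k + 1)) (q.N + q.t - q.a k) := by
      ext j
      simp only [mem_filter, mem_range, mem_Ico]
      constructor
      · exact fun h => h.2
      · intro hj
        exact ⟨by omega, hj⟩
    rw [hfil, sum_const, Nat.card_Ico, nsmul_eq_mul]
    have hcard : q.N + q.t - q.a k - (q.N + q.t - q.a (k + 1)) = q.len k := by omega
    rw [hcard]
    have : (q.len k : ℝ) ≠ 0 := by positivity
    field_simp

theorem win_card (q : GP) (i : ℕ) (hi : i < q.K) :
    {j | j < q.N ∧ (q.Low i j ∨ q.High i j)}.ncard = q.N2 - q.t := by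
  have hN : q.N = q.N2 + q.P + q.g := rfl
  have hX := pair_X_le q i hi
  have htX : q.t ≤ q.X i := by
    unfold GP.t GP.X
    have : q.g * 1 ≤ q.g * (i + 2) := Nat.mul_le_mul_left _ (by omega)
    omega
  have hset : {j | j < q.N ∧ (q.Low i j ∨ q.High i j)} =
      ((Ico q.t (q.X i) ∪ Ico (q.X i + q.g + q.P) q.N : Finset ℕ) : Set ℕ) := by
    ext j
    simp only [Set.mem_setOf_eq, coe_union, coe_Ico, Set.mem_union, Set.mem_Ico, GP.Low, GP.High]
    constructor
    · exact fun h => h.2
    · intro h
      refine ⟨?_, h⟩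
      omega
  rw [hset, Set.ncard_coe_finset, card_union_of_disjoint, Nat.card_Ico, Nat.card_Ico]
  · omega
  · rw [disjoint_left]
    intro j h1 h2
    rw [mem_Ico] at h1 h2
    omega

end Pool.Agent.H70.HY
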