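import Mathlib
import Pool.Agent.H70.HY.Base
import Pool.Agent.H70.HY.PAIR

/-! Module NEED: bounds and total of `need`. -/

set_option autoImplicit false

namespace Pool.Agent.H70.HY

open Finset

private theorem need_m_cast (q : GP) : (q.m : ℝ) = q.g - 2 * q.κ := by
  have := q.hg
  unfold GP.m
  rw [Nat.cast_sub (by omega)]
  push_cast; ring

private theorem need_g1_cast (q : GP) : (q.g1 : ℝ) = q.g - q.κ - 1 := by
  have := q.hg; have := q.hκ
  unfold GP.g1
  rw [Nat.cast_sub (by omega), Nat.cast_sub (by omega)]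
  push_cast; ring

private theorem need_mw (q : GP) (i j : ℕ) :
    0 ≤ (q.m : ℝ) * q.w i j ∧ (q.m : ℝ) * q.w i j ≤ 1 - (q.κ - 1 : ℝ) / q.g := by
  have hg := q.hg
  have hκ := q.hκ
  have hgR : (10 : ℝ) * q.κ ≤ q.g := by exact_mod_cast hg
  have hκR : (8 : ℝ) ≤ q.κ := by exact_mod_cast hκ
  have hcm := need_m_cast q
  have hcg1 := need_g1_cast q
  have hgpos : (0 : ℝ) < q.g := by linarith
  have hm : (0 : ℝ) ≤ q.m := by positivity
  have hlen : ∀ k, 0 ≤ (q.m : ℝ) * (1 / q.len k) ∧
      (q.m : ℝ) * (1 / q.len k) ≤ 1 - (q.κ - 1 : ℝ) / q.g := by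
    intro k
    refine ⟨by positivity, ?_⟩
    unfold GP.len
    split_ifs
    · have hg1pos : (0 : ℝ) < q.g1 := by rw [hcg1]; linarith
      rw [mul_one_div, div_le_iff₀ hg1pos, sub_mul, div_mul_eq_mul_div, one_mul]
      have h1 : ((q.κ : ℝ) - 1) * q.g1 / q.g ≤ q.κ - 1 := by
        rw [div_le_iff₀ hgpos]
        have : (q.g1 : ℝ) ≤ q.g := by rw [hcg1]; linarith
        exact mul_le_mul_of_nonneg_left this (by linarith)
      rw [hcm, hcg1] at *
      linarith
    · rw [mul_one_div, div_le_iff₀ hgpos, sub_mul, div_mul_cancel₀ _ hgpos.ne', hcm]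
      linarith
  have h0 : (0 : ℝ) ≤ 1 - (q.κ - 1 : ℝ) / q.g := by
    rw [sub_nonneg, div_le_one hgpos]; linarith
  unfold GP.w
  split_ifs
  · exact hlen _
  · exact hlen _
  · simpa using h0

/-- NEED. -/
theorem need_bounds (q : GP) (i j : ℕ) (h : q.Low i j ∨ q.High i j) :
    (q.κ - 1 : ℝ) / q.g ≤ q.need i j ∧ q.need i j ≤ 1 := by
  have h1 := need_mw q i j
  unfold GP.need
  rw [if_pos h]
  constructor <;> linarith [h1.1, h1.2]

theorem need_sum (q : GP) (i : ℕ) (hi : i < q.K) :
    ∑ j ∈ range q.N, q.need i j = q.N2 - q.t - q.m * (q.K - 1) := by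
  classical
  -- the total weight
  have hw : ∑ j ∈ range q.N, q.w i j = (q.K : ℝ) - 1 := by
    have h1 : ∀ j ∈ range q.N, q.w i j =
        ∑ i' ∈ (range q.K).erase i, (if q.par i j = some i' then q.w i j else 0) := by
      intro j hj
      rw [mem_range] at hj
      rcases hp : q.par i j with _ | i0
      · rw [HY.par_none_w q i j hp]; simp
      · obtain ⟨h2, h3, _⟩ := HY.par_spec q i j i0 hi hj hp
        rw [sum_eq_single i0]
        · simp
        · intro b _ hb
          rw [if_neg]
          intro h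
          exact hb (Option.some.inj h).symm
        · intro h
          exact absurd (mem_erase.2 ⟨h3, mem_range.2 h2⟩) h
    rw [sum_congr rfl h1, sum_comm]
    have h2 : ∀ i' ∈ (range q.K).erase i,
        ∑ j ∈ range q.N, (if q.par i j = some i' then q.w i j else 0) = 1 := by
      intro i' hi'
      rw [mem_erase, mem_range] at hi'
      exact HY.w_sum q i i' hi hi'.2 (fun h => hi'.1 h.symm)
    rw [sum_congr rfl h2, sum_const, card_erase_of_mem (mem_range.2 hi), card_range, nsmul_eq_mul,
      Nat.cast_sub (by omega)]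
    simp
  have hneed : ∀ j ∈ range q.N, q.need i j =
      (if q.Low i j ∨ q.High i j then (1 : ℝ) else 0) - q.m * q.w i j := by
    intro j _
    unfold GP.need
    by_cases h : q.Low i j ∨ q.High i j
    · rw [if_pos h, if_pos h]
    · rw [if_neg h, if_neg h]
      have : q.w i j = 0 := by
        unfold GP.w
        rw [if_neg (fun h' => h (Or.inl h'.1)), if_neg (fun h' => h (Or.inr h'.1))]
      rw [this]; simp
  rw [sum_congr rfl hneed, sum_sub_distrib, ← mul_sum, hw, ← sum_filter, sum_const, nsmul_eq_mul,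
    mul_one]
  have hcard : ((range q.N).filter (fun j => q.Low i j ∨ q.High i j)).card = q.N2 - q.t := by
    rw [← HY.win_card q i hi, ← Set.ncard_coe_finset]
    congr 1
    ext j
    simp
  have ht : q.t ≤ q.N2 := by
    have h1 := q.N2_ge
    have h2 : q.g * 1 ≤ q.g * (q.K + 1) := Nat.mul_le_mul_left _ (by omega)
    unfold GP.t
    omega
  rw [hcard, Nat.cast_sub ht]

end Pool.Agent.H70.HY
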