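import Mathlib
import Pool.Agent.H70.HY.Base
import Pool.Agent.H70.HY.TIME

/-! Module SUMS: closed forms of `SJ` and `LF`. -/

set_option autoImplicit false

namespace Pool.Agent.H70.HY

open Finset

private theorem sums_a_succ (q : GP) (k : ℕ) : q.a (k + 1) = q.a k + q.len k := by
  unfold GP.a GP.len
  rcases lt_trichotomy k q.k1 with h | h | h
  · rw [if_pos (by omega : k + 1 ≤ q.k1), if_pos (by omega : k ≤ q.k1), if_pos h]
    ring
  · subst h
    rw [if_neg (by omega), if_pos (le_refl _), if_neg (by omega)]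
    have : q.k1 + 1 - q.k1 = 1 := by omega
    rw [this]; ring
  · rw [if_neg (by omega), if_neg (by omega), if_neg (by omega)]
    have : k + 1 - q.k1 = (k - q.k1) + 1 := by omega
    rw [this]; ring

private theorem sums_a_mono (q : GP) : Monotone q.a := by
  apply monotone_nat_of_le_succ
  intro k
  rw [sums_a_succ]; omega

private theorem sums_a_zero (q : GP) : q.a 0 = q.t := by unfold GP.a; simp

private theorem sums_t_le (q : GP) (k : ℕ) : q.t ≤ q.a k := by
  rw [← sums_a_zero q]; exact sums_a_mono q (Nat.zero_le _)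

private theorem sums_X_mono (q : GP) : Monotone q.X := by
  intro i j h
  unfold GP.X
  exact Nat.mul_le_mul_left _ (by omega)

private theorem sums_X_le (q : GP) (i : ℕ) (hi : i < q.K) : q.X i ≤ q.N2 := by
  refine le_trans ?_ q.N2_ge
  unfold GP.X
  exact Nat.mul_le_mul_left _ (by omega)

private theorem sums_disj (q : GP) (i j : ℕ) (h1 : q.Low i j) (h2 : q.High i j) : False := by
  unfold GP.Low at h1; unfold GP.High at h2; omega

private theorem sums_mir_ge (q : GP) (j : ℕ) (hj : j < q.N) : q.t ≤ q.mir j := by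
  unfold GP.mir; omega

private theorem sums_kk_le (q : GP) (j k : ℕ) (hj : q.t ≤ j) : q.kk j ≤ k ↔ j < q.a (k + 1) := by
  have h := (HY.kk_iff q j (q.kk j) hj).1 rfl
  constructor
  · intro hk
    exact lt_of_lt_of_le h.2 (sums_a_mono q (by omega))
  · intro hk
    by_contra hc
    push Not at hc
    have := sums_a_mono q (show k + 1 ≤ q.kk j by omega)
    omega

private theorem sums_kk_ge (q : GP) (j k : ℕ) (hj : q.t ≤ j) : k ≤ q.kk j ↔ q.a k ≤ j := by
  have h := (HY.kk_iff q j (q.kk j) hj).1 rfl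
  constructor
  · intro hk
    exact le_trans (sums_a_mono q hk) h.1
  · intro hk
    by_contra hc
    push Not at hc
    have := sums_a_mono q (show q.kk j + 1 ≤ k by omega)
    omega

/-- sum over a direct interval -/
private theorem sums_direct (q : GP) (x y : ℕ) (hy : y ≤ q.N) (φ : ℕ → ℝ) :
    ∑ j ∈ range q.N, (if x ≤ j ∧ j < y then φ j else 0) = ∑ j ∈ Ico x y, φ j := by
  rw [← sum_filter]
  apply sum_congr _ (fun _ _ => rfl)
  ext j
  simp only [mem_filter, mem_range, mem_Ico]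
  constructor
  · exact fun h => h.2
  · exact fun h => ⟨by omega, h⟩

/-- sum over a mirrored interval -/
private theorem sums_mirror (q : GP) (x y : ℕ) (hx : q.t ≤ x) (hy : y ≤ q.N + q.t) (φ : ℕ → ℝ) :
    ∑ j ∈ range q.N, (if x ≤ q.mir j ∧ q.mir j < y then φ (q.mir j) else 0) =
      ∑ u ∈ Ico x y, φ u := by
  have h1 : ∑ j ∈ range q.N, (if x ≤ q.mir j ∧ q.mir j < y then φ (q.mir j) else 0) =
      ∑ j ∈ range q.N, (if x ≤ j + q.t ∧ j + q.t < y then φ (j + q.t) else 0) := by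
    rw [← sum_range_reflect (fun j => (if x ≤ j + q.t ∧ j + q.t < y then φ (j + q.t) else 0)) q.N]
    apply sum_congr rfl
    intro j hj
    rw [mem_range] at hj
    have : q.mir j = q.N - 1 - j + q.t := by unfold GP.mir; omega
    rw [this]
  rw [h1, ← sum_filter]
  refine sum_bij (fun j _ => j + q.t) ?_ ?_ ?_ ?_
  · intro j hj
    simp only [mem_filter, mem_range] at hj
    rw [mem_Ico]; exact hj.2
  · intro j _ j' _ h
    simpa using h
  · intro u hu
    rw [mem_Ico] at hu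
    refine ⟨u - q.t, ?_, by omega⟩
    simp only [mem_filter, mem_range]
    refine ⟨by omega, by omega, by omega⟩
  · intro j _
    rfl

private theorem sums_m_cast (q : GP) : (q.m : ℝ) = q.g - 2 * q.κ := by
  have := q.hg
  unfold GP.m
  rw [Nat.cast_sub (by omega)]
  push_cast; ring

private theorem sums_g1_cast (q : GP) : (q.g1 : ℝ) = q.g - q.κ - 1 := by
  have := q.hg; have := q.hκ
  unfold GP.g1
  rw [Nat.cast_sub (by omega), Nat.cast_sub (by omega)]
  push_cast; ring

private theorem sums_need_low (q : GP) (i j : ℕ) (h : q.Low i j) :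
    q.need i j = 1 - q.m * (if q.kk j ≤ i ∧ 2 * i ≠ q.K - 1 + q.kk j
      then (1 : ℝ) / q.len (q.kk j) else 0) := by
  unfold GP.need
  rw [if_pos (Or.inl h)]
  congr 2
  unfold GP.w
  have hH : ¬ q.HighP i j := fun h' => sums_disj q i j h h'.1
  by_cases hc : q.kk j ≤ i ∧ 2 * i ≠ q.K - 1 + q.kk j
  · rw [if_pos hc, if_pos ⟨h, hc⟩]
  · rw [if_neg hc, if_neg (fun h' => hc h'.2), if_neg hH]

private theorem sums_need_high (q : GP) (i j : ℕ) (h : q.High i j) :
    q.need i j = 1 - q.m * (if q.kk (q.mir j) + i + 2 ≤ q.K ∧ 2 * i + q.kk (q.mir j) + 2 ≠ q.K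
      then (1 : ℝ) / q.len (q.kk (q.mir j)) else 0) := by
  unfold GP.need
  rw [if_pos (Or.inr h)]
  congr 2
  unfold GP.w
  have hL : ¬ q.LowP i j := fun h' => sums_disj q i j h'.1 h
  by_cases hc : q.kk (q.mir j) + i + 2 ≤ q.K ∧ 2 * i + q.kk (q.mir j) + 2 ≠ q.K
  · rw [if_pos hc, if_neg hL, if_pos ⟨h, hc⟩]
  · rw [if_neg hc, if_neg hL, if_neg (fun h' => hc h'.2)]

/-- the high window in mirrored time -/
private theorem sums_high_iff (q : GP) (i j : ℕ) (hi : i < q.K) (hj : j < q.N) :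
    q.High i j ↔ q.mir j < q.N2 + q.t - q.X i := by
  have hX := sums_X_le q i hi
  have hN : q.N = q.N2 + q.P + q.g := rfl
  unfold GP.High GP.mir
  omega

/-- indicator sums -/
private theorem sums_ind (c d : ℝ) (k0 k2 z : ℕ) (h : k0 ≤ k2) :
    ∑ k ∈ Ico k0 k2, (c + if k = z then d else 0) =
      c * ((k2 : ℝ) - k0) + if k0 ≤ z ∧ z < k2 then d else 0 := by
  rw [sum_add_distrib, sum_const, Nat.card_Ico, nsmul_eq_mul, Nat.cast_sub h, sum_ite_eq']
  simp only [mem_Ico]
  ring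

private theorem sums_part (q : GP) (k0 k2 z : ℕ) (P : Prop) [Decidable P] (h : k0 ≤ k2) (c : ℝ)
    (hlen : ∀ k, k0 ≤ k → k < k2 → (q.len k : ℝ) - q.m = c) :
    ∑ u ∈ Ico (q.a k0) (q.a k2), (1 - (q.m : ℝ) * (if P ∧ q.kk u = z then 0 else
      (1 : ℝ) / q.len (q.kk u))) =
      c * ((k2 : ℝ) - k0) + if P ∧ k0 ≤ z ∧ z < k2 then (q.m : ℝ) else 0 := by
  rw [HY.sum_kk q (fun k => (1 - (q.m : ℝ) * (if P ∧ k = z then 0 else (1 : ℝ) / q.len k)))
    k0 k2 h]
  have hpos : ∀ k, (0 : ℝ) < q.len k := by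
    intro k
    have := q.hg; have := q.hκ
    have : 1 ≤ q.len k := by
      unfold GP.len GP.g1; split_ifs <;> omega
    positivity
  have h1 : ∀ k ∈ Ico k0 k2, (q.len k : ℝ) * (1 - (q.m : ℝ) * (if P ∧ k = z then 0 else
      (1 : ℝ) / q.len k)) = c + if k = z then (if P then (q.m : ℝ) else 0) else 0 := by
    intro k hk
    rw [mem_Ico] at hk
    have h2 := hlen k hk.1 hk.2
    have h3 := (hpos k).ne'
    by_cases hP : P <;> by_cases hz : k = z
    · simp only [hP, hz, true_and, if_true]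
      rw [hz] at h2
      linarith
    · simp only [hP, hz, true_and, if_false, if_true]
      field_simp
      linarith
    · simp only [hP, false_and, if_false]
      field_simp
      simp
      linarith
    · simp only [hP, false_and, if_false]
      field_simp
      simp
      linarith
  rw [sum_congr rfl h1, sums_ind c _ k0 k2 z h]
  congr 1
  by_cases hP : P <;> by_cases hz : k0 ≤ z ∧ z < k2 <;> simp [hP, hz]

/-- SUMS: closed forms. -/
theorem SJ_eq (q : GP) (i : ℕ) (hi : i < q.K) :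
    q.SJ i = 2 * q.κ * ((q.K : ℝ) - min q.k1 (i + 1) - min q.k1 (q.K - 1 - i)) +
      (if q.k1 ≤ 2 * i + 1 - q.K ∨ q.k1 + 2 * i + 2 ≤ q.K then (q.m : ℝ) else 0) := by
  have hN : q.N = q.N2 + q.P + q.g := rfl
  have hk1 := q.hk1
  have hk2 := q.hk2
  have hJ0 : q.J0 = q.a q.k1 := rfl
  have hJ1 : q.J1 = q.N + q.t - q.a q.k1 := rfl
  have hcm := sums_m_cast q
  have hlen : ∀ k, q.k1 ≤ k → (q.len k : ℝ) - q.m = 2 * q.κ := by
    intro k hk
    unfold GP.len
    rw [if_neg (by omega), hcm]; ring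
  -- the bounds of the two intervals
  have hb1 : q.a (max q.k1 (i + 1)) ≤ q.N := by
    have h1 := HY.a_le_X q (max q.k1 (i + 1) - 1)
    have h2 : max q.k1 (i + 1) - 1 + 1 = max q.k1 (i + 1) := by omega
    rw [h2] at h1
    have h3 := sums_X_le q (max q.k1 (i + 1) - 1) (by omega)
    omega
  have hb2 : q.a (max q.k1 (q.K - 1 - i)) ≤ q.N + q.t := by
    have h1 := HY.a_le_X q (max q.k1 (q.K - 1 - i) - 1)
    have h2 : max q.k1 (q.K - 1 - i) - 1 + 1 = max q.k1 (q.K - 1 - i) := by omega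
    rw [h2] at h1
    have h3 := sums_X_le q (max q.k1 (q.K - 1 - i) - 1) (by omega)
    omega
  have key : ∀ j ∈ range q.N,
      (@ite ℝ (q.Joint i j) (Classical.propDecidable _) (q.need i j) 0) =
      (if q.a q.k1 ≤ j ∧ j < q.a (max q.k1 (i + 1)) then
        (1 - (q.m : ℝ) * (if (q.K ≤ 2 * i + 1) ∧ q.kk j = 2 * i + 1 - q.K then 0 else
          (1 : ℝ) / q.len (q.kk j))) else 0) +
      (if q.a q.k1 ≤ q.mir j ∧ q.mir j < q.a (max q.k1 (q.K - 1 - i)) then
        (1 - (q.m : ℝ) * (if (2 * i + 2 ≤ q.K) ∧ q.kk (q.mir j) = q.K - 2 - 2 * i then 0 else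
          (1 : ℝ) / q.len (q.kk (q.mir j)))) else 0) := by
    intro j hj
    rw [mem_range] at hj
    have hmg := sums_mir_ge q j hj
    have hmir : q.mir j = q.N + q.t - 1 - j := rfl
    -- the low condition
    have hlow : (q.a q.k1 ≤ j ∧ j < q.a (max q.k1 (i + 1))) ↔
        (q.Low i j ∧ q.J0 ≤ j ∧ q.kk j ≤ i) := by
      rw [hJ0]
      constructor
      · rintro ⟨h1, h2⟩
        have htj : q.t ≤ j := le_trans (sums_t_le q _) h1
        have h3 : q.k1 < i + 1 := by
          by_contra hc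
          rw [max_eq_left (by omega)] at h2
          omega
        rw [max_eq_right (by omega)] at h2
        have h4 := (sums_kk_le q j i htj).2 h2
        exact ⟨⟨htj, lt_of_lt_of_le h2 (HY.a_le_X q i)⟩, h1, h4⟩
      · rintro ⟨h1, h2, h3⟩
        refine ⟨h2, ?_⟩
        have h4 := (sums_kk_le q j i h1.1).1 h3
        exact lt_of_lt_of_le h4 (sums_a_mono q (le_max_right _ _))
    have hhigh : (q.a q.k1 ≤ q.mir j ∧ q.mir j < q.a (max q.k1 (q.K - 1 - i))) ↔
        (q.High i j ∧ j < q.J1 ∧ q.kk (q.mir j) + i + 2 ≤ q.K) := by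
      rw [hJ1, sums_high_iff q i j hi hj]
      constructor
      · rintro ⟨h1, h2⟩
        have h3 : q.k1 < q.K - 1 - i := by
          by_contra hc
          rw [max_eq_left (by omega)] at h2
          omega
        rw [max_eq_right (by omega)] at h2
        have h5 := HY.a_mir q i hi
        have h4 := (sums_kk_le q (q.mir j) (q.K - 2 - i) hmg).2 (by
          have : q.K - 2 - i + 1 = q.K - 1 - i := by omega
          rw [this]; exact h2)
        exact ⟨by omega, by omega, by omega⟩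
      · rintro ⟨h1, h2, h3⟩
        refine ⟨by omega, ?_⟩
        have h4 := (sums_kk_le q (q.mir j) (q.K - 2 - i) hmg).1 (by omega)
        have : q.K - 2 - i + 1 = q.K - 1 - i := by omega
        rw [this] at h4
        exact lt_of_lt_of_le h4 (sums_a_mono q (le_max_right _ _))
    by_cases hA : q.Low i j ∧ q.J0 ≤ j ∧ q.kk j ≤ i
    · have hB : ¬ (q.High i j ∧ j < q.J1 ∧ q.kk (q.mir j) + i + 2 ≤ q.K) :=
        fun h => sums_disj q i j hA.1 h.1
      rw [if_pos (hlow.2 hA), if_neg (fun h => hB (hhigh.1 h)),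
        if_pos (show q.Joint i j from Or.inl hA), add_zero,
        sums_need_low q i j hA.1]
      congr 2
      by_cases hc : (q.K ≤ 2 * i + 1) ∧ q.kk j = 2 * i + 1 - q.K
      · rw [if_pos hc, if_neg (by omega)]
      · rw [if_neg hc, if_pos ⟨hA.2.2, by omega⟩]
    · by_cases hB : q.High i j ∧ j < q.J1 ∧ q.kk (q.mir j) + i + 2 ≤ q.K
      · rw [if_neg (fun h => hA (hlow.1 h)), if_pos (hhigh.2 hB),
          if_pos (show q.Joint i j from Or.inr hB), zero_add,
          sums_need_high q i j hB.1]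
        congr 2
        by_cases hc : (2 * i + 2 ≤ q.K) ∧ q.kk (q.mir j) = q.K - 2 - 2 * i
        · rw [if_pos hc, if_neg (by omega)]
        · rw [if_neg hc, if_pos ⟨hB.2.2, by omega⟩]
      · rw [if_neg (fun h => hA (hlow.1 h)), if_neg (fun h => hB (hhigh.1 h)), if_neg, add_zero]
        rintro (h | h)
        · exact hA h
        · exact hB h
  unfold GP.SJ
  rw [sum_congr rfl key, sum_add_distrib, sums_direct q _ _ hb1
    (fun j => (1 - (q.m : ℝ) * (if (q.K ≤ 2 * i + 1) ∧ q.kk j = 2 * i + 1 - q.K then 0 else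
          (1 : ℝ) / q.len (q.kk j)))), sums_mirror q _ _ (sums_t_le q _) hb2
    (fun u => (1 - (q.m : ℝ) * (if (2 * i + 2 ≤ q.K) ∧ q.kk u = q.K - 2 - 2 * i then 0 else
          (1 : ℝ) / q.len (q.kk u)))),
    sums_part q _ _ _ _ (le_max_left _ _) (2 * q.κ) (fun k h _ => hlen k h),
    sums_part q _ _ _ _ (le_max_left _ _) (2 * q.κ) (fun k h _ => hlen k h)]
  have e1 : ((max q.k1 (i + 1) : ℕ) : ℝ) - q.k1 = (i : ℝ) + 1 - (min q.k1 (i + 1) : ℕ) := by
    have h := min_add_max q.k1 (i + 1)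
    have h' : ((min q.k1 (i + 1) : ℕ) : ℝ) + ((max q.k1 (i + 1) : ℕ) : ℝ) = q.k1 + (i + 1) := by
      exact_mod_cast h
    linarith
  have e2 : ((max q.k1 (q.K - 1 - i) : ℕ) : ℝ) - q.k1 =
      (q.K : ℝ) - 1 - i - (min q.k1 (q.K - 1 - i) : ℕ) := by
    have h := min_add_max q.k1 (q.K - 1 - i)
    have h' : ((min q.k1 (q.K - 1 - i) : ℕ) : ℝ) + ((max q.k1 (q.K - 1 - i) : ℕ) : ℝ) =
        q.k1 + ((q.K - 1 - i : ℕ) : ℝ) := by
      exact_mod_cast h
    have h2 : ((q.K - 1 - i : ℕ) : ℝ) = (q.K : ℝ) - 1 - i := by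
      rw [Nat.cast_sub (by omega), Nat.cast_sub (by omega)]
      push_cast; ring
    rw [h2] at h'
    linarith
  rw [e1, e2]
  have e3 : (if (q.K ≤ 2 * i + 1) ∧ q.k1 ≤ 2 * i + 1 - q.K ∧ 2 * i + 1 - q.K < max q.k1 (i + 1)
      then (q.m : ℝ) else 0) + (if (2 * i + 2 ≤ q.K) ∧ q.k1 ≤ q.K - 2 - 2 * i ∧
        q.K - 2 - 2 * i < max q.k1 (q.K - 1 - i) then (q.m : ℝ) else 0) =
      (if q.k1 ≤ 2 * i + 1 - q.K ∨ q.k1 + 2 * i + 2 ≤ q.K then (q.m : ℝ) else 0) := by
    by_cases h1 : q.k1 ≤ 2 * i + 1 - q.K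
    · rw [if_pos ⟨by omega, h1, lt_of_lt_of_le (by omega : 2 * i + 1 - q.K < i + 1)
        (le_max_right _ _)⟩, if_neg (by omega), if_pos (Or.inl h1), add_zero]
    · by_cases h2 : q.k1 + 2 * i + 2 ≤ q.K
      · rw [if_neg (fun h => h1 h.2.1), if_pos ⟨by omega, by omega,
          lt_of_lt_of_le (by omega : q.K - 2 - 2 * i < q.K - 1 - i) (le_max_right _ _)⟩,
          if_pos (Or.inr h2), zero_add]
      · rw [if_neg (fun h => h1 h.2.1), if_neg (by omega), if_neg (by omega), add_zero]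
  rw [← e3]
  push_cast
  ring

theorem LF_eq (q : GP) (i : ℕ) (hi : i < q.K) :
    q.LF i = (q.N2 - q.g * (q.K + 1)) + 2 * q.κ * (min q.k1 (q.K - 1 - i) : ℕ) +
      (if 2 * i + 2 ≤ q.K ∧ q.K < q.k1 + 2 * i + 2 then (q.m : ℝ) else 0) := by
  have hN : q.N = q.N2 + q.P + q.g := rfl
  have hk1 := q.hk1
  have hk2 := q.hk2
  have hJ1 : q.J1 = q.N + q.t - q.a q.k1 := rfl
  have hcm := sums_m_cast q
  have hcg1 := sums_g1_cast q
  have hlen : ∀ k, k < q.k1 → (q.len k : ℝ) - q.m = q.κ - 1 := by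
    intro k hk
    unfold GP.len
    rw [if_pos hk, hcm, hcg1]; ring
  have ham := HY.a_mir q i hi
  have hb1 : q.a (min q.k1 (q.K - 1 - i)) ≤ q.N + q.t := by
    have h1 := sums_a_mono q (min_le_right q.k1 (q.K - 1 - i))
    omega
  have key : ∀ j ∈ range q.N,
      (@ite ℝ (q.OnlyL i j) (Classical.propDecidable _) (q.need i j) 0) =
      (if q.a 0 ≤ q.mir j ∧ q.mir j < q.a (min q.k1 (q.K - 1 - i)) then
        (1 - (q.m : ℝ) * (if (2 * i + 2 ≤ q.K) ∧ q.kk (q.mir j) = q.K - 2 - 2 * i then 0 else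
          (1 : ℝ) / q.len (q.kk (q.mir j)))) else 0) +
      (if q.a (q.K - 1 - i) ≤ q.mir j ∧ q.mir j < q.N2 + q.t - q.X i then (1 : ℝ) else 0) := by
    intro j hj
    rw [mem_range] at hj
    have hmg := sums_mir_ge q j hj
    have hmir : q.mir j = q.N + q.t - 1 - j := rfl
    have hak := sums_a_mono q (min_le_left q.k1 (q.K - 1 - i))
    have hak' := sums_a_mono q (min_le_right q.k1 (q.K - 1 - i))
    have h1 : (q.a 0 ≤ q.mir j ∧ q.mir j < q.a (min q.k1 (q.K - 1 - i))) ↔
        (q.High i j ∧ q.J1 ≤ j ∧ q.kk (q.mir j) + i + 2 ≤ q.K) := by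
      rw [hJ1, sums_high_iff q i j hi hj, sums_a_zero]
      constructor
      · rintro ⟨_, h2⟩
        have h3 : 0 < q.K - 1 - i := by
          by_contra hc
          have h0 : q.K - 1 - i = 0 := by omega
          rw [h0, Nat.min_zero, sums_a_zero] at h2
          omega
        have h4 := (sums_kk_le q (q.mir j) (q.K - 2 - i) hmg).2 (by
          have : q.K - 2 - i + 1 = q.K - 1 - i := by omega
          rw [this]; omega)
        exact ⟨by omega, by omega, by omega⟩
      · rintro ⟨h2, h3, h4⟩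
        refine ⟨hmg, ?_⟩
        have h5 : q.mir j < q.a q.k1 := by
          have := sums_t_le q q.k1
          omega
        have h6 := (sums_kk_le q (q.mir j) (q.K - 2 - i) hmg).1 (by omega)
        have h7 : q.K - 2 - i + 1 = q.K - 1 - i := by omega
        rw [h7] at h6
        rcases le_total q.k1 (q.K - 1 - i) with h | h
        · rw [min_eq_left h]; exact h5
        · rw [min_eq_right h]; exact h6
    have h2 : (q.a (q.K - 1 - i) ≤ q.mir j ∧ q.mir j < q.N2 + q.t - q.X i) ↔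
        (q.High i j ∧ q.K < q.kk (q.mir j) + i + 2) := by
      rw [sums_high_iff q i j hi hj]
      have := sums_kk_ge q (q.mir j) (q.K - 1 - i) hmg
      constructor
      · rintro ⟨h3, h4⟩
        have := this.2 h3
        exact ⟨h4, by omega⟩
      · rintro ⟨h3, h4⟩
        exact ⟨this.1 (by omega), h3⟩
    by_cases hA : q.High i j ∧ q.J1 ≤ j ∧ q.kk (q.mir j) + i + 2 ≤ q.K
    · have hB : ¬ (q.High i j ∧ q.K < q.kk (q.mir j) + i + 2) := by
        rintro ⟨_, h⟩; omega
      rw [if_pos (h1.2 hA), if_neg (fun h => hB (h2.1 h)),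
        if_pos (show q.OnlyL i j from ⟨hA.1, Or.inl hA.2.1⟩), add_zero,
        sums_need_high q i j hA.1]
      congr 2
      by_cases hc : (2 * i + 2 ≤ q.K) ∧ q.kk (q.mir j) = q.K - 2 - 2 * i
      · rw [if_pos hc, if_neg (by omega)]
      · rw [if_neg hc, if_pos ⟨hA.2.2, by omega⟩]
    · by_cases hB : q.High i j ∧ q.K < q.kk (q.mir j) + i + 2
      · rw [if_neg (fun h => hA (h1.1 h)), if_pos (h2.2 hB),
          if_pos (show q.OnlyL i j from ⟨hB.1, Or.inr hB.2⟩), zero_add,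
          sums_need_high q i j hB.1, if_neg (by omega)]
        simp
      · rw [if_neg (fun h => hA (h1.1 h)), if_neg (fun h => hB (h2.1 h)), if_neg, add_zero]
        rintro ⟨h3, h4 | h4⟩
        · by_cases h5 : q.K < q.kk (q.mir j) + i + 2
          · exact hB ⟨h3, h5⟩
          · exact hA ⟨h3, h4, by omega⟩
        · exact hB ⟨h3, h4⟩
  unfold GP.LF
  rw [sum_congr rfl key, sum_add_distrib, sums_mirror q _ _ (sums_t_le q _) hb1
    (fun u => (1 - (q.m : ℝ) * (if (2 * i + 2 ≤ q.K) ∧ q.kk u = q.K - 2 - 2 * i then 0 else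
          (1 : ℝ) / q.len (q.kk u)))), sums_mirror q _ _ (sums_t_le q _) (by omega)
    (fun _ => (1 : ℝ)),
    sums_part q _ _ _ _ (Nat.zero_le _) (q.κ - 1) (fun k _ h => hlen k (by omega)),
    sum_const, Nat.card_Ico, nsmul_eq_mul, mul_one]
  have e1 : ((q.N2 + q.t - q.X i - q.a (q.K - 1 - i) : ℕ) : ℝ) =
      (q.N2 - q.g * (q.K + 1)) + (q.κ + 1) * (min q.k1 (q.K - 1 - i) : ℕ) := by
    have h2 : ((q.K - 1 - i : ℕ) : ℝ) = (q.K : ℝ) - 1 - i := by
      rw [Nat.cast_sub (by omega), Nat.cast_sub (by omega)]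
      push_cast; ring
    have h3 : ((q.N2 + q.t - q.X i - q.a (q.K - 1 - i) : ℕ) : ℝ) =
        (q.N2 : ℝ) + q.t - q.X i - q.a (q.K - 1 - i) := by
      rw [Nat.cast_sub (by omega), Nat.cast_sub (by omega)]
      push_cast; ring
    rw [h3]
    by_cases h : q.K - 1 - i ≤ q.k1
    · rw [min_eq_right h]
      have h4 : q.a (q.K - 1 - i) = q.t + q.g1 * (q.K - 1 - i) := by
        unfold GP.a; rw [if_pos h]
      rw [h4]
      unfold GP.X
      rw [Nat.cast_add, Nat.cast_mul, Nat.cast_mul, h2, hcg1]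
      push_cast
      ring
    · rw [min_eq_left (by omega)]
      have h4 : q.a (q.K - 1 - i) = q.t + q.g1 * q.k1 + q.g * (q.K - 1 - i - q.k1) := by
        unfold GP.a; rw [if_neg h]
      rw [h4]
      unfold GP.X
      rw [Nat.cast_add, Nat.cast_add, Nat.cast_mul, Nat.cast_mul, Nat.cast_mul,
        Nat.cast_sub (le_of_not_ge h), h2, hcg1]
      push_cast
      ring
  rw [e1]
  have e3 : (if (2 * i + 2 ≤ q.K) ∧ 0 ≤ q.K - 2 - 2 * i ∧
        q.K - 2 - 2 * i < min q.k1 (q.K - 1 - i) then (q.m : ℝ) else 0) =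
      (if 2 * i + 2 ≤ q.K ∧ q.K < q.k1 + 2 * i + 2 then (q.m : ℝ) else 0) := by
    apply if_congr _ rfl rfl
    rw [lt_min_iff]
    omega
  rw [e3]
  push_cast
  ring

end Pool.Agent.H70.HY
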