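import Mathlib
import Pool.Agent.H70.HY.Base
import Pool.Agent.H70.HY.NEED
import Pool.Agent.H70.HY.SUMS

/-! SIG: bounds for the shares of L and of H, and the totals. -/

set_option autoImplicit false

namespace Pool.Agent.H70.HY

open Finset

/-- Basic numeric facts about the grid parameters. -/
theorem sig_m (q : GP) : (q.m : ℝ) = (q.g : ℝ) - 2 * q.κ := by
  have h := q.hg
  have h2 : 2 * q.κ ≤ q.g := by omega
  have : q.m = q.g - 2 * q.κ := rfl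
  rw [this, Nat.cast_sub h2]
  push_cast
  ring

theorem sig_t (q : GP) : (q.t : ℝ) = (q.g : ℝ) - q.κ - 2 := by
  have h := q.hg
  have h' := q.hκ
  have : q.t = q.g - q.κ - 2 := rfl
  rw [this]
  have h2 : q.κ ≤ q.g := by omega
  have h3 : 2 ≤ q.g - q.κ := by omega
  rw [Nat.cast_sub h3, Nat.cast_sub h2]
  push_cast
  ring

/-- The numerator of `sg`, the denominator, and all bounds needed for them. -/
theorem sig_core (q : GP) (e : ℝ) (hs : q.Small e) (i : ℕ) (hi : i < q.K) :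
    ∃ num D y1 y2 Q : ℝ, y1 = ((min q.k1 (i + 1) : ℕ) : ℝ) ∧
      y2 = ((min q.k1 (q.K - 1 - i) : ℕ) : ℝ) ∧ Q = (q.K : ℝ) - y1 - y2 ∧
      q.sg i = num / D ∧ D = q.SJ i ∧
      num = q.hp - (if 2 * i < q.K then 0 else q.zg) - q.LF i ∧
      (q.K : ℝ) - 2 * q.k1 ≤ Q ∧ e * q.K ≤ (q.K : ℝ) - 2 * q.k1 ∧
      e * q.K ≤ (q.K : ℝ) - 2 * y1 ∧ e * q.K ≤ (q.K : ℝ) - 2 * y2 ∧
      2 * q.κ * Q ≤ D ∧ D ≤ 2 * q.κ * q.K + q.g ∧
      q.κ * ((q.K : ℝ) - 2 * y2) - (2 * q.g + 2) ≤ num ∧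
      num ≤ q.κ * ((q.K : ℝ) - 2 * y2) + 3 * q.g ∧
      q.κ * ((q.K : ℝ) - 2 * y1) - 3 * q.g ≤ D - num ∧
      D - num ≤ q.κ * ((q.K : ℝ) - 2 * y1) + 3 * q.g := by
  have hSJ := HY.SJ_eq q i hi
  have hLF := HY.LF_eq q i hi
  have hm := sig_m q
  set y1 : ℝ := ((min q.k1 (i + 1) : ℕ) : ℝ) with hy1
  set y2 : ℝ := ((min q.k1 (q.K - 1 - i) : ℕ) : ℝ) with hy2
  have hy1' : y1 ≤ q.k1 := by
    rw [hy1]
    exact_mod_cast min_le_left _ _
  have hy2' : y2 ≤ q.k1 := by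
    rw [hy2]
    exact_mod_cast min_le_left _ _
  have hy10 : 0 ≤ y1 := Nat.cast_nonneg _
  have hy20 : 0 ≤ y2 := Nat.cast_nonneg _
  have hk := hs.k1_le
  have hκ0 : (8 : ℝ) ≤ q.κ := by exact_mod_cast q.hκ
  have hgκ : (10 : ℝ) * q.κ ≤ q.g := by exact_mod_cast q.hg
  have hm0 : 0 ≤ (q.m : ℝ) := Nat.cast_nonneg _
  have hN1 : (q.g : ℝ) * (q.K + 1) ≤ q.N2 := by exact_mod_cast q.N2_ge
  have hN2 : (q.N2 : ℝ) ≤ q.g * (q.K + 2) := by exact_mod_cast q.N2_lt.le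
  have hhp1 := q.hp_ge
  have hhp2 := q.hp_le
  have hz1 := q.zg_ge
  have hz2 := q.zg_le
  refine ⟨q.hp - (if 2 * i < q.K then 0 else q.zg) - q.LF i, q.SJ i, y1, y2,
    (q.K : ℝ) - y1 - y2, rfl, rfl, rfl, rfl, rfl, rfl, by linarith, by linarith, by linarith,
    by linarith, ?_⟩
  rw [hSJ, hLF]
  have hprod1 : (q.κ : ℝ) * y1 ≥ 0 := mul_nonneg (by linarith) hy10
  have hprod2 : (q.κ : ℝ) * y2 ≥ 0 := mul_nonneg (by linarith) hy20
  by_cases c1 : 2 * i < q.K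
  · by_cases c2 : 2 * i + 2 ≤ q.K ∧ q.K < q.k1 + 2 * i + 2
    · have c3 : ¬ (q.k1 ≤ 2 * i + 1 - q.K ∨ q.k1 + 2 * i + 2 ≤ q.K) := by
        have := q.hk1
        omega
      rw [if_pos c1, if_pos c2, if_neg c3]
      refine ⟨?_, ?_, ?_, ?_, ?_, ?_⟩ <;> linarith
    · by_cases c3 : (q.k1 ≤ 2 * i + 1 - q.K ∨ q.k1 + 2 * i + 2 ≤ q.K)
      · rw [if_pos c1, if_neg c2, if_pos c3]
        refine ⟨?_, ?_, ?_, ?_, ?_, ?_⟩ <;> linarith
      · rw [if_pos c1, if_neg c2, if_neg c3]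
        refine ⟨?_, ?_, ?_, ?_, ?_, ?_⟩ <;> linarith
  · have c2 : ¬ (2 * i + 2 ≤ q.K ∧ q.K < q.k1 + 2 * i + 2) := by omega
    by_cases c3 : (q.k1 ≤ 2 * i + 1 - q.K ∨ q.k1 + 2 * i + 2 ≤ q.K)
    · rw [if_neg c1, if_neg c2, if_pos c3]
      refine ⟨?_, ?_, ?_, ?_, ?_, ?_⟩ <;> linarith
    · rw [if_neg c1, if_neg c2, if_neg c3]
      refine ⟨?_, ?_, ?_, ?_, ?_, ?_⟩ <;> linarith

/-- Positivity facts deduced from `sig_core`. -/
theorem sig_pos (q : GP) (e : ℝ) (hs : q.Small e) :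
    (0 : ℝ) < q.g ∧ (0 : ℝ) < e * q.K ∧ 16 * q.g ≤ e * q.K ∧ (8 : ℝ) ≤ q.κ := by
  have hκ0 : (8 : ℝ) ≤ q.κ := by exact_mod_cast q.hκ
  have hgκ : (10 : ℝ) * q.κ ≤ q.g := by exact_mod_cast q.hg
  have hg : (0 : ℝ) < q.g := by linarith
  have he := hs.e_pos
  have he' := hs.e_le
  have hK : (8 : ℝ) ≤ q.K := by exact_mod_cast q.hK
  have h1 : 0 < e * q.K := mul_pos he (by linarith)
  have h2 : e ^ 2 * (e * q.K) ≤ 1 * (e * q.K) :=
    mul_le_mul_of_nonneg_right (by nlinarith) h1.le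
  have h3 := hs.K_ge
  have h4 : e ^ 3 * (q.K : ℝ) = e ^ 2 * (e * q.K) := by ring
  refine ⟨hg, h1, ?_, hκ0⟩
  linarith

theorem sg_bounds (q : GP) (e : ℝ) (hs : q.Small e) (i : ℕ) (hi : i < q.K) :
    e / 8 ≤ q.sg i ∧ q.sg i ≤ 1 - e / 8 := by
  obtain ⟨num, D, y1, y2, Q, hy1, hy2, hQ, hsg, hD, hnum, b1, b2, b3, b4, b5, b6, b7, b8, b9,
    b10⟩ := sig_core q e hs i hi
  obtain ⟨hg, heK, h16, hκ0⟩ := sig_pos q e hs
  have he := hs.e_pos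
  have he' := hs.e_le
  have hQpos : 0 < Q := by linarith
  have hDpos : 0 < D := lt_of_lt_of_le (by positivity) b5
  have c1 : (q.κ : ℝ) * (e * q.K) ≤ q.κ * ((q.K : ℝ) - 2 * y2) :=
    mul_le_mul_of_nonneg_left b4 (by linarith)
  have c2 : (q.κ : ℝ) * (e * q.K) ≤ q.κ * ((q.K : ℝ) - 2 * y1) :=
    mul_le_mul_of_nonneg_left b3 (by linarith)
  have c3 : e / 8 * D ≤ e / 8 * (2 * q.κ * q.K + q.g) :=
    mul_le_mul_of_nonneg_left b6 (by linarith)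
  have c4 : e / 8 * (2 * q.κ * q.K + q.g) = q.κ * (e * q.K) / 4 + e * q.g / 8 := by ring
  have c5 : e * q.g ≤ 1 * q.g := mul_le_mul_of_nonneg_right (by linarith) hg.le
  have c6 : (8 : ℝ) * (e * q.K) ≤ q.κ * (e * q.K) := mul_le_mul_of_nonneg_right hκ0 heK.le
  have hgκ : (10 : ℝ) * q.κ ≤ q.g := by exact_mod_cast q.hg
  rw [hsg]
  constructor
  · rw [le_div_iff₀ hDpos]
    linarith
  · have : num / D = 1 - (D - num) / D := by
      rw [sub_div, div_self hDpos.ne']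
      ring
    rw [this]
    have h : e / 8 ≤ (D - num) / D := by
      rw [le_div_iff₀ hDpos]
      linarith
    linarith

/-- The common inequality behind `H_share` and `L_share`. -/
theorem sig_share (κ g Kk Q D W x y : ℝ) (hκ : 0 < κ) (hg : 0 < g) (hy : 0 < y) (hyQ : y ≤ Q)
    (hD : 2 * κ * Q ≤ D) (hW : W ≤ κ * x + 3 * g) (hx : 0 ≤ κ * x + 3 * g) (hKk : Kk = y) :
    2 * (W / D) ≤ x / Q + 4 * g / (κ * Kk) := by
  have hQ : 0 < Q := lt_of_lt_of_le hy hyQ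
  have hD0 : 0 < 2 * κ * Q := by positivity
  have h1 : W / D ≤ (κ * x + 3 * g) / (2 * κ * Q) := by
    calc W / D ≤ (κ * x + 3 * g) / D :=
          div_le_div_of_nonneg_right hW (le_trans hD0.le hD)
      _ ≤ (κ * x + 3 * g) / (2 * κ * Q) := div_le_div_of_nonneg_left hx hD0 hD
  have h2 : 2 * ((κ * x + 3 * g) / (2 * κ * Q)) = x / Q + 3 * g / (κ * Q) := by
    field_simp
  have h3 : 3 * g / (κ * Q) ≤ 4 * g / (κ * Kk) := by
    rw [hKk]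
    calc 3 * g / (κ * Q) ≤ 4 * g / (κ * Q) :=
          div_le_div_of_nonneg_right (by linarith) (by positivity)
      _ ≤ 4 * g / (κ * y) :=
          div_le_div_of_nonneg_left (by positivity) (by positivity)
            (mul_le_mul_of_nonneg_left hyQ hκ.le)
  linarith

theorem H_share (q : GP) (e : ℝ) (hs : q.Small e) (i : ℕ) (hi : i < q.K) :
    2 * (1 - q.sg i) ≤ ((q.K : ℝ) - 2 * (min q.k1 (i + 1) : ℕ)) /
      ((q.K : ℝ) - (min q.k1 (i + 1) : ℕ) - (min q.k1 (q.K - 1 - i) : ℕ)) +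
        4 * q.g / (q.κ * (q.K - 2 * q.k1)) := by
  obtain ⟨num, D, y1, y2, Q, hy1, hy2, hQ, hsg, hD, hnum, b1, b2, b3, b4, b5, b6, b7, b8, b9,
    b10⟩ := sig_core q e hs i hi
  obtain ⟨hg, heK, h16, hκ0⟩ := sig_pos q e hs
  have hQpos : 0 < Q := by linarith
  have hκ : (0 : ℝ) < q.κ := by linarith
  have hDpos : 0 < D := lt_of_lt_of_le (by positivity) b5
  have hx : 0 ≤ (q.κ : ℝ) * ((q.K : ℝ) - 2 * y1) :=
    mul_nonneg hκ.le (by linarith)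
  have key := sig_share (q.κ : ℝ) q.g ((q.K : ℝ) - 2 * q.k1) Q D (D - num) ((q.K : ℝ) - 2 * y1)
    ((q.K : ℝ) - 2 * q.k1) hκ hg (by linarith) b1 b5 b10 (by linarith) rfl
  have h1 : 1 - q.sg i = (D - num) / D := by
    rw [hsg, sub_div, div_self hDpos.ne']
  rw [h1, ← hy1, ← hy2, ← hQ]
  exact key

theorem L_share (q : GP) (e : ℝ) (hs : q.Small e) (i : ℕ) (hi : i < q.K) :
    2 * q.sg i ≤ ((q.K : ℝ) - 2 * (min q.k1 (q.K - 1 - i) : ℕ)) /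
      ((q.K : ℝ) - (min q.k1 (i + 1) : ℕ) - (min q.k1 (q.K - 1 - i) : ℕ)) +
        4 * q.g / (q.κ * (q.K - 2 * q.k1)) := by
  obtain ⟨num, D, y1, y2, Q, hy1, hy2, hQ, hsg, hD, hnum, b1, b2, b3, b4, b5, b6, b7, b8, b9,
    b10⟩ := sig_core q e hs i hi
  obtain ⟨hg, heK, h16, hκ0⟩ := sig_pos q e hs
  have hQpos : 0 < Q := by linarith
  have hκ : (0 : ℝ) < q.κ := by linarith
  have hx : 0 ≤ (q.κ : ℝ) * ((q.K : ℝ) - 2 * y2) :=
    mul_nonneg hκ.le (by linarith)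
  have key := sig_share (q.κ : ℝ) q.g ((q.K : ℝ) - 2 * q.k1) Q D num ((q.K : ℝ) - 2 * y2)
    ((q.K : ℝ) - 2 * q.k1) hκ hg (by linarith) b1 b5 b8 (by linarith) rfl
  rw [hsg, ← hy1, ← hy2, ← hQ]
  exact key

/-- `Joint` and `OnlyL` exclude each other. -/
theorem sig_excl (q : GP) (i j : ℕ) (h1 : q.OnlyL i j) (h2 : q.Joint i j) : False := by
  rcases h2 with ⟨⟨_, h2⟩, _⟩ | ⟨_, h3, h4⟩
  · have := h1.1.1
    omega
  · rcases h1.2 with h | h <;> omega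

theorem sig_sum_FL (q : GP) (i : ℕ) :
    ∑ j ∈ range q.N, q.FL i j = q.LF i + q.sg i * q.SJ i := by
  classical
  unfold GP.LF GP.SJ
  rw [Finset.mul_sum, ← Finset.sum_add_distrib]
  refine Finset.sum_congr rfl fun j _ => ?_
  unfold GP.FL
  by_cases h1 : q.OnlyL i j
  · have h2 : ¬ q.Joint i j := fun h2 => sig_excl q i j h1 h2
    simp [h1, h2]
  · by_cases h2 : q.Joint i j
    · simp [h1, h2]
    · simp [h1, h2]

/-- TOT. -/
theorem tot_L (q : GP) (e : ℝ) (hs : q.Small e) (i : ℕ) (hi : i < q.K) :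
    ∑ j ∈ range q.N, q.FL i j + (if 2 * i < q.K then 0 else q.zg) = q.hp := by
  obtain ⟨num, D, y1, y2, Q, hy1, hy2, hQ, hsg, hD, hnum, b1, b2, b3, b4, b5, b6, b7, b8, b9,
    b10⟩ := sig_core q e hs i hi
  obtain ⟨hg, heK, h16, hκ0⟩ := sig_pos q e hs
  have hQpos : 0 < Q := by linarith
  have hκ : (0 : ℝ) < q.κ := by linarith
  have hDpos : 0 < D := lt_of_lt_of_le (by positivity) b5
  rw [sig_sum_FL, hsg, ← hD, div_mul_cancel₀ _ hDpos.ne', hnum]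
  ring

theorem tot_H (q : GP) (e : ℝ) (hs : q.Small e) (i : ℕ) (hi : i < q.K) :
    ∑ j ∈ range q.N, q.FH i j + q.FT + (if 2 * i < q.K then q.zg else 0) = q.hp := by
  have h1 := tot_L q e hs i hi
  have h2 := HY.need_sum q i hi
  have h3 : ∑ j ∈ range q.N, q.FH i j =
      ∑ j ∈ range q.N, q.need i j - ∑ j ∈ range q.N, q.FL i j := by
    rw [← Finset.sum_sub_distrib]
    rfl
  have h4 := q.ident
  have h5 := sig_m q
  have h6 := sig_t q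
  rw [h3, h2, h5, h6]
  by_cases c : 2 * i < q.K
  · rw [if_pos c] at h1 ⊢
    linarith
  · rw [if_neg c] at h1 ⊢
    linarith

end Pool.Agent.H70.HY
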