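import Mathlib
import Pool.Agent.H70.HY.Base
import Pool.Agent.H70.HY.NEED
import Pool.Agent.H70.HY.PAIR
import Pool.Agent.H70.HY.SIG

/-! MKBS: the base schedule. -/

set_option autoImplicit false

namespace Pool.Agent.H70.HY

open Finset

private theorem mkbs_need_nonneg (q : GP) (i j : ℕ) : 0 ≤ q.need i j := by
  by_cases h : q.Low i j ∨ q.High i j
  · have h1 := (HY.need_bounds q i j h).1
    have hκ : (8 : ℝ) ≤ q.κ := by exact_mod_cast q.hκ
    have h2 : (0 : ℝ) ≤ (q.κ - 1 : ℝ) / q.g := div_nonneg (by linarith) (Nat.cast_nonneg _)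
    linarith
  · unfold GP.need
    rw [if_neg h]

private theorem mkbs_FL_bounds (q : GP) (e : ℝ) (hs : q.Small e) (i j : ℕ) (hi : i < q.K) :
    0 ≤ q.FL i j ∧ q.FL i j ≤ q.need i j := by
  have hn := mkbs_need_nonneg q i j
  have hsg := HY.sg_bounds q e hs i hi
  have he := hs.e_pos
  unfold GP.FL
  split_ifs with h1 h2
  · exact ⟨hn, le_refl _⟩
  · constructor
    · exact mul_nonneg (by linarith [hsg.1]) hn
    · have : q.sg i ≤ 1 := by linarith [hsg.2]
      calc q.sg i * q.need i j ≤ 1 * q.need i j := mul_le_mul_of_nonneg_right this hn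
        _ = q.need i j := one_mul _
  · exact ⟨le_refl _, hn⟩

private theorem mkbs_w_nonneg (q : GP) (i j : ℕ) : 0 ≤ q.w i j := by
  unfold GP.w
  split_ifs
  · positivity
  · positivity
  · exact le_refl _

private theorem mkbs_F_el (q : GP) (i j : ℕ) (h : ¬ (q.Low i j ∨ q.High i j)) :
    q.FH i j = 0 ∧ q.FL i j = 0 := by
  have hn : q.need i j = 0 := by
    unfold GP.need
    rw [if_neg h]
  have hL : q.FL i j = 0 := by
    unfold GP.FL
    rw [if_neg (fun h' : q.OnlyL i j => h (Or.inr h'.1)),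
      if_neg (fun h' : q.Joint i j => h (h'.elim (fun a => Or.inl a.1) (fun a => Or.inr a.1)))]
  refine ⟨?_, hL⟩
  unfold GP.FH
  rw [hn, hL, sub_zero]

/-- the partners as elements of `Fin K` -/
private noncomputable def mkbs_par (q : GP) (i : Fin q.K) (j : Fin q.N) : Option (Fin q.K) :=
  (q.par i j).bind (fun i' => if h : i' < q.K then some ⟨i', h⟩ else none)

private theorem mkbs_par_map (q : GP) (i : Fin q.K) (j : Fin q.N) :
    (mkbs_par q i j).map Fin.val = q.par i j := by
  unfold mkbs_par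
  cases h : q.par i j with
  | none => simp
  | some i' =>
    have h1 := (HY.par_spec q i j i' i.2 j.2 h).1
    simp [h1]

private theorem mkbs_par_iff (q : GP) (i i' : Fin q.K) (j : Fin q.N) :
    mkbs_par q i j = some i' ↔ q.par i j = some (i' : ℕ) := by
  rw [← mkbs_par_map]
  cases h : mkbs_par q i j with
  | none => simp
  | some i'' => simp [Fin.ext_iff]

private theorem mkbs_par_none (q : GP) (i : Fin q.K) (j : Fin q.N) :
    mkbs_par q i j = none ↔ q.par i j = none := by
  rw [← mkbs_par_map]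
  cases h : mkbs_par q i j with
  | none => simp
  | some i'' => simp

private theorem mkbs_card (q : GP) (i : Fin q.K) :
    (Set.toFinite {j : Fin q.N | q.Low i j ∨ q.High i j}).toFinset.card = q.N2 - q.t := by
  rw [← HY.win_card q i i.2, ← Set.ncard_eq_toFinset_card _]
  have h : {j | j < q.N ∧ (q.Low i j ∨ q.High i j)} =
      (Fin.val : Fin q.N → ℕ) '' {j : Fin q.N | q.Low i j ∨ q.High i j} := by
    ext j
    simp only [Set.mem_ofPred_eq, Set.mem_image]
    constructor
    · rintro ⟨h1, h2⟩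
      exact ⟨⟨j, h1⟩, h2, rfl⟩
    · rintro ⟨j', h1, h2⟩
      rw [← h2]
      exact ⟨j'.2, h1⟩
  rw [h, Set.ncard_image_of_injective _ Fin.val_injective]

/-- MKBS: the base schedule. -/
theorem mkBS (q : GP) (e : ℝ) (hs : q.Small e) (n p s r0 nz : ℕ) (hl : Link q n p s r0 nz) :
    ∃ T : BS n (Fin q.K) (Fin q.N),
      8 * T.l = s ∧ T.z = nz + 1 ∧ T.star = r0 + s * q.t ∧ T.mM = q.m * s ∧ T.Ht = q.hp * s ∧
      T.FT = q.FT * s ∧ (∀ i j, T.el i j ↔ (q.Low i j ∨ q.High i j)) ∧
      (∀ i j, (T.par i j).map Fin.val = q.par i j) ∧ (∀ i j, T.w i j = q.w i j) ∧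
      (∀ i, T.iH i = true ↔ 2 * (i : ℕ) < q.K) ∧
      (∀ i j, T.FH i j = q.FH i j * s) ∧ (∀ i j, T.FL i j = q.FL i j * s) := by
  classical
  have hs8 : 8 * (s / 8) = s := Nat.mul_div_cancel' hl.s8
  have hsnn : (0 : ℝ) ≤ s := Nat.cast_nonneg _
  have hs8r : (8 : ℝ) * ((s / 8 : ℕ) : ℝ) = s := by exact_mod_cast hs8
  refine ⟨{
    l := s / 8
    z := nz + 1
    star := r0 + s * q.t
    mM := q.m * s
    Ht := q.hp * s
    FT := q.FT * s
    el := fun i j => q.Low i j ∨ q.High i j
    par := fun i j => mkbs_par q i j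
    w := fun i j => q.w i j
    iH := fun i => decide (2 * (i : ℕ) < q.K)
    FH := fun i j => q.FH i j * s
    FL := fun i j => q.FL i j * s
    mass := ?_
    par_symm := ?_
    w_nonneg := ?_
    w_symm := ?_
    w_sum := ?_
    FH_nonneg := ?_
    FL_nonneg := ?_
    FT_nonneg := ?_
    F_el := ?_
    tight := ?_
    totH := ?_
    totL := ?_
    total := ?_ }, hs8, rfl, rfl, rfl, rfl, rfl, fun _ _ => Iff.rfl,
    fun i j => mkbs_par_map q i j, fun _ _ => rfl, fun i => by simp, fun _ _ => rfl,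
    fun _ _ => rfl⟩
  · have h1 := hl.hp_eq
    rw [Fintype.card_fin]
    linarith
  · intro a j a' h
    rw [mkbs_par_iff] at h
    have h1 := HY.par_spec q a j a' a.2 j.2 h
    refine ⟨?_, ?_, h1.2.2.2.2⟩
    · rw [mkbs_par_iff]; exact h1.2.2.1
    · intro h2; exact h1.2.1 (by rw [h2])
  · intro a j
    exact mkbs_w_nonneg q a j
  · intro a j a' h
    rw [mkbs_par_iff] at h
    exact (HY.par_spec q a j a' a.2 j.2 h).2.2.2.1
  · intro a a' h
    have h1 := HY.w_sum q a a' a.2 a'.2 (fun h' => h (Fin.ext h'))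
    rw [← Fin.sum_univ_eq_sum_range (fun j => if q.par a j = some (a' : ℕ) then q.w a j else 0)]
      at h1
    rw [← h1]
    refine Finset.sum_congr rfl (fun j _ => ?_)
    by_cases h2 : q.par a j = some (a' : ℕ)
    · rw [if_pos h2, if_pos ((mkbs_par_iff q a a' j).2 h2)]
    · rw [if_neg h2, if_neg (fun h3 => h2 ((mkbs_par_iff q a a' j).1 h3))]
  · intro a j
    have h1 := mkbs_FL_bounds q e hs a j a.2
    have h2 : 0 ≤ q.FH a j := by unfold GP.FH; linarith [h1.2]
    exact mul_nonneg h2 hsnn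
  · intro a j
    exact mul_nonneg (mkbs_FL_bounds q e hs a j a.2).1 hsnn
  · have := q.FT_ge
    exact mul_nonneg (by linarith) hsnn
  · intro a j h
    have h1 := mkbs_F_el q a j h
    simp only [h1.1, h1.2, zero_mul, and_self]
  · intro a j h
    have hFF : q.FH a j * s + q.FL a j * s = q.need a j * s := by
      unfold GP.FH; ring
    have hneed : q.need a j = 1 - q.m * q.w a j := by
      unfold GP.need
      rw [if_pos h]
    rw [hFF, hneed, hs8r]
    by_cases h2 : mkbs_par q a j = none
    · rw [if_pos h2]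
      have h3 := HY.par_none_w q a j ((mkbs_par_none q a j).1 h2)
      rw [h3]; ring
    · rw [if_neg h2]; ring
  · intro a
    have h1 := HY.tot_H q e hs a a.2
    rw [← Fin.sum_univ_eq_sum_range (fun j => q.FH a j)] at h1
    have h2 := hl.zg_eq
    rw [← h1, add_mul, add_mul, Finset.sum_mul]
    by_cases h3 : 2 * (a : ℕ) < q.K
    · simp only [h3, decide_true, if_true]
      rw [h2]; push_cast; ring
    · simp only [h3, decide_false, if_false, Bool.false_eq_true, zero_mul]
  · intro a
    have h1 := HY.tot_L q e hs a a.2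
    rw [← Fin.sum_univ_eq_sum_range (fun j => q.FL a j)] at h1
    have h2 := hl.zg_eq
    rw [← h1, add_mul, Finset.sum_mul]
    by_cases h3 : 2 * (a : ℕ) < q.K
    · simp only [h3, decide_true, if_true, zero_mul]
    · simp only [h3, decide_false, if_false, Bool.false_eq_true]
      rw [h2]; push_cast; ring
  · intro a
    rw [Finset.sum_const, mkbs_card q a, smul_eq_mul, hs8]
    have h1 := hl.tot
    have h2 := hl.nz_eq
    have htN : q.t ≤ q.N2 := by
      have h3 := q.N2_ge
      have h4 := q.hK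
      unfold GP.t
      have h5 : q.g * 1 ≤ q.g * (q.K + 1) := Nat.mul_le_mul_left _ (by omega)
      omega
    obtain ⟨d, hd⟩ := Nat.exists_eq_add_of_le htN
    have h6 : q.N2 - q.t = d := by omega
    rw [h6]
    unfold GP.N at h1
    rw [hd] at h1
    have h7 : s * (q.t + d + q.P + q.g) = s * q.t + d * s + s * (q.g + q.P) := by ring
    rw [h7] at h1
    omega

end Pool.Agent.H70.HY
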