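import Mathlib
import Pool.Agent.H70.HY.Base
import Pool.Agent.H70.HY.TIME

/-! Module MKGEO: the geometry of the final schedule (helper93). -/

set_option autoImplicit false

namespace Pool.Agent.H70.HY

open Finset

private lemma mkgeo_sum_le {R Q : ℕ} (M : Bool × Option (Fin R × Fin Q) → ℝ) (τ : Bool) (x : ℝ)
    (hx : 0 ≤ x) :
    ∑ b, (if b.1 = τ then M b + x else 0) ≤
      ∑ b, (if b.1 = τ then M b else 0) + (Fintype.card (Bool × Option (Fin R × Fin Q)) : ℝ) * x := by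
  have h1 : (Fintype.card (Bool × Option (Fin R × Fin Q)) : ℝ) * x =
      ∑ _b : Bool × Option (Fin R × Fin Q), x := by
    rw [Finset.sum_const, nsmul_eq_mul, Finset.card_univ]
  rw [h1, ← Finset.sum_add_distrib]
  refine Finset.sum_le_sum fun b _ => ?_
  split_ifs
  · exact le_refl _
  · linarith

private lemma mkgeo_FH (q : GP) (i j : ℕ) (hi : i < q.K) (h : 0 < q.FH i j) : j < q.J1 := by
  classical
  obtain ⟨-, -, -, -, hN2, -⟩ := HY.J0_lt q
  by_contra hcon
  rw [not_lt] at hcon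
  have hX : q.X i ≤ q.N2 := by
    have h1 : q.g * (i + 2) ≤ q.g * (q.K + 1) := Nat.mul_le_mul_left _ (by omega)
    exact h1.trans q.N2_ge
  have hlow : ¬ q.Low i j := fun h1 => by
    have := h1.2
    omega
  unfold GP.FH GP.FL at h
  by_cases hh : q.High i j
  · have : q.OnlyL i j := ⟨hh, Or.inl hcon⟩
    rw [if_pos this, sub_self] at h
    exact lt_irrefl _ h
  · have h1 : q.need i j = 0 := by
      unfold GP.need
      rw [if_neg (by tauto)]
    rw [if_neg (fun h2 => hh h2.1), h1] at h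
    split_ifs at h <;> simp at h

private lemma mkgeo_FL (q : GP) (i j : ℕ) (h : 0 < q.FL i j) : q.J0 ≤ j := by
  classical
  obtain ⟨-, hP, -, -, -, -⟩ := HY.J0_lt q
  unfold GP.FL at h
  split_ifs at h with h1 h2
  · have := h1.1.1
    omega
  · rcases h2 with h2 | h2
    · exact h2.2.1
    · have := h2.1.1
      omega
  · exact absurd h (lt_irrefl _)

/-- GEO: the geometry of the final schedule. -/
theorem mkGeo (κ g R Q : ℕ) (e c : ℝ) (he : 0 < e) (hc : 0 < c) :
    ∃ (η : ℝ) (N1 : ℕ), 0 < η ∧ ∀ (q : GP) (n p s r0 nz : ℕ), N1 ≤ n → q.κ = κ → q.g = g →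
      q.Small e → c * n ≤ s → Link q n p s r0 nz → ∀ (T : BS n (Fin q.K) (Fin q.N)) (δ : ℝ)
        (un : Fin q.K → Fin R × Fin Q) (Z : US n δ (Fin q.K) (Bool × Option (Fin R × Fin Q)) (Fin q.N)),
        8 * T.l = s → T.z = nz + 1 → T.star = r0 + s * q.t → T.mM = q.m * s → T.Ht = q.hp * s →
        (∀ i j, T.el i j ↔ (q.Low i j ∨ q.High i j)) →
        (∀ i, T.iH i = true ↔ 2 * (i : ℕ) < q.K) →
        (∀ i j, T.FH i j = q.FH i j * s) → (∀ i j, T.FL i j = q.FL i j * s) →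
        (∀ i i', i ≠ i' → T.iH i = T.iH i' → un i = un i' → ∀ j, q.ZB i j → ¬ q.ZB i' j) →
        (∀ a, Z.M (Sum.inl a) = T.mM) → (∀ b, Z.ty b = b.1) → (∀ j, Z.l j = T.l) → Z.z = T.z →
        Z.star = T.star → Z.el = T.el → (∀ a, Z.unit a = (T.iH a, some (un a))) →
        (∀ a b j, 0 < Z.yw a b j → av T.iH un (fun i j => q.ZB i j) b j ∧
          (b.1 = true → 0 < T.FH a j) ∧ (b.1 = false → 0 < T.FL a j)) →
        (∀ b b' j, 0 < Z.yb b b' j → (q.J0 ≤ j ∧ (j : ℕ) < q.J1) ∧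
          av T.iH un (fun i j => q.ZB i j) b j ∧ av T.iH un (fun i j => q.ZB i j) b' j) →
        (∀ τ : Bool, ∑ b, (if b.1 = τ then Z.M (Sum.inr b) else 0) = T.Ht) →
        Nonempty (Geo Z p η) := by
  classical
  set cB : ℝ := (Fintype.card (Bool × Option (Fin R × Fin Q)) : ℝ) with hcB
  have hcB0 : 0 ≤ cB := Nat.cast_nonneg _
  refine ⟨c / (8 * (cB + 1)), 0, by positivity, ?_⟩
  intro q n p s r0 nz _ _ _ hsm hcs hl T δ un Z hTl hTz hTst hTm hTH hTel hTiH hTFH hTFL hsep hZM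
    hZty hZl hZz hZst hZel hZu hyw hyb hsum
  set η : ℝ := c / (8 * (cB + 1)) with hη
  have hη0 : 0 < η := by positivity
  have hn0 : (0 : ℝ) ≤ n := Nat.cast_nonneg _
  have hs8 : 8 ≤ s := Nat.le_of_dvd hl.s_pos hl.s8
  have hs8R : (8 : ℝ) ≤ s := by exact_mod_cast hs8
  -- the error terms
  have herr : cB * (η * n) ≤ s / 8 := by
    have h1 : cB * (η * n) = (cB / (cB + 1)) * (c * n / 8) := by
      rw [hη]
      field_simp
    have h2 : cB / (cB + 1) ≤ 1 := by
      rw [div_le_one (by linarith)]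
      linarith
    have h3 : 0 ≤ c * n / 8 := by positivity
    rw [h1]
    calc cB / (cB + 1) * (c * n / 8) ≤ 1 * (c * n / 8) := mul_le_mul_of_nonneg_right h2 h3
      _ ≤ s / 8 := by linarith
  have herr1 : η * n ≤ s / 8 := by
    have h1 : η * n = (1 / (cB + 1)) * (c * n / 8) := by
      rw [hη]
      field_simp
    have h2 : 1 / (cB + 1) ≤ 1 := by
      rw [div_le_one (by linarith)]
      linarith
    have h3 : 0 ≤ c * n / 8 := by positivity
    rw [h1]
    calc 1 / (cB + 1) * (c * n / 8) ≤ 1 * (c * n / 8) := mul_le_mul_of_nonneg_right h2 h3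
      _ ≤ s / 8 := by linarith
  have hhp0 : 0 ≤ q.hp := le_trans (by positivity) q.hp_ge
  set ln : ℕ := ⌈q.hp * s + s / 8⌉₊ + 1 with hln
  have hln1 : q.hp * s + s / 8 + 1 ≤ ln := by
    rw [hln]
    push_cast
    linarith [Nat.le_ceil (q.hp * s + s / 8 : ℝ)]
  have hln2 : (ln : ℝ) ≤ q.hp * s + s / 8 + 2 := by
    rw [hln]
    push_cast
    have := (Nat.ceil_lt_add_one (show (0 : ℝ) ≤ q.hp * s + s / 8 by positivity)).le
    linarith
  obtain ⟨htJ, hJP, hJJ, hJN, hNJ, -⟩ := HY.J0_lt q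
  have hg := q.hg
  have hκ := q.hκ
  have hk2 := q.hk2
  have hk1 := q.hk1
  have hN2 := q.N2_ge
  have hg0 : 0 < q.g := by omega
  have hg1 : q.g1 = q.g - q.κ - 1 := rfl
  have ht : q.t = q.g - q.κ - 2 := rfl
  have hJ0 : q.J0 = q.t + q.g1 * q.k1 := by
    unfold GP.J0 GP.a
    rw [if_pos le_rfl]
  have hJ1 : q.J1 + q.g1 * q.k1 = q.N := by
    have : q.J1 = q.N + q.t - q.J0 := rfl
    omega
  -- fit
  have hfit := hl.fit
  have hsp : (s : ℝ) * q.P < 2 * p + s := by exact_mod_cast hl.P2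
  have hsg : ((q.g1 * q.k1 : ℕ) : ℝ) + 1 ≤ q.P := by
    have : q.g1 * q.k1 + 1 ≤ q.P := by omega
    exact_mod_cast this
  have hsg2 : (s : ℝ) * ((q.g1 * q.k1 : ℕ) : ℝ) + s ≤ s * q.P := by
    have := mul_le_mul_of_nonneg_left hsg (by linarith : (0 : ℝ) ≤ s)
    linarith
  have hp1 : 2 * (q.hp * s) + s < p := by linarith
  have hlnp : (ln : ℝ) ≤ p := by
    have : 0 ≤ q.hp * s := by positivity
    linarith
  have hlnp' : ln ≤ p := by exact_mod_cast hlnp
  have hp0 : 0 < p := by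
    have : (0 : ℝ) < p := by
      have : 0 ≤ q.hp * s := by positivity
      linarith
    exact_mod_cast this
  have hfit2 : p + ln + ln ≤ s * (q.g1 * q.k1) := by
    have : (p : ℝ) + ln + ln ≤ s * (q.g1 * q.k1 : ℕ) := by linarith
    exact_mod_cast this
  have hPg : q.g * (q.k1 + 4) ≤ q.P := q.P_gt
  have hPg5 : q.g + 3 ≤ q.P := by
    have h1 : q.g * 5 ≤ q.g * (q.k1 + 4) := Nat.mul_le_mul_left _ (by omega)
    omega
  have hXle : ∀ i : Fin q.K, q.X i ≤ q.N2 := by
    intro i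
    have h1 : q.g * ((i : ℕ) + 2) ≤ q.g * (q.K + 1) := Nat.mul_le_mul_left _ (by omega)
    exact h1.trans hN2
  have hN : q.N = q.N2 + q.P + q.g := rfl
  have hXg : ∀ i : Fin q.K, 2 * q.g ≤ q.X i := by
    intro i
    show 2 * q.g ≤ q.g * ((i : ℕ) + 2)
    have h1 : q.g * 2 ≤ q.g * ((i : ℕ) + 2) := Nat.mul_le_mul_left _ (by omega)
    omega
  have hsize : ∀ τ : Bool, ∑ b, (if Z.ty b = τ then Z.M (Sum.inr b) + η * n else 0) + 1 ≤
      (ln : ℝ) := by
    intro τ
    have h1 := mkgeo_sum_le (fun b => Z.M (Sum.inr b)) τ (η * n) (by positivity)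
    have h2 : ∑ b, (if Z.ty b = τ then Z.M (Sum.inr b) + η * n else 0) =
        ∑ b, (if b.1 = τ then Z.M (Sum.inr b) + η * n else 0) :=
      Finset.sum_congr rfl fun b _ => by rw [hZty]
    rw [h2]
    rw [hsum τ, hTH] at h1
    linarith
  refine ⟨{
    s := s, r0 := r0, g := q.g, P' := q.P, J0 := q.J0, J1 := q.J1, t := q.t, nz := nz,
    lenL := ln, lenH := ln, DL := ln, DH := ln, X := fun i => q.X i
    s_pos := hl.s_pos
    p_pos := hp0
    tot := hl.tot
    star_eq := by rw [hZst, hTst]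
    l_eq := fun j => by rw [hZl, hTl]
    z_eq := by rw [hZz, hTz]
    nz_eq := hl.nz_eq
    P1 := hl.P1
    P2 := hl.P2
    big := ?_
    X_mono := ?_
    t_le := ?_
    X_top := ?_
    tJ0 := htJ
    J01 := by omega
    J1N := hJN
    el_win := ?_
    useH := ?_
    useL := ?_
    useB := fun b b' j h => (hyb b b' j h).1
    ex1 := ?_
    ex2 := ?_
    ex3 := ?_
    zH := ?_
    zL := ?_
    L_fit := ?_
    H_fit := ?_
    lenL_le := hlnp'
    lenH_le := hlnp'
    L_size := hsize false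
    L_size' := hsize false
    H_size := hsize true
    H_size' := hsize true
    M_size := ?_
    top := ?_ }⟩
  · -- big
    have h1 : (q.g + 3) * s ≤ q.P * s := Nat.mul_le_mul_right _ hPg5
    have h2 := hl.P2
    have h3 : (q.g + 3) * s = (q.g + 2) * s + s := by ring
    have h4 : q.P * s = s * q.P := Nat.mul_comm _ _
    omega
  · intro i i' h
    show q.g * ((i : ℕ) + 2) + q.g ≤ q.g * ((i' : ℕ) + 2)
    have h1 : (i : ℕ) + 1 ≤ i' := h
    have h2 : q.g * ((i : ℕ) + 1 + 2) ≤ q.g * ((i' : ℕ) + 2) := Nat.mul_le_mul_left _ (by omega)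
    have h3 : q.g * ((i : ℕ) + 1 + 2) = q.g * ((i : ℕ) + 2) + q.g := by ring
    omega
  · intro i
    have := hXg i
    omega
  · intro i
    have := hXle i
    show q.X i + q.g + q.P ≤ q.N
    omega
  · intro i j h
    rw [hZel] at h
    have hx := hXg i
    rcases (hTel i j).1 h with h1 | h1
    · exact ⟨h1.1, Or.inl h1.2⟩
    · refine ⟨?_, Or.inr h1.1⟩
      have := h1.1
      omega
  · intro i b j h hb
    rw [hZty] at hb
    have h1 := (hyw i b j h).2.1 hb
    rw [hTFH] at h1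
    exact mkgeo_FH q i j i.2 (pos_of_mul_pos_left h1 (by linarith))
  · intro i b j h hb
    rw [hZty] at hb
    have h1 := (hyw i b j h).2.2 hb
    rw [hTFL] at h1
    exact mkgeo_FL q i j (pos_of_mul_pos_left h1 (by linarith))
  · intro i i' j h
    exact (hyw i _ j h).1 i' (hZu i')
  · intro b i' j h
    exact (hyb _ b j h).2.1 i' (hZu i')
  · intro i i' hne hu j hj
    rw [hZu, hZu] at hu
    have h1 : T.iH i = T.iH i' := congrArg Prod.fst hu
    have h2 : un i = un i' := Option.some_injective _ (congrArg Prod.snd hu)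
    exact hsep i i' hne h1 h2 j hj
  · intro i h
    rw [hZty, hZu] at h
    have h1 := (hTiH i).1 h
    show q.X i + q.g + q.P ≤ q.J1
    have h2 : q.g * ((i : ℕ) + 2 + q.k1) ≤ q.g * (q.K + 1) := Nat.mul_le_mul_left _ (by omega)
    have h3 : q.g1 * q.k1 ≤ q.g * q.k1 := Nat.mul_le_mul_right _ (by omega)
    have h4 : q.X i = q.g * ((i : ℕ) + 2) := rfl
    have h5 : q.g * ((i : ℕ) + 2 + q.k1) = q.g * ((i : ℕ) + 2) + q.g * q.k1 := by ring
    omega
  · intro i h
    rw [hZty, hZu] at h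
    have h1 : ¬ (2 * (i : ℕ) < q.K) := fun h2 => by
      rw [(hTiH i).2 h2] at h
      exact Bool.noConfusion h
    show q.J0 ≤ q.X i
    have h2 : q.g * (q.k1 + 1) ≤ q.g * ((i : ℕ) + 2) := Nat.mul_le_mul_left _ (by omega)
    have h3 : q.g1 * q.k1 ≤ q.g * q.k1 := Nat.mul_le_mul_right _ (by omega)
    have h4 : q.X i = q.g * ((i : ℕ) + 2) := rfl
    have h5 : q.g * (q.k1 + 1) = q.g * q.k1 + q.g := by ring
    omega
  · have h1 : s * q.J0 = s * q.t + s * (q.g1 * q.k1) := by rw [hJ0]; ring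
    omega
  · have h1 : s * q.N = s * q.J1 + s * (q.g1 * q.k1) := by rw [← hJ1]; ring
    have h2 := hl.tot
    omega
  · intro i
    rw [hZM, hTm]
    have h1 : ((q.g * s : ℕ) : ℝ) = q.g * s := by push_cast; ring
    have h2 : (q.m : ℝ) + 16 ≤ q.g := by
      have : q.m + 16 ≤ q.g := by
        have : q.m = q.g - 2 * q.κ := rfl
        omega
      exact_mod_cast this
    have h3 := mul_le_mul_of_nonneg_right h2 (by linarith : (0 : ℝ) ≤ s)
    have h4 : ((q.m : ℝ) + 16) * s = q.m * s + 16 * s := by ring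
    rw [h1]
    linarith
  · intro i
    have h1 := hXle i
    have h2 : s * (q.X i + q.g) ≤ s * (q.N2 + q.g) := Nat.mul_le_mul_left _ (by omega)
    have h3 : s * q.N = s * (q.N2 + q.g) + s * q.P := by rw [hN]; ring
    have h4 := hl.tot
    have h5 := hl.P1
    omega

end Pool.Agent.H70.HY
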