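import Mathlib
import Pool.Agent.H70.HY.Base
import Pool.Agent.H70.HY.NEED
import Pool.Agent.H70.HY.SIG
import Pool.Agent.H70.HY.TIME

/-! LOADH: the load of the slack class H in a block. -/

set_option autoImplicit false

namespace Pool.Agent.H70.HY

open Finset

theorem loadh_a_ge (q : GP) (k : ℕ) (h : q.k1 ≤ k) :
    (q.a k : ℤ) = q.g * k + q.g - q.κ - 2 - (q.κ + 1) * q.k1 := by
  have hg := q.hg
  have hκ := q.hκ
  have ht : (q.t : ℤ) = q.g - q.κ - 2 := by
    unfold GP.t; omega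
  have hg1 : (q.g1 : ℤ) = q.g - q.κ - 1 := by
    unfold GP.g1; omega
  unfold GP.a
  split
  · have : k = q.k1 := by omega
    subst this
    push_cast
    rw [ht, hg1]; ring
  · push_cast [Nat.cast_sub h]
    rw [ht, hg1]; ring

theorem loadh_a_lt (q : GP) (k : ℕ) (h : k ≤ q.k1) :
    (q.a k : ℤ) = q.g * k + q.g - q.κ - 2 - (q.κ + 1) * k := by
  have hg := q.hg
  have hκ := q.hκ
  have ht : (q.t : ℤ) = q.g - q.κ - 2 := by
    unfold GP.t; omega
  have hg1 : (q.g1 : ℤ) = q.g - q.κ - 1 := by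
    unfold GP.g1; omega
  unfold GP.a
  rw [if_pos h]
  push_cast
  rw [ht, hg1]; ring

theorem loadh_kk_ge (q : GP) (j : ℕ) (h : q.J0 ≤ j) : q.k1 ≤ q.kk j := by
  unfold GP.kk
  unfold GP.J0 at h
  rw [if_neg (by omega)]
  exact Nat.le_add_right _ _

theorem loadh_kk_lt (q : GP) (j : ℕ) (h : j < q.J0) : q.kk j < q.k1 := by
  have hg := q.hg
  have hκ := q.hκ
  have hk := q.hk1
  unfold GP.J0 at h
  unfold GP.kk
  rw [if_pos h]
  have hg1 : 0 < q.g1 := by unfold GP.g1; omega
  rw [Nat.div_lt_iff_lt_mul hg1]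
  unfold GP.a at h
  rw [if_pos le_rfl] at h
  have : 0 < q.k1 * q.g1 := Nat.mul_pos (by omega) hg1
  rw [Nat.mul_comm q.g1] at h
  omega

/-- Low and High windows are disjoint. -/
theorem loadh_disj (q : GP) (i j : ℕ) (h : q.Low i j) : ¬ q.High i j := by
  unfold GP.Low at h
  unfold GP.High
  omega

/-- The weight of a paired low block in the second phase. -/
theorem loadh_need_low (q : GP) (i j : ℕ) (h : q.Low i j) (hk : q.k1 ≤ q.kk j) (hi : q.kk j ≤ i)
    (hs : 2 * i ≠ q.K - 1 + q.kk j) : (q.g : ℝ) * q.need i j = 2 * q.κ := by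
  have hg := q.hg
  have hκ := q.hκ
  have hg0 : (q.g : ℝ) ≠ 0 := by
    have : 0 < q.g := by omega
    positivity
  have hm : (q.m : ℝ) = q.g - 2 * q.κ := by
    unfold GP.m
    rw [Nat.cast_sub (by omega)]; push_cast; ring
  unfold GP.need
  rw [if_pos (Or.inl h)]
  unfold GP.w
  rw [if_pos ⟨h, hi, hs⟩]
  unfold GP.len
  rw [if_neg (by omega), hm]
  field_simp
  ring

theorem loadh_need_high (q : GP) (i j : ℕ) (h : q.High i j) (hk : q.k1 ≤ q.kk (q.mir j))
    (hi : q.kk (q.mir j) + i + 2 ≤ q.K) (hs : 2 * i + q.kk (q.mir j) + 2 ≠ q.K) :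
    (q.g : ℝ) * q.need i j = 2 * q.κ := by
  have hg := q.hg
  have hκ := q.hκ
  have hg0 : (q.g : ℝ) ≠ 0 := by
    have : 0 < q.g := by omega
    positivity
  have hm : (q.m : ℝ) = q.g - 2 * q.κ := by
    unfold GP.m
    rw [Nat.cast_sub (by omega)]; push_cast; ring
  unfold GP.need
  rw [if_pos (Or.inr h)]
  unfold GP.w
  have hl : ¬ q.LowP i j := fun hl => loadh_disj q i j hl.1 h
  rw [if_neg hl, if_pos ⟨h, hi, hs⟩]
  unfold GP.len
  rw [if_neg (by omega), hm]
  field_simp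
  ring

/-- The needs are at least 0 and at most 1. -/
theorem loadh_need_le (q : GP) (i j : ℕ) : 0 ≤ q.need i j ∧ q.need i j ≤ 1 := by
  by_cases h : q.Low i j ∨ q.High i j
  · refine ⟨le_trans ?_ (HY.need_bounds q i j h).1, (HY.need_bounds q i j h).2⟩
    have hκ : (8 : ℝ) ≤ q.κ := by exact_mod_cast q.hκ
    have : (0 : ℝ) ≤ q.g := Nat.cast_nonneg _
    apply div_nonneg (by linarith) this
  · unfold GP.need
    rw [if_neg h]
    norm_num

theorem loadh_m_le (q : GP) : (0 : ℝ) ≤ q.m ∧ (q.m : ℝ) ≤ q.g := by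
  refine ⟨Nat.cast_nonneg _, ?_⟩
  have : q.m ≤ q.g := by unfold GP.m; omega
  exact_mod_cast this

/-- Pointwise bound in the middle phase. -/
theorem loadh_pt (q : GP) (e : ℝ) (hs : q.Small e) (i j : ℕ) (hi : i < q.K) (hj0 : q.J0 ≤ j)
    (hj1 : j < q.J1) :
    (q.m : ℝ) * q.FH i j ≤
      (if q.kk j ≤ i then q.κ * (2 * (1 - q.sg i)) else 0) +
      (if q.kk (q.mir j) + i + 2 ≤ q.K then q.κ * (2 * (1 - q.sg i)) else 0) +
      (if 2 * i = q.K - 1 + q.kk j then (q.g : ℝ) else 0) +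
      (if 2 * i + q.kk (q.mir j) + 2 = q.K then (q.g : ℝ) else 0) +
      (if i < q.kk j ∧ j < q.X i then (q.g : ℝ) else 0) := by
  have hsg := HY.sg_bounds q e hs i hi
  have he := hs.e_pos
  have hσ0 : 0 ≤ 1 - q.sg i := by linarith [hsg.2]
  have hσ1 : 1 - q.sg i ≤ 1 := by linarith [hsg.1]
  have hn := loadh_need_le q i j
  have hm := loadh_m_le q
  have hg0 : (0 : ℝ) ≤ q.g := Nat.cast_nonneg _
  have hκ0 : (0 : ℝ) ≤ q.κ := Nat.cast_nonneg _
  have hkk : q.k1 ≤ q.kk j := loadh_kk_ge q j hj0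
  have hmir : q.J0 ≤ q.mir j := by
    have := (HY.J0_lt q).2.2.2.1
    unfold GP.mir
    unfold GP.J1 at hj1
    unfold GP.J0
    omega
  have hkk' : q.k1 ≤ q.kk (q.mir j) := loadh_kk_ge q _ hmir
  have hT : ∀ (P : Prop) [Decidable P] (x : ℝ), 0 ≤ x → 0 ≤ (if P then x else 0) := by
    intro P _ x hx
    split <;> simp [hx]
  have h1 := hT (q.kk j ≤ i) (q.κ * (2 * (1 - q.sg i))) (by positivity)
  have h2 := hT (q.kk (q.mir j) + i + 2 ≤ q.K) (q.κ * (2 * (1 - q.sg i))) (by positivity)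
  have h3 := hT (2 * i = q.K - 1 + q.kk j) (q.g : ℝ) hg0
  have h4 := hT (2 * i + q.kk (q.mir j) + 2 = q.K) (q.g : ℝ) hg0
  have h5 := hT (i < q.kk j ∧ j < q.X i) (q.g : ℝ) hg0
  -- the joint contribution
  have hjoint : (q.m : ℝ) * ((1 - q.sg i) * q.need i j) ≤ q.g := by
    have : (1 - q.sg i) * q.need i j ≤ 1 := mul_le_one₀ hσ1 hn.1 hn.2
    have h0 : 0 ≤ (1 - q.sg i) * q.need i j := mul_nonneg hσ0 hn.1
    exact (mul_le_of_le_one_right hm.1 this).trans hm.2
  have hjoint2 : (q.g : ℝ) * q.need i j = 2 * q.κ →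
      (q.m : ℝ) * ((1 - q.sg i) * q.need i j) ≤ q.κ * (2 * (1 - q.sg i)) := by
    intro h
    have h0 : 0 ≤ (1 - q.sg i) * q.need i j := mul_nonneg hσ0 hn.1
    calc (q.m : ℝ) * ((1 - q.sg i) * q.need i j) ≤ q.g * ((1 - q.sg i) * q.need i j) :=
          mul_le_mul_of_nonneg_right hm.2 h0
      _ = (1 - q.sg i) * (q.g * q.need i j) := by ring
      _ = q.κ * (2 * (1 - q.sg i)) := by rw [h]; ring
  by_cases hL : q.Low i j
  · have hH := loadh_disj q i j hL
    have hO : ¬ q.OnlyL i j := fun h => hH h.1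
    by_cases hk : q.kk j ≤ i
    · have hJ : q.Joint i j := Or.inl ⟨hL, hj0, hk⟩
      have hF : q.FH i j = (1 - q.sg i) * q.need i j := by
        unfold GP.FH GP.FL
        rw [if_neg hO, if_pos hJ]; ring
      rw [hF]
      by_cases hself : 2 * i = q.K - 1 + q.kk j
      · rw [if_pos hself] at h3 ⊢
        linarith
      · have := hjoint2 (loadh_need_low q i j hL hkk hk hself)
        rw [if_pos hk] at h1 ⊢
        linarith
    · have hJ : ¬ q.Joint i j := by
        rintro (h | h)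
        · exact hk h.2.2
        · exact hH h.1
      have hF : q.FH i j = q.need i j := by
        unfold GP.FH GP.FL
        rw [if_neg hO, if_neg hJ]; ring
      rw [hF]
      have hc : i < q.kk j ∧ j < q.X i := ⟨by omega, hL.2⟩
      rw [if_pos hc] at h5 ⊢
      linarith [(mul_le_of_le_one_right hm.1 hn.2).trans hm.2]
  · by_cases hH : q.High i j
    · by_cases hk : q.kk (q.mir j) + i + 2 ≤ q.K
      · have hJ : q.Joint i j := Or.inr ⟨hH, hj1, hk⟩
        have hO : ¬ q.OnlyL i j := by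
          rintro ⟨_, h | h⟩ <;> omega
        have hF : q.FH i j = (1 - q.sg i) * q.need i j := by
          unfold GP.FH GP.FL
          rw [if_neg hO, if_pos hJ]; ring
        rw [hF]
        by_cases hself : 2 * i + q.kk (q.mir j) + 2 = q.K
        · rw [if_pos hself] at h4 ⊢
          linarith
        · have := hjoint2 (loadh_need_high q i j hH hkk' hk hself)
          rw [if_pos hk] at h2 ⊢
          linarith
      · have hO : q.OnlyL i j := ⟨hH, Or.inr (by omega)⟩
        have hF : q.FH i j = 0 := by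
          unfold GP.FH GP.FL
          rw [if_pos hO]; ring
        rw [hF]
        linarith
    · have hF : q.FH i j = 0 := by
        have hn0 : q.need i j = 0 := by
          unfold GP.need
          rw [if_neg (by tauto)]
        unfold GP.FH GP.FL
        rw [hn0]
        split
        · ring
        · split <;> ring
      rw [hF]
      linarith

/-- The ideal share. -/
noncomputable def loadh_id (q : GP) (i : ℕ) : ℝ :=
  ((q.K : ℝ) - 2 * (min q.k1 (i + 1) : ℕ)) /
      ((q.K : ℝ) - (min q.k1 (i + 1) : ℕ) - (min q.k1 (q.K - 1 - i) : ℕ))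

/-- The low part: the ideal share is at most 1. -/
theorem loadh_id_low (q : GP) (i : ℕ) (hi : q.k1 ≤ i) : loadh_id q i ≤ 1 := by
  have h2 := q.hk2
  have hmin : min q.k1 (i + 1) = q.k1 := by omega
  have hy : min q.k1 (q.K - 1 - i) ≤ q.k1 := min_le_left _ _
  unfold loadh_id
  rw [hmin]
  have h2' : 2 * (q.k1 : ℝ) + 4 ≤ q.K := by exact_mod_cast h2
  have hy' : ((min q.k1 (q.K - 1 - i) : ℕ) : ℝ) ≤ q.k1 := by exact_mod_cast hy
  rw [div_le_one (by linarith)]
  linarith

/-- The end of the low part. -/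
theorem loadh_id_low2 (q : GP) (i y : ℕ) (hi : i + 1 + y = q.K) (hy : y ≤ q.k1) :
    loadh_id q i ≤ 1 - ((q.k1 : ℝ) - y) / q.K := by
  have h2 := q.hk2
  have hmin : min q.k1 (i + 1) = q.k1 := by omega
  have hmin2 : min q.k1 (q.K - 1 - i) = y := by omega
  unfold loadh_id
  rw [hmin, hmin2]
  have h2' : 2 * (q.k1 : ℝ) + 4 ≤ q.K := by exact_mod_cast h2
  have hy' : (y : ℝ) ≤ q.k1 := by exact_mod_cast hy
  have hy0 : (0 : ℝ) ≤ y := Nat.cast_nonneg _
  have hk0 : (0 : ℝ) ≤ q.k1 := Nat.cast_nonneg _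
  have hD : 0 < (q.K : ℝ) - q.k1 - y := by linarith
  have hK : 0 < (q.K : ℝ) := by linarith
  have h3 : ((q.K : ℝ) - 2 * q.k1) / ((q.K : ℝ) - q.k1 - y) =
      1 - ((q.k1 : ℝ) - y) / ((q.K : ℝ) - q.k1 - y) := by
    field_simp
    ring
  rw [h3]
  have h4 : ((q.k1 : ℝ) - y) / q.K ≤ ((q.k1 : ℝ) - y) / ((q.K : ℝ) - q.k1 - y) := by
    apply div_le_div_of_nonneg_left (by linarith) hD (by linarith)
  linarith

/-- The high part. -/
theorem loadh_id_high (q : GP) (i : ℕ) (hi : q.k1 + i + 2 ≤ q.K) :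
    loadh_id q i ≤ 1 + (if i + 1 < q.k1 then (q.k1 : ℝ) / (q.K - q.k1) else 0) := by
  have h2 := q.hk2
  have hmin2 : min q.k1 (q.K - 1 - i) = q.k1 := by omega
  have h2' : 2 * (q.k1 : ℝ) + 4 ≤ q.K := by exact_mod_cast h2
  have hk0 : (0 : ℝ) ≤ q.k1 := Nat.cast_nonneg _
  unfold loadh_id
  rw [hmin2]
  by_cases hc : i + 1 < q.k1
  · rw [if_pos hc]
    have hmin : min q.k1 (i + 1) = i + 1 := by omega
    rw [hmin]
    push_cast
    have hi0 : (0 : ℝ) ≤ i := Nat.cast_nonneg _
    have hc' : (i : ℝ) + 1 < q.k1 := by exact_mod_cast hc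
    have hD : 0 < (q.K : ℝ) - (i + 1) - q.k1 := by linarith
    have hD2 : 0 < (q.K : ℝ) - q.k1 := by linarith
    rw [div_le_iff₀ hD]
    have h3 : (1 + (q.k1 : ℝ) / (q.K - q.k1)) * ((q.K : ℝ) - (i + 1) - q.k1) =
        ((q.K : ℝ) - (i + 1) - q.k1) + q.k1 - q.k1 * (i + 1) / (q.K - q.k1) := by
      field_simp
      ring
    rw [h3]
    have h4 : q.k1 * ((i : ℝ) + 1) / (q.K - q.k1) ≤ i + 1 := by
      rw [div_le_iff₀ hD2]
      nlinarith
    linarith
  · rw [if_neg hc]
    have hmin : min q.k1 (i + 1) = q.k1 := by omega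
    rw [hmin, add_zero]
    have hD : 0 < (q.K : ℝ) - q.k1 - q.k1 := by linarith
    rw [div_le_one hD]
    linarith

/-- Sum over the high part. -/
theorem loadh_sum_high (q : GP) (n : ℕ) (hn : q.k1 + n + 1 ≤ q.K) :
    ∑ i ∈ range n, loadh_id q i ≤ n + q.k1 * ((q.k1 : ℝ) / (q.K - q.k1)) := by
  have h2 := q.hk2
  have h2' : 2 * (q.k1 : ℝ) + 4 ≤ q.K := by exact_mod_cast h2
  have hk0 : (0 : ℝ) ≤ q.k1 := Nat.cast_nonneg _
  have hD2 : 0 < (q.K : ℝ) - q.k1 := by linarith
  have hρ : 0 ≤ (q.k1 : ℝ) / (q.K - q.k1) := div_nonneg hk0 hD2.le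
  calc ∑ i ∈ range n, loadh_id q i
      ≤ ∑ i ∈ range n, (1 + (if i + 1 < q.k1 then (q.k1 : ℝ) / (q.K - q.k1) else 0)) := by
        apply Finset.sum_le_sum
        intro i hi
        rw [Finset.mem_range] at hi
        exact loadh_id_high q i (by omega)
    _ = n + ∑ i ∈ range n, (if i + 1 < q.k1 then (q.k1 : ℝ) / (q.K - q.k1) else 0) := by
        rw [Finset.sum_add_distrib]; simp
    _ ≤ n + q.k1 * ((q.k1 : ℝ) / (q.K - q.k1)) := by
        rw [← Finset.sum_filter, Finset.sum_const, nsmul_eq_mul]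
        have hc : ((range n).filter (fun i => i + 1 < q.k1)).card ≤ q.k1 := by
          calc ((range n).filter (fun i => i + 1 < q.k1)).card ≤ (range q.k1).card := by
                apply Finset.card_le_card
                intro i hi
                rw [Finset.mem_filter] at hi
                rw [Finset.mem_range]
                omega
            _ = q.k1 := Finset.card_range _
        have hc' : (((range n).filter (fun i => i + 1 < q.k1)).card : ℝ) ≤ q.k1 := by
          exact_mod_cast hc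
        have := mul_le_mul_of_nonneg_right hc' hρ
        linarith

/-- Sum over the low part. -/
theorem loadh_sum_low (q : GP) (k : ℕ) (hk : q.k1 ≤ k) :
    ∑ i ∈ Ico k q.K, loadh_id q i ≤ (q.K - k : ℕ) := by
  calc ∑ i ∈ Ico k q.K, loadh_id q i ≤ ∑ i ∈ Ico k q.K, (1 : ℝ) := by
        apply Finset.sum_le_sum
        intro i hi
        rw [Finset.mem_Ico] at hi
        exact loadh_id_low q i (by omega)
    _ = (q.K - k : ℕ) := by simp

/-- Sum over the last classes. -/
theorem loadh_sum_end (q : GP) :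
    ∑ i ∈ Ico (q.K - q.k1) q.K, loadh_id q i ≤ q.k1 - (q.k1 : ℝ) ^ 2 / (2 * q.K) := by
  have h2 := q.hk2
  have h2' : 2 * (q.k1 : ℝ) + 4 ≤ q.K := by exact_mod_cast h2
  have hk0 : (0 : ℝ) ≤ q.k1 := Nat.cast_nonneg _
  have hK : 0 < (q.K : ℝ) := by linarith
  have h1 : ∑ i ∈ Ico (q.K - q.k1) q.K, loadh_id q i =
      ∑ y ∈ range q.k1, loadh_id q (q.K - 1 - y) := by
    rw [Finset.sum_Ico_eq_sum_range]
    have : q.K - (q.K - q.k1) = q.k1 := by omega
    rw [this, ← Finset.sum_range_reflect]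
    apply Finset.sum_congr rfl
    intro y hy
    rw [Finset.mem_range] at hy
    congr 1
    omega
  rw [h1]
  calc ∑ y ∈ range q.k1, loadh_id q (q.K - 1 - y)
      ≤ ∑ y ∈ range q.k1, (1 - ((q.k1 : ℝ) - y) / q.K) := by
        apply Finset.sum_le_sum
        intro y hy
        rw [Finset.mem_range] at hy
        exact loadh_id_low2 q _ y (by omega) (by omega)
    _ = q.k1 - (q.k1 * q.k1 - ∑ y ∈ range q.k1, (y : ℝ)) / q.K := by
        rw [Finset.sum_sub_distrib, ← Finset.sum_div, Finset.sum_sub_distrib]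
        simp
    _ ≤ q.k1 - (q.k1 : ℝ) ^ 2 / (2 * q.K) := by
        have h3 : ∑ y ∈ range q.k1, (y : ℝ) = q.k1 * (q.k1 - 1) / 2 := by
          have := Finset.sum_range_id_mul_two q.k1
          have hk1 := q.hk1
          have h4 : ((∑ y ∈ range q.k1, y : ℕ) : ℝ) * 2 = q.k1 * ((q.k1 - 1 : ℕ) : ℝ) := by
            exact_mod_cast this
          rw [Nat.cast_sub hk1] at h4
          push_cast at h4
          linarith
        rw [h3]
        have h5 : (q.k1 : ℝ) ^ 2 / (2 * q.K) ≤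
            (q.k1 * q.k1 - q.k1 * (q.k1 - 1) / 2) / q.K := by
          rw [div_le_div_iff₀ (by linarith) hK]
          nlinarith [mul_nonneg hk0 hK.le]
        linarith

theorem loadh_sum_low2 (q : GP) (k : ℕ) (hk : q.k1 ≤ k) (hk2 : k + q.k1 ≤ q.K) :
    ∑ i ∈ Ico k q.K, loadh_id q i ≤ (q.K : ℝ) - k - (q.k1 : ℝ) ^ 2 / (2 * q.K) := by
  rw [← Finset.sum_Ico_consecutive _ (show k ≤ q.K - q.k1 by omega) (by omega)]
  have h1 := loadh_sum_end q
  have h2 : ∑ i ∈ Ico k (q.K - q.k1), loadh_id q i ≤ (q.K : ℝ) - q.k1 - k := by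
    calc ∑ i ∈ Ico k (q.K - q.k1), loadh_id q i ≤ ∑ i ∈ Ico k (q.K - q.k1), (1 : ℝ) := by
          apply Finset.sum_le_sum
          intro i hi
          rw [Finset.mem_Ico] at hi
          exact loadh_id_low q i (by omega)
      _ = (q.K : ℝ) - q.k1 - k := by
          simp only [Finset.sum_const, Nat.card_Ico, nsmul_eq_mul, mul_one]
          rw [Nat.cast_sub (by omega), Nat.cast_sub (by omega)]
  linarith

/-- One of the two sums over the active classes. -/
theorem loadh_active (q : GP) (e : ℝ) (hs : q.Small e) (T : Finset ℕ) (hT : T ⊆ range q.K) :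
    ∑ i ∈ T, (q.κ : ℝ) * (2 * (1 - q.sg i)) ≤ q.κ * ∑ i ∈ T, loadh_id q i + 4 * (q.g / e) := by
  have h2 := q.hk2
  have h2' : 2 * (q.k1 : ℝ) + 4 ≤ q.K := by exact_mod_cast h2
  have hk0 : (0 : ℝ) ≤ q.k1 := Nat.cast_nonneg _
  have hK : 0 < (q.K : ℝ) := by linarith
  have hκ : (8 : ℝ) ≤ q.κ := by exact_mod_cast q.hκ
  have hg0 : (0 : ℝ) ≤ q.g := Nat.cast_nonneg _
  have he := hs.e_pos
  have hk1 := hs.k1_le
  have hD : 0 < (q.K : ℝ) - 2 * q.k1 := by linarith
  have hc : (T.card : ℝ) ≤ q.K := by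
    have := Finset.card_le_card hT
    rw [Finset.card_range] at this
    exact_mod_cast this
  calc ∑ i ∈ T, (q.κ : ℝ) * (2 * (1 - q.sg i))
      ≤ ∑ i ∈ T, ((q.κ : ℝ) * loadh_id q i + 4 * q.g / (q.K - 2 * q.k1)) := by
        apply Finset.sum_le_sum
        intro i hi
        have hi' := Finset.mem_range.mp (hT hi)
        have h := HY.H_share q e hs i hi'
        have h3 : (q.κ : ℝ) * (4 * q.g / (q.κ * (q.K - 2 * q.k1))) = 4 * q.g / (q.K - 2 * q.k1) := by
          have : (q.κ : ℝ) ≠ 0 := by linarith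
          field_simp
        rw [← h3, ← mul_add]
        apply mul_le_mul_of_nonneg_left _ (by linarith)
        exact h
    _ = q.κ * ∑ i ∈ T, loadh_id q i + T.card * (4 * q.g / (q.K - 2 * q.k1)) := by
        rw [Finset.sum_add_distrib, ← Finset.mul_sum, Finset.sum_const, nsmul_eq_mul]
    _ ≤ q.κ * ∑ i ∈ T, loadh_id q i + 4 * (q.g / e) := by
        have h4 : (0 : ℝ) ≤ 4 * q.g / (q.K - 2 * q.k1) := by positivity
        have h5 : (T.card : ℝ) * (4 * q.g / (q.K - 2 * q.k1)) ≤ q.K * (4 * q.g / (q.K - 2 * q.k1)) :=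
          mul_le_mul_of_nonneg_right hc h4
        have h6 : (q.K : ℝ) * (4 * q.g / (q.K - 2 * q.k1)) ≤ 4 * (q.g / e) := by
          have : (q.K : ℝ) * (4 * q.g / (q.K - 2 * q.k1)) = 4 * q.g * (q.K / (q.K - 2 * q.k1)) := by
            ring
          rw [this]
          have h7 : (q.K : ℝ) / (q.K - 2 * q.k1) ≤ 1 / e := by
            rw [div_le_div_iff₀ hD he]
            nlinarith
          calc 4 * (q.g : ℝ) * (q.K / (q.K - 2 * q.k1)) ≤ 4 * q.g * (1 / e) :=
                mul_le_mul_of_nonneg_left h7 (by positivity)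
            _ = 4 * (q.g / e) := by ring
        linarith

/-- The number of near-diagonal classes. -/
theorem loadh_near (q : GP) (j : ℕ) (hj0 : q.J0 ≤ j) :
    ((q.g * ((range q.K).filter (fun i => i < q.kk j ∧ j < q.X i)).card : ℕ) : ℤ) ≤
      q.g + (q.κ + 2) + (q.κ + 1) * q.k1 := by
  have hg := q.hg
  have hκ := q.hκ
  have hkk : q.k1 ≤ q.kk j := loadh_kk_ge q j hj0
  have ht : q.t ≤ j := le_trans (HY.J0_lt q).1 hj0
  have ha := ((HY.kk_iff q j (q.kk j) ht).mp rfl).1
  have ha' := loadh_a_ge q _ hkk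
  set k := q.kk j with hk
  obtain ⟨D, hD⟩ : ∃ D, D = (q.κ + 2 + (q.κ + 1) * q.k1) / q.g := ⟨_, rfl⟩
  have hgpos : 0 < q.g := by omega
  have hDle : q.g * D ≤ q.κ + 2 + (q.κ + 1) * q.k1 := by
    rw [hD]
    exact Nat.mul_div_le _ _
  have hsub : (range q.K).filter (fun i => i < k ∧ j < q.X i) ⊆ Ico (k - 1 - D) k := by
    intro i hi
    rw [Finset.mem_filter] at hi
    obtain ⟨_, h1, h2⟩ := hi
    rw [Finset.mem_Ico]
    refine ⟨?_, h1⟩
    unfold GP.X at h2
    have h3 : (k - 1 - i) ≤ D := by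
      rw [hD, Nat.le_div_iff_mul_le hgpos]
      have h4 : (j : ℤ) < q.g * (i + 2) := by exact_mod_cast h2
      have h5 : (q.a k : ℤ) ≤ j := by exact_mod_cast ha
      have h6 : ((k - 1 - i : ℕ) : ℤ) = k - 1 - i := by omega
      have h7 : (((k - 1 - i) * q.g : ℕ) : ℤ) ≤ ((q.κ + 2 + (q.κ + 1) * q.k1 : ℕ) : ℤ) := by
        push_cast
        rw [h6]
        linarith
      exact_mod_cast h7
    omega
  have hcard := Finset.card_le_card hsub
  rw [Nat.card_Ico] at hcard
  have hc2 : ((range q.K).filter (fun i => i < k ∧ j < q.X i)).card ≤ D + 1 := by omega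
  have h8 := Nat.mul_le_mul_left q.g hc2
  have h9 : q.g * ((range q.K).filter (fun i => i < k ∧ j < q.X i)).card ≤
      q.g + (q.κ + 2) + (q.κ + 1) * q.k1 := by
    calc _ ≤ q.g * (D + 1) := h8
      _ = q.g * D + q.g := by ring
      _ ≤ _ := by omega
  exact_mod_cast h9

/-- The load in the middle phase. -/
theorem loadh_mid (q : GP) (e : ℝ) (hs : q.Small e) (j : ℕ) (hj0 : q.J0 ≤ j) (hj1 : j < q.J1) :
    ∑ i ∈ range q.K, (q.m : ℝ) * q.FH i j ≤
      q.κ * (∑ i ∈ Ico (q.kk j) q.K, loadh_id q i +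
        ∑ i ∈ range (q.K - 1 - q.kk (q.mir j)), loadh_id q i) + 8 * (q.g / e) + 2 * q.g +
      (q.g * ((range q.K).filter (fun i => i < q.kk j ∧ j < q.X i)).card : ℕ) := by
  have hg0 : (0 : ℝ) ≤ q.g := Nat.cast_nonneg _
  have h0 : ∑ i ∈ range q.K, (q.m : ℝ) * q.FH i j ≤ ∑ i ∈ range q.K,
      ((if q.kk j ≤ i then q.κ * (2 * (1 - q.sg i)) else 0) +
      (if q.kk (q.mir j) + i + 2 ≤ q.K then q.κ * (2 * (1 - q.sg i)) else 0) +
      (if 2 * i = q.K - 1 + q.kk j then (q.g : ℝ) else 0) +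
      (if 2 * i + q.kk (q.mir j) + 2 = q.K then (q.g : ℝ) else 0) +
      (if i < q.kk j ∧ j < q.X i then (q.g : ℝ) else 0)) := by
    apply Finset.sum_le_sum
    intro i hi
    rw [Finset.mem_range] at hi
    exact loadh_pt q e hs i j hi hj0 hj1
  refine le_trans h0 ?_
  simp only [Finset.sum_add_distrib]
  have h1 : ∑ i ∈ range q.K, (if q.kk j ≤ i then q.κ * (2 * (1 - q.sg i)) else 0) ≤
      q.κ * ∑ i ∈ Ico (q.kk j) q.K, loadh_id q i + 4 * (q.g / e) := by
    rw [← Finset.sum_filter]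
    have : (range q.K).filter (fun i => q.kk j ≤ i) = Ico (q.kk j) q.K := by
      ext i
      simp only [Finset.mem_filter, Finset.mem_range, Finset.mem_Ico]
      omega
    rw [this]
    apply loadh_active q e hs
    intro i hi
    rw [Finset.mem_Ico] at hi
    rw [Finset.mem_range]
    omega
  have h2 : ∑ i ∈ range q.K, (if q.kk (q.mir j) + i + 2 ≤ q.K then
      q.κ * (2 * (1 - q.sg i)) else 0) ≤
      q.κ * ∑ i ∈ range (q.K - 1 - q.kk (q.mir j)), loadh_id q i + 4 * (q.g / e) := by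
    rw [← Finset.sum_filter]
    have : (range q.K).filter (fun i => q.kk (q.mir j) + i + 2 ≤ q.K) =
        range (q.K - 1 - q.kk (q.mir j)) := by
      ext i
      simp only [Finset.mem_filter, Finset.mem_range]
      omega
    rw [this]
    apply loadh_active q e hs
    intro i hi
    rw [Finset.mem_range] at hi ⊢
    omega
  have h3 : ∑ i ∈ range q.K, (if 2 * i = q.K - 1 + q.kk j then (q.g : ℝ) else 0) ≤ q.g := by
    rw [← Finset.sum_filter, Finset.sum_const, nsmul_eq_mul]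
    have : ((range q.K).filter (fun i => 2 * i = q.K - 1 + q.kk j)).card ≤ 1 := by
      rw [Finset.card_le_one]
      intro a ha b hb
      rw [Finset.mem_filter] at ha hb
      omega
    have h' : (((range q.K).filter (fun i => 2 * i = q.K - 1 + q.kk j)).card : ℝ) ≤ 1 := by
      exact_mod_cast this
    exact mul_le_of_le_one_left hg0 h'
  have h4 : ∑ i ∈ range q.K, (if 2 * i + q.kk (q.mir j) + 2 = q.K then (q.g : ℝ) else 0) ≤ q.g := by
    rw [← Finset.sum_filter, Finset.sum_const, nsmul_eq_mul]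
    have : ((range q.K).filter (fun i => 2 * i + q.kk (q.mir j) + 2 = q.K)).card ≤ 1 := by
      rw [Finset.card_le_one]
      intro a ha b hb
      rw [Finset.mem_filter] at ha hb
      omega
    have h' : (((range q.K).filter (fun i => 2 * i + q.kk (q.mir j) + 2 = q.K)).card : ℝ) ≤ 1 := by
      exact_mod_cast this
    exact mul_le_of_le_one_left hg0 h'
  have h5 : ∑ i ∈ range q.K, (if i < q.kk j ∧ j < q.X i then (q.g : ℝ) else 0) =
      (q.g * ((range q.K).filter (fun i => i < q.kk j ∧ j < q.X i)).card : ℕ) := by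
    rw [← Finset.sum_filter, Finset.sum_const, nsmul_eq_mul]
    push_cast
    ring
  rw [h5]
  linarith

/-- Relation between the sum classes of the two directions. -/
theorem loadh_sumk (q : GP) (j : ℕ) (hj0 : q.J0 ≤ j) (hj1 : j < q.J1) :
    q.k1 ≤ q.kk (q.mir j) ∧
    (q.g : ℤ) * (q.K - 1) + q.P + q.κ + 3 + 2 * (q.κ + 1) * q.k1 ≤
      q.g * (q.kk j + q.kk (q.mir j)) ∧
    (q.g : ℤ) * q.kk j + q.g - q.κ - 2 - (q.κ + 1) * q.k1 ≤ j := by
  have hg := q.hg
  have hκ := q.hκ
  have hJ := HY.J0_lt q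
  have hmir : q.J0 ≤ q.mir j := by
    unfold GP.mir
    unfold GP.J1 at hj1
    unfold GP.J0
    omega
  have hsum : j + q.mir j = q.N + q.t - 1 := by
    unfold GP.mir
    omega
  have ht : q.t ≤ j := le_trans hJ.1 hj0
  have ht' : q.t ≤ q.mir j := le_trans hJ.1 hmir
  have hk := loadh_kk_ge q j hj0
  have hk' := loadh_kk_ge q _ hmir
  have h1 := (HY.kk_iff q j (q.kk j) ht).mp rfl
  have h2 := (HY.kk_iff q (q.mir j) (q.kk (q.mir j)) ht').mp rfl
  have e0 := loadh_a_ge q (q.kk j) hk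
  have e1 := loadh_a_ge q (q.kk j + 1) (by omega)
  have e2 := loadh_a_ge q (q.kk (q.mir j) + 1) (by omega)
  have hN : (q.N : ℤ) = q.N2 + q.P + q.g := by unfold GP.N; push_cast; ring
  have ht2 : (q.t : ℤ) = q.g - q.κ - 2 := by
    unfold GP.t; omega
  have hN2 : (q.g : ℤ) * (q.K + 1) ≤ q.N2 := by exact_mod_cast q.N2_ge
  refine ⟨hk', ?_, ?_⟩
  · have h3 : (j : ℤ) + q.mir j = q.N + q.t - 1 := by
      have : 1 ≤ q.N + q.t := by omega
      omega
    have h4 : (j : ℤ) < q.a (q.kk j + 1) := by exact_mod_cast h1.2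
    have h5 : (q.mir j : ℤ) < q.a (q.kk (q.mir j) + 1) := by exact_mod_cast h2.2
    push_cast at e1 e2
    linarith
  · have : (q.a (q.kk j) : ℤ) ≤ j := by exact_mod_cast h1.1
    linarith

/-- The first phase. -/
theorem loadh_first (q : GP) (e : ℝ) (hs : q.Small e) (j : ℕ) (hj : q.t ≤ j) (hj1 : j < q.J0) :
    ∑ i ∈ range q.K, (q.m : ℝ) * q.FH i j ≤ (q.κ - 1) * q.K + 2 * q.k1 + 2 * q.g + q.κ + 2 := by
  have hg := q.hg
  have hκ := q.hκ
  have hJ := HY.J0_lt q
  have hk := loadh_kk_lt q j hj1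
  have h1 := (HY.kk_iff q j (q.kk j) hj).mp rfl
  have e0 := loadh_a_lt q (q.kk j) (by omega)
  have hm := loadh_m_le q
  have hgpos : 0 < q.g := by omega
  have hg1pos : 0 < q.g1 := by unfold GP.g1; omega
  have hpt : ∀ i ∈ range q.K, (q.m : ℝ) * q.FH i j ≤ (if q.kk j ≤ i then (q.κ - 1 : ℝ) else 0) +
      (if 2 * i = q.K - 1 + q.kk j then (q.g : ℝ) else 0) +
      (if i < q.kk j ∧ j < q.X i then (q.g : ℝ) else 0) := by
    intro i hi
    have hH : ¬ q.High i j := by
      unfold GP.High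
      omega
    have hO : ¬ q.OnlyL i j := fun h => hH h.1
    have hJ' : ¬ q.Joint i j := by
      rintro (h | h)
      · omega
      · exact hH h.1
    have hF : q.FH i j = q.need i j := by
      unfold GP.FH GP.FL
      rw [if_neg hO, if_neg hJ']; ring
    have hn := loadh_need_le q i j
    have hκ' : (8 : ℝ) ≤ q.κ := by exact_mod_cast hκ
    have hg0 : (0 : ℝ) ≤ q.g := Nat.cast_nonneg _
    have h3 : 0 ≤ (if 2 * i = q.K - 1 + q.kk j then (q.g : ℝ) else 0) := by
      split <;> simp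
    have h5 : 0 ≤ (if i < q.kk j ∧ j < q.X i then (q.g : ℝ) else 0) := by
      split <;> simp
    have h6 : 0 ≤ (if q.kk j ≤ i then (q.κ - 1 : ℝ) else 0) := by
      split
      · linarith
      · exact le_rfl
    rw [hF]
    by_cases hL : q.Low i j
    · by_cases hki : q.kk j ≤ i
      · by_cases hself : 2 * i = q.K - 1 + q.kk j
        · rw [if_pos hself] at h3 ⊢
          linarith [(mul_le_of_le_one_right hm.1 hn.2).trans hm.2]
        · have hw : q.need i j = 1 - q.m / q.g1 := by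
            unfold GP.need
            rw [if_pos (Or.inl hL)]
            unfold GP.w
            rw [if_pos ⟨hL, hki, hself⟩]
            unfold GP.len
            rw [if_pos hk]
            ring
          have hm1 : (q.m : ℝ) = q.g1 - (q.κ - 1) := by
            unfold GP.m GP.g1
            rw [Nat.cast_sub (by omega), Nat.cast_sub (by omega), Nat.cast_sub (by omega)]
            push_cast
            ring
          have hg1' : (0 : ℝ) < q.g1 := by exact_mod_cast hg1pos
          have h6 : (q.m : ℝ) * (1 - q.m / q.g1) ≤ q.κ - 1 := by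
            have h7 : (q.m : ℝ) * (1 - q.m / q.g1) = (q.κ - 1) * (q.m / q.g1) := by
              rw [hm1]
              field_simp
              ring
            have h8 : (q.m : ℝ) / q.g1 ≤ 1 := by
              rw [div_le_one hg1']
              linarith
            rw [h7]
            exact mul_le_of_le_one_right (by linarith) h8
          rw [hw, if_pos hki]
          linarith
      · have hc : i < q.kk j ∧ j < q.X i := ⟨by omega, hL.2⟩
        rw [if_pos hc] at h5 ⊢
        linarith [(mul_le_of_le_one_right hm.1 hn.2).trans hm.2]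
    · have hn0 : q.need i j = 0 := by
        unfold GP.need
        rw [if_neg (by tauto)]
      rw [hn0]
      linarith
  refine le_trans (Finset.sum_le_sum hpt) ?_
  simp only [Finset.sum_add_distrib]
  have h3 : ∑ i ∈ range q.K, (if 2 * i = q.K - 1 + q.kk j then (q.g : ℝ) else 0) ≤ q.g := by
    rw [← Finset.sum_filter, Finset.sum_const, nsmul_eq_mul]
    have : ((range q.K).filter (fun i => 2 * i = q.K - 1 + q.kk j)).card ≤ 1 := by
      rw [Finset.card_le_one]
      intro a ha b hb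
      rw [Finset.mem_filter] at ha hb
      omega
    have h' : (((range q.K).filter (fun i => 2 * i = q.K - 1 + q.kk j)).card : ℝ) ≤ 1 := by
      exact_mod_cast this
    have hg0 : (0 : ℝ) ≤ q.g := Nat.cast_nonneg _
    exact mul_le_of_le_one_left hg0 h'
  have h1' : ∑ i ∈ range q.K, (if q.kk j ≤ i then (q.κ - 1 : ℝ) else 0) =
      (q.κ - 1) * (q.K - q.kk j) := by
    rw [← Finset.sum_filter, Finset.sum_const, nsmul_eq_mul]
    have : (range q.K).filter (fun i => q.kk j ≤ i) = Ico (q.kk j) q.K := by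
      ext i
      simp only [Finset.mem_filter, Finset.mem_range, Finset.mem_Ico]
      omega
    have h2 := q.hk2
    rw [this, Nat.card_Ico, Nat.cast_sub (by omega)]
    ring
  have h5 : ∑ i ∈ range q.K, (if i < q.kk j ∧ j < q.X i then (q.g : ℝ) else 0) ≤
      q.g + q.κ + 2 + (q.κ + 1) * q.kk j := by
    rw [← Finset.sum_filter, Finset.sum_const, nsmul_eq_mul]
    obtain ⟨D, hD⟩ : ∃ D, D = (q.κ + 2 + (q.κ + 1) * q.kk j) / q.g := ⟨_, rfl⟩
    have hDle : q.g * D ≤ q.κ + 2 + (q.κ + 1) * q.kk j := by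
      rw [hD]
      exact Nat.mul_div_le _ _
    have hsub : (range q.K).filter (fun i => i < q.kk j ∧ j < q.X i) ⊆
        Ico (q.kk j - 1 - D) (q.kk j) := by
      intro i hi
      rw [Finset.mem_filter] at hi
      obtain ⟨_, h1', h2⟩ := hi
      rw [Finset.mem_Ico]
      refine ⟨?_, h1'⟩
      unfold GP.X at h2
      have h3 : (q.kk j - 1 - i) ≤ D := by
        rw [hD, Nat.le_div_iff_mul_le hgpos]
        have h4 : (j : ℤ) < q.g * (i + 2) := by exact_mod_cast h2
        have h5 : (q.a (q.kk j) : ℤ) ≤ j := by exact_mod_cast h1.1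
        have h6 : ((q.kk j - 1 - i : ℕ) : ℤ) = q.kk j - 1 - i := by omega
        have h7 : (((q.kk j - 1 - i) * q.g : ℕ) : ℤ) ≤
            ((q.κ + 2 + (q.κ + 1) * q.kk j : ℕ) : ℤ) := by
          push_cast
          rw [h6]
          linarith
        exact_mod_cast h7
      omega
    have hcard := Finset.card_le_card hsub
    rw [Nat.card_Ico] at hcard
    have hc2 : ((range q.K).filter (fun i => i < q.kk j ∧ j < q.X i)).card ≤ D + 1 := by omega
    have h8 := Nat.mul_le_mul_left q.g hc2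
    have h9 : ((range q.K).filter (fun i => i < q.kk j ∧ j < q.X i)).card * q.g ≤
        q.g + q.κ + 2 + (q.κ + 1) * q.kk j := by
      calc _ = q.g * ((range q.K).filter (fun i => i < q.kk j ∧ j < q.X i)).card := by ring
        _ ≤ q.g * (D + 1) := h8
        _ = q.g * D + q.g := by ring
        _ ≤ _ := by omega
    exact_mod_cast h9
  have h6 : (q.kk j : ℝ) ≤ q.k1 := by exact_mod_cast hk.le
  rw [h1']
  linarith

/-- The load is zero outside of the windows. -/
theorem loadh_zero (q : GP) (i j : ℕ) (hi : i < q.K) (h : j < q.t ∨ q.J1 ≤ j) : q.FH i j = 0 := by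
  have hJ := HY.J0_lt q
  have hL : ¬ q.Low i j := by
    rintro ⟨h1, h2⟩
    unfold GP.X at h2
    have h3 : q.g * (i + 2) ≤ q.g * (q.K + 1) := Nat.mul_le_mul_left _ (by omega)
    have := q.N2_ge
    omega
  unfold GP.FH GP.FL
  by_cases hH : q.High i j
  · have h1 := hH.1
    have hO : q.OnlyL i j := by
      refine ⟨hH, Or.inl ?_⟩
      omega
    rw [if_pos hO]
    ring
  · have hn0 : q.need i j = 0 := by
      unfold GP.need
      rw [if_neg (by tauto)]
    rw [hn0]
    split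
    · ring
    · split <;> ring

/-- LOADH. -/
theorem load_H (q : GP) (e : ℝ) (hs : q.Small e) (j : ℕ) (hj : j < q.N) :
    ∑ i ∈ range q.K, (q.m : ℝ) * q.FH i j ≤ (1 - e / (2 * q.κ)) * q.hp := by
  have hgN := q.hg
  have hκN := q.hκ
  have hg : 10 * (q.κ : ℝ) ≤ q.g := by exact_mod_cast hgN
  have hκ : (8 : ℝ) ≤ q.κ := by exact_mod_cast hκN
  have he := hs.e_pos
  have he4 := hs.e_le
  have hk1g := hs.k1_ge
  have hk1l := hs.k1_le
  have hκe := hs.κ_ge
  have hgge := hs.g_ge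
  have hKge := hs.K_ge
  have hk10 : (0 : ℝ) ≤ q.k1 := Nat.cast_nonneg _
  have h2 := q.hk2
  have h2' : 2 * (q.k1 : ℝ) + 4 ≤ q.K := by exact_mod_cast h2
  have hK0 : (0 : ℝ) < q.K := by linarith
  have hg0 : (0 : ℝ) < q.g := by linarith
  -- the target
  have hhp := q.hp_ge
  have htarget : (q.κ : ℝ) * q.K - e * q.K / 2 ≤ (1 - e / (2 * q.κ)) * q.hp := by
    have h1 : e / (2 * q.κ) ≤ 1 := by
      rw [div_le_one (by linarith)]
      linarith
    have h3 : (1 - e / (2 * q.κ)) * (q.κ * q.K) ≤ (1 - e / (2 * q.κ)) * q.hp :=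
      mul_le_mul_of_nonneg_left hhp (by linarith)
    have h4 : (1 - e / (2 * q.κ)) * (q.κ * q.K) = q.κ * q.K - e * q.K / 2 := by
      have : (q.κ : ℝ) ≠ 0 := by linarith
      field_simp
    linarith
  refine le_trans ?_ htarget
  -- small quantities
  obtain ⟨G, hG⟩ : ∃ G : ℝ, G = q.g / e := ⟨_, rfl⟩
  have hGg : (q.g : ℝ) = G * e := by rw [hG]; field_simp
  have hG0 : 0 < G := by rw [hG]; positivity
  have hgG : (q.g : ℝ) ≤ G / 4 := by rw [hGg]; linarith [mul_le_mul_of_nonneg_left he4 hG0.le]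
  have hGT : G ≤ e * q.K / 4000 := by
    have h1 : G * e * 1000 ≤ (e ^ 2 * q.K) * e := by rw [← hGg]; linarith [hKge]
    have h2 : G * 1000 ≤ e ^ 2 * q.K := by
      apply le_of_mul_le_mul_right _ he
      linarith
    linarith [mul_le_mul_of_nonneg_left he4 (mul_pos he hK0).le]
  have hk1T : e * q.K ≤ q.k1 := hk1g
  obtain ⟨T, hT⟩ : ∃ T : ℝ, T = e * q.K := ⟨_, rfl⟩
  rw [← hT] at hGT hk1T ⊢
  have hT0 : 0 < T := by rw [hT]; positivity
  -- first: trivial cases
  by_cases hA : j < q.t ∨ q.J1 ≤ j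
  · have h0 : ∑ i ∈ range q.K, (q.m : ℝ) * q.FH i j = 0 := by
      apply Finset.sum_eq_zero
      intro i hi
      rw [loadh_zero q i j (Finset.mem_range.mp hi) hA, mul_zero]
    rw [h0]
    have : T / 2 ≤ q.κ * q.K := by
      rw [hT]
      linarith [mul_le_mul_of_nonneg_right (show e / 2 ≤ (q.κ : ℝ) by linarith) hK0.le]
    linarith
  push Not at hA
  by_cases hB : j < q.J0
  · have h1 := loadh_first q e hs j hA.1 hB
    refine le_trans h1 ?_
    have : 2 * (q.k1 : ℝ) ≤ q.K - T := by rw [hT]; linarith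
    linarith
  push Not at hB
  have hmid := loadh_mid q e hs j hB hA.2
  obtain ⟨hk', hsum, hjk⟩ := loadh_sumk q j hB hA.2
  have hkk := loadh_kk_ge q j hB
  obtain ⟨ND, hND⟩ : ∃ ND : ℕ, ND =
    (q.g * ((range q.K).filter (fun i => i < q.kk j ∧ j < q.X i)).card : ℕ) := ⟨_, rfl⟩
  have hnear : (ND : ℝ) ≤ q.g + (q.κ + 2) + (q.κ + 1) * q.k1 := by
    have := loadh_near q j hB
    rw [← hND] at this
    exact_mod_cast this
  rw [← hND, ← hG] at hmid
  refine le_trans hmid ?_
  have hND0 : (0 : ℝ) ≤ ND := Nat.cast_nonneg _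
  obtain ⟨k, hk⟩ : ∃ k, k = q.kk j := ⟨_, rfl⟩
  obtain ⟨k', hkp⟩ : ∃ k', k' = q.kk (q.mir j) := ⟨_, rfl⟩
  rw [← hk] at hkk hsum hjk
  rw [← hkp] at hk' hsum
  rw [← hk, ← hkp]
  -- the excess of the high part
  have hρ : (q.κ : ℝ) * (q.k1 * ((q.k1 : ℝ) / (q.K - q.k1))) ≤ q.κ * q.k1 - 25.6 * q.k1 := by
    have hD : (0 : ℝ) < q.K - q.k1 := by linarith
    have h1 : (q.k1 : ℝ) / (q.K - q.k1) ≤ 1 - 1.6 * e := by
      rw [div_le_iff₀ hD]
      linarith [mul_le_mul_of_nonneg_left hk1l (show (0 : ℝ) ≤ 1 - 0.8 * e by linarith), mul_nonneg (mul_pos he hK0).le (show (0 : ℝ) ≤ 1 - 4 * e by linarith)]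
    have h3 : (q.κ : ℝ) * (q.k1 * ((q.k1 : ℝ) / (q.K - q.k1))) ≤
        q.κ * (q.k1 * (1 - 1.6 * e)) :=
      mul_le_mul_of_nonneg_left (mul_le_mul_of_nonneg_left h1 hk10) (by linarith)
    have h4 : 25.6 * (q.k1 : ℝ) ≤ q.κ * (q.k1 * (1.6 * e)) := by linarith [mul_le_mul_of_nonneg_left hκe (show (0 : ℝ) ≤ 1.6 * q.k1 by linarith)]
    linarith
  have hκ2 : (q.κ : ℝ) ^ 2 * q.K * 200 ≤ T * q.g := by
    rw [hT]
    linarith [mul_le_mul_of_nonneg_left hgge hK0.le]
  have hκ3 : (q.κ : ℝ) ^ 2 * q.k1 * 200 ≤ T * q.g := by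
    refine le_trans ?_ hκ2
    have : (0 : ℝ) ≤ (q.κ : ℝ) ^ 2 := by positivity
    linarith [mul_le_mul_of_nonneg_left (show (q.k1 : ℝ) ≤ q.K by linarith) this]
  have hPge := q.P_ge
  have hhple := q.hp_le
  have hP : 2 * ((q.g : ℝ) - q.κ - 1) * q.k1 ≤ q.P + 4 * q.κ * q.K + 14 * q.g + 3 := by
    linarith
  have hsumR : (q.g : ℝ) * (q.K - 1) + q.P + q.κ + 3 + 2 * (q.κ + 1) * q.k1 ≤
      q.g * (k + k') := by
    exact_mod_cast hsum
  have hjkR : (q.g : ℝ) * k + q.g - q.κ - 2 - (q.κ + 1) * q.k1 ≤ j := by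
    exact_mod_cast hjk
  have hκ0 : (0 : ℝ) < q.κ := by linarith
  by_cases hH : q.K - 1 - k' = 0
  · -- no high part
    rw [hH, Finset.sum_range_zero, add_zero]
    by_cases hk2 : k + q.k1 ≤ q.K
    · have h3 := loadh_sum_low2 q k hkk hk2
      have h4 : (q.k1 : ℝ) ≤ k := by exact_mod_cast hkk
      have h5 : (q.κ : ℝ) * ∑ i ∈ Ico k q.K, loadh_id q i ≤
          q.κ * (q.K - q.k1 - (q.k1 : ℝ) ^ 2 / (2 * q.K)) := by
        apply mul_le_mul_of_nonneg_left _ hκ0.le
        linarith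
      have h6 : 8 * (q.k1 : ℝ) ≤ q.κ * ((q.k1 : ℝ) ^ 2 / (2 * q.K)) := by
        rw [← mul_div_assoc, le_div_iff₀ (by linarith)]
        linarith [mul_le_mul_of_nonneg_left (show (16 : ℝ) * q.K ≤ q.κ * q.k1 by linarith [mul_le_mul_of_nonneg_right hκe hK0.le, mul_le_mul_of_nonneg_left hk1g hκ0.le]) hk10]
      linarith
    · have h3 := loadh_sum_low q k hkk
      have h4 : ((q.K - k : ℕ) : ℝ) ≤ q.k1 := by
        have : q.K - k ≤ q.k1 := by omega
        exact_mod_cast this
      have h5 : (q.κ : ℝ) * ∑ i ∈ Ico k q.K, loadh_id q i ≤ q.κ * q.k1 := by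
        apply mul_le_mul_of_nonneg_left _ hκ0.le
        linarith
      have h6 : 2 * (q.κ * (q.k1 : ℝ)) ≤ q.κ * q.K - 16 * q.K := by
        linarith [mul_le_mul_of_nonneg_left hk1l hκ0.le, mul_le_mul_of_nonneg_right hκe hK0.le]
      linarith
  · have hn : ((q.K - 1 - k' : ℕ) : ℝ) = q.K - 1 - k' := by
      rw [Nat.cast_sub (by omega), Nat.cast_sub (by omega)]
      push_cast
      ring
    have hhigh := loadh_sum_high q (q.K - 1 - k') (by omega)
    rw [hn] at hhigh
    have hhigh2 : (q.κ : ℝ) * ∑ i ∈ range (q.K - 1 - k'), loadh_id q i ≤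
        q.κ * (q.K - 1 - k') + (q.κ * q.k1 - 25.6 * q.k1) := by
      have := mul_le_mul_of_nonneg_left hhigh hκ0.le
      rw [mul_add] at this
      linarith
    by_cases hkK : k < q.K
    · have hlow := loadh_sum_low q k hkk
      rw [Nat.cast_sub hkK.le] at hlow
      have hlow2 := mul_le_mul_of_nonneg_left hlow hκ0.le
      have hx : (q.κ : ℝ) * (q.K - k) + q.κ * (q.K - 1 - k') ≤
          q.κ * q.K - 2 * q.κ * q.k1 + T / 50 + 14 * q.κ := by
        apply le_of_mul_le_mul_right _ hg0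
        have h7 : (q.g : ℝ) * ((q.K - k) + (q.K - 1 - k')) ≤
            q.g * q.K + 4 * q.κ * q.K + 14 * q.g - 2 * q.g * q.k1 := by
          linarith
        have h8 := mul_le_mul_of_nonneg_left h7 hκ0.le
        linarith
      rw [mul_add]
      linarith
    · have hlow : ∑ i ∈ Ico k q.K, loadh_id q i = 0 := by
        rw [Finset.Ico_eq_empty (by omega), Finset.sum_empty]
      rw [hlow, zero_add]
      by_cases hjK : j < q.g * (q.K + 1)
      · have hjKR : (j : ℝ) ≤ q.g * (q.K + 1) := by exact_mod_cast hjK.le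
        have hx : (q.κ : ℝ) * (q.K - 1 - k') ≤
            q.κ * q.K - 2 * q.κ * q.k1 + T / 50 + T / 100 + 15 * q.κ := by
          apply le_of_mul_le_mul_right _ hg0
          have h7 : (q.g : ℝ) * (q.K - 1 - k') ≤
              q.g * q.K + 4 * q.κ * q.K + 14 * q.g + 2 - 2 * q.g * q.k1 + (q.κ + 1) * q.k1 := by
            linarith
          have h8 := mul_le_mul_of_nonneg_left h7 hκ0.le
          have h9 : (q.κ : ℝ) * ((q.κ + 1) * q.k1) ≤ 2 * (q.κ ^ 2 * q.k1) := by
            linarith [mul_le_mul_of_nonneg_right (show (1 : ℝ) ≤ q.κ by linarith) (mul_nonneg hκ0.le hk10)]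
          have h10 : (q.κ : ℝ) * 2 ≤ q.κ * q.g := by linarith [mul_le_mul_of_nonneg_left (show (2 : ℝ) ≤ q.g by linarith) hκ0.le]
          linarith
        linarith
      · have hND2 : ND = 0 := by
          rw [hND]
          have : (range q.K).filter (fun i => i < q.kk j ∧ j < q.X i) = ∅ := by
            apply Finset.filter_eq_empty_iff.mpr
            intro i hi
            rw [Finset.mem_range] at hi
            rintro ⟨_, h4⟩
            unfold GP.X at h4
            have h3 : q.g * (i + 2) ≤ q.g * (q.K + 1) := Nat.mul_le_mul_left _ (by omega)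
            omega
          rw [this]
          simp
        rw [hND2]
        have h4 : (q.k1 : ℝ) ≤ k' := by exact_mod_cast hk'
        have h5 : (q.κ : ℝ) * (q.K - 1 - k') ≤ q.κ * q.K - q.κ * q.k1 := by linarith [mul_le_mul_of_nonneg_left (show (q.K : ℝ) - 1 - k' ≤ q.K - q.k1 by linarith) hκ0.le]
        push_cast
        linarith

end Pool.Agent.H70.HY
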