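import Mathlib
import Pool.Agent.H70.HY.Base
import Pool.Agent.H70.HY.NEED
import Pool.Agent.H70.HY.SIG
import Pool.Agent.H70.HY.TIME

/-! LOADL: the load of the slack class L in a block. -/

set_option autoImplicit false

namespace Pool.Agent.H70.HY

open Finset

theorem loadl_m_cast (q : GP) : (q.m : ℝ) = q.g - 2 * q.κ := by
  have h1 := q.hκ; have h2 := q.hg
  unfold GP.m
  rw [Nat.cast_sub (by omega)]; push_cast; ring

theorem loadl_g1_cast (q : GP) : (q.g1 : ℝ) = q.g - q.κ - 1 := by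
  have h1 := q.hκ; have h2 := q.hg
  unfold GP.g1
  rw [Nat.cast_sub (by omega), Nat.cast_sub (by omega)]; push_cast; ring

theorem loadl_t_cast (q : GP) : (q.t : ℝ) = q.g - q.κ - 2 := by
  have h1 := q.hκ; have h2 := q.hg
  unfold GP.t
  rw [Nat.cast_sub (by omega), Nat.cast_sub (by omega)]; push_cast; ring

/-- `a k` in closed form -/
theorem loadl_a_cast (q : GP) (k : ℕ) :
    (q.a k : ℝ) = q.t + q.g * k - (q.κ + 1) * (min k q.k1 : ℕ) := by
  unfold GP.a
  split_ifs with h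
  · rw [min_eq_left h]; push_cast; rw [loadl_g1_cast]; ring
  · push Not at h
    rw [min_eq_right h.le]; push_cast; rw [Nat.cast_sub h.le, loadl_g1_cast]; ring

theorem loadl_card_real (S : Finset ℕ) (A B : ℝ) (hAB : A ≤ B + 1)
    (h : ∀ i ∈ S, A ≤ (i : ℝ) ∧ (i : ℝ) < B) : (S.card : ℝ) ≤ B - A + 1 := by
  have h1 : S.image (fun i : ℕ => (i : ℤ)) ⊆ Finset.Ico ⌈A⌉ ⌈B⌉ := by
    intro z hz
    rw [Finset.mem_image] at hz
    obtain ⟨i, hi, rfl⟩ := hz
    obtain ⟨h1, h2⟩ := h i hi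
    rw [Finset.mem_Ico]
    exact ⟨Int.ceil_le.mpr (by exact_mod_cast h1), Int.lt_ceil.mpr (by exact_mod_cast h2)⟩
  have h2 := Finset.card_le_card h1
  rw [Finset.card_image_of_injective _ (fun a b hab => by exact_mod_cast hab), Int.card_Ico] at h2
  have h3 : (S.card : ℝ) ≤ ((⌈B⌉ - ⌈A⌉).toNat : ℝ) := by exact_mod_cast h2
  refine h3.trans ?_
  rcases le_total 0 (⌈B⌉ - ⌈A⌉) with h0 | h0
  · have h4 : (((⌈B⌉ - ⌈A⌉).toNat : ℤ) : ℝ) = ((⌈B⌉ - ⌈A⌉ : ℤ) : ℝ) := by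
      rw [Int.toNat_of_nonneg h0]
    have h5 : ((⌈B⌉ - ⌈A⌉).toNat : ℝ) = (⌈B⌉ : ℝ) - ⌈A⌉ := by
      rw [← Int.cast_natCast, h4]; push_cast; ring
    rw [h5]
    have h6 := Int.ceil_lt_add_one B
    have h7 := Int.le_ceil A
    linarith
  · rw [Int.toNat_of_nonpos h0]; push_cast; linarith

/-- mirror -/
theorem loadl_mir (q : GP) (j : ℕ) (hj : j < q.N) : j + q.mir j + 1 = q.N + q.t ∧ q.t ≤ q.mir j := by
  unfold GP.mir; omega

/-- the position of a high near-diagonal class -/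
theorem loadl_high_lt (q : GP) (i j : ℕ) (hj : j < q.N) (h : q.High i j) :
    (i : ℝ) < q.K - q.kk (q.mir j) + (q.κ + 1) * (min (q.kk (q.mir j)) q.k1 : ℕ) / q.g := by
  obtain ⟨hm, ht⟩ := loadl_mir q j hj
  have hk := ((HY.kk_iff q (q.mir j) (q.kk (q.mir j)) ht).mp rfl).1
  have hkR : (q.a (q.kk (q.mir j)) : ℝ) ≤ q.mir j := by exact_mod_cast hk
  rw [loadl_a_cast] at hkR
  have hm' : (j : ℝ) + q.mir j + 1 = q.N + q.t := by exact_mod_cast hm
  have hN : (q.N : ℝ) = q.N2 + q.P + q.g := by unfold GP.N; push_cast; ring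
  have hH : ((q.g * (i + 2) + q.g + q.P : ℕ) : ℝ) ≤ j := by
    exact_mod_cast h.1
  push_cast at hH
  have h2 : (q.N2 : ℝ) < q.g * (q.K + 2) := by exact_mod_cast q.N2_lt
  have hg : (0 : ℝ) < q.g := by
    have h1 := q.hκ; have h2 := q.hg
    have : 0 < q.g := by omega
    exact_mod_cast this
  have h3 : (q.g : ℝ) * i < q.g * (q.K - q.kk (q.mir j)) +
      (q.κ + 1) * (min (q.kk (q.mir j)) q.k1 : ℕ) := by nlinarith
  have h4 : (q.g : ℝ) * i < q.g * (q.K - q.kk (q.mir j) +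
      (q.κ + 1) * (min (q.kk (q.mir j)) q.k1 : ℕ) / q.g) := by
    rw [mul_add, mul_div_cancel₀ _ hg.ne']; exact h3
  exact lt_of_mul_lt_mul_left h4 hg.le

open Classical in
/-- number of near-diagonal classes -/
theorem loadl_near_card (q : GP) (j : ℕ) (hj : j < q.N) :
    (({i ∈ range q.K | q.High i j ∧ q.K < q.kk (q.mir j) + i + 2} : Finset ℕ).card : ℝ) ≤
      2 + (q.κ + 1) * (min (q.kk (q.mir j)) q.k1 : ℕ) / q.g := by
  have hx : (0 : ℝ) ≤ (q.κ + 1) * (min (q.kk (q.mir j)) q.k1 : ℕ) / q.g := by positivity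
  have h := loadl_card_real ({i ∈ range q.K | q.High i j ∧ q.K < q.kk (q.mir j) + i + 2})
    ((q.K : ℝ) - 1 - q.kk (q.mir j))
    ((q.K : ℝ) - q.kk (q.mir j) + (q.κ + 1) * (min (q.kk (q.mir j)) q.k1 : ℕ) / q.g)
    (by linarith) (by
      intro i hi
      rw [Finset.mem_filter] at hi
      refine ⟨?_, loadl_high_lt q i j hj hi.2.1⟩
      have h1 : ((q.K + 1 : ℕ) : ℝ) ≤ ((q.kk (q.mir j) + i + 2 : ℕ) : ℝ) := by
        exact_mod_cast hi.2.2
      push_cast at h1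
      linarith)
  linarith

theorem loadl_need01 (q : GP) (i j : ℕ) : 0 ≤ q.need i j ∧ q.need i j ≤ 1 := by
  by_cases h : q.Low i j ∨ q.High i j
  · obtain ⟨h1, h2⟩ := HY.need_bounds q i j h
    refine ⟨le_trans ?_ h1, h2⟩
    have : (1 : ℝ) ≤ q.κ := by
      have := q.hκ
      exact_mod_cast (by omega : 1 ≤ q.κ)
    have h3 : (0 : ℝ) ≤ (q.κ : ℝ) - 1 := by linarith
    positivity
  · unfold GP.need
    rw [if_neg h]; norm_num

theorem loadl_len_ge (q : GP) (k : ℕ) (h : q.k1 ≤ k) : q.len k = q.g := by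
  unfold GP.len; rw [if_neg (by omega)]

theorem loadl_len_lt (q : GP) (k : ℕ) (h : k < q.k1) : q.len k = q.g1 := by
  unfold GP.len; rw [if_pos h]

theorem loadl_gpos (q : GP) : (0 : ℝ) < q.g := by
  have h1 := q.hκ; have h2 := q.hg
  have : 0 < q.g := by omega
  exact_mod_cast this

theorem loadl_low_high (q : GP) (i j : ℕ) (h : q.High i j) : ¬ q.Low i j := by
  intro h'
  have h1 := h.1; have h2 := h'.2
  omega

/-- the need in a paired low block of phase 2 -/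
theorem loadl_need_low (q : GP) (i j : ℕ) (h : q.Low i j) (hk : q.k1 ≤ q.kk j) (hi : q.kk j ≤ i)
    (hs : 2 * i ≠ q.K - 1 + q.kk j) : q.need i j = 2 * q.κ / q.g := by
  have hP : q.LowP i j := ⟨h, hi, hs⟩
  unfold GP.need GP.w
  rw [if_pos (Or.inl h), if_pos hP, loadl_len_ge q _ hk, loadl_m_cast]
  have := loadl_gpos q
  field_simp
  ring

/-- the need in a paired high block -/
theorem loadl_need_high (q : GP) (i j : ℕ) (h : q.High i j) (hi : q.kk (q.mir j) + i + 2 ≤ q.K)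
    (hs : 2 * i + q.kk (q.mir j) + 2 ≠ q.K) :
    q.need i j = 1 - q.m / q.len (q.kk (q.mir j)) := by
  have hP : q.HighP i j := ⟨h, hi, hs⟩
  have hL : ¬ q.LowP i j := fun h' => loadl_low_high q i j h h'.1
  unfold GP.need GP.w
  rw [if_pos (Or.inr h), if_neg hL, if_pos hP]
  ring

theorem loadl_kk_ge (q : GP) (j : ℕ) (h : q.J0 ≤ j) : q.k1 ≤ q.kk j := by
  unfold GP.J0 at h
  unfold GP.kk
  rw [if_neg (by omega)]
  exact Nat.le_add_right _ _

theorem loadl_a_mono (q : GP) {k l : ℕ} (h : k ≤ l) : q.a k ≤ q.a l := by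
  have h1 := q.hκ; have h2 := q.hg
  have hR : (q.a k : ℝ) ≤ q.a l := by
    rw [loadl_a_cast, loadl_a_cast]
    have hg : (q.κ : ℝ) + 1 ≤ q.g := by
      have : q.κ + 1 ≤ q.g := by omega
      exact_mod_cast this
    have hkl : (k : ℝ) ≤ l := by exact_mod_cast h
    have h3 : ((min l q.k1 : ℕ) : ℝ) - (min k q.k1 : ℕ) ≤ (l : ℝ) - k := by
      have : min l q.k1 + k ≤ min k q.k1 + l := by omega
      have h4 : (((min l q.k1 + k : ℕ)) : ℝ) ≤ ((min k q.k1 + l : ℕ) : ℝ) := by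
        exact_mod_cast this
      push_cast at h4 ⊢
      linarith
    have h5 : (0 : ℝ) ≤ ((min l q.k1 : ℕ) : ℝ) - (min k q.k1 : ℕ) := by
      have : min k q.k1 ≤ min l q.k1 := by omega
      have h4 : ((min k q.k1 : ℕ) : ℝ) ≤ ((min l q.k1 : ℕ) : ℝ) := by exact_mod_cast this
      linarith
    have h6 : (0 : ℝ) ≤ (q.κ : ℝ) + 1 := by positivity
    nlinarith
  exact_mod_cast hR

/-- in the last blocks the mirrored sum class is of phase 1 -/
theorem loadl_kk_mir_lt (q : GP) (j : ℕ) (hj : j < q.N) (h : q.J1 ≤ j) :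
    q.kk (q.mir j) < q.k1 := by
  obtain ⟨hm, ht⟩ := loadl_mir q j hj
  have hk := ((HY.kk_iff q (q.mir j) (q.kk (q.mir j)) ht).mp rfl).1
  obtain ⟨h1, h2, h3, h4, h5, h6⟩ := HY.J0_lt q
  unfold GP.J1 at h h3
  unfold GP.J0 at h1 h2 h3
  by_contra hc
  push Not at hc
  have := loadl_a_mono q hc
  omega

theorem loadl_kk_mir_ge (q : GP) (j : ℕ) (hj : j < q.N) (h : j < q.J1) :
    q.k1 ≤ q.kk (q.mir j) := by
  obtain ⟨hm, ht⟩ := loadl_mir q j hj
  apply loadl_kk_ge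
  obtain ⟨h1, h2, h3, h4, h5, h6⟩ := HY.J0_lt q
  unfold GP.J1 at h h3
  unfold GP.J0 at h1 h2 h3 ⊢
  omega

theorem loadl_m_le (q : GP) : (q.m : ℝ) ≤ q.g := by
  have : q.m ≤ q.g := by unfold GP.m; omega
  exact_mod_cast this

theorem loadl_Xle (q : GP) (i : ℕ) (hi : i < q.K) : q.X i ≤ q.N2 := by
  have h := q.N2_ge
  unfold GP.X
  have : q.g * (i + 2) ≤ q.g * (q.K + 1) := Nat.mul_le_mul_left _ (by omega)
  omega

/-- the class bound in the last blocks -/
theorem loadl_classA (q : GP) (i j : ℕ) (hi : i < q.K) (hj : j < q.N) (h : q.J1 ≤ j) [Decidable (q.High i j ∧ q.K < q.kk (q.mir j) + i + 2)] :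
    (q.m : ℝ) * q.FL i j ≤
      (if q.High i j ∧ q.K < q.kk (q.mir j) + i + 2 then (q.g : ℝ) else 0) +
      (if 2 * i + q.kk (q.mir j) + 2 = q.K then (q.g : ℝ) else 0) +
      (if q.kk (q.mir j) + i + 2 ≤ q.K then (q.κ : ℝ) - 1 else 0) := by
  have hg := loadl_gpos q
  have hm := loadl_m_le q
  have hm0 : (0 : ℝ) ≤ q.m := by positivity
  have hκ1 : (1 : ℝ) ≤ q.κ := by
    have := q.hκ
    exact_mod_cast (by omega : 1 ≤ q.κ)
  obtain ⟨h1, h2, h3, h4, h5, h6⟩ := HY.J0_lt q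
  have hX := loadl_Xle q i hi
  have hnl : ¬ q.Low i j := by
    intro hl
    have := hl.2
    omega
  have hk := loadl_kk_mir_lt q j hj h
  have a1 : (0 : ℝ) ≤ (if q.High i j ∧ q.K < q.kk (q.mir j) + i + 2 then (q.g : ℝ) else 0) := by
    split_ifs <;> positivity
  have a2 : (0 : ℝ) ≤ (if 2 * i + q.kk (q.mir j) + 2 = q.K then (q.g : ℝ) else 0) := by
    split_ifs <;> positivity
  have a3 : (0 : ℝ) ≤ (if q.kk (q.mir j) + i + 2 ≤ q.K then (q.κ : ℝ) - 1 else 0) := by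
    split_ifs
    · linarith
    · exact le_refl _
  have hn := loadl_need01 q i j
  by_cases hh : q.High i j
  · have hO : q.OnlyL i j := ⟨hh, Or.inl h⟩
    have hFL : q.FL i j = q.need i j := by unfold GP.FL; rw [if_pos hO]
    rw [hFL]
    have hmn : (q.m : ℝ) * q.need i j ≤ q.g := by nlinarith [hn.1, hn.2]
    by_cases hc : q.kk (q.mir j) + i + 2 ≤ q.K
    · by_cases hs : 2 * i + q.kk (q.mir j) + 2 = q.K
      · rw [if_pos hs] at a2 ⊢
        linarith
      · rw [if_pos hc] at a3 ⊢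
        rw [loadl_need_high q i j hh hc hs, loadl_len_lt q _ hk]
        have hg1 : (0 : ℝ) < q.g1 := by
          rw [loadl_g1_cast]
          have b1 := q.hκ; have b2 := q.hg
          have : q.κ + 1 < q.g := by omega
          have : (q.κ : ℝ) + 1 < q.g := by exact_mod_cast this
          linarith
        have hmg : (q.m : ℝ) ≤ q.g1 := by
          rw [loadl_g1_cast, loadl_m_cast]; linarith
        have e1 : (1 : ℝ) - q.m / q.g1 = (q.κ - 1) / q.g1 := by
          rw [eq_div_iff hg1.ne', sub_mul, div_mul_cancel₀ _ hg1.ne', loadl_g1_cast, loadl_m_cast]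
          ring
        have e2 : (q.m : ℝ) * (1 - q.m / q.g1) ≤ q.κ - 1 := by
          rw [e1, ← mul_div_assoc, div_le_iff₀ hg1]
          nlinarith
        linarith
    · rw [if_pos ⟨hh, by omega⟩] at a1 ⊢
      linarith
  · have hO : ¬ q.OnlyL i j := fun h' => hh h'.1
    have hJ : ¬ q.Joint i j := by
      rintro (h' | h')
      · exact hnl h'.1
      · exact hh h'.1
    have hFL : q.FL i j = 0 := by unfold GP.FL; rw [if_neg hO, if_neg hJ]
    rw [hFL, mul_zero]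
    linarith

theorem loadl_share_low (q : GP) (e : ℝ) (hs : q.Small e) (i : ℕ) (hi : i < q.K) (h : q.k1 ≤ i) :
    2 * q.sg i ≤ 1 + (if q.K - 1 - i < q.k1 then (q.k1 : ℝ) / (q.K - q.k1) else 0) +
      4 * q.g / (q.κ * (q.K - 2 * q.k1)) := by
  have hL := HY.L_share q e hs i hi
  have h1 : min q.k1 (i + 1) = q.k1 := by omega
  rw [h1] at hL
  have hK : (2 : ℝ) * q.k1 + 4 ≤ q.K := by exact_mod_cast q.hk2
  refine hL.trans ?_
  gcongr
  split_ifs with hc
  · have h2 : min q.k1 (q.K - 1 - i) = q.K - 1 - i := by omega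
    rw [h2]
    set y : ℝ := ((q.K - 1 - i : ℕ) : ℝ) with hy
    have hy0 : 0 ≤ y := by positivity
    have hyk : y ≤ q.k1 := by rw [hy]; exact_mod_cast (by omega : q.K - 1 - i ≤ q.k1)
    have d1 : (0 : ℝ) < q.K - q.k1 - y := by linarith
    have d2 : (0 : ℝ) < (q.K : ℝ) - q.k1 := by linarith
    rw [div_le_iff₀ d1, add_mul, div_mul_eq_mul_div, ← sub_le_iff_le_add', le_div_iff₀ d2]
    nlinarith
  · have h2 : min q.k1 (q.K - 1 - i) = q.k1 := by omega
    rw [h2]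
    have d1 : (0 : ℝ) < q.K - q.k1 - q.k1 := by linarith
    rw [div_le_iff₀ d1]
    linarith

theorem loadl_share_high (q : GP) (e : ℝ) (hs : q.Small e) (i : ℕ) (hi : i < q.K)
    (h : q.k1 + i + 2 ≤ q.K) :
    2 * q.sg i ≤ 1 - ((q.k1 - 1 - i : ℕ) : ℝ) / (q.K - q.k1) +
      4 * q.g / (q.κ * (q.K - 2 * q.k1)) := by
  have hL := HY.L_share q e hs i hi
  have h1 : min q.k1 (q.K - 1 - i) = q.k1 := by omega
  rw [h1] at hL
  have hK : (2 : ℝ) * q.k1 + 4 ≤ q.K := by exact_mod_cast q.hk2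
  refine hL.trans ?_
  gcongr
  by_cases hc : i + 1 < q.k1
  · have h2 : min q.k1 (i + 1) = i + 1 := by omega
    have h3 : ((q.k1 - 1 - i : ℕ) : ℝ) = (q.k1 : ℝ) - (i + 1 : ℕ) := by
      have : q.k1 - 1 - i = q.k1 - (i + 1) := by omega
      rw [this, Nat.cast_sub (by omega)]
    rw [h2, h3]
    set y : ℝ := ((i + 1 : ℕ) : ℝ) with hy
    have hy0 : 0 ≤ y := by positivity
    have hyk : y ≤ q.k1 := by rw [hy]; exact_mod_cast (by omega : i + 1 ≤ q.k1)
    have d1 : (0 : ℝ) < (q.K : ℝ) - y - q.k1 := by linarith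
    have d2 : (0 : ℝ) < (q.K : ℝ) - q.k1 := by linarith
    rw [div_le_iff₀ d1, sub_mul, div_mul_eq_mul_div, le_sub_iff_add_le, ← le_sub_iff_add_le',
      div_le_iff₀ d2]
    nlinarith
  · have h2 : min q.k1 (i + 1) = q.k1 := by omega
    have h3 : q.k1 - 1 - i = 0 := by omega
    rw [h2, h3]
    have d1 : (0 : ℝ) < q.K - q.k1 - q.k1 := by linarith
    rw [div_le_iff₀ d1]
    push_cast
    simp only [zero_div, sub_zero, one_mul]
    linarith

/-- the class bound in the middle blocks -/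
theorem loadl_classB (q : GP) (e : ℝ) (hs : q.Small e) (i j : ℕ) (hi : i < q.K) (hj : j < q.N)
    (h0 : q.J0 ≤ j) (h : j < q.J1) [Decidable (q.High i j ∧ q.K < q.kk (q.mir j) + i + 2)] :
    (q.m : ℝ) * q.FL i j ≤
      (if q.High i j ∧ q.K < q.kk (q.mir j) + i + 2 then (q.g : ℝ) else 0) +
      (if 2 * i = q.K - 1 + q.kk j then (q.g : ℝ) else 0) +
      (if 2 * i + q.kk (q.mir j) + 2 = q.K then (q.g : ℝ) else 0) +
      (if q.kk j ≤ i then (q.κ : ℝ) * (1 + (if q.K - 1 - i < q.k1 then (q.k1 : ℝ) / (q.K - q.k1) else 0) +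
        4 * q.g / (q.κ * (q.K - 2 * q.k1))) else 0) +
      (if q.kk (q.mir j) + i + 2 ≤ q.K then (q.κ : ℝ) * (1 - ((q.k1 - 1 - i : ℕ) : ℝ) / (q.K - q.k1) +
      4 * q.g / (q.κ * (q.K - 2 * q.k1))) else 0) := by
  have hg := loadl_gpos q
  have hm := loadl_m_le q
  have hm0 : (0 : ℝ) ≤ q.m := by positivity
  have hκ1 : (1 : ℝ) ≤ q.κ := by
    have := q.hκ
    exact_mod_cast (by omega : 1 ≤ q.κ)
  have hK : (2 : ℝ) * q.k1 + 4 ≤ q.K := by exact_mod_cast q.hk2
  have hk10 : (0 : ℝ) ≤ q.k1 := by positivity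
  have hk := loadl_kk_ge q j h0
  have hk' := loadl_kk_mir_ge q j hj h
  have a1 : (0 : ℝ) ≤ (if q.High i j ∧ q.K < q.kk (q.mir j) + i + 2 then (q.g : ℝ) else 0) := by
    split_ifs <;> positivity
  have a2 : (0 : ℝ) ≤ (if 2 * i + q.kk (q.mir j) + 2 = q.K then (q.g : ℝ) else 0) := by
    split_ifs <;> positivity
  have a3 : (0 : ℝ) ≤ (if 2 * i = q.K - 1 + q.kk j then (q.g : ℝ) else 0) := by
    split_ifs <;> positivity
  have d2 : (0 : ℝ) < (q.K : ℝ) - q.k1 := by linarith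
  have d3 : (0 : ℝ) < (q.K : ℝ) - 2 * q.k1 := by linarith
  have hε : (0 : ℝ) ≤ 4 * q.g / (q.κ * (q.K - 2 * q.k1)) := by positivity
  have a4 : (0 : ℝ) ≤ (if q.kk j ≤ i then (q.κ : ℝ) * (1 + (if q.K - 1 - i < q.k1 then (q.k1 : ℝ) / (q.K - q.k1) else 0) +
        4 * q.g / (q.κ * (q.K - 2 * q.k1))) else 0) := by
    split_ifs <;> positivity
  have a5' : (0 : ℝ) ≤ (1 - ((q.k1 - 1 - i : ℕ) : ℝ) / (q.K - q.k1) +
      4 * q.g / (q.κ * (q.K - 2 * q.k1))) := by
    have : ((q.k1 - 1 - i : ℕ) : ℝ) / (q.K - q.k1) ≤ 1 := by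
      rw [div_le_one d2]
      have : ((q.k1 - 1 - i : ℕ) : ℝ) ≤ q.k1 := by exact_mod_cast (by omega : q.k1 - 1 - i ≤ q.k1)
      linarith
    linarith
  have a5 : (0 : ℝ) ≤ (if q.kk (q.mir j) + i + 2 ≤ q.K then (q.κ : ℝ) * (1 - ((q.k1 - 1 - i : ℕ) : ℝ) / (q.K - q.k1) +
      4 * q.g / (q.κ * (q.K - 2 * q.k1))) else 0) := by
    split_ifs
    · positivity
    · exact le_refl _
  have hn := loadl_need01 q i j
  have hsg := HY.sg_bounds q e hs i hi
  have he := hs.e_pos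
  have hsg0 : 0 ≤ q.sg i := by linarith
  have hsg1 : q.sg i ≤ 1 := by linarith
  have hmn : (q.m : ℝ) * q.need i j ≤ q.g := by nlinarith [hn.1, hn.2]
  have hmn0 : 0 ≤ (q.m : ℝ) * q.need i j := by nlinarith [hn.1, hn.2]
  have hmsn : (q.m : ℝ) * (q.sg i * q.need i j) ≤ q.g := by
    have : (q.m : ℝ) * (q.sg i * q.need i j) = q.sg i * (q.m * q.need i j) := by ring
    rw [this]; nlinarith
  by_cases hO : q.OnlyL i j
  · have hFL : q.FL i j = q.need i j := by unfold GP.FL; rw [if_pos hO]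
    rw [hFL]
    obtain ⟨hh, hc⟩ := hO
    have hc' : q.K < q.kk (q.mir j) + i + 2 := by
      rcases hc with hc | hc
      · omega
      · exact hc
    rw [if_pos ⟨hh, hc'⟩] at a1 ⊢
    linarith
  · by_cases hJ : q.Joint i j
    · have hFL : q.FL i j = q.sg i * q.need i j := by unfold GP.FL; rw [if_neg hO, if_pos hJ]
      rw [hFL]
      rcases hJ with ⟨hl, -, hki⟩ | ⟨hh, -, hki⟩
      · by_cases hse : 2 * i = q.K - 1 + q.kk j
        · rw [if_pos hse] at a3 ⊢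
          linarith
        · rw [if_pos hki] at a4 ⊢
          have hsh := loadl_share_low q e hs i hi (by omega)
          rw [loadl_need_low q i j hl hk hki hse]
          have e1 : (q.m : ℝ) * (q.sg i * (2 * q.κ / q.g)) = (q.m / q.g) * (q.κ * (2 * q.sg i)) := by
            field_simp
          have e2 : (q.m : ℝ) / q.g ≤ 1 := by rw [div_le_one hg]; exact hm
          have e3 : (q.κ : ℝ) * (2 * q.sg i) ≤ q.κ * (1 + (if q.K - 1 - i < q.k1 then (q.k1 : ℝ) / (q.K - q.k1) else 0) +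
            4 * q.g / (q.κ * (q.K - 2 * q.k1))) := by gcongr
          have e4 : 0 ≤ (q.κ : ℝ) * (2 * q.sg i) := by positivity
          rw [e1]
          have e5 : (q.m / q.g : ℝ) * (q.κ * (2 * q.sg i)) ≤ q.κ * (2 * q.sg i) := by nlinarith
          linarith
      · by_cases hse : 2 * i + q.kk (q.mir j) + 2 = q.K
        · rw [if_pos hse] at a2 ⊢
          linarith
        · rw [if_pos hki] at a5 ⊢
          have hsh := loadl_share_high q e hs i hi (by omega)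
          rw [loadl_need_high q i j hh hki hse, loadl_len_ge q _ hk']
          have e0 : (1 : ℝ) - q.m / q.g = 2 * q.κ / q.g := by
            rw [eq_div_iff hg.ne', sub_mul, div_mul_cancel₀ _ hg.ne', loadl_m_cast]; ring
          rw [e0]
          have e1 : (q.m : ℝ) * (q.sg i * (2 * q.κ / q.g)) = (q.m / q.g) * (q.κ * (2 * q.sg i)) := by
            field_simp
          have e2 : (q.m : ℝ) / q.g ≤ 1 := by rw [div_le_one hg]; exact hm
          have e3 : (q.κ : ℝ) * (2 * q.sg i) ≤ q.κ * (1 - ((q.k1 - 1 - i : ℕ) : ℝ) / (q.K - q.k1) +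
            4 * q.g / (q.κ * (q.K - 2 * q.k1))) := by gcongr
          have e4 : 0 ≤ (q.κ : ℝ) * (2 * q.sg i) := by positivity
          rw [e1]
          have e5 : (q.m / q.g : ℝ) * (q.κ * (2 * q.sg i)) ≤ q.κ * (2 * q.sg i) := by nlinarith
          linarith
    · have hFL : q.FL i j = 0 := by unfold GP.FL; rw [if_neg hO, if_neg hJ]
      rw [hFL, mul_zero]
      linarith

theorem loadl_sum_ite (s : Finset ℕ) (p : ℕ → Prop) [DecidablePred p] (G : ℝ) :
    ∑ i ∈ s, (if p i then G else 0) = (({i ∈ s | p i} : Finset ℕ).card : ℝ) * G := by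
  rw [← Finset.sum_filter, Finset.sum_const, nsmul_eq_mul]

theorem loadl_sum_self (s : Finset ℕ) (p : ℕ → Prop) [DecidablePred p] (G : ℝ) (hG : 0 ≤ G)
    (hp : ∀ i i', p i → p i' → i = i') : ∑ i ∈ s, (if p i then G else 0) ≤ G := by
  rw [loadl_sum_ite]
  have h : ({i ∈ s | p i} : Finset ℕ).card ≤ 1 := by
    rw [Finset.card_le_one]
    intro a ha b hb
    rw [Finset.mem_filter] at ha hb
    exact hp a b ha.2 hb.2
  have h' : (({i ∈ s | p i} : Finset ℕ).card : ℝ) ≤ 1 := by exact_mod_cast h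
  nlinarith

theorem loadl_sum_low (K k k1 : ℕ) (c ρ ε : ℝ) (hc : 0 ≤ c) (hρ : 0 ≤ ρ) :
    ∑ i ∈ range K, (if k ≤ i then c * (1 + (if K - 1 - i < k1 then ρ else 0) + ε) else 0) ≤
      c * (1 + ε) * (K - k : ℕ) + c * (if k < K then k1 * ρ else 0) := by
  have e : ∀ i, (if k ≤ i then c * (1 + (if K - 1 - i < k1 then ρ else 0) + ε) else 0) =
      (if k ≤ i then c * (1 + ε) else 0) + (if k ≤ i ∧ K - 1 - i < k1 then c * ρ else 0) := by
    intro i
    by_cases h1 : k ≤ i <;> by_cases h2 : K - 1 - i < k1 <;> simp [h1, h2]; ring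
  rw [Finset.sum_congr rfl (fun i _ => e i), Finset.sum_add_distrib, loadl_sum_ite, loadl_sum_ite]
  have h1 : ({i ∈ range K | k ≤ i} : Finset ℕ) = Finset.Ico k K := by
    ext i; simp only [Finset.mem_filter, Finset.mem_range, Finset.mem_Ico]; omega
  rw [h1, Nat.card_Ico]
  have h2 : (({i ∈ range K | k ≤ i ∧ K - 1 - i < k1} : Finset ℕ).card : ℝ) * (c * ρ) ≤
      c * (if k < K then k1 * ρ else 0) := by
    split_ifs with hk
    · have h3 : ({i ∈ range K | k ≤ i ∧ K - 1 - i < k1} : Finset ℕ) ⊆ Finset.Ico (K - k1) K := by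
        intro i hi
        simp only [Finset.mem_filter, Finset.mem_range, Finset.mem_Ico] at hi ⊢
        omega
      have h4 := Finset.card_le_card h3
      rw [Nat.card_Ico] at h4
      have h5 : (({i ∈ range K | k ≤ i ∧ K - 1 - i < k1} : Finset ℕ).card : ℝ) ≤ k1 := by
        exact_mod_cast (h4.trans (by omega))
      have h6 : 0 ≤ c * ρ := by positivity
      nlinarith
    · have h3 : ({i ∈ range K | k ≤ i ∧ K - 1 - i < k1} : Finset ℕ) = ∅ := by
        rw [Finset.filter_eq_empty_iff]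
        intro i hi
        rw [Finset.mem_range] at hi
        omega
      rw [h3]; simp
  linarith

theorem loadl_sum_high (K k k1 : ℕ) (c D ε : ℝ) :
    ∑ i ∈ range K, (if k + i + 2 ≤ K then c * (1 - ((k1 - 1 - i : ℕ) : ℝ) / D + ε) else 0) =
      c * (1 + ε) * (K - 1 - k : ℕ) -
        c / D * ∑ i ∈ range (K - 1 - k), ((k1 - 1 - i : ℕ) : ℝ) := by
  have h1 : ({i ∈ range K | k + i + 2 ≤ K} : Finset ℕ) = Finset.range (K - 1 - k) := by
    ext i; simp only [Finset.mem_filter, Finset.mem_range]; omega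
  rw [← Finset.sum_filter, h1]
  have e : ∀ i, c * (1 - ((k1 - 1 - i : ℕ) : ℝ) / D + ε) =
      c * (1 + ε) - c / D * ((k1 - 1 - i : ℕ) : ℝ) := by
    intro i; ring
  rw [Finset.sum_congr rfl (fun i _ => e i), Finset.sum_sub_distrib, Finset.sum_const,
    Finset.card_range, nsmul_eq_mul, ← Finset.mul_sum]
  ring

theorem loadl_gauss (n k1 : ℕ) (h : k1 ≤ n) :
    ((k1 : ℝ) * (k1 - 1)) / 2 ≤ ∑ i ∈ range n, ((k1 - 1 - i : ℕ) : ℝ) := by
  have h1 : ∑ i ∈ range k1, ((k1 - 1 - i : ℕ) : ℝ) ≤ ∑ i ∈ range n, ((k1 - 1 - i : ℕ) : ℝ) :=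
    Finset.sum_le_sum_of_subset_of_nonneg (Finset.range_subset_range.mpr h)
      (fun i _ _ => by positivity)
  refine le_trans (le_of_eq ?_) h1
  rw [Finset.sum_range_reflect (fun i => ((i : ℕ) : ℝ)) k1]
  clear h h1
  induction k1 with
  | zero => simp
  | succ k ih => rw [Finset.sum_range_succ, ← ih]; push_cast; ring

/-- the sum of the class bounds in the last blocks -/
theorem loadl_A (q : GP) (e : ℝ) (hs : q.Small e) (j : ℕ) (hj : j < q.N) (h : q.J1 ≤ j) :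
    ∑ i ∈ range q.K, (q.m : ℝ) * q.FL i j ≤ (q.κ : ℝ) * q.K - e * q.K / 2 := by
  classical
  have hg := loadl_gpos q
  have hκ1 : (1 : ℝ) ≤ q.κ := by
    have := q.hκ
    exact_mod_cast (by omega : 1 ≤ q.κ)
  have hk := loadl_kk_mir_lt q j hj h
  have hn := loadl_near_card q j hj
  have hmin : min (q.kk (q.mir j)) q.k1 = q.kk (q.mir j) := by omega
  rw [hmin] at hn
  have h1 := Finset.sum_le_sum (fun i (hi : i ∈ range q.K) =>
    loadl_classA q i j (Finset.mem_range.mp hi) hj h)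
  rw [Finset.sum_add_distrib, Finset.sum_add_distrib] at h1
  have s1 : ∑ i ∈ range q.K, (if q.High i j ∧ q.K < q.kk (q.mir j) + i + 2 then (q.g : ℝ) else 0) ≤
      2 * q.g + (q.κ + 1) * q.kk (q.mir j) := by
    rw [loadl_sum_ite]
    have h2 := mul_le_mul_of_nonneg_right hn hg.le
    have h3 : (2 + ((q.κ : ℝ) + 1) * q.kk (q.mir j) / q.g) * q.g =
        2 * q.g + (q.κ + 1) * q.kk (q.mir j) := by
      field_simp
    rw [h3] at h2
    exact h2
  have s2 : ∑ i ∈ range q.K, (if 2 * i + q.kk (q.mir j) + 2 = q.K then (q.g : ℝ) else 0) ≤ q.g :=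
    loadl_sum_self _ _ _ hg.le (fun i i' h1 h2 => by omega)
  have s3 : ∑ i ∈ range q.K, (if q.kk (q.mir j) + i + 2 ≤ q.K then (q.κ : ℝ) - 1 else 0) ≤
      (q.K - q.kk (q.mir j)) * (q.κ - 1) := by
    rw [loadl_sum_ite]
    have h2 : ({i ∈ range q.K | q.kk (q.mir j) + i + 2 ≤ q.K} : Finset ℕ) ⊆
        Finset.range (q.K - q.kk (q.mir j)) := by
      intro i hi
      simp only [Finset.mem_filter, Finset.mem_range] at hi ⊢
      omega
    have h3 := Finset.card_le_card h2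
    rw [Finset.card_range] at h3
    have hle : q.kk (q.mir j) ≤ q.K := by have := q.hk2; omega
    have h4 : ((({i ∈ range q.K | q.kk (q.mir j) + i + 2 ≤ q.K} : Finset ℕ).card : ℕ) : ℝ) ≤
        q.K - q.kk (q.mir j) := by
      rw [← Nat.cast_sub hle]; exact_mod_cast h3
    nlinarith
  have hk' : (q.kk (q.mir j) : ℝ) ≤ q.k1 := by exact_mod_cast hk.le
  have h3 := hs.k1_le
  have h4 := hs.K_ge
  have h5 := hs.e_pos
  have h6 := hs.e_le
  have hK0 : (0 : ℝ) ≤ q.K := by positivity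
  have h7 : e ^ 3 * q.K ≤ e * q.K := by
    have h8 : e ^ 2 ≤ 1 / 4 * e := by nlinarith
    have h9 : e ^ 3 = e * e ^ 2 := by ring
    have : e ^ 3 ≤ e := by nlinarith
    nlinarith
  nlinarith

/-- common numeric facts -/
theorem loadl_facts (κ g K k1 e : ℝ) (he : 0 < e) (he4 : e ≤ 1 / 4) (hg : 0 < g) (hκ : 8 ≤ κ)
    (hk1 : e * K ≤ k1) (hk2 : 2 * k1 ≤ (1 - e) * K) (h16 : 16 ≤ e * κ)
    (hgκ : 200 * κ ^ 2 ≤ e * g) (hKg : 1000 * g ≤ e ^ 3 * K) :
    0 < K ∧ 0 < k1 ∧ 4 * g ≤ k1 / 100 ∧ 8 * g / e ≤ k1 / 100 ∧ 15 * κ ≤ k1 / 100 ∧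
      κ * (4 * κ * K / g) ≤ k1 / 10 ∧ κ * ((κ + 1) * k1 / g) ≤ k1 / 10 ∧
      κ * (k1 * (k1 / (K - k1))) ≤ κ * k1 - 25 * k1 ∧ 8 * e * K ≤ 8 * k1 := by
  have he2 : e ^ 2 ≤ 1 / 4 * e := by nlinarith
  have he3 : e ^ 3 = e * e ^ 2 := by ring
  have hK : 0 < K := by
    by_contra hc
    push Not at hc
    have : 0 < e ^ 3 := by positivity
    nlinarith
  have hk : 0 < k1 := lt_of_lt_of_le (by positivity) hk1
  have hK3 : e ^ 3 * K ≤ e ^ 2 * k1 := by
    have : e ^ 3 * K = e ^ 2 * (e * K) := by ring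
    rw [this]; gcongr
  have he2' : e ^ 2 ≤ 1 / 16 := by nlinarith
  have c1 : 4 * g ≤ k1 / 100 := by nlinarith
  have c2 : 8 * g / e ≤ k1 / 100 := by
    rw [div_le_iff₀ he]
    nlinarith
  have c3 : 15 * κ ≤ k1 / 100 := by nlinarith
  have c4 : κ * (4 * κ * K / g) ≤ k1 / 10 := by
    rw [← mul_div_assoc, div_le_iff₀ hg]
    have : κ * (4 * κ * K) = (200 * κ ^ 2) * K / 50 := by ring
    rw [this]
    have h1 : (200 * κ ^ 2) * K ≤ (e * g) * K := by gcongr
    have h2 : (e * g) * K = g * (e * K) := by ring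
    have h3 : g * (e * K) ≤ g * k1 := by gcongr
    nlinarith
  have c5 : κ * ((κ + 1) * k1 / g) ≤ k1 / 10 := by
    rw [← mul_div_assoc, div_le_iff₀ hg]
    have h1 : κ * (κ + 1) ≤ 2 * κ ^ 2 := by nlinarith
    have h2 : κ * (κ + 1) ≤ g / 10 := by nlinarith
    have h3 : κ * ((κ + 1) * k1) = (κ * (κ + 1)) * k1 := by ring
    rw [h3]
    have h4 : (κ * (κ + 1)) * k1 ≤ (g / 10) * k1 := by gcongr
    linarith
  have c6 : κ * (k1 * (k1 / (K - k1))) ≤ κ * k1 - 25 * k1 := by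
    have hD : 0 < K - k1 := by nlinarith
    have h1 : κ * (k1 * (k1 / (K - k1))) = κ * k1 * k1 / (K - k1) := by field_simp
    rw [h1, div_le_iff₀ hD]
    have h2 : 25 * (K - k1) ≤ κ * (K - 2 * k1) := by
      have h3 : e * K ≤ K - 2 * k1 := by linarith
      have h4 : κ * (e * K) ≤ κ * (K - 2 * k1) := by gcongr
      have h5 : κ * (e * K) = (e * κ) * K := by ring
      have h6 : K - k1 ≤ K := by linarith
      -- `K - k1 = (K - 2 k1)/2 + K/2`
      nlinarith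
    nlinarith
  exact ⟨hK, hk, c1, c2, c3, c4, c5, c6, by linarith⟩

/-- the sum classes of a middle block and of its mirror image -/
theorem loadl_kk_sum (q : GP) (j : ℕ) (hj : j < q.N) (h0 : q.J0 ≤ j) (h : j < q.J1) :
    (q.K : ℝ) - 1 + 2 * q.k1 - 4 * q.κ * q.K / q.g - 14 ≤ q.kk j + q.kk (q.mir j) := by
  have hk := loadl_kk_ge q j h0
  have hk' := loadl_kk_mir_ge q j hj h
  obtain ⟨hm, ht⟩ := loadl_mir q j hj
  obtain ⟨hb1, hb2, hb3, hb4, hb5, hb6⟩ := HY.J0_lt q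
  have e1 := ((HY.kk_iff q (q.mir j) (q.kk (q.mir j)) ht).mp rfl).2
  have e2 := ((HY.kk_iff q j (q.kk j) (by omega)).mp rfl).2
  have e3 : q.N + q.t + 1 ≤ q.a (q.kk j + 1) + q.a (q.kk (q.mir j) + 1) := by omega
  have e4 : ((q.N + q.t + 1 : ℕ) : ℝ) ≤
      ((q.a (q.kk j + 1) + q.a (q.kk (q.mir j) + 1) : ℕ) : ℝ) := by exact_mod_cast e3
  have m1 : min (q.kk j + 1) q.k1 = q.k1 := by omega
  have m2 : min (q.kk (q.mir j) + 1) q.k1 = q.k1 := by omega
  push_cast at e4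
  rw [loadl_a_cast, loadl_a_cast, m1, m2, loadl_t_cast] at e4
  push_cast at e4
  have hN : (q.N : ℝ) = q.N2 + q.P + q.g := by unfold GP.N; push_cast; ring
  have hN2 : (q.g : ℝ) * (q.K + 1) ≤ q.N2 := by exact_mod_cast q.N2_ge
  have hP := q.P_ge
  have hhp := q.hp_le
  have hg := loadl_gpos q
  have key : (q.g : ℝ) * (q.K - 1 + 2 * q.k1 - 14) - 4 * q.κ * q.K ≤
      q.g * (q.kk j + q.kk (q.mir j)) := by
    nlinarith
  have e5 : (q.g : ℝ) * (q.K - 1 + 2 * q.k1 - 4 * q.κ * q.K / q.g - 14) =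
      (q.g : ℝ) * (q.K - 1 + 2 * q.k1 - 14) - 4 * q.κ * q.K := by
    field_simp
    ring
  have e6 : (q.g : ℝ) * (q.K - 1 + 2 * q.k1 - 4 * q.κ * q.K / q.g - 14) ≤
      q.g * (q.kk j + q.kk (q.mir j)) := by rw [e5]; exact key
  exact le_of_mul_le_mul_left e6 hg

/-- the sum of the class bounds in the middle blocks -/
theorem loadl_B0 (q : GP) (e : ℝ) (hs : q.Small e) (j : ℕ) (hj : j < q.N) (h0 : q.J0 ≤ j)
    (h : j < q.J1) :
    ∃ nd : ℕ, (nd : ℝ) * q.g ≤ 2 * q.g + (q.κ + 1) * q.k1 ∧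
      (0 < nd → (q.kk (q.mir j) : ℝ) ≤ q.K + (q.κ + 1) * q.k1 / q.g) ∧
      ∑ i ∈ range q.K, (q.m : ℝ) * q.FL i j ≤
        nd * q.g + 2 * q.g + 8 * q.g / e +
        q.κ * ((q.K - q.kk j : ℕ) + (q.K - 1 - q.kk (q.mir j) : ℕ)) +
        q.κ * (if q.kk j < q.K then q.k1 * ((q.k1 : ℝ) / (q.K - q.k1)) else 0) -
        q.κ / (q.K - q.k1) * ∑ i ∈ range (q.K - 1 - q.kk (q.mir j)), ((q.k1 - 1 - i : ℕ) : ℝ) := by
  classical
  have hg := loadl_gpos q
  have hκ1 : (1 : ℝ) ≤ q.κ := by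
    have := q.hκ
    exact_mod_cast (by omega : 1 ≤ q.κ)
  have hk := loadl_kk_ge q j h0
  have hk' := loadl_kk_mir_ge q j hj h
  have hmin : min (q.kk (q.mir j)) q.k1 = q.k1 := by omega
  have hn := loadl_near_card q j hj
  rw [hmin] at hn
  have hK : (2 : ℝ) * q.k1 + 4 ≤ q.K := by exact_mod_cast q.hk2
  have hk10 : (0 : ℝ) ≤ q.k1 := by positivity
  have d2 : (0 : ℝ) < (q.K : ℝ) - q.k1 := by linarith
  have d3 : (0 : ℝ) < (q.K : ℝ) - 2 * q.k1 := by linarith
  have he := hs.e_pos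
  have hk2 := hs.k1_le
  have hε : (0 : ℝ) ≤ 4 * q.g / (q.κ * (q.K - 2 * q.k1)) := by positivity
  have hρ : (0 : ℝ) ≤ (q.k1 : ℝ) / (q.K - q.k1) := by positivity
  refine ⟨({i ∈ range q.K | q.High i j ∧ q.K < q.kk (q.mir j) + i + 2} : Finset ℕ).card, ?_, ?_, ?_⟩
  · have h2 := mul_le_mul_of_nonneg_right hn hg.le
    have h3 : (2 + ((q.κ : ℝ) + 1) * q.k1 / q.g) * q.g = 2 * q.g + (q.κ + 1) * q.k1 := by
      field_simp
    rw [h3] at h2
    exact h2
  · intro hpos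
    obtain ⟨i, hi⟩ := Finset.card_pos.mp hpos
    rw [Finset.mem_filter] at hi
    have h1 := loadl_high_lt q i j hj hi.2.1
    rw [hmin] at h1
    have : (0 : ℝ) ≤ i := by positivity
    linarith
  · have h1 := Finset.sum_le_sum (fun i (hi : i ∈ range q.K) =>
      loadl_classB q e hs i j (Finset.mem_range.mp hi) hj h0 h)
    rw [Finset.sum_add_distrib, Finset.sum_add_distrib, Finset.sum_add_distrib,
      Finset.sum_add_distrib] at h1
    rw [loadl_sum_high] at h1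
    have s1 := loadl_sum_ite (range q.K)
      (fun i => q.High i j ∧ q.K < q.kk (q.mir j) + i + 2) (q.g : ℝ)
    rw [s1] at h1
    have s2 : ∑ i ∈ range q.K, (if 2 * i + q.kk (q.mir j) + 2 = q.K then (q.g : ℝ) else 0) ≤ q.g :=
      loadl_sum_self _ _ _ hg.le (fun i i' h1 h2 => by omega)
    have s3 : ∑ i ∈ range q.K, (if 2 * i = q.K - 1 + q.kk j then (q.g : ℝ) else 0) ≤ q.g :=
      loadl_sum_self _ _ _ hg.le (fun i i' h1 h2 => by omega)
    have s4 := loadl_sum_low q.K (q.kk j) q.k1 q.κ ((q.k1 : ℝ) / (q.K - q.k1))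
      (4 * q.g / (q.κ * (q.K - 2 * q.k1))) (by positivity) hρ
    have s5 : (q.κ : ℝ) * (4 * q.g / (q.κ * (q.K - 2 * q.k1))) *
        ((q.K - q.kk j : ℕ) + (q.K - 1 - q.kk (q.mir j) : ℕ)) ≤ 8 * q.g / e := by
      have t1 : (q.κ : ℝ) * (4 * q.g / (q.κ * (q.K - 2 * q.k1))) = 4 * q.g / (q.K - 2 * q.k1) := by
        field_simp
      rw [t1, div_mul_eq_mul_div, div_le_div_iff₀ d3 he]
      have t2 : (((q.K - q.kk j : ℕ) : ℝ) + (q.K - 1 - q.kk (q.mir j) : ℕ)) ≤ 2 * q.K := by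
        have : (q.K - q.kk j) + (q.K - 1 - q.kk (q.mir j)) ≤ 2 * q.K := by omega
        exact_mod_cast this
      have t3 : e * q.K ≤ q.K - 2 * q.k1 := by linarith
      have t4 : 4 * (q.g : ℝ) * (((q.K - q.kk j : ℕ) : ℝ) + (q.K - 1 - q.kk (q.mir j) : ℕ)) * e ≤
          4 * q.g * (2 * q.K) * e := by gcongr
      have t5 : 4 * (q.g : ℝ) * (2 * q.K) * e = 8 * q.g * (e * q.K) := by ring
      have t6 : 8 * (q.g : ℝ) * (e * q.K) ≤ 8 * q.g * (q.K - 2 * q.k1) := by gcongr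
      linarith
    nlinarith

theorem loadl_B (q : GP) (e : ℝ) (hs : q.Small e) (j : ℕ) (hj : j < q.N) (h0 : q.J0 ≤ j)
    (h : j < q.J1) :
    ∑ i ∈ range q.K, (q.m : ℝ) * q.FL i j ≤ (q.κ : ℝ) * q.K - e * q.K / 2 := by
  obtain ⟨nd, hnd, hnd', hS⟩ := loadl_B0 q e hs j hj h0 h
  have hg := loadl_gpos q
  have hκ8 : (8 : ℝ) ≤ q.κ := by exact_mod_cast q.hκ
  have hk := loadl_kk_ge q j h0
  have hk' := loadl_kk_mir_ge q j hj h
  have hsum := loadl_kk_sum q j hj h0 h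
  obtain ⟨hK, hk1, f1, f2, f3, f4, f5, f6, f7⟩ := loadl_facts q.κ q.g q.K q.k1 e hs.e_pos hs.e_le hg
    hκ8 hs.k1_ge hs.k1_le hs.κ_ge hs.g_ge hs.K_ge
  have hk2 := hs.k1_le
  have he := hs.e_pos
  have he4 := hs.e_le
  have hek := hs.k1_ge
  have h16 := hs.κ_ge
  have d2 : (0 : ℝ) < (q.K : ℝ) - q.k1 := by nlinarith
  have hkR : (q.k1 : ℝ) ≤ q.kk j := by exact_mod_cast hk
  have hkR' : (q.k1 : ℝ) ≤ q.kk (q.mir j) := by exact_mod_cast hk'
  have hρ : (0 : ℝ) ≤ q.κ * (q.k1 * ((q.k1 : ℝ) / (q.K - q.k1))) := by positivity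
  have hif : q.κ * (if q.kk j < q.K then q.k1 * ((q.k1 : ℝ) / (q.K - q.k1)) else 0) ≤
      q.κ * (q.k1 * ((q.k1 : ℝ) / (q.K - q.k1))) := by
    split_ifs
    · exact le_refl _
    · rw [mul_zero]; exact hρ
  have hC0 : (0 : ℝ) ≤ q.κ / (q.K - q.k1) *
      ∑ i ∈ range (q.K - 1 - q.kk (q.mir j)), ((q.k1 - 1 - i : ℕ) : ℝ) := by
    positivity
  have hK4 : (4 : ℝ) ≤ q.K := by
    have := q.hK
    exact_mod_cast (by omega : 4 ≤ q.K)
  rcases lt_or_ge q.K (q.kk (q.mir j) + 1) with c | c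
  · -- the high part is absent
    have n0 : q.K - 1 - q.kk (q.mir j) = 0 := by omega
    rw [n0] at hS hC0
    rcases Nat.eq_zero_or_pos nd with z | z
    · have n1 : ((q.K - q.kk j : ℕ) : ℝ) ≤ q.K - q.k1 := by
        have : q.K - q.kk j ≤ q.K - q.k1 := by omega
        rw [← Nat.cast_sub (by have := q.hk2; omega)]
        exact_mod_cast this
      rw [z] at hS
      push_cast at hS
      nlinarith
    · have z' := hnd' z
      have n1 : ((q.K - q.kk j : ℕ) : ℝ) ≤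
          q.K + 15 - 2 * q.k1 + 4 * q.κ * q.K / q.g + (q.κ + 1) * q.k1 / q.g := by
        rcases le_total (q.kk j) q.K with c' | c'
        · rw [Nat.cast_sub c']
          linarith
        · rw [Nat.sub_eq_zero_of_le c']
          push_cast
          have : (0 : ℝ) ≤ 4 * q.κ * q.K / q.g + (q.κ + 1) * q.k1 / q.g := by positivity
          nlinarith
      push_cast at hS
      have n2 := mul_le_mul_of_nonneg_left n1 (by positivity : (0 : ℝ) ≤ q.κ)
      nlinarith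
  · rcases le_total (q.kk j) q.K with c' | c'
    · have n1 : ((q.K - q.kk j : ℕ) : ℝ) + ((q.K - 1 - q.kk (q.mir j) : ℕ) : ℝ) ≤
          q.K + 15 - 2 * q.k1 + 4 * q.κ * q.K / q.g := by
        have e1 : q.K - 1 - q.kk (q.mir j) = q.K - (q.kk (q.mir j) + 1) := by omega
        rw [e1, Nat.cast_sub c', Nat.cast_sub c]
        push_cast
        linarith
      have n2 := mul_le_mul_of_nonneg_left n1 (by positivity : (0 : ℝ) ≤ q.κ)
      nlinarith
    · rw [Nat.sub_eq_zero_of_le c', if_neg (by omega)] at hS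
      push_cast at hS
      rcases le_or_gt q.k1 (q.K - 1 - q.kk (q.mir j)) with c3 | c3
      · have G := loadl_gauss (q.K - 1 - q.kk (q.mir j)) q.k1 c3
        have n1 : ((q.K - 1 - q.kk (q.mir j) : ℕ) : ℝ) ≤ q.K - 1 - q.k1 := by
          have e1 : q.K - 1 - q.kk (q.mir j) = q.K - (q.kk (q.mir j) + 1) := by omega
          rw [e1, Nat.cast_sub c]
          push_cast
          linarith
        have n2 : (8 : ℝ) * (q.k1 - 1) ≤ q.κ / (q.K - q.k1) *
            ∑ i ∈ range (q.K - 1 - q.kk (q.mir j)), ((q.k1 - 1 - i : ℕ) : ℝ) := by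
          have t1 := mul_le_mul_of_nonneg_left G (by positivity : (0 : ℝ) ≤ q.κ / (q.K - q.k1))
          refine le_trans ?_ t1
          rw [div_mul_eq_mul_div, le_div_iff₀ d2]
          have t2 : (1 : ℝ) ≤ q.k1 := by exact_mod_cast q.hk1
          have t3 : (16 : ℝ) * q.K ≤ q.κ * q.k1 := by
            have h3 : (q.κ : ℝ) * (e * q.K) ≤ q.κ * q.k1 :=
              mul_le_mul_of_nonneg_left hek (by positivity)
            have h4 : 16 * (q.K : ℝ) ≤ (e * q.κ) * q.K := mul_le_mul_of_nonneg_right h16 hK.le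
            linarith
          have t4 : 8 * (q.k1 - 1 : ℝ) * (q.K - q.k1) ≤ 8 * (q.k1 - 1) * q.K := by
            have : (0 : ℝ) ≤ 8 * (q.k1 - 1) := by linarith
            nlinarith
          have t5 : (16 * (q.K : ℝ)) * ((q.k1 - 1) / 2) ≤ (q.κ * q.k1) * ((q.k1 - 1) / 2) := by
            have : (0 : ℝ) ≤ ((q.k1 : ℝ) - 1) / 2 := by linarith
            exact mul_le_mul_of_nonneg_right t3 this
          linarith
        have n3 := mul_le_mul_of_nonneg_left n1 (by positivity : (0 : ℝ) ≤ q.κ)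
        nlinarith
      · have n1 : ((q.K - 1 - q.kk (q.mir j) : ℕ) : ℝ) ≤ q.k1 := by exact_mod_cast c3.le
        have n3 := mul_le_mul_of_nonneg_left n1 (by positivity : (0 : ℝ) ≤ q.κ)
        have n4 : q.κ * (2 * (q.k1 : ℝ)) ≤ q.κ * ((1 - e) * q.K) :=
          mul_le_mul_of_nonneg_left hk2 (by positivity)
        have n5 : 16 * (q.K : ℝ) ≤ (e * q.κ) * q.K := mul_le_mul_of_nonneg_right h16 hK.le
        nlinarith

/-- LOADL. -/
theorem load_L (q : GP) (e : ℝ) (hs : q.Small e) (j : ℕ) (hj : j < q.N) :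
    ∑ i ∈ range q.K, (q.m : ℝ) * q.FL i j ≤ (1 - e / (2 * q.κ)) * q.hp := by
  have hκ8 : (8 : ℝ) ≤ q.κ := by exact_mod_cast q.hκ
  have hhp := q.hp_ge
  have he := hs.e_pos
  have he4 := hs.e_le
  have hK0 : (0 : ℝ) ≤ q.K := by positivity
  have f0 : 0 ≤ 1 - e / (2 * q.κ) := by
    have : e / (2 * q.κ) ≤ 1 := by
      rw [div_le_one (by positivity)]; linarith
    linarith
  have key : (q.κ : ℝ) * q.K - e * q.K / 2 ≤ (1 - e / (2 * q.κ)) * q.hp := by
    have h1 := mul_le_mul_of_nonneg_left hhp f0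
    refine le_trans (le_of_eq ?_) h1
    have : (q.κ : ℝ) ≠ 0 := by positivity
    field_simp
  rcases lt_or_ge j q.J0 with h0 | h0
  · have hz : ∑ i ∈ range q.K, (q.m : ℝ) * q.FL i j = 0 := by
      apply Finset.sum_eq_zero
      intro i hi
      obtain ⟨h1, h2, h3, h4, h5, h6⟩ := HY.J0_lt q
      have hh : ¬ q.High i j := by
        intro h'
        have := h'.1
        omega
      have hO : ¬ q.OnlyL i j := fun h' => hh h'.1
      have hJ : ¬ q.Joint i j := by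
        rintro (h' | h')
        · have := h'.2.1
          omega
        · exact hh h'.1
      unfold GP.FL
      rw [if_neg hO, if_neg hJ, mul_zero]
    rw [hz]
    have : 0 ≤ q.hp := le_trans (by positivity) hhp
    positivity
  · rcases lt_or_ge j q.J1 with h1 | h1
    · exact (loadl_B q e hs j hj h0 h1).trans key
    · exact (loadl_A q e hs j hj h1).trans key

end Pool.Agent.H70.HY
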