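import Mathlib
import Pool.Agent.H70.HY.Base
import Pool.Agent.H70.HY.LOADH
import Pool.Agent.H70.HY.LOADL
import Pool.Agent.H70.HY.NEED
import Pool.Agent.H70.HY.SIG
import Pool.Agent.H70.HY.TIME

set_option autoImplicit false

/-! MKQ: the quantitative hypotheses of the base schedule. -/

namespace Pool.Agent.H70.HY

open Finset

theorem mkq_sum_const {J : Type} [Finite J] (S : Set J) (x : ℝ) :
    ∑ _j ∈ (Set.toFinite S).toFinset, x = (S.ncard : ℝ) * x := by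
  rw [Finset.sum_const, nsmul_eq_mul, ← Set.ncard_eq_toFinset_card]

/-- an interval in `Fin N` -/
theorem mkq_Ico_ncard (N a b : ℕ) (hb : b ≤ N) :
    {j : Fin N | a ≤ (j : ℕ) ∧ (j : ℕ) < b}.ncard = b - a := by
  have h1 : (Fin.val '' {j : Fin N | a ≤ (j : ℕ) ∧ (j : ℕ) < b}) = ((Finset.Ico a b : Finset ℕ) : Set ℕ) := by
    ext x
    simp only [Set.mem_image, Set.mem_ofPred_eq, Finset.coe_Ico, Set.mem_Ico]
    constructor
    · rintro ⟨j, hj, rfl⟩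
      exact hj
    · intro hx
      exact ⟨⟨x, by omega⟩, hx, rfl⟩
  have h2 : (Fin.val '' {j : Fin N | a ≤ (j : ℕ) ∧ (j : ℕ) < b}).ncard =
      {j : Fin N | a ≤ (j : ℕ) ∧ (j : ℕ) < b}.ncard :=
    Set.ncard_image_of_injective _ Fin.val_injective
  rw [← h2, h1, Set.ncard_coe_finset, Nat.card_Ico]

theorem mkq_zb_card (q : GP) (i : ℕ) : {j : Fin q.N | q.ZB i j}.ncard ≤ 2 * q.g + 2 := by
  have h1 : (Fin.val '' {j : Fin q.N | q.ZB i j}) ⊆
      ((Finset.Ico (q.X i) (q.X i + q.g + 1) ∪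
        Finset.Ico (q.X i + q.P - 1) (q.X i + q.g + q.P) : Finset ℕ) : Set ℕ) := by
    rintro x ⟨j, hj, rfl⟩
    simp only [Finset.coe_union, Finset.coe_Ico, Set.mem_union, Set.mem_Ico]
    rcases hj with hj | hj
    · left; omega
    · right; omega
  have h2 : (Fin.val '' {j : Fin q.N | q.ZB i j}).ncard = {j : Fin q.N | q.ZB i j}.ncard :=
    Set.ncard_image_of_injective _ Fin.val_injective
  rw [← h2]
  refine (Set.ncard_le_ncard h1 (Finset.finite_toSet _)).trans ?_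
  rw [Set.ncard_coe_finset]
  refine (Finset.card_union_le _ _).trans ?_
  rw [Nat.card_Ico, Nat.card_Ico]
  omega

theorem mkq_class_card (K R Kr : ℕ) (hKr : 0 < Kr) (a0 : ℕ) :
    ((Finset.univ : Finset (Fin K)).filter
      (fun i : Fin K => (i : ℕ) % R = a0 % R ∧ (i : ℕ) / Kr = a0 / Kr)).card ≤ Kr / R + 1 := by
  classical
  -- the map `i ↦ (i - Kr * (a0 / Kr)) / R` is injective
  have hinj : Set.InjOn (fun i : Fin K => ((i : ℕ) - Kr * (a0 / Kr)) / R)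
      (((Finset.univ : Finset (Fin K)).filter
        (fun i : Fin K => (i : ℕ) % R = a0 % R ∧ (i : ℕ) / Kr = a0 / Kr) : Finset (Fin K)) : Set (Fin K)) := by
    intro i hi i' hi' h
    simp only [Finset.coe_filter, Finset.mem_univ, true_and, Set.mem_ofPred_eq] at hi hi'
    simp only at h
    have h1 : Kr * (a0 / Kr) ≤ i := by
      rw [← hi.2]; exact Nat.mul_div_le _ _
    have h2 : Kr * (a0 / Kr) ≤ i' := by
      rw [← hi'.2]; exact Nat.mul_div_le _ _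
    have h3 : ((i : ℕ) - Kr * (a0 / Kr)) % R = ((i' : ℕ) - Kr * (a0 / Kr)) % R := by
      have h4 : (i : ℕ) ≡ i' [MOD R] := hi.1.trans hi'.1.symm
      have h5 : ((i : ℕ) - Kr * (a0 / Kr)) + Kr * (a0 / Kr) ≡
          ((i' : ℕ) - Kr * (a0 / Kr)) + Kr * (a0 / Kr) [MOD R] := by
        rw [Nat.sub_add_cancel h1, Nat.sub_add_cancel h2]; exact h4
      exact Nat.ModEq.add_right_cancel' _ h5
    have h6 : (i : ℕ) - Kr * (a0 / Kr) = (i' : ℕ) - Kr * (a0 / Kr) := by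
      rw [← Nat.div_add_mod ((i : ℕ) - Kr * (a0 / Kr)) R,
        ← Nat.div_add_mod ((i' : ℕ) - Kr * (a0 / Kr)) R, h, h3]
    apply Fin.ext
    omega
  have hmaps : ∀ i ∈ ((Finset.univ : Finset (Fin K)).filter
      (fun i : Fin K => (i : ℕ) % R = a0 % R ∧ (i : ℕ) / Kr = a0 / Kr)),
      (fun i : Fin K => ((i : ℕ) - Kr * (a0 / Kr)) / R) i ∈ Finset.range (Kr / R + 1) := by
    intro i hi
    simp only [Finset.mem_filter, Finset.mem_univ, true_and] at hi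
    simp only [Finset.mem_range]
    have h1 : (i : ℕ) < Kr * (a0 / Kr) + Kr := by
      rw [← hi.2]
      have := Nat.lt_mul_div_succ (i : ℕ) hKr
      rw [Nat.mul_add, Nat.mul_one] at this
      exact this
    have h2 : (i : ℕ) - Kr * (a0 / Kr) ≤ Kr := by omega
    exact Nat.lt_succ_of_le (Nat.div_le_div_right h2)
  have h := Finset.card_le_card_of_injOn _ hmaps hinj
  rwa [Finset.card_range] at h

/-- unavailable blocks of a slack class -/
theorem mkq_unav (q : GP) (R Q Kr : ℕ) (hKr : 0 < Kr) (iH : Fin q.K → Bool)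
    (un : Fin q.K → Fin R × Fin Q) (hun1 : ∀ i, ((un i).1 : ℕ) = (i : ℕ) % R)
    (hun2 : ∀ i, ((un i).2 : ℕ) = (i : ℕ) / Kr) (b : Bool × Option (Fin R × Fin Q)) :
    {j : Fin q.N | ¬ av iH un (fun (i : Fin q.K) (j : Fin q.N) => q.ZB i j) b j}.ncard ≤ (Kr / R + 1) * (2 * q.g + 2) := by
  classical
  have h1 : {j : Fin q.N | ¬ av iH un (fun (i : Fin q.K) (j : Fin q.N) => q.ZB i j) b j} ⊆
      ⋃ a ∈ (Finset.univ.filter (fun a : Fin q.K => b = (iH a, some (un a)))),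
        {j : Fin q.N | q.ZB a j} := by
    intro j hj
    simp only [av, Set.mem_ofPred_eq, not_forall, not_not] at hj
    obtain ⟨a, ha, hz⟩ := hj
    simp only [Set.mem_iUnion, Finset.mem_filter, Finset.mem_univ, true_and]
    exact ⟨a, ha, hz⟩
  have h2 : (Finset.univ.filter (fun a : Fin q.K => b = (iH a, some (un a)))).card ≤ Kr / R + 1 := by
    rcases (Finset.univ.filter (fun a : Fin q.K => b = (iH a, some (un a)))).eq_empty_or_nonempty
      with h | ⟨a0, ha0⟩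
    · rw [h]; simp
    · refine le_trans (Finset.card_le_card ?_) (mkq_class_card q.K R Kr hKr a0)
      intro a ha
      simp only [Finset.mem_filter, Finset.mem_univ, true_and] at ha ha0 ⊢
      have h3 : un a = un a0 := by
        have := ha.symm.trans ha0
        simp only [Prod.mk.injEq, Option.some.injEq] at this
        exact this.2
      refine ⟨?_, ?_⟩
      · rw [← hun1, ← hun1, h3]
      · rw [← hun2, ← hun2, h3]
  calc _ ≤ (⋃ a ∈ (Finset.univ.filter (fun a : Fin q.K => b = (iH a, some (un a)))),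
        {j : Fin q.N | q.ZB a j}).ncard := Set.ncard_le_ncard h1 (Set.toFinite _)
    _ ≤ ∑ a ∈ (Finset.univ.filter (fun a : Fin q.K => b = (iH a, some (un a)))),
        {j : Fin q.N | q.ZB a j}.ncard := Finset.set_ncard_biUnion_le _ _
    _ ≤ ∑ a ∈ (Finset.univ.filter (fun a : Fin q.K => b = (iH a, some (un a)))),
        (2 * q.g + 2) := Finset.sum_le_sum fun a _ => mkq_zb_card q a
    _ = (Finset.univ.filter (fun a : Fin q.K => b = (iH a, some (un a)))).card * (2 * q.g + 2) := by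
        rw [Finset.sum_const, smul_eq_mul]
    _ ≤ (Kr / R + 1) * (2 * q.g + 2) := Nat.mul_le_mul_right _ h2

/-- separation of the zones of a unit -/
theorem mkq_sep (q : GP) (R Kr : ℕ) (hR : q.g + 1 ≤ q.g * R) (hKr : 0 < Kr)
    (hKr1 : Kr ≤ q.k1 + 1) (i i' : ℕ) (hlt : i < i')
    (h1 : i % R = i' % R) (h2 : i / Kr = i' / Kr) (j : ℕ) (hz : q.ZB i j) : ¬ q.ZB i' j := by
  have hd1 : i + R ≤ i' := by
    have h3 : R ∣ i' - i := (Nat.modEq_iff_dvd' hlt.le).1 h1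
    have := Nat.le_of_dvd (by omega) h3
    omega
  have hd2 : i' < i + Kr := by
    have h3 := Nat.lt_mul_div_succ i' hKr
    have h4 := Nat.mul_div_le i Kr
    rw [h2] at h4
    rw [Nat.mul_add, Nat.mul_one] at h3
    omega
  have hX1 : q.X i + q.g * R ≤ q.X i' := by
    unfold GP.X
    rw [← Nat.mul_add]
    exact Nat.mul_le_mul_left _ (by omega)
  have hX2 : q.X i' ≤ q.X i + q.g * q.k1 := by
    unfold GP.X
    rw [← Nat.mul_add]
    exact Nat.mul_le_mul_left _ (by omega)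
  have hP := q.P_gt
  rw [Nat.mul_add] at hP
  have hg := q.hg
  have hκ := q.hκ
  unfold GP.ZB at hz ⊢
  omega

theorem mkq_a_ge (q : GP) (k : ℕ) (hk : q.k1 ≤ k) :
    q.a k = q.t + q.g1 * q.k1 + q.g * (k - q.k1) := by
  unfold GP.a
  split_ifs with h
  · have : k = q.k1 := le_antisymm h hk
    subst this
    simp
  · rfl

theorem mkq_kk_lt (q : GP) (j k : ℕ) (h1 : q.a q.k1 ≤ j) (hk : q.k1 ≤ k) (h2 : j < q.a k) :
    q.kk j < k := by
  have hg : 0 < q.g := by have := q.hg; have := q.hκ; omega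
  rw [mkq_a_ge q k hk] at h2
  have h3 := mkq_a_ge q q.k1 le_rfl
  rw [Nat.sub_self, Nat.mul_zero, Nat.add_zero] at h3
  unfold GP.kk
  rw [if_neg (by omega)]
  have h4 : (j - q.a q.k1) / q.g < k - q.k1 := by
    rw [Nat.div_lt_iff_lt_mul hg, h3]
    rw [Nat.mul_comm q.g (k - q.k1)] at h2
    omega
  omega

theorem mkq_joint_low (q : GP) (i : ℕ) (h2i : q.K ≤ 2 * i) (j : ℕ)
    (h1 : q.a q.k1 ≤ j) (h2 : j < q.a (i + 1)) : q.Joint i j ∧ ¬ q.OnlyL i j := by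
  have hX := HY.a_le_X q i
  have hk2 := q.hk2
  have ht : q.t ≤ q.a q.k1 := by
    rw [mkq_a_ge q q.k1 le_rfl]; omega
  have hlow : q.Low i j := ⟨by omega, by omega⟩
  refine ⟨Or.inl ⟨hlow, h1, ?_⟩, ?_⟩
  · have := mkq_kk_lt q j (i + 1) h1 (by omega) h2
    omega
  · rintro ⟨⟨h3, h4⟩, -⟩
    have := hlow.2
    omega

theorem mkq_joint_high (q : GP) (i : ℕ) (hi : i < q.K) (h2i : 2 * i < q.K) (j : ℕ)
    (h1 : q.N + q.t - q.a (q.K - 1 - i) ≤ j) (h2 : j < q.J1) :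
    q.Joint i j ∧ ¬ q.OnlyL i j := by
  have hX := HY.a_mir q i hi
  have hJ := HY.J0_lt q
  have hk2 := q.hk2
  have hN : q.N = q.N2 + q.P + q.g := rfl
  have hJ1 : q.J1 = q.N + q.t - q.a q.k1 := rfl
  have hXp : 2 * q.g ≤ q.X i := by
    unfold GP.X; rw [Nat.mul_comm]; exact Nat.mul_le_mul_left _ (by omega)
  have hg := q.hg
  have hκ := q.hκ
  have hhigh : q.High i j := ⟨by omega, by omega⟩
  have hkk : q.kk (q.mir j) < q.K - 1 - i := by
    have hmir : q.mir j = q.N + q.t - 1 - j := rfl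
    apply mkq_kk_lt q (q.mir j) (q.K - 1 - i)
    · omega
    · omega
    · omega
  refine ⟨Or.inr ⟨hhigh, h2, by omega⟩, ?_⟩
  rintro ⟨-, h3⟩
  rcases h3 with h3 | h3
  · omega
  · omega

/-- real consequences of the smallness of the parameters -/
structure MkqNum (q : GP) (e : ℝ) : Prop where
  e0 : 0 < e
  e1 : e ≤ 1 / 4
  κ8 : (8 : ℝ) ≤ q.κ
  κe : 16 ≤ e * q.κ
  g0 : (80 : ℝ) ≤ q.g
  gκ : 10 * (q.κ : ℝ) ≤ q.g
  eg : 200 * (q.κ : ℝ) ^ 2 ≤ e * q.g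
  eK : 1000 * (q.g : ℝ) ≤ e * q.K
  g1 : (q.g1 : ℝ) = q.g - q.κ - 1
  t : (q.t : ℝ) = q.g - q.κ - 2
  m : (q.m : ℝ) = q.g - 2 * q.κ

theorem mkq_num (q : GP) (e : ℝ) (hs : q.Small e) : MkqNum q e := by
  have hg := q.hg
  have hκ := q.hκ
  have hκ' : (8 : ℝ) ≤ q.κ := by exact_mod_cast hκ
  have hg' : 10 * (q.κ : ℝ) ≤ q.g := by exact_mod_cast hg
  have h1 := hs.e_pos
  have h2 := hs.e_le
  have h3 := hs.K_ge
  have hK0 : (0 : ℝ) ≤ q.K := Nat.cast_nonneg _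
  refine ⟨h1, h2, hκ', hs.κ_ge, by linarith, hg', hs.g_ge, ?_, ?_, ?_, ?_⟩
  · have h4 : e ^ 3 ≤ e := by nlinarith [sq_nonneg e]
    exact h3.trans (mul_le_mul_of_nonneg_right h4 hK0)
  · unfold GP.g1
    rw [Nat.cast_sub (by omega), Nat.cast_sub (by omega), Nat.cast_one]
  · unfold GP.t
    rw [Nat.cast_sub (by omega), Nat.cast_sub (by omega)]
    norm_num
  · unfold GP.m
    rw [Nat.cast_sub (by omega)]
    push_cast
    ring

/-- the number of unavailable blocks is small -/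
theorem mkq_unav_real (q : GP) (e : ℝ) (h : MkqNum q e) :
    (((⌊e * q.K⌋₊ / (64 * (q.g + 1)) + 1) * (2 * q.g + 2) : ℕ) : ℝ) ≤
      e * q.K / 32 + 2 * (q.g + 1) := by
  have hK0 : (0 : ℝ) ≤ q.K := Nat.cast_nonneg _
  have hg0 : (0 : ℝ) < q.g + 1 := by have := h.g0; linarith
  have h1 : ((⌊e * q.K⌋₊ / (64 * (q.g + 1)) : ℕ) : ℝ) ≤ e * q.K / (64 * (q.g + 1)) := by
    refine (Nat.cast_div_le).trans ?_
    push_cast
    exact div_le_div_of_nonneg_right (Nat.floor_le (mul_nonneg h.e0.le hK0)) (by positivity)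
  have h2 : (((⌊e * q.K⌋₊ / (64 * (q.g + 1)) + 1) * (2 * q.g + 2) : ℕ) : ℝ) =
      (((⌊e * q.K⌋₊ / (64 * (q.g + 1)) : ℕ) : ℝ) + 1) * (2 * (q.g + 1)) := by
    push_cast
    ring
  rw [h2]
  calc _ ≤ (e * q.K / (64 * (q.g + 1)) + 1) * (2 * (q.g + 1)) :=
        mul_le_mul_of_nonneg_right (by linarith) (by positivity)
    _ = e * q.K / 32 + 2 * (q.g + 1) := by
        field_simp
        ring

theorem mkq_exists (N a b : ℕ) (hb : b ≤ N) (U : Set (Fin N)) (h : U.ncard < b - a) :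
    ∃ j : Fin N, a ≤ (j : ℕ) ∧ (j : ℕ) < b ∧ j ∉ U := by
  by_contra hcon
  push Not at hcon
  have h1 : {j : Fin N | a ≤ (j : ℕ) ∧ (j : ℕ) < b} ⊆ U := fun j hj => hcon j hj.1 hj.2
  have h2 := Set.ncard_le_ncard h1 (Set.toFinite _)
  rw [mkq_Ico_ncard N a b hb] at h2
  omega

theorem mkq_jst (q : GP) (e : ℝ) (hs : q.Small e) (i : ℕ) (hi : i < q.K) (U : Set (Fin q.N))
    (hU : (U.ncard : ℝ) ≤ e * q.K / 32 + 2 * (q.g + 1)) :
    ∃ j : Fin q.N, j ∉ U ∧ q.Joint i j ∧ ¬ q.OnlyL i j := by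
  have h := mkq_num q e hs
  have hk2 := q.hk2
  have hk1 := hs.k1_le
  have hX := HY.a_le_X q i
  have hX' := HY.a_mir q i hi
  have hJ := HY.J0_lt q
  have hN : q.N = q.N2 + q.P + q.g := rfl
  have hJ1 : q.J1 = q.N + q.t - q.a q.k1 := rfl
  have hN2 := q.N2_ge
  have hXp : q.X i ≤ q.g * (q.K + 1) := Nat.mul_le_mul_left _ (by omega)
  have h0 := h.eK
  have h1 := h.e0
  have h2 := h.e1
  have h3 := h.g0
  have hg0 : (0 : ℝ) < q.g := by linarith
  by_cases h2i : q.K ≤ 2 * i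
  · have e1 : q.a (i + 1) - q.a q.k1 = q.g * (i + 1 - q.k1) := by
      rw [mkq_a_ge q (i + 1) (by omega), mkq_a_ge q q.k1 le_rfl]
      simp
    have h4 : U.ncard < q.a (i + 1) - q.a q.k1 := by
      rw [e1]
      have h5 : (U.ncard : ℝ) < ((q.g * (i + 1 - q.k1) : ℕ) : ℝ) := by
        refine lt_of_le_of_lt hU ?_
        rw [Nat.cast_mul, Nat.cast_sub (by omega)]
        push_cast
        have h6 : (q.K : ℝ) ≤ 2 * i := by exact_mod_cast h2i
        have h7 : e * q.K / 2 ≤ (i : ℝ) + 1 - q.k1 := by linarith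
        have h8 : (q.g : ℝ) * (e * q.K / 2) ≤ q.g * ((i : ℝ) + 1 - q.k1) :=
          mul_le_mul_of_nonneg_left h7 hg0.le
        have h9 : 80 * (e * q.K / 2) ≤ (q.g : ℝ) * (e * q.K / 2) :=
          mul_le_mul_of_nonneg_right h3 (by positivity)
        linarith
      exact_mod_cast h5
    obtain ⟨j, hj1, hj2, hj3⟩ := mkq_exists q.N (q.a q.k1) (q.a (i + 1)) (by omega) U h4
    exact ⟨j, hj3, mkq_joint_low q i h2i j hj1 hj2⟩
  · push Not at h2i
    have e1 : q.J1 - (q.N + q.t - q.a (q.K - 1 - i)) = q.g * (q.K - 1 - i - q.k1) := by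
      have h6 : q.a (q.K - 1 - i) - q.a q.k1 = q.g * (q.K - 1 - i - q.k1) := by
        rw [mkq_a_ge q (q.K - 1 - i) (by omega), mkq_a_ge q q.k1 le_rfl]
        simp
      rw [← h6, hJ1]
      omega
    have h4 : U.ncard < q.J1 - (q.N + q.t - q.a (q.K - 1 - i)) := by
      rw [e1]
      have h5 : (U.ncard : ℝ) < ((q.g * (q.K - 1 - i - q.k1) : ℕ) : ℝ) := by
        refine lt_of_le_of_lt hU ?_
        rw [Nat.cast_mul, Nat.cast_sub (by omega), Nat.cast_sub (by omega),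
          Nat.cast_sub (by omega)]
        push_cast
        have h6 : 2 * (i : ℝ) + 1 ≤ q.K := by exact_mod_cast h2i
        have h7 : (e * q.K - 1) / 2 ≤ (q.K : ℝ) - 1 - i - q.k1 := by linarith
        have h8 : (q.g : ℝ) * ((e * q.K - 1) / 2) ≤ q.g * ((q.K : ℝ) - 1 - i - q.k1) :=
          mul_le_mul_of_nonneg_left h7 hg0.le
        have h9 : 80 * ((e * q.K - 1) / 2) ≤ (q.g : ℝ) * ((e * q.K - 1) / 2) :=
          mul_le_mul_of_nonneg_right h3 (by linarith)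
        linarith
      exact_mod_cast h5
    obtain ⟨j, hj1, hj2, hj3⟩ := mkq_exists q.N (q.N + q.t - q.a (q.K - 1 - i)) q.J1
      (by omega) U h4
    exact ⟨j, hj3, mkq_joint_high q i hi h2i j hj1 hj2⟩

/-- the number of the joint blocks -/
theorem mkq_joint_num (q : GP) (e : ℝ) (h : MkqNum q e) :
    q.hp ≤ e / (8 * q.κ) * ((q.J1 - q.J0 : ℕ) - 2 * (e * q.K / 32 + 2 * (q.g + 1))) := by
  have hJ := HY.J0_lt q
  have hN : q.N = q.N2 + q.P + q.g := rfl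
  have hJ1 : q.J1 = q.N + q.t - q.a q.k1 := rfl
  have hJ0 : q.J0 = q.a q.k1 := rfl
  have ha : q.a q.k1 = q.t + q.g1 * q.k1 := by
    rw [mkq_a_ge q q.k1 le_rfl]; simp
  have h1 : ((q.J1 - q.J0 : ℕ) : ℝ) = q.N2 + q.P + q.g - q.t - 2 * (q.g1 * q.k1) := by
    have h2 : q.J1 - q.J0 + q.t + 2 * (q.g1 * q.k1) = q.N2 + q.P + q.g := by omega
    have h3 : ((q.J1 - q.J0 : ℕ) : ℝ) + q.t + 2 * (q.g1 * q.k1) = q.N2 + q.P + q.g := by
      exact_mod_cast h2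
    linarith
  have hP := q.P_ge
  have hhp := q.hp_le
  have hN2 : (q.g : ℝ) * (q.K + 1) ≤ q.N2 := by exact_mod_cast q.N2_ge
  have h4 : (q.g : ℝ) * q.K - 4 * q.κ * q.K - 13 * q.g ≤ ((q.J1 - q.J0 : ℕ) : ℝ) := by
    rw [h1, h.g1, h.t]
    have := h.κ8
    linarith [hP, hhp, hN2]
  have hκ := h.κ8
  have hκ0 : (0 : ℝ) < 8 * q.κ := by linarith
  rw [div_mul_eq_mul_div, le_div_iff₀ hκ0]
  have hK0 : (0 : ℝ) ≤ q.K := Nat.cast_nonneg _
  have h5 : 200 * (q.κ : ℝ) ^ 2 * q.K ≤ e * q.g * q.K := mul_le_mul_of_nonneg_right h.eg hK0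
  have h6 : q.hp * (8 * q.κ) ≤ (q.κ * q.K + 3 * q.g) * (8 * q.κ) :=
    mul_le_mul_of_nonneg_right hhp hκ0.le
  have h7 : e * ((q.g : ℝ) * q.K - 4 * q.κ * q.K - 13 * q.g - 2 * (e * q.K / 32 + 2 * (q.g + 1))) ≤
      e * (((q.J1 - q.J0 : ℕ) : ℝ) - 2 * (e * q.K / 32 + 2 * (q.g + 1))) :=
    mul_le_mul_of_nonneg_left (by linarith) h.e0.le
  refine h6.trans (le_trans ?_ h7)
  -- (κK+3g)(8κ) ≤ e(gK-4κK-13g-eK/16-4(g+1))
  have h8 : e * (q.κ * q.K) ≤ 1 / 4 * (q.κ * q.K) :=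
    mul_le_mul_of_nonneg_right h.e1 (by positivity)
  have h9 : (q.g : ℝ) ≤ q.K / 4000 := by
    have := h.eK
    have h10 : e * q.K ≤ 1 / 4 * q.K := mul_le_mul_of_nonneg_right h.e1 hK0
    linarith
  have h10 : (q.g : ℝ) * q.κ ≤ q.K / 4000 * q.κ := mul_le_mul_of_nonneg_right h9 (by linarith)
  have h11 : e * (q.g : ℝ) ≤ q.g := by
    have h18 : e * q.g ≤ 1 * q.g :=
      mul_le_mul_of_nonneg_right (by linarith [h.e1]) (by linarith [h.g0])
    linarith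
  have h12 : e * (e * q.K) ≤ q.K := by
    have h17 : e * (e * q.K) ≤ 1 * (e * q.K) :=
      mul_le_mul_of_nonneg_right (by linarith [h.e1]) (mul_nonneg h.e0.le hK0)
    have h18 : e * q.K ≤ 1 * q.K := mul_le_mul_of_nonneg_right (by linarith [h.e1]) hK0
    linarith
  have h14 : 8 * (q.K : ℝ) ≤ q.κ * q.K := mul_le_mul_of_nonneg_right hκ hK0
  have h13 : 8 * (q.κ * q.K) ≤ (q.κ : ℝ) ^ 2 * q.K := by
    have := mul_le_mul_of_nonneg_left h14 (show (0 : ℝ) ≤ q.κ by linarith)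
    calc (8 : ℝ) * (q.κ * q.K) = q.κ * (8 * q.K) := by ring
      _ ≤ q.κ * (q.κ * q.K) := this
      _ = (q.κ : ℝ) ^ 2 * q.K := by ring
  have e1 : ((q.κ : ℝ) * q.K + 3 * q.g) * (8 * q.κ) =
      8 * ((q.κ : ℝ) ^ 2 * q.K) + 24 * (q.g * q.κ) := by ring
  have e2 : e * ((q.g : ℝ) * q.K - 4 * q.κ * q.K - 13 * q.g - 2 * (e * q.K / 32 + 2 * (q.g + 1))) =
      e * q.g * q.K - 4 * (e * (q.κ * q.K)) - 17 * (e * q.g) - (e * (e * q.K)) / 16 - 4 * e := by
    ring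
  rw [e1, e2]
  have h15 := h.e1
  have h16 := h.g0
  have e3 : (q.K : ℝ) / 4000 * q.κ = (q.κ * q.K) / 4000 := by ring
  rw [e3] at h10
  have e4 : 200 * (q.κ : ℝ) ^ 2 * q.K = 200 * ((q.κ : ℝ) ^ 2 * q.K) := by ring
  rw [e4] at h5
  linarith

theorem mkq_loadT (q : GP) (e : ℝ) (h : MkqNum q e) (s r0 : ℕ) :
    (q.K : ℝ) * (q.m * s * (q.FT * s)) ≤
      (1 - e / (2 * q.κ)) * ((r0 + s * q.t : ℕ) : ℝ) * (q.hp * s) := by
  have hK0 : (0 : ℝ) ≤ q.K := Nat.cast_nonneg _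
  have hs0 : (0 : ℝ) ≤ s := Nat.cast_nonneg _
  have hκ0 : (0 : ℝ) < q.κ := by linarith [h.κ8]
  have hhp : (q.κ : ℝ) * q.K ≤ q.hp := q.hp_ge
  have he0 := h.e0
  have he1 := h.e1
  have hx : (0 : ℝ) ≤ 1 - e / (2 * q.κ) := by
    have : e / (2 * q.κ) ≤ 1 := by
      rw [div_le_one (by positivity)]; linarith [h.κ8]
    linarith
  have ht0 : (0 : ℝ) ≤ q.t := Nat.cast_nonneg _
  have hm0 : (0 : ℝ) ≤ q.m := Nat.cast_nonneg _
  have h1 : (q.K : ℝ) * (q.m * q.FT) ≤ (1 - e / (2 * q.κ)) * q.t * q.hp := by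
    have h2 : (q.m : ℝ) * q.FT ≤ q.t * (q.κ - 1) := by
      refine mul_le_mul ?_ q.FT_le (by linarith [q.FT_ge]) ht0
      rw [h.m, h.t]; linarith [h.κ8]
    have h3 : (q.t : ℝ) * (q.κ - 1) ≤ q.t * ((1 - e / (2 * q.κ)) * q.κ) := by
      refine mul_le_mul_of_nonneg_left ?_ ht0
      have h4 : (1 - e / (2 * q.κ)) * q.κ = q.κ - e / 2 := by
        field_simp
      rw [h4]; linarith
    calc (q.K : ℝ) * (q.m * q.FT) ≤ q.K * (q.t * ((1 - e / (2 * q.κ)) * q.κ)) :=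
          mul_le_mul_of_nonneg_left (h2.trans h3) hK0
      _ = (1 - e / (2 * q.κ)) * q.t * (q.κ * q.K) := by ring
      _ ≤ (1 - e / (2 * q.κ)) * q.t * q.hp :=
          mul_le_mul_of_nonneg_left hhp (mul_nonneg hx ht0)
  have hhp0 : 0 ≤ q.hp := le_trans (by positivity) hhp
  calc (q.K : ℝ) * (q.m * s * (q.FT * s)) = (q.K : ℝ) * (q.m * q.FT) * (s * s) := by ring
    _ ≤ (1 - e / (2 * q.κ)) * q.t * q.hp * (s * s) :=
        mul_le_mul_of_nonneg_right h1 (by positivity)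
    _ = (1 - e / (2 * q.κ)) * (s * q.t) * (q.hp * s) := by ring
    _ ≤ (1 - e / (2 * q.κ)) * ((r0 + s * q.t : ℕ) : ℝ) * (q.hp * s) := by
        refine mul_le_mul_of_nonneg_right (mul_le_mul_of_nonneg_left ?_ hx) (by positivity)
        push_cast
        have : (0 : ℝ) ≤ r0 := Nat.cast_nonneg _
        linarith

theorem mkq_joint_card (q : GP) (e : ℝ) (h : MkqNum q e) (U U' : Set (Fin q.N))
    (hU : (U.ncard : ℝ) ≤ e * q.K / 32 + 2 * (q.g + 1))
    (hU' : (U'.ncard : ℝ) ≤ e * q.K / 32 + 2 * (q.g + 1)) :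
    q.hp ≤ e / (8 * q.κ) *
      ({j : Fin q.N | (q.J0 ≤ (j : ℕ) ∧ (j : ℕ) < q.J1) ∧ j ∉ U ∧ j ∉ U'}.ncard : ℝ) := by
  have hJ := HY.J0_lt q
  have hκ0 : (0 : ℝ) < q.κ := by linarith [h.κ8]
  have he0 := h.e0
  have h1 : {j : Fin q.N | q.J0 ≤ (j : ℕ) ∧ (j : ℕ) < q.J1} ⊆
      {j : Fin q.N | (q.J0 ≤ (j : ℕ) ∧ (j : ℕ) < q.J1) ∧ j ∉ U ∧ j ∉ U'} ∪ (U ∪ U') := by
    intro j hj
    by_cases ha : j ∈ U
    · exact Or.inr (Or.inl ha)
    · by_cases hb : j ∈ U'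
      · exact Or.inr (Or.inr hb)
      · exact Or.inl ⟨hj, ha, hb⟩
  have h2 := Set.ncard_le_ncard h1 (Set.toFinite _)
  rw [mkq_Ico_ncard q.N q.J0 q.J1 hJ.2.2.2.1] at h2
  have h3 := h2.trans (Set.ncard_union_le _ _)
  have h4 := h3.trans (Nat.add_le_add_left (Set.ncard_union_le _ _) _)
  have h5 : ((q.J1 - q.J0 : ℕ) : ℝ) ≤
      ({j : Fin q.N | (q.J0 ≤ (j : ℕ) ∧ (j : ℕ) < q.J1) ∧ j ∉ U ∧ j ∉ U'}.ncard : ℝ) +
      ((U.ncard : ℝ) + (U'.ncard : ℝ)) := by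
    exact_mod_cast h4
  have h6 := mkq_joint_num q e h
  refine h6.trans (mul_le_mul_of_nonneg_left ?_ (by positivity))
  linarith

theorem mkq_main (q : GP) (e : ℝ) (hs : q.Small e) (R Q : ℕ) (hR : R = 64 * (q.g + 1))
    (hQ : Q = ⌈2 / e⌉₊ + 2) (hC : 8 * ((R : ℝ) * Q * (q.g + 2)) ≤ e * q.K) (c : ℝ)
    (n p s r0 nz : ℕ) (hcs : c * n ≤ s) (hl : Link q n p s r0 nz)
    (T : BS n (Fin q.K) (Fin q.N))
    (hTl : 8 * T.l = s) (hTz : T.z = nz + 1) (hTstar : T.star = r0 + s * q.t)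
    (hTm : T.mM = q.m * s) (hTH : T.Ht = q.hp * s)
    (hTF : T.FT = q.FT * s) (hTel : ∀ i j, T.el i j ↔ (q.Low i j ∨ q.High i j))
    (hTFH : ∀ i j, T.FH i j = q.FH i j * s) (hTFL : ∀ i j, T.FL i j = q.FL i j * s) :
    ∃ (un : Fin q.K → Fin R × Fin Q) (jst : Fin q.K → Fin q.N),
      BSQ T (Fin R × Fin Q) un (fun i j => q.ZB i j) (fun i j => q.OnlyL i j)
        (fun j => q.J0 ≤ j ∧ (j : ℕ) < q.J1) jst ((q.g + 2) * s)
        (c * (e / 8 * ((q.κ - 1) / q.g))) (e / (8 * q.κ)) ∧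
      (∀ i i', i ≠ i' → T.iH i = T.iH i' → un i = un i' → ∀ j, q.ZB i j → ¬ q.ZB i' j) := by
  classical
  have h := mkq_num q e hs
  have hK0 : (0 : ℝ) ≤ q.K := Nat.cast_nonneg _
  have hs0 : (0 : ℝ) < s := by exact_mod_cast hl.s_pos
  have hg0 : (0 : ℝ) < q.g := by linarith [h.g0]
  have hκ0 : (0 : ℝ) < q.κ := by linarith [h.κ8]
  have he0 := h.e0
  have he1 := h.e1
  have hg0' : 0 < q.g := by exact_mod_cast hg0
  have hn0 : (0 : ℝ) ≤ n := Nat.cast_nonneg _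
  -- Kr
  obtain ⟨Kr, hKr⟩ : ∃ Kr : ℕ, Kr = ⌊e * q.K⌋₊ := ⟨_, rfl⟩
  have heK : (1000 : ℝ) ≤ e * q.K := by
    have h1 := h.eK
    have h2 := h.g0
    linarith
  have hKr0 : 0 < Kr := by
    rw [hKr, Nat.floor_pos]; linarith
  have hKr1 : (Kr : ℝ) ≤ e * q.K := by
    rw [hKr]; exact Nat.floor_le (by positivity)
  have hKr2 : e * q.K < Kr + 1 := by rw [hKr]; exact Nat.lt_floor_add_one _
  have hR0 : 0 < R := by omega
  have hQ2 : 2 / e + 2 ≤ (Q : ℝ) := by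
    rw [hQ]; push_cast; linarith [Nat.le_ceil (2 / e)]
  have hQ0 : (0 : ℝ) < Q := lt_of_lt_of_le (by positivity) hQ2
  have hKQ : q.K < Kr * Q := by
    have h1 : (q.K : ℝ) < Kr * Q := by
      have h2 : (e * q.K - 1) * (2 / e + 2) ≤ Kr * Q :=
        mul_le_mul (by linarith) hQ2 (by positivity) (by positivity)
      have h3 : (e * q.K - 1) * (2 / e + 2) = 2 * q.K + 2 * (e * q.K) - 2 / e - 2 := by
        field_simp
        ring
      have h4 : 2 / e ≤ q.K := by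
        rw [div_le_iff₀ he0]; linarith
      linarith
    exact_mod_cast h1
  have hun2 : ∀ i : Fin q.K, (i : ℕ) / Kr < Q := fun i =>
    Nat.div_lt_of_lt_mul (lt_trans i.2 hKQ)
  let un : Fin q.K → Fin R × Fin Q := fun i => (⟨(i : ℕ) % R, Nat.mod_lt _ hR0⟩, ⟨(i : ℕ) / Kr, hun2 i⟩)
  have hun1' : ∀ i, ((un i).1 : ℕ) = (i : ℕ) % R := fun i => rfl
  have hun2' : ∀ i, ((un i).2 : ℕ) = (i : ℕ) / Kr := fun i => rfl
  have hU : ∀ b : Bool × Option (Fin R × Fin Q),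
      (({j : Fin q.N | ¬ av T.iH un (fun (i : Fin q.K) (j : Fin q.N) => q.ZB i j) b j}.ncard : ℕ) : ℝ) ≤
        e * q.K / 32 + 2 * (q.g + 1) := by
    intro b
    have h1 := mkq_unav q R Q Kr hKr0 T.iH un hun1' hun2' b
    have h2 := mkq_unav_real q e h
    rw [← hKr, ← hR] at h2
    refine le_trans ?_ h2
    exact_mod_cast h1
  choose jst hj1 hj2 hj3 using fun i : Fin q.K => mkq_jst q e hs i i.2
    {j : Fin q.N | ¬ av T.iH un (fun (i : Fin q.K) (j : Fin q.N) => q.ZB i j) (T.iH i, some (un i)) j} (hU _)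
  have hδs : c * (e / 8 * ((q.κ - 1) / q.g)) * n ≤ (e / 8 * ((q.κ - 1) / q.g)) * s := by
    have h1 : (0 : ℝ) ≤ e / 8 * ((q.κ - 1) / q.g) := by
      have : (0 : ℝ) ≤ q.κ - 1 := by linarith [h.κ8]
      positivity
    calc c * (e / 8 * ((q.κ - 1) / q.g)) * n = (e / 8 * ((q.κ - 1) / q.g)) * (c * n) := by ring
      _ ≤ _ := mul_le_mul_of_nonneg_left hcs h1
  have hx1 : ((q.κ : ℝ) - 1) / q.g ≤ 1 := by
    rw [div_le_one hg0]; linarith [h.gκ, h.κ8]
  have hx0 : (0 : ℝ) ≤ ((q.κ : ℝ) - 1) / q.g := by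
    have : (0 : ℝ) ≤ q.κ - 1 := by linarith [h.κ8]
    positivity
  have hδs1 : c * (e / 8 * ((q.κ - 1) / q.g)) * n ≤ s := by
    refine hδs.trans ?_
    have h1 : e / 8 * ((q.κ - 1) / q.g) ≤ 1 := by
      calc e / 8 * ((q.κ - 1) / q.g) ≤ e / 8 * 1 := mul_le_mul_of_nonneg_left hx1 (by positivity)
        _ ≤ 1 := by linarith
    calc _ ≤ 1 * (s : ℝ) := mul_le_mul_of_nonneg_right h1 hs0.le
      _ = s := one_mul _
  have h8l : 8 * (T.l : ℝ) = s := by exact_mod_cast hTl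
  have hz1 : ((T.z : ℕ) : ℝ) ≤ (q.g + 1) * s := by
    rw [hTz]
    have h1 := hl.nz_eq
    have h2 := hl.P2
    rw [Nat.mul_add] at h1
    have h3 : nz + 1 ≤ s * q.g + s := by omega
    have h4 : ((nz + 1 : ℕ) : ℝ) ≤ s * q.g + s := by exact_mod_cast h3
    linarith
  have hz2 : (q.g : ℝ) * s ≤ (T.z : ℕ) := by
    rw [hTz]
    push_cast
    rw [← hl.zg_eq]
    exact mul_le_mul_of_nonneg_right q.zg_ge hs0.le
  have hhp : (q.κ : ℝ) * q.K ≤ q.hp := q.hp_ge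
  have h1S : 1 - 4 * (e / (8 * q.κ)) = 1 - e / (2 * q.κ) := by
    field_simp
    ring
  have hSκ : e / (8 * q.κ) * (q.κ * q.K) = e * q.K / 8 := by
    field_simp
  have hSh : e * q.K / 8 ≤ e / (8 * q.κ) * q.hp := by
    rw [← hSκ]
    exact mul_le_mul_of_nonneg_left hhp (by positivity)
  have hFLj : ∀ i j, q.Joint i j → ¬ q.OnlyL i j → q.FL i j = q.sg i * q.need i j := by
    intro i j h1 h2
    unfold GP.FL
    rw [if_neg h2, if_pos h1]
  have hJLH : ∀ i j, q.Joint i j → (q.Low i j ∨ q.High i j) := by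
    rintro i j (h1 | h1)
    · exact Or.inl h1.1
    · exact Or.inr h1.1
  refine ⟨un, jst, ⟨?_, ?_, ?_, ?_, ?_, ?_, ?_, ?_, ?_, ?_, ?_, ?_, ?_, ?_, ?_, ?_, ?_, ?_, ?_, ?_⟩, ?_⟩
  · rw [h8l]; exact hδs1
  · refine hδs1.trans (le_trans ?_ hz2)
    have := mul_le_mul_of_nonneg_right h.g0 hs0.le
    linarith
  · rw [hTm]
    refine hδs1.trans ?_
    have h1 : (1 : ℝ) ≤ q.m := by rw [h.m]; linarith [h.gκ, h.κ8]
    have := mul_le_mul_of_nonneg_right h1 hs0.le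
    linarith
  · rw [hTm]
    have h1 : (q.m : ℝ) + 1 ≤ q.g := by rw [h.m]; linarith [h.gκ, h.κ8]
    have := mul_le_mul_of_nonneg_right h1 hs0.le
    linarith
  · rw [hTF]
    refine hδs1.trans ?_
    have := mul_le_mul_of_nonneg_right q.FT_ge hs0.le
    linarith
  · rw [hTstar]
    refine hδs1.trans ?_
    push_cast
    have h1 : (1 : ℝ) ≤ q.t := by rw [h.t]; linarith [h.gκ, h.κ8]
    have h2 := mul_le_mul_of_nonneg_left h1 hs0.le
    have h3 : (0 : ℝ) ≤ r0 := Nat.cast_nonneg _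
    linarith
  · rw [hTH]
    refine hδs1.trans ?_
    have h1 : (1 : ℝ) ≤ q.hp := by
      have h2 : (8 : ℝ) * q.K ≤ q.κ * q.K := mul_le_mul_of_nonneg_right h.κ8 hK0
      have h3 : (8 : ℝ) ≤ q.K := by exact_mod_cast q.hK
      linarith
    have := mul_le_mul_of_nonneg_right h1 hs0.le
    linarith
  · intro j
    rw [h1S, h8l, hTH, hTm]
    have h1 := HY.load_H q e hs j j.2
    rw [Finset.sum_range] at h1
    have h2 : ∑ a : Fin q.K, (q.m : ℝ) * s * T.FH a j = (∑ a : Fin q.K, (q.m : ℝ) * q.FH a j) * (s * s) := by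
      rw [Finset.sum_mul]
      refine Finset.sum_congr rfl fun a _ => ?_
      rw [hTFH]; ring
    rw [h2]
    calc _ ≤ ((1 - e / (2 * q.κ)) * q.hp) * ((s : ℝ) * s) :=
          mul_le_mul_of_nonneg_right h1 (by positivity)
      _ = _ := by ring
  · intro j
    rw [h1S, h8l, hTH, hTm]
    have h1 := HY.load_L q e hs j j.2
    rw [Finset.sum_range] at h1
    have h2 : ∑ a : Fin q.K, (q.m : ℝ) * s * T.FL a j = (∑ a : Fin q.K, (q.m : ℝ) * q.FL a j) * (s * s) := by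
      rw [Finset.sum_mul]
      refine Finset.sum_congr rfl fun a _ => ?_
      rw [hTFL]; ring
    rw [h2]
    calc _ ≤ ((1 - e / (2 * q.κ)) * q.hp) * ((s : ℝ) * s) :=
          mul_le_mul_of_nonneg_right h1 (by positivity)
      _ = _ := by ring
  · rw [h1S, hTm, hTF, hTstar, hTH, Fintype.card_fin]
    exact mkq_loadT q e h s r0
  · intro i j _ hO
    rw [hTFL]
    have h1 : q.FL i j = q.need i j := by unfold GP.FL; rw [if_pos hO]
    rw [h1]
    have h2 := (HY.need_bounds q i j (Or.inr hO.1)).1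
    refine hδs.trans (mul_le_mul_of_nonneg_right ?_ hs0.le)
    refine le_trans ?_ h2
    calc e / 8 * ((q.κ - 1) / q.g) ≤ 1 * (((q.κ : ℝ) - 1) / q.g) :=
          mul_le_mul_of_nonneg_right (by linarith) hx0
      _ = _ := one_mul _
  · intro i j he hO
    rw [hTFH]
    have h2 := (HY.need_bounds q i j ((hTel i j).1 he)).1
    refine hδs.trans (mul_le_mul_of_nonneg_right ?_ hs0.le)
    unfold GP.FH GP.FL
    rw [if_neg hO]
    have h3 := (HY.sg_bounds q e hs i i.2).2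
    split_ifs with hJ
    · have h4 : e / 8 * q.need i j ≤ (1 - q.sg i) * q.need i j :=
        mul_le_mul_of_nonneg_right (by linarith) (hx0.trans h2)
      have h5 : e / 8 * ((q.κ - 1) / q.g) ≤ e / 8 * q.need i j :=
        mul_le_mul_of_nonneg_left h2 (by positivity)
      linarith
    · rw [sub_zero]
      refine le_trans ?_ h2
      calc e / 8 * ((q.κ - 1) / q.g) ≤ 1 * (((q.κ : ℝ) - 1) / q.g) :=
            mul_le_mul_of_nonneg_right (by linarith) hx0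
        _ = _ := one_mul _
  · linarith
  · rw [hTH]
    have h1 : (Fintype.card (Fin R × Fin Q) : ℝ) = R * Q := by
      rw [Fintype.card_prod, Fintype.card_fin, Fintype.card_fin, Nat.cast_mul]
    rw [h1]
    have h2 : (R : ℝ) * Q * (q.g + 2) ≤ e / (8 * q.κ) * q.hp := by linarith
    have := mul_le_mul_of_nonneg_right h2 hs0.le
    linarith
  · intro b
    rw [mkq_sum_const, h8l, hTH]
    have h2 := hU b
    have h3 : ((q.g : ℝ) + 1) + (e * q.K / 32 + 2 * (q.g + 1)) ≤ e / (8 * q.κ) * q.hp := by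
      have := h.eK
      have := h.g0
      linarith
    have h4 := mul_le_mul_of_nonneg_right h2 hs0.le
    have h5 := mul_le_mul_of_nonneg_right h3 hs0.le
    linarith
  · intro b b'
    rw [mkq_sum_const, h8l, hTH]
    have h7 := mkq_joint_card q e h _ _ (hU b) (hU b')
    simp only [Set.mem_ofPred_eq, not_not] at h7
    calc q.hp * s ≤ _ := mul_le_mul_of_nonneg_right h7 hs0.le
      _ = _ := by ring
  · intro i
    exact (hTel _ _).2 (hJLH _ _ (hj2 i))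
  · intro i
    exact hj3 i
  · intro i
    rw [hTFL, hFLj _ _ (hj2 i) (hj3 i)]
    refine hδs.trans (mul_le_mul_of_nonneg_right ?_ hs0.le)
    have h2 := (HY.need_bounds q i (jst i) (hJLH _ _ (hj2 i))).1
    exact mul_le_mul (HY.sg_bounds q e hs i i.2).1 h2 hx0
      (le_trans (by positivity) (HY.sg_bounds q e hs i i.2).1)
  · intro i
    have := hj1 i
    simp only [Set.mem_ofPred_eq, not_not] at this
    exact this
  · intro i i' hne _ hun j hz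
    have h1 : (i : ℕ) % R = (i' : ℕ) % R := by rw [← hun1', ← hun1', hun]
    have h2 : (i : ℕ) / Kr = (i' : ℕ) / Kr := by rw [← hun2', ← hun2', hun]
    have hgR : q.g + 1 ≤ q.g * R := by
      rw [hR]
      nlinarith
    have hKrk : Kr ≤ q.k1 + 1 := by
      have h3 : (Kr : ℝ) ≤ q.k1 := hKr1.trans hs.k1_ge
      have h4 : Kr ≤ q.k1 := by exact_mod_cast h3
      omega
    have hne' : (i : ℕ) ≠ (i' : ℕ) := fun h5 => hne (Fin.ext h5)
    rcases lt_or_gt_of_ne hne' with hlt | hlt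
    · exact mkq_sep q R Kr hgR hKr0 hKrk i i' hlt h1 h2 j hz
    · intro hz'
      exact mkq_sep q R Kr hgR hKr0 hKrk i' i hlt h1.symm h2.symm j hz' hz

theorem mkQ (κ g : ℕ) (e : ℝ) (he : 0 < e) :
    ∃ (R Q C : ℕ), 0 < R ∧ 0 < Q ∧ ∀ (c : ℝ) (Kmax Nmax : ℕ), 0 < c →
      ∃ (δ1 S : ℝ), 0 < δ1 ∧ 0 < S ∧ S ≤ 1 / 16 ∧
      ∀ (q : GP) (n p s r0 nz : ℕ), 1 ≤ n → q.κ = κ → q.g = g → q.Small e → C ≤ q.K → q.K ≤ Kmax →
        q.N ≤ Nmax → c * n ≤ s → Link q n p s r0 nz → ∀ T : BS n (Fin q.K) (Fin q.N),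
        8 * T.l = s → T.z = nz + 1 → T.star = r0 + s * q.t → T.mM = q.m * s → T.Ht = q.hp * s →
        T.FT = q.FT * s → (∀ i j, T.el i j ↔ (q.Low i j ∨ q.High i j)) →
        (∀ i, T.iH i = true ↔ 2 * (i : ℕ) < q.K) →
        (∀ i j, T.FH i j = q.FH i j * s) → (∀ i j, T.FL i j = q.FL i j * s) →
        ∃ (un : Fin q.K → Fin R × Fin Q) (jst : Fin q.K → Fin q.N),
          BSQ T (Fin R × Fin Q) un (fun i j => q.ZB i j) (fun i j => q.OnlyL i j)
            (fun j => q.J0 ≤ j ∧ (j : ℕ) < q.J1) jst ((g + 2) * s) δ1 S ∧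
          (∀ i i', i ≠ i' → T.iH i = T.iH i' → un i = un i' → ∀ j, q.ZB i j → ¬ q.ZB i' j) := by
  classical
  by_cases hpar : 8 ≤ κ ∧ 10 * κ ≤ g ∧ e ≤ 1 / 4
  swap
  · refine ⟨1, 1, 0, one_pos, one_pos, fun c _ _ _ => ⟨1, 1 / 16, one_pos, by norm_num, le_rfl, ?_⟩⟩
    intro q n p s r0 nz _ h1 h2 h3
    exact absurd ⟨h1 ▸ q.hκ, by rw [← h1, ← h2]; exact q.hg, h3.e_le⟩ hpar
  obtain ⟨hκ, hg, he1⟩ := hpar
  have hκ' : (8 : ℝ) ≤ κ := by exact_mod_cast hκ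
  have hg' : 10 * (κ : ℝ) ≤ g := by exact_mod_cast hg
  set R : ℕ := 64 * (g + 1) with hR
  set Q : ℕ := ⌈2 / e⌉₊ + 2 with hQ
  refine ⟨R, Q, ⌈8 * ((R : ℝ) * Q * (g + 2)) / e⌉₊, by omega, by omega, fun c Kmax Nmax hc => ?_⟩
  have hS0 : 0 < e / (8 * κ) := by positivity
  have hS1 : e / (8 * κ) ≤ 1 / 16 := by
    rw [div_le_iff₀ (by positivity)]
    linarith
  refine ⟨c * (e / 8 * ((κ - 1) / g)), e / (8 * κ), ?_, hS0, hS1, ?_⟩
  · have : (0 : ℝ) < κ - 1 := by linarith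
    have hg0 : (0 : ℝ) < g := by linarith
    positivity
  intro q n p s r0 nz hn hqκ hqg hs hC _ _ hcs hl T hTl hTz hTstar hTm hTH hTF hTel hTi hTFH hTFL
  have hC' : 8 * ((R : ℝ) * Q * (q.g + 2)) ≤ e * q.K := by
    have h1 : 8 * ((R : ℝ) * Q * (g + 2)) / e ≤ q.K := (Nat.le_ceil _).trans (by exact_mod_cast hC)
    rw [div_le_iff₀ he] at h1
    rw [hqg]
    linarith
  have := mkq_main q e hs R Q (by rw [hR, hqg]) hQ hC' c n p s r0 nz hcs hl T hTl hTz hTstar hTm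
    hTH hTF hTel hTFH hTFL
  rw [hqκ, hqg] at this
  exact this

end Pool.Agent.H70.HY
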