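import Mathlib
import Pool.Agent.H70.HY.Base

/-! Module PAR: choice of the parameters. -/

set_option autoImplicit false

namespace Pool.Agent.H70.HY

open Finset

theorem par_build (ε : ℝ) (hε : 0 < ε) (hε' : ε ≤ 1 / 8) (κ g K0 n p s : ℕ)
    (hκ : 16 ≤ ε * κ) (hg : 200 * (κ : ℝ) ^ 2 ≤ ε * g) (hK0 : 1000 * (g : ℝ) ≤ ε ^ 3 * K0)
    (hs : 0 < s) (h8 : 8 ∣ s) (h1 : ε * n ≤ p) (h2 : (p : ℝ) ≤ (1 / 2 - ε) * n)
    (hn : g * (K0 + 3) * s ≤ n) :
    ∃ (q : GP) (r0 nz : ℕ), q.κ = κ ∧ q.g = g ∧ q.Small ε ∧ K0 ≤ q.K ∧ s * q.N ≤ n + 2 * p ∧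
      q.K ≤ q.N ∧ Link q n p s r0 nz := by
  -- size of the constants
  have hsR : (0 : ℝ) < s := by exact_mod_cast hs
  have hκ0 : (0 : ℝ) ≤ κ := Nat.cast_nonneg κ
  have hκR : (128 : ℝ) ≤ κ := by
    have := mul_le_mul_of_nonneg_right hε' hκ0
    linarith only [this, hκ]
  have hg0 : (0 : ℝ) ≤ g := Nat.cast_nonneg g
  have hgR : 1600 * (κ : ℝ) ^ 2 ≤ g := by
    have := mul_le_mul_of_nonneg_right hε' hg0
    linarith only [this, hg]
  have hgκ : 200000 * (κ : ℝ) ≤ g := by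
    have := mul_le_mul_of_nonneg_right hκR hκ0
    have e : (κ : ℝ) ^ 2 = κ * κ := by ring
    rw [e] at hgR
    linarith only [this, hgR, hκ0]
  have hgpos : 0 < g := by
    have : (0 : ℝ) < g := by linarith
    exact_mod_cast this
  have he3 : ε ^ 3 ≤ 1 / 512 := by
    have := pow_le_pow_left₀ hε.le hε' 3
    norm_num at this ⊢
    exact this
  have he3p : 0 < ε ^ 3 := by positivity
  have hK0n : (0 : ℝ) ≤ K0 := Nat.cast_nonneg K0
  have hK0R : 500000 * (g : ℝ) ≤ K0 := by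
    have := mul_le_mul_of_nonneg_right he3 hK0n
    linarith only [this, hK0, hg0]
  -- the real parameters
  obtain ⟨N, hN⟩ : ∃ N, N = (n + 2 * p) / s := ⟨_, rfl⟩
  obtain ⟨r0, hr0⟩ : ∃ r0, r0 = (n + 2 * p) % s := ⟨_, rfl⟩
  have hNr : s * N + r0 = n + 2 * p := by rw [hN, hr0]; exact Nat.div_add_mod _ _
  have hr0s : r0 < s := by rw [hr0]; exact Nat.mod_lt _ hs
  obtain ⟨P, hP⟩ : ∃ P, P = (2 * p + (s - 1)) / s := ⟨_, rfl⟩
  have hP' := Nat.div_add_mod (2 * p + (s - 1)) s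
  have hP'' := Nat.mod_lt (2 * p + (s - 1)) hs
  rw [← hP] at hP'
  have hP1 : 2 * p ≤ s * P := by omega
  have hP2 : s * P < 2 * p + s := by omega
  obtain ⟨ν, hν⟩ : ∃ ν : ℝ, ν = (n : ℝ) / s := ⟨_, rfl⟩
  obtain ⟨π, hπ⟩ : ∃ π : ℝ, π = (p : ℝ) / s := ⟨_, rfl⟩
  obtain ⟨ρ, hρ⟩ : ∃ ρ : ℝ, ρ = (r0 : ℝ) / s := ⟨_, rfl⟩
  have hνs : ν * s = n := by rw [hν]; field_simp
  have hπs : π * s = p := by rw [hπ]; field_simp
  have hρs : ρ * s = r0 := by rw [hρ]; field_simp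
  have hρ0 : 0 ≤ ρ := by rw [hρ]; positivity
  have hρ1 : ρ < 1 := by
    rw [hρ, div_lt_one hsR]; exact_mod_cast hr0s
  have hNR : (N : ℝ) = ν + 2 * π - ρ := by
    have h : (s : ℝ) * N + r0 = n + 2 * p := by exact_mod_cast hNr
    have : (s : ℝ) * N = s * (ν + 2 * π - ρ) := by
      linarith
    exact mul_left_cancel₀ hsR.ne' this
  have hPa : 2 * π ≤ P := by
    have h : 2 * (p : ℝ) ≤ s * P := by exact_mod_cast hP1
    have : s * (2 * π) ≤ s * (P : ℝ) := by linarith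
    exact le_of_mul_le_mul_left this hsR
  have hPb : (P : ℝ) < 2 * π + 1 := by
    have h : (s : ℝ) * P < 2 * p + s := by exact_mod_cast hP2
    have : s * (P : ℝ) < s * (2 * π + 1) := by linarith
    exact lt_of_mul_lt_mul_left this hsR.le
  have hπ1 : ε * ν ≤ π := by
    have : s * (ε * ν) ≤ s * π := by
      calc (s : ℝ) * (ε * ν) = ε * (ν * s) := by ring
        _ = ε * n := by rw [hνs]
        _ ≤ p := h1
        _ = s * π := by rw [← hπs]; ring
    exact le_of_mul_le_mul_left this hsR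
  have hπ2 : π ≤ (1 / 2 - ε) * ν := by
    have : s * π ≤ s * ((1 / 2 - ε) * ν) := by
      calc (s : ℝ) * π = p := by rw [← hπs]; ring
        _ ≤ (1 / 2 - ε) * n := h2
        _ = s * ((1 / 2 - ε) * ν) := by rw [← hνs]; ring
    exact le_of_mul_le_mul_left this hsR
  have hν0 : (g : ℝ) * (K0 + 3) ≤ ν := by
    have h : (g : ℝ) * (K0 + 3) * s ≤ n := by exact_mod_cast hn
    rw [hν, le_div_iff₀ hsR]; exact h
  have hνpos : 0 ≤ ν := le_trans (by positivity) hν0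
  have hgK0 : 0 ≤ (g : ℝ) * K0 := by positivity
  have hν0' : (g : ℝ) * K0 + 3 * g ≤ ν := by
    have e : (g : ℝ) * K0 + 3 * g = g * (K0 + 3) := by ring
    rw [e]; exact hν0
  -- N2
  have hPN : P + g ≤ N := by
    have : (P : ℝ) + g ≤ N := by
      rw [hNR]
      linarith only [hPb, hρ1, hν0', hgK0, hgκ, hκR]
    exact_mod_cast this
  obtain ⟨N2, hN2⟩ : ∃ N2, N2 = N - P - g := ⟨_, rfl⟩
  have hN2N : N2 + P + g = N := by omega
  have hN2R : (N2 : ℝ) = ν + 2 * π - ρ - P - g := by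
    have : (N2 : ℝ) + P + g = N := by exact_mod_cast hN2N
    linarith
  have hN2a : ν - g - 2 < N2 := by linarith only [hN2R, hPb, hρ1]
  have hN2b : (N2 : ℝ) ≤ ν - g := by linarith only [hN2R, hPa, hρ0]
  have hdiv : (K0 + 1) ≤ N2 / g := by
    rw [Nat.le_div_iff_mul_le hgpos]
    have : (((K0 + 1) * g : ℕ) : ℝ) ≤ N2 := by
      push_cast
      have e : ((K0 : ℝ) + 1) * g = g * K0 + g := by ring
      rw [e]
      linarith only [hN2a, hν0', hgκ, hκR]
    exact_mod_cast this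
  obtain ⟨K, hK⟩ : ∃ K, K = N2 / g - 1 := ⟨_, rfl⟩
  have hK1 : K + 1 = N2 / g := by omega
  have hKK0 : K0 ≤ K := by omega
  have hKa : g * (K + 1) ≤ N2 := by
    rw [hK1]; exact Nat.mul_div_le _ _
  have hKb : N2 < g * (K + 2) := by
    have := Nat.lt_mul_div_succ N2 hgpos
    rw [← hK1] at this
    exact this
  have hKaR : (g : ℝ) * (K + 1) ≤ N2 := by exact_mod_cast hKa
  have hKbR : (N2 : ℝ) < g * (K + 2) := by exact_mod_cast hKb
  have hKR : (K0 : ℝ) ≤ K := by exact_mod_cast hKK0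
  have hKg : 500000 * (g : ℝ) ≤ K := le_trans hK0R hKR
  have hKn : (0 : ℝ) ≤ K := Nat.cast_nonneg K
  -- products
  obtain ⟨gK, hgK⟩ : ∃ x : ℝ, x = g * K := ⟨_, rfl⟩
  obtain ⟨kK, hkK⟩ : ∃ x : ℝ, x = κ * K := ⟨_, rfl⟩
  have hkKK : 128 * (K : ℝ) ≤ kK := by rw [hkK]; exact mul_le_mul_of_nonneg_right hκR hKn
  have hεgK : 25600 * kK ≤ ε * gK := by
    have a1 : 200 * (κ : ℝ) ^ 2 * K ≤ ε * g * K := mul_le_mul_of_nonneg_right hg hKn
    have a2 : 128 * (κ : ℝ) * K ≤ κ ^ 2 * K := by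
      apply mul_le_mul_of_nonneg_right _ hKn
      have e : (κ : ℝ) ^ 2 = κ * κ := by ring
      rw [e]
      exact mul_le_mul_of_nonneg_right hκR hκ0
    have e2 : ε * (g * (K : ℝ)) = ε * g * K := by ring
    have e3 : (128 : ℝ) * (κ * K) = 128 * κ * K := by ring
    rw [hgK, hkK, e2]
    linarith only [a1, a2, e3]
  have hKaR' : gK + g ≤ N2 := by
    have e : gK + g = g * (K + 1) := by rw [hgK]; ring
    rw [e]; exact hKaR
  have hKbR' : (N2 : ℝ) < gK + 2 * g := by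
    have e : gK + 2 * g = g * (K + 2) := by rw [hgK]; ring
    rw [e]; exact hKbR
  have hν1 : gK + 2 * g ≤ ν := by linarith only [hKaR', hN2b]
  have hν2 : ν < gK + 3 * g + 2 := by linarith only [hKbR', hN2a]
  -- hp
  obtain ⟨hp, hhp⟩ : ∃ hp : ℝ, hp = (ν - K * (g - 2 * κ)) / 2 := ⟨_, rfl⟩
  have hhp2 : 2 * hp = ν - gK + 2 * kK := by rw [hhp, hgK, hkK]; ring
  have hpa : kK ≤ hp := by linarith only [hhp2, hν1, hg0]
  have hpb : hp ≤ kK + 3 * g := by linarith only [hhp2, hν2, hgκ, hκR]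
  -- k1
  obtain ⟨g1, hg1⟩ : ∃ x : ℝ, x = (g : ℝ) - κ - 1 := ⟨_, rfl⟩
  have hg1pos : 0 < g1 := by rw [hg1]; linarith only [hgκ, hκR]
  obtain ⟨k1, hk1⟩ : ∃ k1 : ℕ, k1 = ⌈(π + 2 * hp + 1) / g1⌉₊ := ⟨_, rfl⟩
  have hπpos : 0 ≤ π := le_trans (by positivity) hπ1
  have hkKpos : 0 ≤ kK := by rw [hkK]; positivity
  have hnum : 0 ≤ π + 2 * hp + 1 := by linarith only [hπpos, hpa, hkKpos]
  have hk1a : π + 2 * hp + 1 ≤ g1 * k1 := by
    have := Nat.le_ceil ((π + 2 * hp + 1) / g1)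
    rw [← hk1, div_le_iff₀ hg1pos] at this
    linarith
  have hk1b : g1 * k1 < π + 2 * hp + 1 + g1 := by
    have := Nat.ceil_lt_add_one (a := (π + 2 * hp + 1) / g1) (by positivity)
    rw [← hk1] at this
    have h := mul_lt_mul_of_pos_left this hg1pos
    have e : g1 * ((π + 2 * hp + 1) / g1 + 1) = π + 2 * hp + 1 + g1 := by
      field_simp
    rw [e] at h
    exact h
  have hk1n : (0 : ℝ) ≤ k1 := Nat.cast_nonneg k1
  have hk1pos : 1 ≤ k1 := by
    have : 0 < g1 * k1 := by linarith only [hk1a, hπpos, hpa, hkKpos]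
    have : (0 : ℝ) < k1 := by
      rcases hk1n.lt_or_eq with h | h
      · exact h
      · rw [← h] at this; simp at this
    exact_mod_cast this
  have hεν : ε * (gK + 2 * g) ≤ π := le_trans (mul_le_mul_of_nonneg_left hν1 hε.le) hπ1
  have hεg : 0 ≤ ε * g := by positivity
  have hk1_le : 2 * (k1 : ℝ) ≤ (1 - ε) * K := by
    by_contra hcon
    push Not at hcon
    have b1 := mul_lt_mul_of_pos_left hcon hg1pos
    have b2 : gK - ε * gK - (κ + 1) * K ≤ g1 * ((1 - ε) * K) := by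
      have e0 : 0 ≤ ε * (κ + 1) * K := by positivity
      have e1 : g1 * ((1 - ε) * K) = (gK - ε * gK - (κ + 1) * K) + ε * (κ + 1) * K := by
        rw [hg1, hgK]; ring
      rw [e1]; linarith only [e0]
    have b3 : 2 * π ≤ (1 - 2 * ε) * ν := by linarith
    have b4 : (1 - 2 * ε) * ν ≤ (1 - 2 * ε) * (gK + 3 * g + 2) :=
      mul_le_mul_of_nonneg_left hν2.le (by linarith)
    have b5 : (1 - 2 * ε) * (gK + 3 * g + 2) ≤ gK - 2 * (ε * gK) + 3 * g + 2 := by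
      have e1 : (1 - 2 * ε) * (gK + 3 * g + 2) =
        (gK - 2 * (ε * gK) + 3 * g + 2) - (6 * (ε * g) + 4 * ε) := by ring
      rw [e1]; linarith only [hεg, hε]
    have b6 : ((κ : ℝ) + 1) * K = kK + K := by rw [hkK]; ring
    rw [b6] at b2
    have b7 : g1 ≤ g := by rw [hg1]; linarith only [hκ0]
    linarith only [b1, b2, b3, b4, b5, b7, hk1b, hpb, hεgK, hkKK, hKg, hkKpos, hgκ, hκR]
  have hk1_ge : ε * K ≤ k1 := by
    have b1 : g1 * (ε * K) ≤ g1 * k1 := by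
      have e0 : 0 ≤ ε * (κ + 1) * K := by positivity
      have e1 : g1 * (ε * K) = ε * gK - ε * (κ + 1) * K := by
        rw [hg1, hgK]; ring
      have e2 : ε * (gK + 2 * g) = ε * gK + 2 * (ε * g) := by ring
      rw [e1]; linarith only [e0, hεν, e2, hεg, hk1a, hpa, hkKpos]
    exact le_of_mul_le_mul_left b1 hg1pos
  have hεK4 : 4 ≤ ε * K := by
    have c1 : ε ^ 3 * K0 ≤ ε ^ 3 * K := mul_le_mul_of_nonneg_left hKR he3p.le
    have c2 : ε ^ 3 * K ≤ ε * K := by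
      apply mul_le_mul_of_nonneg_right _ hKn
      have e1 : ε ^ 3 ≤ ε ^ 1 := pow_le_pow_of_le_one hε.le (by linarith only [hε']) (by norm_num)
      rw [pow_one] at e1; exact e1
    linarith only [c1, c2, hK0, hgκ, hκR]
  have hk2 : 2 * k1 + 4 ≤ K := by
    have : (2 : ℝ) * k1 + 4 ≤ K := by linarith only [hk1_le, hεK4]
    exact_mod_cast this
  have hPgt : g * (k1 + 4) ≤ P := by
    have : (g : ℝ) * (k1 + 4) ≤ P := by
      have c1 : (g : ℝ) * k1 = g1 * k1 + (κ + 1) * k1 := by rw [hg1]; ring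
      have c2 : 2 * (((κ : ℝ) + 1) * k1) ≤ (κ + 1) * K := by
        have : 2 * (k1 : ℝ) ≤ K := by
          have : 0 ≤ ε * K := by positivity
          linarith
        have := mul_le_mul_of_nonneg_left this (show (0 : ℝ) ≤ κ + 1 by linarith)
        linarith
      have c3 : ((κ : ℝ) + 1) * K = kK + K := by rw [hkK]; ring
      have c4 : g1 ≤ g := by rw [hg1]; linarith only [hκ0]
      have c5 : ε * (gK + 2 * g) = ε * gK + 2 * (ε * g) := by ring
      rw [mul_add, c1]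
      linarith only [c2, c3, c4, c5, hk1b, hpb, hεgK, hkKK, hKg, hkKpos, hgκ, hκR, hεν, hεg, hPa]
    exact_mod_cast this
  have hPge : 2 * ((g : ℝ) - κ - 1) * k1 ≤ P + 4 * hp + 2 * g + 3 := by
    rw [← hg1]
    have c4 : g1 = g - κ - 1 := hg1
    have c5 : 2 * g1 * k1 = 2 * (g1 * k1) := by ring
    rw [c5]
    linarith only [c4, hk1b, hPa, hκ0]
  have hPlt : P + 4 * g ≤ N2 := by
    have : (P : ℝ) + 4 * g ≤ N2 := by
      have c1 : ε * (gK + 2 * g) ≤ ε * ν := mul_le_mul_of_nonneg_left hν1 hε.le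
      have c5 : ε * (gK + 2 * g) = ε * gK + 2 * (ε * g) := by ring
      have c6 : (1 / 2 - ε) * ν = 1 / 2 * ν - ε * ν := by ring
      rw [c6] at hπ2
      linarith only [c1, c5, hπ2, hPb, hN2a, hεgK, hkKK, hKg, hεg, hgκ, hκR]
    exact_mod_cast this
  -- zg, FT
  obtain ⟨zg, hzg⟩ : ∃ x : ℝ, x = g + P - 2 * π + 1 / s := ⟨_, rfl⟩
  have hs1 : (1 : ℝ) / s ≤ 1 := by
    rw [div_le_one hsR]; exact_mod_cast hs
  have hs0 : (0 : ℝ) < 1 / s := by positivity
  have hzga : (g : ℝ) ≤ zg := by rw [hzg]; linarith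
  have hzgb : zg ≤ g + 2 := by rw [hzg]; linarith
  obtain ⟨FT, hFT⟩ : ∃ x : ℝ, x = κ - 2 + ρ - 1 / s := ⟨_, rfl⟩
  have hFTa : 1 ≤ FT := by rw [hFT]; linarith
  have hFTb : FT ≤ κ - 1 := by rw [hFT]; linarith
  have hκN : 128 ≤ κ := by exact_mod_cast hκR
  have hgκN : 10 * κ ≤ g := by
    have : (10 : ℝ) * κ ≤ g := by linarith
    exact_mod_cast this
  have hident : (N2 : ℝ) - (g - κ - 2) - (g - 2 * κ) * (K - 1) + zg + FT = 2 * hp := by
    rw [hhp2, hzg, hFT, hN2R, hgK, hkK]; ring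
  refine ⟨{ κ := κ, g := g, K := K, k1 := k1, P := P, N2 := N2, hp := hp, zg := zg, FT := FT,
            hκ := by omega, hg := hgκN, hK := by
              have : (8 : ℝ) ≤ K := by linarith
              exact_mod_cast this, hk1 := hk1pos, hk2 := hk2, N2_ge := hKa, N2_lt := hKb,
            hp_ge := by rw [← hkK]; exact hpa, hp_le := by rw [← hkK]; exact hpb,
            zg_ge := hzga, zg_le := hzgb, FT_ge := hFTa, FT_le := hFTb, ident := hident,
            P_gt := hPgt, P_ge := hPge, P_lt := hPlt }, r0, s * (g + P) - 2 * p, rfl, rfl, ?_,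
            hKK0, ?_, ?_, ?_⟩
  · exact { e_pos := hε, e_le := by linarith, k1_ge := hk1_ge, k1_le := hk1_le, κ_ge := hκ,
            g_ge := hg, K_ge := le_trans hK0 (mul_le_mul_of_nonneg_left hKR he3p.le) }
  · simp only [GP.N]
    rw [hN2N]; omega
  · simp only [GP.N]
    have : K + 1 ≤ N2 := by
      calc K + 1 = 1 * (K + 1) := by ring
        _ ≤ g * (K + 1) := Nat.mul_le_mul_right _ hgpos
        _ ≤ N2 := hKa
    omega
  · have hgs : 2 * p ≤ s * (g + P) := le_trans hP1 (Nat.mul_le_mul_left _ (by omega))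
    refine { s_pos := hs, s8 := h8, tot := ?_, r0_lt := hr0s, P1 := hP1, P2 := hP2, nz_eq := ?_,
             zg_eq := ?_, FT_eq := ?_, hp_eq := ?_, fit := ?_ }
    · simp only [GP.N]
      rw [hN2N]; omega
    · simp only
      omega
    · simp only
      rw [Nat.cast_sub hgs, hzg]
      push_cast
      rw [← hπs]
      field_simp
    · simp only [GP.m, GP.t]
      have e1 : ((g - κ - 2 : ℕ) : ℝ) = g - κ - 2 := by
        rw [Nat.cast_sub (by omega), Nat.cast_sub (by omega)]; norm_num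
      have e2 : ((g - 2 * κ : ℕ) : ℝ) = g - 2 * κ := by
        rw [Nat.cast_sub (by omega)]; push_cast; ring
      rw [Nat.cast_add, Nat.cast_mul, e1, e2, hFT, ← hρs]
      field_simp
      ring
    · simp only [GP.m]
      have e2 : ((g - 2 * κ : ℕ) : ℝ) = g - 2 * κ := by
        rw [Nat.cast_sub (by omega)]; push_cast; ring
      rw [e2, ← hνs, hhp]
      ring
    · simp only [GP.g1]
      have e3 : ((g - κ - 1 : ℕ) : ℝ) = g1 := by
        rw [Nat.cast_sub (by omega), Nat.cast_sub (by omega), hg1]; norm_num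
      rw [Nat.cast_mul, e3, ← hπs]
      have := mul_le_mul_of_nonneg_left hk1a hsR.le
      linarith

theorem params (ε : ℝ) (hε : 0 < ε) (hε' : ε ≤ 1 / 8) :
    ∃ (κ g : ℕ) (e : ℝ), 0 < e ∧ ∀ C : ℕ, ∃ (Kmax Nmax : ℕ) (c : ℝ) (N1 : ℕ), 0 < c ∧
      ∀ n : ℕ, N1 ≤ n → ∀ p : ℕ, ε * n ≤ p → (p : ℝ) ≤ (1 / 2 - ε) * n →
      ∃ (q : GP) (s r0 nz : ℕ), q.κ = κ ∧ q.g = g ∧ q.Small e ∧ C ≤ q.K ∧ q.K ≤ Kmax ∧
        q.N ≤ Nmax ∧ c * n ≤ s ∧ Link q n p s r0 nz := by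
  obtain ⟨κ, hκ⟩ := exists_nat_ge (16 / ε)
  obtain ⟨g, hg⟩ := exists_nat_ge (200 * (κ : ℝ) ^ 2 / ε)
  rw [div_le_iff₀ hε] at hκ hg
  refine ⟨κ, g, ε, hε, ?_⟩
  intro C
  obtain ⟨K1, hK1⟩ := exists_nat_ge (1000 * (g : ℝ) / ε ^ 3)
  rw [div_le_iff₀ (by positivity)] at hK1
  have hκR : (128 : ℝ) ≤ κ := by nlinarith [(Nat.cast_nonneg κ : (0 : ℝ) ≤ κ)]
  have hgpos : 0 < g := by
    have : (0 : ℝ) < g := by
      by_contra h
      push Not at h
      nlinarith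
    exact_mod_cast this
  obtain ⟨K0, hK0⟩ : ∃ K0, K0 = max C K1 := ⟨_, rfl⟩
  obtain ⟨N0, hN0⟩ : ∃ N0, N0 = g * (K0 + 3) := ⟨_, rfl⟩
  have hN0pos : 0 < N0 := by rw [hN0]; positivity
  refine ⟨4 * N0, 4 * N0, 1 / (2 * N0), 8 * N0, by positivity, ?_⟩
  intro n hn p h1 h2
  obtain ⟨u, hu⟩ : ∃ u, u = n / (8 * N0) := ⟨_, rfl⟩
  have hu1 : 1 ≤ u := by
    rw [hu, Nat.le_div_iff_mul_le (by omega)]; omega
  have hu2 : 8 * N0 * u ≤ n := by rw [hu]; exact Nat.mul_div_le _ _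
  have hu3 : n < 8 * N0 * (u + 1) := by
    rw [hu]; exact Nat.lt_mul_div_succ _ (by omega)
  have hns : n ≤ 2 * N0 * (8 * u) := by nlinarith
  obtain ⟨q, r0, nz, q1, q2, q3, q4, q5, q6, q7⟩ := par_build ε hε hε' κ g K0 n p (8 * u)
    (by linarith) (by linarith)
    (by
      have : (K1 : ℝ) ≤ K0 := by rw [hK0]; exact_mod_cast le_max_right _ _
      have := mul_le_mul_of_nonneg_left this (show 0 ≤ ε ^ 3 by positivity)
      linarith)
    (by omega) ⟨u, rfl⟩ h1 h2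
    (by
      rw [← hN0]
      calc N0 * (8 * u) = 8 * N0 * u := by ring
        _ ≤ n := hu2)
  have hNle : q.N ≤ 4 * N0 := by
    have hpn : 2 * p ≤ n := by
      have : (2 : ℝ) * p ≤ n := by
        have : 0 ≤ ε * n := by positivity
        linarith
      exact_mod_cast this
    have : 8 * u * q.N ≤ 8 * u * (4 * N0) := by
      calc 8 * u * q.N ≤ n + 2 * p := q5
        _ ≤ 2 * n := by omega
        _ ≤ 2 * (2 * N0 * (8 * u)) := Nat.mul_le_mul_left _ hns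
        _ = 8 * u * (4 * N0) := by ring
    exact Nat.le_of_mul_le_mul_left this (by omega)
  refine ⟨q, 8 * u, r0, nz, q1, q2, q3, ?_, le_trans q6 hNle, hNle, ?_, q7⟩
  · exact le_trans (by rw [hK0]; exact le_max_left _ _) q4
  · have : (n : ℝ) ≤ 2 * N0 * (8 * u : ℕ) := by exact_mod_cast hns
    rw [div_mul_eq_mul_div, div_le_iff₀ (by positivity)]
    linarith

end Pool.Agent.H70.HY
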