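import Mathlib
import Pool.Agent.H70.HY.Defs
import Pool.Agent.H70.HY.COL
import Pool.Agent.H70.HY.RTS

/-! Module RTU: the sided schedule of an unsided schedule. -/

set_option autoImplicit false

namespace Pool.Agent.H70.HY

open Finset

/-- Halved classes. -/
abbrev RtuC (A B : Type) := (A × Bool) ⊕ (B × Bool)

/-- Blocks of the sided schedule. -/
abbrev RtuT (A J : Type) := (J × Bool × Bool × Bool) ⊕ A

/-- The class of a half class. -/
def rtu_p {A B : Type} : RtuC A B → A ⊕ B
  | Sum.inl a => Sum.inl a.1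
  | Sum.inr b => Sum.inr b.1

/-- The half. -/
def rtu_bit {A B : Type} : RtuC A B → Bool
  | Sum.inl a => a.2
  | Sum.inr b => b.2

section defs

variable {n : ℕ} {δ : ℝ} {A B J : Type} [Fintype A] [LinearOrder A] [Fintype B] [DecidableEq B]
    [Fintype J] (S : US n δ A B J)

/-- Does the partner come before? -/
def rtu_lt (a : A) (j : J) : Bool :=
  match S.par a j with
  | some a' => decide (a' < a)
  | none => false

/-- Side of the class in a block. -/
def rtu_sd : A ⊕ B → J → Bool × Bool × Bool → Bool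
  | Sum.inl a, j, s => s.1 && rtu_lt S a j
  | Sum.inr b, _, s => if S.ty b = true then s.2.1 else s.2.2

/-- Weights of the unsided schedule. -/
noncomputable def rtu_W : A ⊕ B → A ⊕ B → J → ℝ
  | Sum.inl a, Sum.inl a', j => if S.par a j = some a' then S.w a j else 0
  | Sum.inl a, Sum.inr b, j => S.yw a b j
  | Sum.inr b, Sum.inl a, j => S.yw a b j
  | Sum.inr b, Sum.inr b', j => if S.ty b' ≠ S.ty b then S.yb b b' j else 0

/-- Weights of the zones. -/
noncomputable def rtu_Z : A ⊕ B → A ⊕ B → A → ℝ
  | Sum.inl a, Sum.inr b, a' => if a' = a ∧ b = S.unit a then S.yz a else 0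
  | Sum.inr b, Sum.inl a, a' => if a' = a ∧ b = S.unit a then S.yz a else 0
  | _, _, _ => 0

/-- Weights of the star block. -/
noncomputable def rtu_T : A ⊕ B → A ⊕ B → ℝ
  | Sum.inl a, Sum.inr b => S.yT a b
  | Sum.inr b, Sum.inl a => S.yT a b
  | _, _ => 0

/-- Sides in the sided schedule. -/
def rtu_side (c : RtuC A B) : RtuT A J → Bool
  | Sum.inl θ => xor (rtu_bit c) (rtu_sd S (rtu_p c) θ.1 θ.2)
  | Sum.inr _ => (match c with | Sum.inl _ => true | Sum.inr _ => false)

/-- Weights in the sided schedule. -/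
noncomputable def rtu_y (c c' : RtuC A B) : Option (RtuT A J) → ℝ
  | none => rtu_T S (rtu_p c) (rtu_p c')
  | some (Sum.inl θ) =>
      if rtu_side S c (Sum.inl θ) ≠ rtu_side S c' (Sum.inl θ) then
        rtu_W S (rtu_p c) (rtu_p c') θ.1 / 4 else 0
  | some (Sum.inr a) => rtu_Z S (rtu_p c) (rtu_p c') a

/-- Filling class. -/
def rtu_F (a : A × Bool) : RtuT A J → B × Bool
  | Sum.inl θ => (S.fill a.1 θ.1,
      xor (!(xor a.2 (rtu_sd S (Sum.inl a.1) θ.1 θ.2))) (rtu_sd S (Sum.inr (S.fill a.1 θ.1)) θ.1 θ.2))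
  | Sum.inr _ => (S.unit a.1, false)

/-- Dump. -/
def rtu_dump (a : A × Bool) (θ : RtuT A J) : Option (RtuT A J) :=
  if S.ty (rtu_F S a θ).1 = true then none else
    some (Sum.inl (S.jst a.1, (false, false, xor (rtu_F S a θ).2 (!a.2))))

/-- Tight blocks. -/
def rtu_el (a : A × Bool) : RtuT A J → Prop
  | Sum.inl θ => S.el a.1 θ.1
  | Sum.inr a' => a' = a.1

/-- Lengths. -/
def rtu_len : RtuT A J → ℕ
  | Sum.inl θ => S.l θ.1
  | Sum.inr _ => S.z

end defs

section lem

variable {n : ℕ} {δ : ℝ} {A B J : Type} [Fintype A] [LinearOrder A] [Fintype B] [DecidableEq B]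
    [Fintype J] (S : US n δ A B J)

theorem rtu_W_symm (c c' : A ⊕ B) (j : J) : rtu_W S c c' j = rtu_W S c' c j := by
  rcases c with a | b <;> rcases c' with a' | b'
  · simp only [rtu_W]
    by_cases h : S.par a j = some a'
    · have h2 := (S.par_symm a j a' h).1
      rw [if_pos h, if_pos h2]
      exact S.w_symm a j a' h
    · have h2 : ¬ S.par a' j = some a := by
        intro h3
        exact h (S.par_symm a' j a h3).1
      rw [if_neg h, if_neg h2]
  · rfl
  · rfl
  · simp only [rtu_W]
    by_cases h : S.ty b' = S.ty b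
    · rw [if_neg (by simpa using h), if_neg (by simpa using h.symm)]
    · rw [if_pos h, if_pos (fun h2 => h h2.symm)]
      exact S.yb_symm b b' j

theorem rtu_W_nonneg (c c' : A ⊕ B) (j : J) : 0 ≤ rtu_W S c c' j := by
  rcases c with a | b <;> rcases c' with a' | b' <;> simp only [rtu_W]
  · split_ifs
    · exact S.w_nonneg a j
    · exact le_refl _
  · exact S.yw_nonneg a b' j
  · exact S.yw_nonneg a' b j
  · split_ifs
    · exact S.yb_nonneg b b' j
    · exact le_refl _

theorem rtu_b1 : ∀ e e' u v : Bool, u ≠ v → (∑ s : Bool × Bool × Bool,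
    (if xor e (s.1 && u) ≠ xor e' (s.1 && v) then (1 : ℕ) else 0)) = 4 := by decide

theorem rtu_b2 : ∀ e e' u v : Bool, (∑ s : Bool × Bool × Bool,
    (if xor e (s.1 && u) ≠ xor e' (if v = true then s.2.1 else s.2.2) then (1 : ℕ) else 0)) = 4 := by
  decide

theorem rtu_b3 : ∀ e e' u v : Bool, (∑ s : Bool × Bool × Bool,
    (if xor e (if v = true then s.2.1 else s.2.2) ≠ xor e' (s.1 && u) then (1 : ℕ) else 0)) = 4 := by
  decide

theorem rtu_b4 : ∀ e e' u v : Bool, u ≠ v → (∑ s : Bool × Bool × Bool,
    (if xor e (if u = true then s.2.1 else s.2.2) ≠ xor e' (if v = true then s.2.1 else s.2.2)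
      then (1 : ℕ) else 0)) = 4 := by
  decide

/-- four of the eight blocks have opposite sides. -/
theorem rtu_opp8 (x x' : A ⊕ B) (j : J) (e e' : Bool) (h : rtu_W S x x' j ≠ 0) :
    ∑ s : Bool × Bool × Bool,
      (if xor e (rtu_sd S x j s) ≠ xor e' (rtu_sd S x' j s) then (1 : ℝ) else 0) = 4 := by
  have key : (∑ s : Bool × Bool × Bool,
      (if xor e (rtu_sd S x j s) ≠ xor e' (rtu_sd S x' j s) then (1 : ℕ) else 0)) = 4 := by
    rcases x with a | b <;> rcases x' with a' | b'
    · simp only [rtu_W] at h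
      have h1 : S.par a j = some a' := by
        by_contra h2
        exact h (if_neg h2)
      have h2 := (S.par_symm a j a' h1).1
      have h3 := (S.par_symm a j a' h1).2.1
      apply rtu_b1
      simp only [rtu_lt, h1, h2]
      rcases lt_or_gt_of_ne h3 with h4 | h4
      · have h5 : ¬ a < a' := not_lt.mpr h4.le
        simp [h4, h5]
      · have h5 : ¬ a' < a := not_lt.mpr h4.le
        simp [h4, h5]
    · exact rtu_b2 _ _ _ _
    · exact rtu_b3 _ _ _ _
    · apply rtu_b4
      intro h2
      exact h (if_neg (by simpa using h2.symm))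
  have := congrArg (fun m : ℕ => (m : ℝ)) key
  push_cast at this
  exact this

theorem rtu_opp1 (f g : Bool) (t : ℝ) :
    ∑ e : Bool, (if f ≠ xor e g then t else 0) = t := by
  cases f <;> cases g <;> simp

theorem rtu_y_symm (c c' : RtuC A B) (t : Option (RtuT A J)) : rtu_y S c c' t = rtu_y S c' c t := by
  rcases t with _ | (θ | a)
  · rcases c with a | b <;> rcases c' with a' | b' <;> rfl
  · simp only [rtu_y]
    rw [rtu_W_symm]
    by_cases h : rtu_side S c (Sum.inl θ) = rtu_side S c' (Sum.inl θ)
    · rw [if_neg (by simpa using h), if_neg (by simpa using h.symm)]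
    · rw [if_pos h, if_pos (fun h2 => h h2.symm)]
  · rcases c with a | b <;> rcases c' with a' | b' <;> rfl

theorem rtu_y_nonneg (hδ : 0 < δ) (c c' : RtuC A B) (t : Option (RtuT A J)) :
    0 ≤ rtu_y S c c' t := by
  rcases t with _ | (θ | a)
  · rcases c with a | b <;> rcases c' with a' | b' <;> simp only [rtu_y, rtu_p, rtu_T]
    · exact le_refl _
    · exact S.yT_nonneg _ _
    · exact S.yT_nonneg _ _
    · exact le_refl _
  · simp only [rtu_y]
    have := rtu_W_nonneg S (rtu_p c) (rtu_p c') θ.1
    split_ifs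
    · positivity
    · exact le_refl _
  · have hz : ∀ a, 0 ≤ S.yz a := fun a => hδ.le.trans (S.yz_ge a)
    rcases c with a | b <;> rcases c' with a' | b' <;> simp only [rtu_y, rtu_p, rtu_Z]
    · exact le_refl _
    · split_ifs
      · exact hz _
      · exact le_refl _
    · split_ifs
      · exact hz _
      · exact le_refl _
    · exact le_refl _

theorem rtu_y_sum (c c' : RtuC A B) :
    ∑ t, rtu_y S c c' t = rtu_T S (rtu_p c) (rtu_p c') + (∑ j, rtu_W S (rtu_p c) (rtu_p c') j +
      ∑ a, rtu_Z S (rtu_p c) (rtu_p c') a) := by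
  rw [Fintype.sum_option, Fintype.sum_sum_type]
  congr 1
  congr 1
  rw [Fintype.sum_prod_type]
  refine Finset.sum_congr rfl (fun j _ => ?_)
  by_cases h : rtu_W S (rtu_p c) (rtu_p c') j = 0
  · rw [h]
    refine Finset.sum_eq_zero (fun s _ => ?_)
    simp only [rtu_y, h]
    simp
  · have h8 := rtu_opp8 S (rtu_p c) (rtu_p c') j (rtu_bit c) (rtu_bit c') h
    have : ∀ s : Bool × Bool × Bool, rtu_y S c c' (some (Sum.inl (j, s))) =
        (if xor (rtu_bit c) (rtu_sd S (rtu_p c) j s) ≠ xor (rtu_bit c') (rtu_sd S (rtu_p c') j s)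
          then (1 : ℝ) else 0) * (rtu_W S (rtu_p c) (rtu_p c') j / 4) := by
      intro s
      simp only [rtu_y, rtu_side, ite_mul, one_mul, zero_mul] <;>
        exact if_congr Iff.rfl rfl rfl
    rw [Finset.sum_congr rfl (fun s _ => this s), ← Finset.sum_mul, h8]
    ring

/-- Sums over the half classes. -/
theorem rtu_sum_half (f : A ⊕ B → ℝ) :
    ∑ c : RtuC A B, S.M (rtu_p c) / 2 * f (rtu_p c) = ∑ x, S.M x * f x := by
  rw [Fintype.sum_sum_type, Fintype.sum_sum_type, Fintype.sum_prod_type, Fintype.sum_prod_type]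
  congr 1
  · refine Finset.sum_congr rfl (fun a _ => ?_)
    simp only [Fintype.sum_bool, rtu_p]
    ring
  · refine Finset.sum_congr rfl (fun a _ => ?_)
    simp only [Fintype.sum_bool, rtu_p]
    ring

theorem rtu_sum_blk (c : RtuC A B) (j : J) (s : Bool × Bool × Bool) :
    ∑ c' : RtuC A B, S.M (rtu_p c') / 2 * rtu_y S c c' (some (Sum.inl (j, s))) =
      (∑ x, S.M x * rtu_W S (rtu_p c) x j) / 8 := by
  have key : ∀ x : A ⊕ B, ∑ e : Bool, S.M x / 2 * (if xor (rtu_bit c) (rtu_sd S (rtu_p c) j s) ≠
      xor e (rtu_sd S x j s) then rtu_W S (rtu_p c) x j / 4 else 0) =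
      S.M x * rtu_W S (rtu_p c) x j / 8 := by
    intro x
    rw [← Finset.mul_sum, rtu_opp1]
    ring
  rw [Fintype.sum_sum_type, Fintype.sum_sum_type, Fintype.sum_prod_type, Fintype.sum_prod_type,
    add_div, Finset.sum_div, Finset.sum_div]
  congr 1
  · refine Finset.sum_congr rfl (fun a _ => ?_)
    exact key (Sum.inl a)
  · refine Finset.sum_congr rfl (fun a _ => ?_)
    exact key (Sum.inr a)

theorem rtu_sum_zone (c : RtuC A B) (a : A) :
    ∑ c' : RtuC A B, S.M (rtu_p c') / 2 * rtu_y S c c' (some (Sum.inr a)) =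
      ∑ x, S.M x * rtu_Z S (rtu_p c) x a :=
  rtu_sum_half S (fun x => rtu_Z S (rtu_p c) x a)

theorem rtu_sum_none (c : RtuC A B) :
    ∑ c' : RtuC A B, S.M (rtu_p c') / 2 * rtu_y S c c' none =
      ∑ x, S.M x * rtu_T S (rtu_p c) x :=
  rtu_sum_half S (fun x => rtu_T S (rtu_p c) x)


/-- The sided schedule. -/
noncomputable def rtu_SS (hδ : 0 < δ) : SS n (δ / 8) (A × Bool) (B × Bool) (RtuT A J) where
  M c := S.M (rtu_p c) / 2
  len := rtu_len S
  star := S.star
  el := rtu_el S
  side := rtu_side S
  y := rtu_y S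
  inn a a' := a.1 = a'.1
  hd b b' := S.ty b.1 ≠ S.ty b'.1
  F := rtu_F S
  dump := rtu_dump S
  M_ge := by
    intro c
    have h := S.M_ge (rtu_p c)
    have h2 : 0 ≤ δ * n := by positivity
    linarith
  M_sum := by
    have h := rtu_sum_half S (fun _ => 1)
    simp only [mul_one] at h
    rw [h]
    exact S.M_sum
  inn_refl := fun a => rfl
  inn_symm := fun a a' h => h.symm
  hd_symm := fun b b' h => h.symm
  hd_irrefl := fun b h => h rfl
  y_nonneg := rtu_y_nonneg S hδ
  y_symm := rtu_y_symm S
  y_inn := by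
    rintro ⟨a, e⟩ ⟨a', e'⟩ θ h
    simp only at h
    subst h
    rcases θ with θ | a'
    · have h0 : rtu_W S (Sum.inl a) (Sum.inl a) θ.1 = 0 := by
        simp only [rtu_W]
        rw [if_neg]
        intro h
        exact (S.par_symm a θ.1 a h).2.1 rfl
      simp only [rtu_y, rtu_p, h0]
      simp
    · rfl
  y_sum_AA := by
    rintro ⟨a, e⟩ ⟨a', e'⟩ h
    simp only at h
    rw [rtu_y_sum]
    simp only [rtu_p, rtu_T, rtu_W, rtu_Z]
    rw [S.w_sum a a' h]
    simp
  y_sum_AB := by
    rintro ⟨a, e⟩ ⟨b, e'⟩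
    rw [rtu_y_sum]
    simp only [rtu_p, rtu_T, rtu_W, rtu_Z]
    have h1 : ∑ a', (if a' = a ∧ b = S.unit a then S.yz a else 0) =
        (if b = S.unit a then S.yz a else 0) := by
      by_cases h : b = S.unit a
      · simp [h]
      · simp [h]
    rw [h1]
    have := S.y_sum a b
    linarith
  y_sum_BB := by
    rintro ⟨b, e⟩ ⟨b', e'⟩ h
    simp only at h
    rw [rtu_y_sum]
    simp only [rtu_p, rtu_T, rtu_W, rtu_Z]
    simp only [if_pos (Ne.symm h)]
    rw [S.yb_sum b b' h]
    simp
  y_not_hd := by
    rintro ⟨b, e⟩ ⟨b', e'⟩ t h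
    simp only [not_not] at h
    rcases t with _ | (θ | a)
    · rfl
    · simp only [rtu_y, rtu_p, rtu_W]
      simp [h]
    · rfl
  y_side := by
    intro c c' θ h
    rcases θ with θ | a
    · intro h2
      simp only [rtu_y] at h
      rw [if_neg (by simpa using h2)] at h
      exact lt_irrefl _ h
    · rcases c with x | x <;> rcases c' with x' | x'
      · exact absurd h (lt_irrefl _)
      · simp [rtu_side]
      · simp [rtu_side]
      · exact absurd h (lt_irrefl _)
  y_el := by
    intro a c θ h
    rcases θ with θ | a'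
    · simp only [rtu_y] at h
      have h2 : 0 < rtu_W S (rtu_p (Sum.inl a : RtuC A B)) (rtu_p c) θ.1 := by
        by_contra h3
        have h4 := rtu_W_nonneg S (rtu_p (Sum.inl a : RtuC A B)) (rtu_p c) θ.1
        have h5 : rtu_W S (rtu_p (Sum.inl a : RtuC A B)) (rtu_p c) θ.1 = 0 := le_antisymm
          (not_lt.mp h3) h4
        rw [h5] at h
        simp at h
      show S.el a.1 θ.1
      rcases c with a' | b
      · simp only [rtu_p, rtu_W] at h2
        by_cases h3 : S.par a.1 θ.1 = some a'.1
        · exact (S.par_symm _ _ _ h3).2.2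
        · rw [if_neg h3] at h2
          exact absurd h2 (lt_irrefl _)
      · exact S.yw_el _ _ _ h2
    · rcases c with x | x
      · exact absurd h (lt_irrefl _)
      · simp only [rtu_y, rtu_p, rtu_Z] at h
        show a' = a.1
        by_contra h3
        rw [if_neg (fun h4 => h3 h4.1)] at h
        exact lt_irrefl _ h
  tight := by
    intro a θ h
    rcases θ with ⟨j, s⟩ | a'
    · rw [rtu_sum_blk]
      have h1 := S.tight a.1 j h
      have h2 : ∑ x, S.M x * rtu_W S (rtu_p (Sum.inl a : RtuC A B)) x j = 8 * S.l j := by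
        rw [← h1, Fintype.sum_sum_type]
        congr 1
        simp only [rtu_p, rtu_W]
        rcases hp : S.par a.1 j with _ | a'
        · simp
        · simp [Finset.sum_ite_eq]
      rw [h2]
      show (8 * (S.l j : ℝ)) / 8 = ((S.l j : ℕ) : ℝ)
      ring
    · rw [rtu_sum_zone]
      have h0 : a' = a.1 := h
      subst h0
      rw [Fintype.sum_sum_type]
      simp only [rtu_p, rtu_Z]
      have h1 := S.tightz a.1
      simp only [mul_zero, Finset.sum_const_zero, zero_add, true_and, mul_ite]
      rw [Finset.sum_ite_eq' Finset.univ (S.unit a.1)]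
      show _ = ((S.z : ℕ) : ℝ)
      simpa using h1
  total := by
    intro a
    have h := S.total a.1
    rw [← h]
    classical
    have h1 : (Set.toFinite {θ | rtu_el S a θ}).toFinset =
        Finset.univ.filter (fun θ => rtu_el S a θ) := by
      ext θ
      simp
    have h2 : (Set.toFinite {j | S.el a.1 j}).toFinset =
        Finset.univ.filter (fun j => S.el a.1 j) := by
      ext θ
      simp
    rw [h1, h2, Finset.sum_filter, Finset.sum_filter, Fintype.sum_sum_type,
      Fintype.sum_prod_type]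
    congr 1
    congr 1
    · refine Finset.sum_congr rfl (fun j _ => ?_)
      by_cases h : S.el a.1 j
      · rw [if_pos h]
        rw [Finset.sum_congr rfl (fun s _ => if_pos (show rtu_el S a (Sum.inl (j, s)) from h))]
        simp [rtu_len]
      · rw [if_neg h]
        rw [Finset.sum_congr rfl (fun s _ => if_neg (show ¬ rtu_el S a (Sum.inl (j, s)) from h))]
        simp
    · rw [Finset.sum_eq_single a.1]
      · exact if_pos rfl
      · intro a' _ h
        exact if_neg h
      · simp
  load := by
    intro b θ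
    rcases θ with ⟨j, s⟩ | a
    · rw [rtu_sum_blk]
      have h1 := S.load b.1 j
      have h2 : ∑ x, S.M x * rtu_W S (rtu_p (Sum.inr b : RtuC A B)) x j =
          ∑ a, S.M (Sum.inl a) * S.yw a b.1 j +
            ∑ b', (if S.ty b' ≠ S.ty b.1 then S.M (Sum.inr b') * S.yb b.1 b' j else 0) := by
        rw [Fintype.sum_sum_type]
        congr 1
        refine Finset.sum_congr rfl (fun b' _ => ?_)
        simp only [rtu_p, rtu_W, mul_ite, mul_zero]
      rw [h2]
      show _ ≤ ((S.l j : ℕ) : ℝ) - δ / 8 * n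
      linarith
    · rw [rtu_sum_zone]
      have h1 := S.loadz a
      have h2 := S.z_ge
      have h3 : ∑ x, S.M x * rtu_Z S (rtu_p (Sum.inr b : RtuC A B)) x a =
          if b.1 = S.unit a then S.M (Sum.inl a) * S.yz a else 0 := by
        rw [Fintype.sum_sum_type]
        simp only [rtu_p, rtu_Z, mul_zero, Finset.sum_const_zero, add_zero]
        by_cases h : b.1 = S.unit a
        · rw [if_pos h]
          rw [Finset.sum_eq_single a]
          · simp [h]
          · intro a' _ h4
            rw [if_neg (fun h5 => h4 h5.1.symm), mul_zero]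
          · simp
        · rw [if_neg h]
          refine Finset.sum_eq_zero (fun a' _ => ?_)
          rw [if_neg, mul_zero]
          rintro ⟨h5, h6⟩
          subst h5
          exact h h6
      rw [h3]
      show _ ≤ ((S.z : ℕ) : ℝ) - δ / 8 * n
      have h4 : 0 ≤ δ * n := by positivity
      split_ifs
      · linarith
      · linarith
  loadT := by
    intro b
    rw [rtu_sum_none]
    have h1 := S.loadT b.1
    have h3 : ∑ x, S.M x * rtu_T S (rtu_p (Sum.inr b : RtuC A B)) x =
        ∑ a, S.M (Sum.inl a) * S.yT a b.1 := by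
      rw [Fintype.sum_sum_type]
      simp [rtu_p, rtu_T]
    rw [h3]
    have h4 : 0 ≤ δ * n := by positivity
    linarith
  F_ge := by
    intro a θ h
    rcases θ with θ | a'
    · have h1 := S.fill_ge a.1 θ.1 h
      have h2 : rtu_side S (Sum.inl a) (Sum.inl θ) ≠
          rtu_side S (Sum.inr (rtu_F S a (Sum.inl θ))) (Sum.inl θ) := by
        simp only [rtu_side, rtu_F, rtu_bit, rtu_p]
        generalize rtu_sd S (Sum.inl a.1) θ.1 θ.2 = u
        generalize rtu_sd S (Sum.inr (S.fill a.1 θ.1)) θ.1 θ.2 = v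
        generalize a.2 = w
        revert u v w
        decide
      simp only [rtu_y]
      rw [if_pos h2]
      show δ / 8 ≤ S.yw a.1 (S.fill a.1 θ.1) θ.1 / 4
      linarith
    · have h0 : a' = a.1 := h
      subst h0
      simp only [rtu_y, rtu_p, rtu_Z, rtu_F]
      have := S.yz_ge a.1
      simp only [and_self, if_true]
      linarith
  dump_ge := by
    intro a θ h
    by_cases ht : S.ty (rtu_F S a θ).1 = true
    · rw [rtu_dump, if_pos ht]
      show δ / 8 ≤ S.yT a.1 (rtu_F S a θ).1
      rcases θ with θ | a'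
      · have := S.dumpT a.1 θ.1 h ht
        simp only [rtu_F]
        linarith
      · have := S.dumpzT a.1 ht
        simp only [rtu_F]
        linarith
    · rw [rtu_dump, if_neg ht]
      have ht' : S.ty (rtu_F S a θ).1 = false := by simpa using ht
      have h2 : rtu_side S (Sum.inl a)
          (Sum.inl (S.jst a.1, (false, false, xor (rtu_F S a θ).2 (!a.2)))) ≠
          rtu_side S (Sum.inr (rtu_F S a θ))
          (Sum.inl (S.jst a.1, (false, false, xor (rtu_F S a θ).2 (!a.2)))) := by
        simp only [rtu_side, rtu_bit, rtu_p, rtu_sd, ht']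
        cases (rtu_F S a θ).2 <;> cases a.2 <;> simp
      simp only [rtu_y]
      rw [if_pos h2]
      show δ / 8 ≤ S.yw a.1 (rtu_F S a θ).1 (S.jst a.1) / 4
      rcases θ with θ | a'
      · have := S.dumpJ a.1 θ.1 h ht'
        simp only [rtu_F]
        linarith
      · have := S.dumpzJ a.1 ht'
        simp only [rtu_F]
        linarith
  dump_el := by
    intro a θ θ' h h2
    rw [rtu_dump] at h2
    split_ifs at h2 with h3
    simp only [Option.some.injEq] at h2
    subst h2
    refine ⟨S.jst_el a.1, ?_⟩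
    rw [rtu_dump, if_pos]
    exact S.jst_ty a.1

/-- Are all the edges between the two classes left out? -/
def rtu_out : A ⊕ B → A ⊕ B → Prop
  | Sum.inr b, Sum.inr b' => S.ty b = S.ty b'
  | _, _ => False

/-- Kind of an allocated block. -/
def rtu_kind : Option (RtuT A J) → Kd A J
  | none => Kd.star
  | some (Sum.inl θ) => Kd.blk θ.1
  | some (Sum.inr a) => Kd.zone a

open Classical in
/-- Kind of an edge. -/
noncomputable def rtu_kd (c c' : A ⊕ B) (t : Option (RtuT A J)) : Kd A J :=
  if rtu_out S c c' then Kd.out else rtu_kind t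

/-- Index of one of the eight parts of a block. -/
def rtu_idx (s : Bool × Bool × Bool) : ℕ := 4 * s.1.toNat + 2 * s.2.1.toNat + s.2.2.toNat

/-- Colour of an edge. -/
def rtu_col (t : Option (RtuT A J)) (k : ℕ) : ℕ :=
  match t with
  | some (Sum.inl θ) => rtu_idx θ.2 * S.l θ.1 + k
  | _ => k

theorem rtu_idx_lt : ∀ s, rtu_idx s < 8 := by decide

theorem rtu_idx_inj : ∀ s s', rtu_idx s = rtu_idx s' → s = s' := by decide

theorem rtu_out_symm (c c' : A ⊕ B) : rtu_out S c c' ↔ rtu_out S c' c := by
  rcases c with a | b <;> rcases c' with a' | b'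
  · exact Iff.rfl
  · exact Iff.rfl
  · exact Iff.rfl
  · exact ⟨fun h => Eq.symm h, fun h => Eq.symm h⟩

theorem rtu_H (hδ : 0 < δ) (c c' : RtuC A B) (h : ¬ rtu_out S (rtu_p c) (rtu_p c')) :
    (rtu_SS S hδ).H c c' := by
  rcases c with a | b <;> rcases c' with a' | b'
  · trivial
  · trivial
  · trivial
  · exact h

theorem rtu_ok (c c' : RtuC A B) (t : Option (RtuT A J))
    (h : ¬ rtu_out S (rtu_p c) (rtu_p c') → 0 < rtu_y S c c' t ∨
      (∃ a a', c = Sum.inl a ∧ c' = Sum.inl a' ∧ a.1 = a'.1 ∧ t = none)) :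
    S.Ok (rtu_p c) (rtu_p c') (rtu_kd S (rtu_p c) (rtu_p c') t) := by
  by_cases ho : rtu_out S (rtu_p c) (rtu_p c')
  · rw [rtu_kd, if_pos ho]
    rcases c with a | b <;> rcases c' with a' | b'
    · exact absurd ho (by simp [rtu_out, rtu_p])
    · exact absurd ho (by simp [rtu_out, rtu_p])
    · exact absurd ho (by simp [rtu_out, rtu_p])
    · exact Or.inl ⟨ho, rfl⟩
  · rw [rtu_kd, if_neg ho]
    rcases h ho with h | ⟨a, a', rfl, rfl, h1, rfl⟩
    · rcases t with _ | (θ | z)
      · simp only [rtu_y] at h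
        rcases c with a | b <;> rcases c' with a' | b' <;> simp only [rtu_p, rtu_T] at h
        · exact absurd h (lt_irrefl _)
        · exact Or.inl ⟨rfl, S.yT_ty _ _ h⟩
        · exact Or.inl ⟨rfl, S.yT_ty _ _ h⟩
        · exact absurd h (lt_irrefl _)
      · have h2 : 0 < rtu_W S (rtu_p c) (rtu_p c') θ.1 := by
          have h4 := rtu_W_nonneg S (rtu_p c) (rtu_p c') θ.1
          rcases h4.lt_or_eq with h5 | h5
          · exact h5
          · exfalso
            simp only [rtu_y] at h
            rw [← h5] at h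
            simp at h
        rcases c with a | b <;> rcases c' with a' | b' <;> simp only [rtu_p, rtu_W] at h2
        · refine Or.inr ⟨θ.1, rfl, ?_⟩
          by_contra h3
          rw [if_neg h3] at h2
          exact lt_irrefl _ h2
        · exact Or.inr (Or.inl ⟨θ.1, rfl, h2⟩)
        · exact Or.inr (Or.inl ⟨θ.1, rfl, h2⟩)
        · have h3 : S.ty b'.1 ≠ S.ty b.1 := by
            intro h3
            rw [if_neg (not_not.mpr h3)] at h2
            exact lt_irrefl _ h2
          rw [if_pos h3] at h2
          exact Or.inr ⟨h3.symm, θ.1, rfl, h2⟩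
      · simp only [rtu_y] at h
        rcases c with a | b <;> rcases c' with a' | b' <;> simp only [rtu_p, rtu_Z] at h
        · exact absurd h (lt_irrefl _)
        · have h3 : z = a.1 ∧ b'.1 = S.unit a.1 := by
            by_contra h3
            rw [if_neg h3] at h
            exact lt_irrefl _ h
          refine Or.inr (Or.inr ⟨?_, h3.2⟩)
          rw [h3.1]
          rfl
        · have h3 : z = a'.1 ∧ b.1 = S.unit a'.1 := by
            by_contra h3
            rw [if_neg h3] at h
            exact lt_irrefl _ h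
          refine Or.inr (Or.inr ⟨?_, h3.2⟩)
          rw [h3.1]
          rfl
        · exact absurd h (lt_irrefl _)
    · exact Or.inl ⟨h1, rfl⟩

/-- The half class. -/
def rtu_half {A B : Type} : A ⊕ B → Bool → RtuC A B
  | Sum.inl a, e => Sum.inl (a, e)
  | Sum.inr b, e => Sum.inr (b, e)

omit [Fintype A] [LinearOrder A] [Fintype B] [DecidableEq B] in
theorem rtu_p_eq (c : RtuC A B) (x : A ⊕ B) :
    rtu_p c = x ↔ c = rtu_half x true ∨ c = rtu_half x false := by
  rcases c with ⟨a, e⟩ | ⟨b, e⟩ <;> rcases x with a' | b' <;> cases e <;> simp [rtu_p, rtu_half]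

omit [Fintype A] [LinearOrder A] [Fintype B] [DecidableEq B] in
theorem rtu_half_ne (x : A ⊕ B) : rtu_half x true ≠ rtu_half x false := by
  rcases x with a' | b' <;> simp [rtu_half]

omit [Fintype A] [LinearOrder A] [Fintype B] [DecidableEq B] in
theorem rtu_p_half (x : A ⊕ B) (e : Bool) : rtu_p (rtu_half x e) = x := by
  rcases x with a' | b' <;> rfl

end lem

/-- UTOS: the sided schedule of an unsided schedule. The tight classes, the slack classes are
halved; the block `j` is cut in 8 blocks `(j, s, α, β)`; there is one more block for each zone. -/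
theorem rtu (A B J : Type) [Fintype A] [LinearOrder A] [Fintype B] [DecidableEq B] [Fintype J]
    [DecidableEq J] (δ η : ℝ) (hδ : 0 < δ) (hη : 0 < η) :
    ∃ N0 : ℕ, ∀ n : ℕ, N0 ≤ n → ∀ (S : US n δ A B J) (V : Type) [Fintype V] [DecidableEq V]
      (G : SimpleGraph V), (∀ v, (G.neighborSet v).ncard = n) →
      ∃ (cls : V → A ⊕ B) (kd : V → V → Kd A J) (col : V → V → ℕ), Realised S η G cls kd col := by
  obtain ⟨N0, h0⟩ := HY.rts (A × Bool) (B × Bool) (RtuT A J) (δ / 8) (η / 2) (by positivity)
    (by positivity)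
  refine ⟨N0, ?_⟩
  intro n hn S V _ _ G hG
  obtain ⟨cls', al, h1, h2, h3, h4, h5⟩ := h0 n hn (rtu_SS S hδ) V G hG
  obtain ⟨col', k1, k2, k3⟩ := HY.col (rtu_SS S hδ) G cls' al h2 h3 h4 h5
  refine ⟨fun v => rtu_p (cls' v), fun u v => rtu_kd S (rtu_p (cls' u)) (rtu_p (cls' v)) (al u v),
    fun u v => rtu_col S (al u v) (col' u v), ?_, ?_, ?_, ?_, ?_⟩
  · intro v c
    have e1 : nb G v (fun u => rtu_p (cls' u) = c) =
        nb G v (fun u => cls' u = rtu_half c true) + nb G v (fun u => cls' u = rtu_half c false) := by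
      unfold nb
      rw [← Set.ncard_union_eq]
      · congr 1
        ext u
        simp only [Set.mem_ofPred_eq, Set.mem_union, rtu_p_eq]
        tauto
      · rw [Set.disjoint_left]
        rintro u ⟨_, hu⟩ ⟨_, hu'⟩
        exact rtu_half_ne c (hu.symm.trans hu')
    have a1 := h1 v (rtu_half c true)
    have a2 := h1 v (rtu_half c false)
    have m1 : (rtu_SS S hδ).M (rtu_half c true) = S.M c / 2 := by
      show S.M (rtu_p (rtu_half c true)) / 2 = _
      rw [rtu_p_half]
    have m2 : (rtu_SS S hδ).M (rtu_half c false) = S.M c / 2 := by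
      show S.M (rtu_p (rtu_half c false)) / 2 = _
      rw [rtu_p_half]
    rw [m1, abs_le] at a1
    rw [m2, abs_le] at a2
    rw [e1, abs_le]
    push_cast
    constructor
    · linarith [a1.1, a2.1]
    · linarith [a1.2, a2.2]
  · intro u v huv
    constructor
    · simp only [rtu_kd, h2 u v]
      by_cases ho : rtu_out S (rtu_p (cls' u)) (rtu_p (cls' v))
      · rw [if_pos ho, if_pos ((rtu_out_symm S _ _).1 ho)]
      · rw [if_neg ho, if_neg (fun h => ho ((rtu_out_symm S _ _).2 h))]
    · simp only [h2 u v, k1 u v huv]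
  · intro u v huv
    apply rtu_ok
    intro ho
    exact h3 u v huv (rtu_H S hδ _ _ ho)
  · intro u v huv hk
    have ho : ¬ rtu_out S (rtu_p (cls' u)) (rtu_p (cls' v)) := by
      intro ho
      exact hk (if_pos ho)
    have hc := k2 u v huv (rtu_H S hδ _ _ ho)
    simp only [rtu_kd, if_neg ho]
    rcases hal : al u v with _ | (θ | a)
    · rw [hal] at hc
      exact hc
    · rw [hal] at hc
      have hc' : col' u v < S.l θ.1 := hc
      show rtu_idx θ.2 * S.l θ.1 + col' u v < 8 * S.l θ.1
      have := rtu_idx_lt θ.2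
      nlinarith
    · rw [hal] at hc
      exact hc
  · intro v u u' hu hu' hne hk hk'
    have ho : ¬ rtu_out S (rtu_p (cls' v)) (rtu_p (cls' u)) := by
      intro ho
      exact hk' (if_pos ho)
    have ho' : ¬ rtu_out S (rtu_p (cls' v)) (rtu_p (cls' u')) := by
      intro ho'
      exact hk' (hk.trans (if_pos ho'))
    have hH := rtu_H S hδ _ _ ho
    have hH' := rtu_H S hδ _ _ ho'
    have hc := k2 v u hu hH
    have hc' := k2 v u' hu' hH'
    have k := k3 v u u' hu hu' hne hH hH'
    simp only [rtu_kd, if_neg ho, if_neg ho'] at hk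
    rcases hal : al v u with _ | (θ | a) <;> rcases hal' : al v u' with _ | (θ' | a') <;>
      rw [hal, hal'] at hk k <;> simp only [rtu_kind, reduceCtorEq] at hk
    · intro h
      exact k rfl (by simpa [rtu_col, hal, hal'] using h)
    · simp only [Kd.blk.injEq] at hk
      rw [hal] at hc
      rw [hal'] at hc'
      have hc1 : col' v u < S.l θ.1 := hc
      have hc2 : col' v u' < S.l θ'.1 := hc'
      rw [← hk] at hc2
      intro h
      have h6 : rtu_idx θ.2 * S.l θ.1 + col' v u = rtu_idx θ'.2 * S.l θ.1 + col' v u' := by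
        have : rtu_idx θ.2 * S.l θ.1 + col' v u = rtu_idx θ'.2 * S.l θ'.1 + col' v u' := by
          simpa [rtu_col, hal, hal'] using h
        rwa [← hk] at this
      have h7 : rtu_idx θ.2 = rtu_idx θ'.2 := by
        have d1 : (rtu_idx θ.2 * S.l θ.1 + col' v u) / S.l θ.1 = rtu_idx θ.2 := by
          rw [mul_comm, Nat.mul_add_div (by omega), Nat.div_eq_of_lt hc1, add_zero]
        have d2 : (rtu_idx θ'.2 * S.l θ.1 + col' v u') / S.l θ.1 = rtu_idx θ'.2 := by
          rw [mul_comm, Nat.mul_add_div (by omega), Nat.div_eq_of_lt hc2, add_zero]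
        rw [← d1, ← d2, h6]
      have h8 : θ = θ' := Prod.ext hk (rtu_idx_inj _ _ h7)
      subst h8
      exact k rfl (by omega)
    · simp only [Kd.zone.injEq] at hk
      subst hk
      intro h
      exact k rfl (by simpa [rtu_col, hal, hal'] using h)

end Pool.Agent.H70.HY
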