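import Mathlib
import Pool.Agent.H70.HY.Base

/-! UNITS: introduction of the boundary units. -/

set_option autoImplicit false
set_option linter.unusedSectionVars false

namespace Pool.Agent.H70.HY

open Finset

namespace UNITS

variable {n : ℕ} {A J U : Type} [Fintype A] [LinearOrder A] [Fintype J] [Fintype U] [DecidableEq U]

/-- usage of the type `τ` -/
noncomputable def F (T : BS n A J) (τ : Bool) (a : A) (j : J) : ℝ :=
  if τ = true then T.FH a j else T.FL a j

noncomputable def FT (T : BS n A J) (τ : Bool) : ℝ := if τ = true then T.FT else 0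

open Classical in
noncomputable def I (T : BS n A J) (un : A → U) (ZB : A → J → Prop) (τ : Bool) (u : U) (j : J) : ℝ :=
  if av T.iH un ZB (τ, some u) j then 1 else 0

noncomputable def Z (T : BS n A J) (un : A → U) (ZB : A → J → Prop) (τ : Bool) (u : U) (a : A) : ℝ :=
  ∑ j, I T un ZB τ u j * F T τ a j + FT T τ

noncomputable def rho (T : BS n A J) (un : A → U) (β : ℝ) (τ : Bool) (u : U) (a : A) : ℝ :=
  1 - (if ((τ, some u) : Bool × Option U) = (T.iH a, some (un a)) then (T.z : ℝ) / β else 0)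

noncomputable def y1 (T : BS n A J) (un : A → U) (ZB : A → J → Prop) (β : ℝ) (τ : Bool) (u : U)
    (a : A) (j : J) : ℝ :=
  I T un ZB τ u j * F T τ a j * rho T un β τ u a / Z T un ZB τ u a

noncomputable def y1T (T : BS n A J) (un : A → U) (ZB : A → J → Prop) (β : ℝ) (τ : Bool) (u : U)
    (a : A) : ℝ :=
  FT T τ * rho T un β τ u a / Z T un ZB τ u a

noncomputable def W0 (T : BS n A J) (U : Type) [Fintype U] (β : ℝ) : ℝ := T.Ht - Fintype.card U * β

noncomputable def yw (T : BS n A J) (un : A → U) (ZB : A → J → Prop) (β : ℝ) (a : A)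
    (b : Bool × Option U) (j : J) : ℝ :=
  match b with
  | (τ, some u) => y1 T un ZB β τ u a j
  | (τ, none) => (F T τ a j - β * ∑ u, y1 T un ZB β τ u a j) / W0 T U β

noncomputable def yT (T : BS n A J) (un : A → U) (ZB : A → J → Prop) (β : ℝ) (a : A)
    (b : Bool × Option U) : ℝ :=
  match b with
  | (τ, some u) => y1T T un ZB β τ u a
  | (τ, none) => (FT T τ - β * ∑ u, y1T T un ZB β τ u a) / W0 T U β

noncomputable def MM (T : BS n A J) (U : Type) [Fintype U] (β : ℝ) : A ⊕ (Bool × Option U) → ℝ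
  | Sum.inl _ => T.mM
  | Sum.inr (_, some _) => β
  | Sum.inr (_, none) => W0 T U β

/-- blocks jointly available -/
def JS (T : BS n A J) (un : A → U) (ZB : A → J → Prop) (JJ : J → Prop) (b b' : Bool × Option U) :
    Set J := {j | JJ j ∧ av T.iH un ZB b j ∧ av T.iH un ZB b' j}

theorem JS_symm (T : BS n A J) (un : A → U) (ZB : A → J → Prop) (JJ : J → Prop)
    (b b' : Bool × Option U) : JS T un ZB JJ b b' = JS T un ZB JJ b' b := by
  ext j; simp only [JS, Set.mem_ofPred_eq]; tauto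

open Classical in
noncomputable def yb (T : BS n A J) (un : A → U) (ZB : A → J → Prop) (JJ : J → Prop)
    (b b' : Bool × Option U) (j : J) : ℝ :=
  if b.1 ≠ b'.1 ∧ j ∈ JS T un ZB JJ b b' then
    1 / ((Set.toFinite (JS T un ZB JJ b b')).toFinset.card : ℝ) else 0

section

variable {T : BS n A J} {un : A → U} {ZB : A → J → Prop} {OL : A → J → Prop} {JJ : J → Prop}
  {jst : A → J} {β δ1 S : ℝ}

theorem F_nonneg (T : BS n A J) (τ : Bool) (a : A) (j : J) : 0 ≤ F T τ a j := by
  unfold F; split_ifs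
  · exact T.FH_nonneg a j
  · exact T.FL_nonneg a j

theorem FT_nonneg (T : BS n A J) (τ : Bool) : 0 ≤ FT T τ := by
  unfold FT; split_ifs
  · exact T.FT_nonneg
  · exact le_rfl

theorem FT_le (T : BS n A J) (τ : Bool) : FT T τ ≤ T.FT := by
  unfold FT; split_ifs
  · exact le_rfl
  · exact T.FT_nonneg

theorem F_zero (T : BS n A J) (τ : Bool) (a : A) (j : J) (h : ¬ T.el a j) : F T τ a j = 0 := by
  unfold F; split_ifs
  · exact (T.F_el a j h).1
  · exact (T.F_el a j h).2

theorem I_nonneg (T : BS n A J) (un : A → U) (ZB : A → J → Prop) (τ : Bool) (u : U) (j : J) :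
    0 ≤ I T un ZB τ u j := by
  unfold I; split_ifs <;> norm_num

theorem I_le (T : BS n A J) (un : A → U) (ZB : A → J → Prop) (τ : Bool) (u : U) (j : J) :
    I T un ZB τ u j ≤ 1 := by
  unfold I; split_ifs <;> norm_num

theorem F_tot (T : BS n A J) (τ : Bool) (a : A) :
    ∑ j, F T τ a j + FT T τ + (if T.iH a = τ then (T.z : ℝ) else 0) = T.Ht := by
  cases τ with
  | true => simpa [F, FT] using T.totH a
  | false =>
    have h := T.totL a
    have e : (if T.iH a = true then (0 : ℝ) else (T.z : ℝ)) = if T.iH a = false then (T.z : ℝ) else 0 := by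
      cases T.iH a <;> simp
    rw [e] at h
    simpa [F, FT] using h

variable (h : BSQ T U un ZB OL JJ jst β δ1 S)
include h

theorem mM_nonneg (hn : 1 ≤ n) (hδ1 : 0 < δ1) : 0 < T.mM := by
  have h1 := h.mM_ge
  have : 0 < δ1 * n := by positivity
  linarith

theorem Ht_pos (hn : 1 ≤ n) (hδ1 : 0 < δ1) : 0 < T.Ht := by
  have h1 := h.Ht_ge
  have : 0 < δ1 * n := by positivity
  linarith

theorem β_pos (hn : 1 ≤ n) (hδ1 : 0 < δ1) : 0 < β := by
  have h1 := h.β_ge
  have : 0 < δ1 * n := by positivity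
  have : (0 : ℝ) ≤ T.z := by positivity
  linarith

theorem Ht_le (hn : 1 ≤ n) (hδ1 : 0 < δ1) : 2 * T.Ht ≤ n := by
  have h1 := T.mass
  have : 0 ≤ (Fintype.card A : ℝ) * T.mM := by
    have := mM_nonneg h hn hδ1
    positivity
  linarith

theorem β_le' (hn : 1 ≤ n) (hδ1 : 0 < δ1) (hS1 : S ≤ 1 / 16) (a : A) : 32 * β ≤ n := by
  have h1 := h.β_le
  have hc : (1 : ℝ) ≤ Fintype.card U := by
    have : 0 < Fintype.card U := Fintype.card_pos_iff.2 ⟨un a⟩
    exact_mod_cast this
  have hb := β_pos h hn hδ1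
  have hH := Ht_le h hn hδ1
  have hHp := Ht_pos h hn hδ1
  have : β ≤ (Fintype.card U : ℝ) * β := by nlinarith
  have : S * T.Ht ≤ 1 / 16 * T.Ht := by nlinarith
  linarith

theorem F_le (hn : 1 ≤ n) (hδ1 : 0 < δ1) (τ : Bool) (a : A) (j : J) : F T τ a j ≤ 8 * T.l := by
  by_cases hel : T.el a j
  · have h1 := T.tight a j hel
    have h2 : 0 ≤ (if T.par a j = none then 0 else T.mM * T.w a j) := by
      split_ifs
      · exact le_rfl
      · exact mul_nonneg (mM_nonneg h hn hδ1).le (T.w_nonneg a j)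
    have h3 := T.FH_nonneg a j
    have h4 := T.FL_nonneg a j
    unfold F; split_ifs <;> linarith
  · rw [F_zero T τ a j hel]; positivity

theorem Z_ge (hn : 1 ≤ n) (hδ1 : 0 < δ1) (τ : Bool) (u : U) (a : A) :
    (1 - S) * T.Ht ≤ Z T un ZB τ u a := by
  classical
  have h1 := F_tot T τ a
  have h2 := h.unav (τ, some u)
  have h3 : ∑ j, F T τ a j ≤ ∑ j, I T un ZB τ u j * F T τ a j +
      ∑ _j ∈ (Set.toFinite {j | ¬ av T.iH un ZB (τ, some u) j}).toFinset, 8 * (T.l : ℝ) := by
    have e : ∑ _j ∈ (Set.toFinite {j | ¬ av T.iH un ZB (τ, some u) j}).toFinset, 8 * (T.l : ℝ)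
        = ∑ j, if ¬ av T.iH un ZB (τ, some u) j then 8 * (T.l : ℝ) else 0 := by
      rw [← Finset.sum_filter]
      refine Finset.sum_congr ?_ (fun _ _ => rfl)
      ext j; simp
    rw [e, ← Finset.sum_add_distrib]
    refine Finset.sum_le_sum fun j _ => ?_
    unfold I
    by_cases hav : av T.iH un ZB (τ, some u) j
    · simp [hav]
    · simp only [hav, if_false, not_false_eq_true, if_true, zero_mul, zero_add]
      exact F_le h hn hδ1 τ a j
  have h4 : (if T.iH a = τ then (T.z : ℝ) else 0) ≤ T.z := by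
    split_ifs
    · exact le_rfl
    · positivity
  unfold Z
  linarith

theorem Z_le (τ : Bool) (u : U) (a : A) : Z T un ZB τ u a ≤ T.Ht := by
  have h1 := F_tot T τ a
  have h3 : ∑ j, I T un ZB τ u j * F T τ a j ≤ ∑ j, F T τ a j := by
    refine Finset.sum_le_sum fun j _ => ?_
    have := I_le T un ZB τ u j
    have := F_nonneg T τ a j
    nlinarith
  have h4 : 0 ≤ (if T.iH a = τ then (T.z : ℝ) else 0) := by
    split_ifs
    · positivity
    · exact le_rfl
  unfold Z
  linarith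

theorem Z_pos (hn : 1 ≤ n) (hδ1 : 0 < δ1) (hS1 : S ≤ 1 / 16) (τ : Bool) (u : U) (a : A) :
    0 < Z T un ZB τ u a := by
  have := Z_ge h hn hδ1 τ u a
  have := Ht_pos h hn hδ1
  have : 0 < (1 - S) * T.Ht := mul_pos (by linarith) this
  linarith

theorem W0_ge : (1 - S) * T.Ht ≤ W0 T U β := by
  have := h.β_le
  unfold W0; linarith

theorem W0_le (hn : 1 ≤ n) (hδ1 : 0 < δ1) : W0 T U β ≤ T.Ht := by
  have : 0 ≤ (Fintype.card U : ℝ) * β := by
    have := β_pos h hn hδ1
    positivity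
  unfold W0; linarith

theorem W0_pos (hn : 1 ≤ n) (hδ1 : 0 < δ1) (hS1 : S ≤ 1 / 16) : 0 < W0 T U β := by
  have := W0_ge h
  have := Ht_pos h hn hδ1
  have : 0 < (1 - S) * T.Ht := mul_pos (by linarith) this
  linarith

theorem zβ_le (hn : 1 ≤ n) (hδ1 : 0 < δ1) : (T.z : ℝ) / β ≤ 1 - δ1 * n / β := by
  have hb := β_pos h hn hδ1
  have := h.β_ge
  rw [div_le_iff₀ hb, sub_mul, div_mul_cancel₀ _ hb.ne']
  linarith

theorem rho_nonneg (hn : 1 ≤ n) (hδ1 : 0 < δ1) (τ : Bool) (u : U) (a : A) :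
    0 ≤ rho T un β τ u a := by
  have hb := β_pos h hn hδ1
  have h1 := zβ_le h hn hδ1
  have : 0 ≤ δ1 * n / β := by positivity
  unfold rho; split_ifs <;> linarith

theorem rho_ge (hn : 1 ≤ n) (hδ1 : 0 < δ1) (hS1 : S ≤ 1 / 16) (τ : Bool) (u : U) (a : A) :
    min 1 (32 * δ1) ≤ rho T un β τ u a := by
  have hb := β_pos h hn hδ1
  have h1 := zβ_le h hn hδ1
  have h2 := β_le' h hn hδ1 hS1 a
  have h3 : 32 * δ1 ≤ δ1 * n / β := by
    rw [le_div_iff₀ hb]; nlinarith
  unfold rho; split_ifs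
  · refine (min_le_right _ _).trans ?_; linarith
  · refine (min_le_left _ _).trans ?_; linarith

theorem rho_le (hn : 1 ≤ n) (hδ1 : 0 < δ1) (τ : Bool) (u : U) (a : A) :
    rho T un β τ u a ≤ 1 := by
  have hb := β_pos h hn hδ1
  have : 0 ≤ (T.z : ℝ) / β := by positivity
  unfold rho; split_ifs <;> linarith

theorem y1_nonneg (hn : 1 ≤ n) (hδ1 : 0 < δ1) (hS1 : S ≤ 1 / 16) (τ : Bool) (u : U) (a : A)
    (j : J) : 0 ≤ y1 T un ZB β τ u a j :=
  div_nonneg (mul_nonneg (mul_nonneg (I_nonneg _ _ _ _ _ _) (F_nonneg _ _ _ _))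
    (rho_nonneg h hn hδ1 _ _ _)) (Z_pos h hn hδ1 hS1 _ _ _).le

theorem y1T_nonneg (hn : 1 ≤ n) (hδ1 : 0 < δ1) (hS1 : S ≤ 1 / 16) (τ : Bool) (u : U) (a : A) :
    0 ≤ y1T T un ZB β τ u a :=
  div_nonneg (mul_nonneg (FT_nonneg _ _) (rho_nonneg h hn hδ1 _ _ _)) (Z_pos h hn hδ1 hS1 _ _ _).le

theorem y1_le (hn : 1 ≤ n) (hδ1 : 0 < δ1) (hS1 : S ≤ 1 / 16) (τ : Bool) (u : U) (a : A)
    (j : J) : y1 T un ZB β τ u a j ≤ F T τ a j / ((1 - S) * T.Ht) := by
  have hH := Ht_pos h hn hδ1
  have hp : 0 < (1 - S) * T.Ht := mul_pos (by linarith) hH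
  have hz := Z_ge h hn hδ1 τ u a
  have hF := F_nonneg T τ a j
  unfold y1
  refine (div_le_div_of_nonneg_left ?_ hp hz).trans ?_
  · exact mul_nonneg (mul_nonneg (I_nonneg _ _ _ _ _ _) hF) (rho_nonneg h hn hδ1 _ _ _)
  · refine div_le_div_of_nonneg_right ?_ hp.le
    have h1 := I_le T un ZB τ u j
    have h0 := I_nonneg T un ZB τ u j
    have h2 := rho_le h hn hδ1 τ u a
    have h3 := rho_nonneg h hn hδ1 τ u a
    have h4 : I T un ZB τ u j * F T τ a j ≤ F T τ a j := by nlinarith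
    have h5 : 0 ≤ I T un ZB τ u j * F T τ a j := mul_nonneg h0 hF
    nlinarith

theorem y1T_le (hn : 1 ≤ n) (hδ1 : 0 < δ1) (hS1 : S ≤ 1 / 16) (τ : Bool) (u : U) (a : A) :
    y1T T un ZB β τ u a ≤ FT T τ / ((1 - S) * T.Ht) := by
  have hH := Ht_pos h hn hδ1
  have hp : 0 < (1 - S) * T.Ht := mul_pos (by linarith) hH
  have hz := Z_ge h hn hδ1 τ u a
  have hF := FT_nonneg T τ
  unfold y1T
  refine (div_le_div_of_nonneg_left ?_ hp hz).trans ?_
  · exact mul_nonneg hF (rho_nonneg h hn hδ1 _ _ _)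
  · refine div_le_div_of_nonneg_right ?_ hp.le
    have h2 := rho_le h hn hδ1 τ u a
    nlinarith

/-- the units use at most a half of everything -/
theorem sum_y1_le (hn : 1 ≤ n) (hδ1 : 0 < δ1) (hS1 : S ≤ 1 / 16) (τ : Bool) (a : A)
    (j : J) : β * ∑ u : U, y1 T un ZB β τ u a j ≤ F T τ a j / 2 := by
  have hH := Ht_pos h hn hδ1
  have hp : 0 < (1 - S) * T.Ht := mul_pos (by linarith) hH
  have hb := β_pos h hn hδ1
  have hF := F_nonneg T τ a j
  have h1 : ∑ u : U, y1 T un ZB β τ u a j ≤ Fintype.card U * (F T τ a j / ((1 - S) * T.Ht)) := by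
    have := Finset.sum_le_card_nsmul (univ : Finset U) (fun u => y1 T un ZB β τ u a j) _
      (fun u _ => y1_le h hn hδ1 hS1 τ u a j)
    simpa [nsmul_eq_mul] using this
  have h2 : β * ∑ u : U, y1 T un ZB β τ u a j ≤
      (Fintype.card U * β) * (F T τ a j / ((1 - S) * T.Ht)) := by
    calc β * ∑ u : U, y1 T un ZB β τ u a j
        ≤ β * (Fintype.card U * (F T τ a j / ((1 - S) * T.Ht))) := mul_le_mul_of_nonneg_left h1 hb.le
      _ = _ := by ring
  have h3 : (Fintype.card U * β) * (F T τ a j / ((1 - S) * T.Ht)) ≤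
      (S * T.Ht) * (F T τ a j / ((1 - S) * T.Ht)) :=
    mul_le_mul_of_nonneg_right h.β_le (by positivity)
  have h4 : (S * T.Ht) * (F T τ a j / ((1 - S) * T.Ht)) ≤ F T τ a j / 2 := by
    have hS' : 0 < 1 - S := by linarith
    have e : (S * T.Ht) * (F T τ a j / ((1 - S) * T.Ht)) = S / (1 - S) * F T τ a j := by
      field_simp
    rw [e]
    have : S / (1 - S) ≤ 1 / 2 := by
      rw [div_le_iff₀ hS']; linarith
    nlinarith
  linarith

theorem sum_y1T_le (hn : 1 ≤ n) (hδ1 : 0 < δ1) (hS1 : S ≤ 1 / 16) (τ : Bool) (a : A) :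
    β * ∑ u : U, y1T T un ZB β τ u a ≤ FT T τ / 2 := by
  have hH := Ht_pos h hn hδ1
  have hp : 0 < (1 - S) * T.Ht := mul_pos (by linarith) hH
  have hb := β_pos h hn hδ1
  have hF := FT_nonneg T τ
  have h1 : ∑ u : U, y1T T un ZB β τ u a ≤ Fintype.card U * (FT T τ / ((1 - S) * T.Ht)) := by
    have := Finset.sum_le_card_nsmul (univ : Finset U) (fun u => y1T T un ZB β τ u a) _
      (fun u _ => y1T_le h hn hδ1 hS1 τ u a)
    simpa [nsmul_eq_mul] using this
  have h2 : β * ∑ u : U, y1T T un ZB β τ u a ≤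
      (Fintype.card U * β) * (FT T τ / ((1 - S) * T.Ht)) := by
    calc β * ∑ u : U, y1T T un ZB β τ u a
        ≤ β * (Fintype.card U * (FT T τ / ((1 - S) * T.Ht))) := mul_le_mul_of_nonneg_left h1 hb.le
      _ = _ := by ring
  have h3 : (Fintype.card U * β) * (FT T τ / ((1 - S) * T.Ht)) ≤
      (S * T.Ht) * (FT T τ / ((1 - S) * T.Ht)) :=
    mul_le_mul_of_nonneg_right h.β_le (by positivity)
  have h4 : (S * T.Ht) * (FT T τ / ((1 - S) * T.Ht)) ≤ FT T τ / 2 := by
    have hS' : 0 < 1 - S := by linarith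
    have e : (S * T.Ht) * (FT T τ / ((1 - S) * T.Ht)) = S / (1 - S) * FT T τ := by
      field_simp
    rw [e]
    have : S / (1 - S) ≤ 1 / 2 := by
      rw [div_le_iff₀ hS']; linarith
    nlinarith
  linarith

theorem yw_nonneg (hn : 1 ≤ n) (hδ1 : 0 < δ1) (hS1 : S ≤ 1 / 16) (a : A) (b : Bool × Option U)
    (j : J) : 0 ≤ yw T un ZB β a b j := by
  obtain ⟨τ, _ | u⟩ := b
  · have h1 := sum_y1_le h hn hδ1 hS1 τ a j
    have h2 := F_nonneg T τ a j
    exact div_nonneg (by linarith) (W0_pos h hn hδ1 hS1).le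
  · exact y1_nonneg h hn hδ1 hS1 τ u a j

theorem yT_nonneg (hn : 1 ≤ n) (hδ1 : 0 < δ1) (hS1 : S ≤ 1 / 16) (a : A) (b : Bool × Option U) :
    0 ≤ yT T un ZB β a b := by
  obtain ⟨τ, _ | u⟩ := b
  · have h1 := sum_y1T_le h hn hδ1 hS1 τ a
    have h2 := FT_nonneg T τ
    exact div_nonneg (by linarith) (W0_pos h hn hδ1 hS1).le
  · exact y1T_nonneg h hn hδ1 hS1 τ u a

/-- the main class uses at least a half of everything -/
theorem yw_main_ge (hn : 1 ≤ n) (hδ1 : 0 < δ1) (hS1 : S ≤ 1 / 16) (a : A) (τ : Bool)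
    (j : J) (hF : δ1 * n ≤ F T τ a j) : δ1 ≤ yw T un ZB β a (τ, none) j := by
  have h1 := sum_y1_le h hn hδ1 hS1 τ a j
  have h2 := W0_le h hn hδ1
  have h3 := W0_pos h hn hδ1 hS1
  have h4 := Ht_le h hn hδ1
  show δ1 ≤ (F T τ a j - β * ∑ u, y1 T un ZB β τ u a j) / W0 T U β
  rw [le_div_iff₀ h3]
  nlinarith

theorem yT_main_ge (hn : 1 ≤ n) (hδ1 : 0 < δ1) (hS1 : S ≤ 1 / 16) (a : A) :
    δ1 ≤ yT T un ZB β a (true, none) := by
  have h1 := sum_y1T_le h hn hδ1 hS1 true a
  have h2 := W0_le h hn hδ1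
  have h3 := W0_pos h hn hδ1 hS1
  have h4 := Ht_le h hn hδ1
  have h5 := h.FT_ge
  show δ1 ≤ (FT T true - β * ∑ u, y1T T un ZB β true u a) / W0 T U β
  rw [le_div_iff₀ h3]
  have h6 : FT T true = T.FT := by simp [FT]
  rw [h6] at h1 ⊢
  nlinarith

theorem unit_ge (hn : 1 ≤ n) (hδ1 : 0 < δ1) (hδ1' : δ1 ≤ 1 / 2) (hS1 : S ≤ 1 / 16) (a : A)
    (τ : Bool) (u : U) (x : ℝ) (hx : δ1 * n ≤ x) :
    2 * δ1 ^ 2 ≤ x * rho T un β τ u a / Z T un ZB τ u a := by
  have h1 := rho_ge h hn hδ1 hS1 τ u a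
  have h2 := Z_le h τ u a
  have h3 := Z_pos h hn hδ1 hS1 τ u a
  have h4 := Ht_le h hn hδ1
  have h5 : 2 * δ1 ≤ rho T un β τ u a := by
    refine le_trans ?_ h1
    rw [le_min_iff]; constructor <;> linarith
  rw [le_div_iff₀ h3]
  have h6 : δ1 * n * (2 * δ1) ≤ x * rho T un β τ u a := by
    refine mul_le_mul hx h5 (by positivity) ?_
    have : 0 ≤ δ1 * n := by positivity
    linarith
  have h7 : 2 * δ1 ^ 2 * Z T un ZB τ u a ≤ 2 * δ1 ^ 2 * n := by
    refine mul_le_mul_of_nonneg_left ?_ (by positivity)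
    have := Ht_pos h hn hδ1
    linarith
  nlinarith

theorem y_sum (hn : 1 ≤ n) (hδ1 : 0 < δ1) (hS1 : S ≤ 1 / 16) (a : A) (b : Bool × Option U) :
    ∑ j, yw T un ZB β a b j + (if b = (T.iH a, some (un a)) then (T.z : ℝ) / β else 0) +
      yT T un ZB β a b = 1 := by
  have key : ∀ τ u, ∑ j, y1 T un ZB β τ u a j + y1T T un ZB β τ u a = rho T un β τ u a := by
    intro τ u
    have hZ := Z_pos h hn hδ1 hS1 τ u a
    unfold y1 y1T
    rw [← Finset.sum_div, ← add_div, ← Finset.sum_mul, ← add_mul]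
    rw [show (∑ i, I T un ZB τ u i * F T τ a i + FT T τ) = Z T un ZB τ u a from rfl]
    field_simp
  obtain ⟨τ, _ | u⟩ := b
  · have hW := W0_pos h hn hδ1 hS1
    have hb := β_pos h hn hδ1
    have h1 : ((τ, none) : Bool × Option U) ≠ (T.iH a, some (un a)) := by simp
    rw [if_neg h1]
    show ∑ j, (F T τ a j - β * ∑ u, y1 T un ZB β τ u a j) / W0 T U β + 0 +
      (FT T τ - β * ∑ u, y1T T un ZB β τ u a) / W0 T U β = 1
    rw [← Finset.sum_div, add_zero, ← add_div, Finset.sum_sub_distrib, ← Finset.mul_sum,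
      Finset.sum_comm]
    rw [div_eq_one_iff_eq hW.ne']
    have h2 : ∑ u : U, rho T un β τ u a = Fintype.card U - (if T.iH a = τ then (T.z : ℝ) / β else 0) := by
      unfold rho
      rw [Finset.sum_sub_distrib]
      congr 1
      · simp
      · by_cases hτ : T.iH a = τ
        · subst hτ
          simp
        · have : ∀ u : U, ¬ (((τ, some u) : Bool × Option U) = (T.iH a, some (un a))) := by
            intro u hu
            exact hτ (congrArg Prod.fst hu).symm
          simp [this, hτ]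
    have h3 : ∑ u : U, (∑ j, y1 T un ZB β τ u a j + y1T T un ZB β τ u a) = ∑ u : U, rho T un β τ u a :=
      Finset.sum_congr rfl fun u _ => key τ u
    rw [Finset.sum_add_distrib, h2] at h3
    have h4 := F_tot T τ a
    have h5 : β * (if T.iH a = τ then (T.z : ℝ) / β else 0) = if T.iH a = τ then (T.z : ℝ) else 0 := by
      split_ifs
      · field_simp
      · simp
    unfold W0
    have h6 : β * (∑ u : U, ∑ j, y1 T un ZB β τ u a j + ∑ u : U, y1T T un ZB β τ u a) =
        Fintype.card U * β - if T.iH a = τ then (T.z : ℝ) else 0 := by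
      rw [h3, mul_sub, h5]; ring
    linarith
  · show ∑ j, y1 T un ZB β τ u a j + (if (τ, some u) = (T.iH a, some (un a)) then (T.z : ℝ) / β else 0) +
      y1T T un ZB β τ u a = 1
    have := key τ u
    unfold rho at this
    linarith

theorem sum_MM_yw (hn : 1 ≤ n) (hδ1 : 0 < δ1) (hS1 : S ≤ 1 / 16) (a : A) (j : J) :
    ∑ b, MM T U β (Sum.inr b) * yw T un ZB β a b j = T.FH a j + T.FL a j := by
  have hW := W0_pos h hn hδ1 hS1
  rw [Fintype.sum_prod_type, Fintype.sum_bool]
  have key : ∀ τ : Bool, ∑ o : Option U, MM T U β (Sum.inr (τ, o)) * yw T un ZB β a (τ, o) j =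
      F T τ a j := by
    intro τ
    rw [Fintype.sum_option]
    show W0 T U β * ((F T τ a j - β * ∑ u, y1 T un ZB β τ u a j) / W0 T U β) +
      ∑ u : U, β * y1 T un ZB β τ u a j = F T τ a j
    rw [← Finset.mul_sum]
    field_simp
    ring
  rw [key, key]
  simp [F]

omit h in
theorem sum_MM_ty (τ : Bool) : ∑ b : Bool × Option U, (if b.1 = τ then MM T U β (Sum.inr b) else 0) =
    T.Ht := by
  rw [Fintype.sum_prod_type, Fintype.sum_bool]
  have key : ∀ τ : Bool, ∑ o : Option U, MM T U β (Sum.inr (τ, o)) = T.Ht := by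
    intro τ
    rw [Fintype.sum_option]
    show W0 T U β + ∑ u : U, β = T.Ht
    simp [W0]
  cases τ <;> simp [key]

theorem yw_le (hn : 1 ≤ n) (hδ1 : 0 < δ1) (hS1 : S ≤ 1 / 16) (a : A) (b : Bool × Option U)
    (j : J) : yw T un ZB β a b j ≤ F T b.1 a j / ((1 - S) * T.Ht) := by
  obtain ⟨τ, _ | u⟩ := b
  · have hH := Ht_pos h hn hδ1
    have hp : 0 < (1 - S) * T.Ht := mul_pos (by linarith) hH
    have h2 := W0_ge h
    have hF := F_nonneg T τ a j
    have h3 : 0 ≤ β * ∑ u : U, y1 T un ZB β τ u a j :=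
      mul_nonneg (β_pos h hn hδ1).le (Finset.sum_nonneg fun u _ => y1_nonneg h hn hδ1 hS1 τ u a j)
    show (F T τ a j - β * ∑ u, y1 T un ZB β τ u a j) / W0 T U β ≤ F T τ a j / ((1 - S) * T.Ht)
    refine (div_le_div_of_nonneg_right (by linarith : _ ≤ F T τ a j) (W0_pos h hn hδ1 hS1).le).trans ?_
    exact div_le_div_of_nonneg_left hF hp h2
  · exact y1_le h hn hδ1 hS1 τ u a j

theorem yT_le (hn : 1 ≤ n) (hδ1 : 0 < δ1) (hS1 : S ≤ 1 / 16) (a : A) (b : Bool × Option U) :
    yT T un ZB β a b ≤ T.FT / ((1 - S) * T.Ht) := by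
  have hH := Ht_pos h hn hδ1
  have hp : 0 < (1 - S) * T.Ht := mul_pos (by linarith) hH
  have hle : FT T b.1 / ((1 - S) * T.Ht) ≤ T.FT / ((1 - S) * T.Ht) :=
    div_le_div_of_nonneg_right (FT_le T b.1) hp.le
  obtain ⟨τ, _ | u⟩ := b
  · have h2 := W0_ge h
    have hF := FT_nonneg T τ
    have h3 : 0 ≤ β * ∑ u : U, y1T T un ZB β τ u a :=
      mul_nonneg (β_pos h hn hδ1).le (Finset.sum_nonneg fun u _ => y1T_nonneg h hn hδ1 hS1 τ u a)
    refine le_trans ?_ hle
    show (FT T τ - β * ∑ u, y1T T un ZB β τ u a) / W0 T U β ≤ FT T τ / ((1 - S) * T.Ht)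
    refine (div_le_div_of_nonneg_right (by linarith : _ ≤ FT T τ) (W0_pos h hn hδ1 hS1).le).trans ?_
    exact div_le_div_of_nonneg_left hF hp h2
  · exact (y1T_le h hn hδ1 hS1 τ u a).trans hle

theorem card_JS_pos (hn : 1 ≤ n) (hδ1 : 0 < δ1) (b b' : Bool × Option U) :
    0 < ((Set.toFinite (JS T un ZB JJ b b')).toFinset.card : ℝ) := by
  have h1 := h.joint b b'
  have h2 := Ht_pos h hn hδ1
  rcases Nat.eq_zero_or_pos (Set.toFinite (JS T un ZB JJ b b')).toFinset.card with h0 | h0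
  · exfalso
    rw [Finset.sum_const, show (Set.toFinite {j | JJ j ∧ av T.iH un ZB b j ∧ av T.iH un ZB b' j}).toFinset.card
      = 0 from h0] at h1
    simp at h1
    linarith
  · exact_mod_cast h0

theorem yb_nonneg (b b' : Bool × Option U) (j : J) : 0 ≤ yb T un ZB JJ b b' j := by
  unfold yb; split_ifs
  · positivity
  · exact le_rfl

omit h in
theorem yb_symm (b b' : Bool × Option U) (j : J) : yb T un ZB JJ b b' j = yb T un ZB JJ b' b j := by
  have e := JS_symm T un ZB JJ b' b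
  have ec : (Set.toFinite (JS T un ZB JJ b' b)).toFinset.card =
      (Set.toFinite (JS T un ZB JJ b b')).toFinset.card := by
    congr 1
    ext j; simp [e]
  unfold yb
  rw [ec]
  by_cases hb : b.1 = b'.1
  · rw [if_neg (fun hc => hc.1 hb), if_neg (fun hc => hc.1 hb.symm)]
  · by_cases hj : j ∈ JS T un ZB JJ b b'
    · rw [if_pos ⟨hb, hj⟩, if_pos ⟨fun hc => hb hc.symm, e ▸ hj⟩]
    · rw [if_neg (fun hc => hj hc.2), if_neg (fun hc => hj (e ▸ hc.2))]

theorem yb_sum (hn : 1 ≤ n) (hδ1 : 0 < δ1) (b b' : Bool × Option U) (hb : b.1 ≠ b'.1) :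
    ∑ j, yb T un ZB JJ b b' j = 1 := by
  classical
  have h1 := card_JS_pos h hn hδ1 b b'
  have e : ∀ j, yb T un ZB JJ b b' j = if j ∈ (Set.toFinite (JS T un ZB JJ b b')).toFinset then
      1 / ((Set.toFinite (JS T un ZB JJ b b')).toFinset.card : ℝ) else 0 := by
    intro j
    unfold yb
    simp [hb]
  rw [Finset.sum_congr rfl fun j _ => e j, ← Finset.sum_filter, Finset.sum_const]
  have : (univ.filter fun j => j ∈ (Set.toFinite (JS T un ZB JJ b b')).toFinset) =
      (Set.toFinite (JS T un ZB JJ b b')).toFinset := by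
    ext j; simp
  rw [this, nsmul_eq_mul]
  field_simp

theorem yb_le (hn : 1 ≤ n) (hδ1 : 0 < δ1) (b b' : Bool × Option U) (j : J) :
    yb T un ZB JJ b b' j ≤ S * (8 * T.l) / T.Ht := by
  have h1 := card_JS_pos h hn hδ1 b b'
  have h2 := Ht_pos h hn hδ1
  have h3 := h.joint b b'
  rw [Finset.sum_const, nsmul_eq_mul] at h3
  have h3' : T.Ht ≤ S * (((Set.toFinite (JS T un ZB JJ b b')).toFinset.card : ℝ) * (8 * T.l)) := h3
  have hl : 0 < 8 * (T.l : ℝ) := by
    have h1 := h.l_ge
    have : 0 < δ1 * n := by positivity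
    linarith
  have key : 1 / ((Set.toFinite (JS T un ZB JJ b b')).toFinset.card : ℝ) ≤ S * (8 * T.l) / T.Ht := by
    rw [div_le_div_iff₀ h1 h2]
    linarith
  unfold yb; split_ifs
  · exact key
  · exact le_trans (by positivity) key

end

end UNITS

open UNITS in
/-- UNITS: introduction of the boundary units. -/
theorem units (A J U : Type) [Fintype A] [LinearOrder A] [Fintype J] [Fintype U] [DecidableEq U]
    (δ1 S : ℝ) (hδ1 : 0 < δ1) (hS : 0 < S) (hS1 : S ≤ 1 / 16) :
    ∃ δ : ℝ, 0 < δ ∧ ∀ (n : ℕ), 1 ≤ n → ∀ (T : BS n A J) (un : A → U) (ZB : A → J → Prop)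
      (OL : A → J → Prop) (JJ : J → Prop) (jst : A → J) (β : ℝ),
      BSQ T U un ZB OL JJ jst β δ1 S →
      ∃ Q : US n δ A (Bool × Option U) J,
        (∀ a, Q.M (Sum.inl a) = T.mM) ∧ (∀ b, Q.ty b = b.1) ∧ (∀ j, Q.l j = T.l) ∧ Q.z = T.z ∧
        Q.star = T.star ∧ Q.el = T.el ∧ Q.par = T.par ∧ (∀ a, Q.unit a = (T.iH a, some (un a))) ∧
        (∀ a b j, 0 < Q.yw a b j → av T.iH un ZB b j ∧ (b.1 = true → 0 < T.FH a j) ∧
          (b.1 = false → 0 < T.FL a j)) ∧
        (∀ b b' j, 0 < Q.yb b b' j → JJ j ∧ av T.iH un ZB b j ∧ av T.iH un ZB b' j) ∧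
        (∀ τ : Bool, ∑ b, (if b.1 = τ then Q.M (Sum.inr b) else 0) = T.Ht) := by
  classical
  refine ⟨min (δ1 / 2) (min (2 * S * δ1) (2 * δ1 ^ 2)), by positivity, ?_⟩
  set δ := min (δ1 / 2) (min (2 * S * δ1) (2 * δ1 ^ 2)) with hδ
  have hδa : δ ≤ δ1 / 2 := min_le_left _ _
  have hδb : δ ≤ 2 * S * δ1 := (min_le_right _ _).trans (min_le_left _ _)
  have hδc : δ ≤ 2 * δ1 ^ 2 := (min_le_right _ _).trans (min_le_right _ _)
  intro n hn T un ZB OL JJ jst β h
  have hn' : (1 : ℝ) ≤ n := by exact_mod_cast hn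
  have hn0 : (0 : ℝ) ≤ n := by linarith
  have hHt := Ht_pos h hn hδ1
  have hHn := Ht_le h hn hδ1
  have hβ := β_pos h hn hδ1
  have hW := W0_pos h hn hδ1 hS1
  have hmM := mM_nonneg h hn hδ1
  have hd1 : δ1 ≤ 1 / 2 := by
    have h1 := h.Ht_ge
    by_contra hc
    rw [not_le] at hc
    have : 1 / 2 * (n : ℝ) < δ1 * n := mul_lt_mul_of_pos_right hc (by linarith)
    linarith
  have hδ0 : 0 < δ := by positivity
  have hδn : δ * n ≤ δ1 * n / 2 := by nlinarith
  have hδn1 : 0 < δ1 * n := by positivity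
  refine ⟨{
    M := MM T U β
    ty := fun b => b.1
    l := fun _ => T.l
    z := T.z
    star := T.star
    el := T.el
    par := T.par
    w := T.w
    unit := fun a => (T.iH a, some (un a))
    yz := fun _ => (T.z : ℝ) / β
    yw := yw T un ZB β
    yT := yT T un ZB β
    yb := yb T un ZB JJ
    fill := fun a j => if OL a j then (false, none) else (true, none)
    jst := jst
    M_ge := ?_
    M_sum := ?_
    l_ge := ?_
    par_symm := T.par_symm
    w_nonneg := T.w_nonneg
    w_symm := T.w_symm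
    w_sum := T.w_sum
    yw_nonneg := fun a b j => yw_nonneg h hn hδ1 hS1 a b j
    yT_nonneg := fun a b => yT_nonneg h hn hδ1 hS1 a b
    yb_nonneg := fun b b' j => yb_nonneg h b b' j
    yb_symm := fun b b' j => yb_symm b b' j
    yw_el := ?_
    yT_ty := ?_
    y_sum := fun a b => y_sum h hn hδ1 hS1 a b
    yb_sum := fun b b' hb => yb_sum h hn hδ1 b b' hb
    tight := ?_
    tightz := ?_
    total := T.total
    load := ?_
    loadz := ?_
    z_ge := ?_
    loadT := ?_
    fill_ge := ?_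
    yz_ge := ?_
    jst_el := h.jst_el
    jst_ty := ?_
    dumpT := ?_
    dumpJ := ?_
    dumpzT := ?_
    dumpzJ := ?_ }, ?_, ?_, ?_, ?_, ?_, ?_, ?_, ?_, ?_, ?_, ?_⟩
  · -- M_ge
    rintro (a | ⟨τ, _ | u⟩)
    · have := h.mM_ge
      show δ * n ≤ T.mM
      linarith
    · have h1 := W0_ge h
      have h2 := h.Ht_ge
      show δ * n ≤ W0 T U β
      nlinarith
    · have h1 := h.β_ge
      have : (0 : ℝ) ≤ T.z := by positivity
      show δ * n ≤ β
      linarith
  · -- M_sum
    rw [Fintype.sum_sum_type]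
    have h1 : ∑ b : Bool × Option U, MM T U β (Sum.inr b) = 2 * T.Ht := by
      have e : ∀ b : Bool × Option U, MM T U β (Sum.inr b) =
          (if b.1 = true then MM T U β (Sum.inr b) else 0) +
          (if b.1 = false then MM T U β (Sum.inr b) else 0) := by
        intro b
        cases b.1 <;> simp
      rw [Finset.sum_congr rfl fun b _ => e b, Finset.sum_add_distrib, sum_MM_ty, sum_MM_ty]
      ring
    rw [h1]
    have : ∑ a : A, MM T U β (Sum.inl a) = Fintype.card A * T.mM := by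
      show ∑ a : A, T.mM = _
      simp
    rw [this]
    exact T.mass
  · -- l_ge
    intro j
    have := h.l_ge
    linarith
  · -- yw_el
    intro a b j hy
    by_contra hel
    have h1 := yw_le h hn hδ1 hS1 a b j
    rw [F_zero T b.1 a j hel] at h1
    simp at h1
    linarith
  · -- yT_ty
    intro a b hy
    obtain ⟨τ, o⟩ := b
    cases τ with
    | true => rfl
    | false =>
      exfalso
      have hF : FT T false = 0 := by simp [FT]
      have h0 : ∀ u, y1T T un ZB β false u a = 0 := by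
        intro u; unfold y1T; rw [hF]; simp
      cases o with
      | none =>
        have : yT T un ZB β a (false, none) = 0 := by
          show (FT T false - β * ∑ u, y1T T un ZB β false u a) / W0 T U β = 0
          simp [h0, hF]
        linarith
      | some u =>
        have : yT T un ZB β a (false, some u) = 0 := h0 u
        linarith
  · -- tight
    intro a j hel
    rw [sum_MM_yw h hn hδ1 hS1 a j]
    have h1 := T.tight a j hel
    rw [← h1]
    congr 1
    cases hp : T.par a j with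
    | none => simp
    | some a' => simp [MM]
  · -- tightz
    intro a
    show β * ((T.z : ℝ) / β) = T.z
    field_simp
  · -- load
    intro b j
    have hp : 0 < (1 - S) * T.Ht := mul_pos (by linarith) hHt
    have h1 : ∑ a, T.mM * yw T un ZB β a b j ≤ (1 - 4 * S) * (8 * T.l) / (1 - S) := by
      have e1 : ∑ a, T.mM * yw T un ZB β a b j ≤ ∑ a, T.mM * (F T b.1 a j / ((1 - S) * T.Ht)) :=
        Finset.sum_le_sum fun a _ => mul_le_mul_of_nonneg_left (yw_le h hn hδ1 hS1 a b j) hmM.le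
      have e2 : ∑ a, T.mM * (F T b.1 a j / ((1 - S) * T.Ht)) =
          (∑ a, T.mM * F T b.1 a j) / ((1 - S) * T.Ht) := by
        rw [Finset.sum_div]
        exact Finset.sum_congr rfl fun a _ => by ring
      have e3 : ∑ a, T.mM * F T b.1 a j ≤ (1 - 4 * S) * (8 * T.l) * T.Ht := by
        unfold F
        cases b.1 with
        | true => simpa using h.loadH j
        | false => simpa using h.loadL j
      have e4 : (1 - 4 * S) * (8 * T.l) * T.Ht / ((1 - S) * T.Ht) = (1 - 4 * S) * (8 * T.l) / (1 - S) := by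
        have : 1 - S ≠ 0 := by linarith
        field_simp
      rw [e2] at e1
      refine e1.trans ?_
      rw [← e4]
      exact div_le_div_of_nonneg_right e3 hp.le
    have h2 : ∑ b' : Bool × Option U, (if b'.1 ≠ b.1 then MM T U β (Sum.inr b') * yb T un ZB JJ b b' j else 0)
        ≤ S * (8 * T.l) := by
      have hM0 : ∀ b' : Bool × Option U, 0 ≤ MM T U β (Sum.inr b') := by
        rintro ⟨τ, _ | u⟩
        · exact hW.le
        · exact hβ.le
      have e1 : ∑ b' : Bool × Option U, (if b'.1 ≠ b.1 then MM T U β (Sum.inr b') * yb T un ZB JJ b b' j else 0)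
          ≤ ∑ b' : Bool × Option U, (if b'.1 = (!b.1) then MM T U β (Sum.inr b') else 0) *
            (S * (8 * T.l) / T.Ht) := by
        refine Finset.sum_le_sum fun b' _ => ?_
        by_cases hb : b'.1 = b.1
        · have : ¬ (b'.1 = !b.1) := by rw [hb]; cases b.1 <;> simp
          simp [hb]
        · have hb' : b'.1 = !b.1 := by
            revert hb; cases b'.1 <;> cases b.1 <;> simp
          rw [if_pos hb, if_pos hb']
          exact mul_le_mul_of_nonneg_left (yb_le h hn hδ1 b b' j) (hM0 b')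
      rw [← Finset.sum_mul, sum_MM_ty] at e1
      refine e1.trans (le_of_eq ?_)
      field_simp
    have hl := h.l_ge
    have h3 : (1 - 4 * S) * (8 * T.l) / (1 - S) + S * (8 * T.l) ≤ (1 - 2 * S) * (8 * T.l) := by
      have hS' : 0 < 1 - S := by linarith
      have : (1 - 4 * S) / (1 - S) ≤ 1 - 3 * S := by
        rw [div_le_iff₀ hS']; nlinarith
      have hl0 : 0 ≤ 8 * (T.l : ℝ) := by positivity
      have e : (1 - 4 * S) * (8 * T.l) / (1 - S) = (1 - 4 * S) / (1 - S) * (8 * T.l) := by ring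
      rw [e]
      nlinarith
    have h4 : δ * n ≤ 2 * S * (8 * T.l) := by
      have : δ * n ≤ 2 * S * δ1 * n := by nlinarith
      nlinarith
    show ∑ a, T.mM * yw T un ZB β a b j + _ ≤ 8 * (T.l : ℝ) - δ * n
    linarith
  · -- loadz
    intro a
    show T.mM * ((T.z : ℝ) / β) ≤ T.z - δ * n
    have h1 := h.mM_le
    have h2 := h.β_ge
    have h3 := h.z_ge
    have h4 := β_le' h hn hδ1 hS1 a
    have hz : (0 : ℝ) < T.z := by linarith
    rw [mul_div_assoc', div_le_iff₀ hβ]
    have h5 : δ * n * β ≤ 2 * δ1 ^ 2 * n * (n / 32) := by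
      have : δ * n ≤ 2 * δ1 ^ 2 * n := by nlinarith
      exact mul_le_mul this (by linarith) hβ.le (by positivity)
    have h6 : δ1 * n * (2 * (δ1 * n)) ≤ T.z * (β - T.mM) :=
      mul_le_mul h3 (by linarith) (by positivity) hz.le
    nlinarith
  · -- z_ge
    have := h.z_ge
    linarith
  · -- loadT
    intro b
    have hp : 0 < (1 - S) * T.Ht := mul_pos (by linarith) hHt
    have hst := h.star_ge
    have h1 : ∑ a : A, T.mM * yT T un ZB β a b ≤ (1 - 4 * S) * T.star / (1 - S) := by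
      have e1 : ∑ a : A, T.mM * yT T un ZB β a b ≤ ∑ _a : A, T.mM * (T.FT / ((1 - S) * T.Ht)) :=
        Finset.sum_le_sum fun a _ => mul_le_mul_of_nonneg_left (yT_le h hn hδ1 hS1 a b) hmM.le
      have e2 : ∑ _a : A, T.mM * (T.FT / ((1 - S) * T.Ht)) =
          (Fintype.card A : ℝ) * (T.mM * T.FT) / ((1 - S) * T.Ht) := by
        simp; ring
      have e4 : (1 - 4 * S) * T.star * T.Ht / ((1 - S) * T.Ht) = (1 - 4 * S) * T.star / (1 - S) := by
        have : 1 - S ≠ 0 := by linarith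
        field_simp
      rw [e2] at e1
      refine e1.trans ?_
      rw [← e4]
      exact div_le_div_of_nonneg_right h.loadT hp.le
    have h3 : (1 - 4 * S) * T.star / (1 - S) ≤ (1 - 3 * S) * T.star := by
      have hS' : 0 < 1 - S := by linarith
      have : (1 - 4 * S) / (1 - S) ≤ 1 - 3 * S := by
        rw [div_le_iff₀ hS']; nlinarith
      have hl0 : 0 ≤ (T.star : ℝ) := by positivity
      have e : (1 - 4 * S) * T.star / (1 - S) = (1 - 4 * S) / (1 - S) * T.star := by ring
      rw [e]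
      nlinarith
    have h4 : δ * n ≤ 3 * S * T.star := by
      have : δ * n ≤ 2 * S * δ1 * n := by nlinarith
      nlinarith
    show ∑ a : A, T.mM * yT T un ZB β a b ≤ T.star - δ * n
    linarith
  · -- fill_ge
    intro a j hel
    by_cases hOL : OL a j
    · simp only [hOL, if_true]
      have h1 := h.fillL a j hel hOL
      have := yw_main_ge h hn hδ1 hS1 a false j (by simpa [F] using h1)
      linarith
    · simp only [hOL, if_false]
      have h1 := h.fillH a j hel hOL
      have := yw_main_ge h hn hδ1 hS1 a true j (by simpa [F] using h1)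
      linarith
  · -- yz_ge
    intro a
    have h3 := h.z_ge
    have h4 := β_le' h hn hδ1 hS1 a
    rw [le_div_iff₀ hβ]
    nlinarith
  · -- jst_ty
    intro a
    have := h.jst_OL a
    simp [this]
  · -- dumpT
    intro a j hel hty
    by_cases hOL : OL a j
    · simp [hOL] at hty
    · simp only [hOL, if_false]
      have := yT_main_ge h hn hδ1 hS1 a
      linarith
  · -- dumpJ
    intro a j hel hty
    by_cases hOL : OL a j
    · simp only [hOL, if_true]
      have h1 := h.jst_FL a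
      have := yw_main_ge h hn hδ1 hS1 a false (jst a) (by simpa [F] using h1)
      linarith
    · simp [hOL] at hty
  · -- dumpzT
    intro a hty
    have hty' : T.iH a = true := hty
    have h1 := h.FT_ge
    have h2 := unit_ge h hn hδ1 hd1 hS1 a (T.iH a) (un a) T.FT h1
    show δ ≤ y1T T un ZB β (T.iH a) (un a) a
    unfold y1T
    have h3 : FT T (T.iH a) = T.FT := by simp [FT, hty']
    rw [h3]
    linarith
  · -- dumpzJ
    intro a hty
    have hty' : T.iH a = false := hty
    have h1 := h.jst_FL a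
    have h2 := unit_ge h hn hδ1 hd1 hS1 a (T.iH a) (un a) (T.FL a (jst a)) h1
    show δ ≤ y1 T un ZB β (T.iH a) (un a) a (jst a)
    unfold y1
    have h3 : F T (T.iH a) a (jst a) = T.FL a (jst a) := by simp [F, hty']
    have h4 : I T un ZB (T.iH a) (un a) (jst a) = 1 := by
      unfold I; rw [if_pos (h.jst_av a)]
    rw [h3, h4, one_mul]
    linarith
  · intro a; rfl
  · intro b; rfl
  · intro j; rfl
  · rfl
  · rfl
  · rfl
  · rfl
  · intro a; rfl
  · intro a b j hy
    have hy' : 0 < yw T un ZB β a b j := hy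
    have h1 := yw_le h hn hδ1 hS1 a b j
    have hp : 0 < (1 - S) * T.Ht := mul_pos (by linarith) hHt
    have hF : 0 < F T b.1 a j := by
      by_contra hc
      have h0 : F T b.1 a j = 0 := le_antisymm (not_lt.1 hc) (F_nonneg _ _ _ _)
      rw [h0] at h1
      simp at h1
      linarith
    refine ⟨?_, ?_, ?_⟩
    · obtain ⟨τ, _ | u⟩ := b
      · intro a' ha'
        simp at ha'
      · by_contra hav
        have h2 : I T un ZB τ u j = 0 := by unfold I; rw [if_neg hav]
        have h3 : y1 T un ZB β τ u a j = 0 := by unfold y1; rw [h2]; simp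
        have h4 : 0 < y1 T un ZB β τ u a j := hy'
        linarith
    · intro hb
      simpa [F, hb] using hF
    · intro hb
      simpa [F, hb] using hF
  · intro b b' j hy
    have hy' : 0 < yb T un ZB JJ b b' j := hy
    unfold yb at hy'
    split_ifs at hy' with hc
    · exact hc.2
    · exact absurd hy' (lt_irrefl _)
  · intro τ
    exact sum_MM_ty τ

end Pool.Agent.H70.HY
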