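import Mathlib
import Pool.Agent.H70.HY.Defs
import Pool.Agent.H70.HY.Base
import Pool.Agent.H28.Embed
import Pool.Agent.H70.HY.PAR
import Pool.Agent.H70.HY.RTU
import Pool.Agent.H70.HY.UNITS
import Pool.Agent.H70.HY.ASM
import Pool.Agent.H70.HY.MKBS
import Pool.Agent.H70.HY.MKGEO
import Pool.Agent.H70.HY.MKQ

/-! REG and FINAL. -/

set_option autoImplicit false

namespace Pool.Agent.H70.HY

open Finset

/-- REG: the theorem for regular graphs. -/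
theorem regular (ε : ℝ) (hε : 0 < ε) (hε' : ε ≤ 1 / 8) :
    ∃ N0 : ℕ, ∀ n : ℕ, N0 ≤ n → ∀ p : ℕ, ε * n ≤ p → (p : ℝ) ≤ (1 / 2 - ε) * n →
      ∀ (V : Type) [Fintype V] [DecidableEq V] (G : SimpleGraph V),
      (∀ v, (G.neighborSet v).ncard = n) → HYLab G n p := by
  classical
  obtain ⟨κ, g, e, he, hpar⟩ := HY.params ε hε hε'
  obtain ⟨R, Q, C, hR, hQ, hmk⟩ := HY.mkQ κ g e he
  obtain ⟨Kmax, Nmax, c, N1, hc, hp⟩ := hpar C
  obtain ⟨δ1, S, hδ1, hS, hS16, hmk⟩ := hmk c Kmax Nmax hc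
  obtain ⟨η, N2, hη, hgeo⟩ := HY.mkGeo κ g R Q e c he hc
  have hun : ∀ K N' : ℕ, _ := fun K N' => HY.units (Fin K) (Fin N') (Fin R × Fin Q) δ1 S hδ1 hS hS16
  choose δ hδ hunits using hun
  have hr : ∀ K N' : ℕ, _ := fun K N' =>
    HY.rtu (Fin K) (Bool × Option (Fin R × Fin Q)) (Fin N') (δ K N') η (hδ K N') hη
  choose N3 hrtu using hr
  refine ⟨N1 + N2 + 1 + ∑ K ∈ range (Kmax + 1), ∑ N' ∈ range (Nmax + 1), N3 K N', ?_⟩
  intro n hn p hp1 hp2 V _ _ G hG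
  obtain ⟨q, s, r0, nz, hqκ, hqg, hsm, hCK, hKK, hNN, hcs, hl⟩ := hp n (by omega) p hp1 hp2
  have hN3 : N3 q.K q.N ≤ n := by
    have h1 : N3 q.K q.N ≤ ∑ N' ∈ range (Nmax + 1), N3 q.K N' :=
      single_le_sum (f := fun N' => N3 q.K N') (fun _ _ => Nat.zero_le _) (mem_range.2 (by omega))
    have h2 : ∑ N' ∈ range (Nmax + 1), N3 q.K N' ≤
        ∑ K ∈ range (Kmax + 1), ∑ N' ∈ range (Nmax + 1), N3 K N' :=
      single_le_sum (f := fun K => ∑ N' ∈ range (Nmax + 1), N3 K N') (fun _ _ => Nat.zero_le _)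
        (mem_range.2 (by omega))
    omega
  obtain ⟨T, t1, t2, t3, t4, t5, t6, t7, t8, t9, t10, t11, t12⟩ := HY.mkBS q e hsm n p s r0 nz hl
  obtain ⟨un, jst, hQ1, hsep⟩ := hmk q n p s r0 nz (by omega) hqκ hqg hsm hCK hKK hNN hcs hl T
    t1 t2 t3 t4 t5 t6 t7 t10 t11 t12
  obtain ⟨Z, z1, z2, z3, z4, z5, z6, z7, z8, z9, z10, z11⟩ := hunits q.K q.N n (by omega) T un _ _ _ jst _ hQ1
  obtain ⟨geo⟩ := hgeo q n p s r0 nz (by omega) hqκ hqg hsm hcs hl T _ un Z t1 t2 t3 t4 t5 t7 t10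
    t11 t12 hsep z1 z2 z3 z4 z5 z6 z8 z9 z10 z11
  obtain ⟨cls, kd, col, hreal⟩ := hrtu q.K q.N n hN3 Z V G hG
  exact HY.asm Z geo G cls kd col hη.le hreal

theorem HYLab.comap {V W : Type} {G : SimpleGraph V} {H : SimpleGraph W} (φ : V → W)
    (hφ : Function.Injective φ) (h : ∀ u v, G.Adj u v → H.Adj (φ u) (φ v)) {n p : ℕ}
    (hH : HYLab H n p) : HYLab G n p := by
  obtain ⟨fV, fE, h1, h2, h3, h4, h5⟩ := hH
  refine ⟨fun v => fV (φ v), fun e => fE (e.map φ), fun v => h1 _, ?_, fun u v huv => h3 _ _ (h u v huv),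
    ?_, ?_⟩
  · intro e he
    induction e using Sym2.ind with
    | _ u v =>
      exact h2 _ (h u v he)
  · intro u v huv
    simpa using h4 _ _ (h u v huv)
  · intro u v w huv huw hvw
    simpa using h5 _ _ _ (h u v huv) (h u w huw) (hφ.ne hvw)

theorem final (ε : ℝ) (hε : 0 < ε) :
    ∃ Δ₀ : ℕ, ∀ (V : Type) [Fintype V] (G : SimpleGraph V) [DecidableRel G.Adj] (p : ℕ),
      Δ₀ ≤ G.maxDegree → ε * G.maxDegree ≤ p → (p : ℝ) ≤ (1 / 2 - ε) * G.maxDegree →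
      HYLab G G.maxDegree p := by
  classical
  obtain ⟨N0, h⟩ := regular (min ε (1 / 8)) (lt_min hε (by norm_num)) (min_le_right _ _)
  refine ⟨N0, ?_⟩
  intro V _ G _ p hΔ hp1 hp2
  have hdeg : ∀ v, (G.neighborSet v).ncard ≤ G.maxDegree := by
    intro v
    have h1 : (G.neighborSet v).ncard = G.degree v := by
      rw [Set.ncard_eq_toFinset_card', SimpleGraph.degree, SimpleGraph.neighborFinset]
    rw [h1]
    exact G.degree_le_maxDegree v
  obtain ⟨W, _, _, H, φ, hφ, hφ2, hreg⟩ := H28.regular_embed V G G.maxDegree hdeg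
  refine HYLab.comap φ hφ hφ2 (h _ hΔ p ?_ ?_ W H hreg)
  · refine le_trans (mul_le_mul_of_nonneg_right (min_le_left _ _) (Nat.cast_nonneg _)) hp1
  · refine hp2.trans (mul_le_mul_of_nonneg_right ?_ (Nat.cast_nonneg _))
    have := min_le_left ε (1 / 8)
    linarith

end Pool.Agent.H70.HY
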